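import Pool.Agent.MP_e5fd74_lc.H66.Defs

attribute [-instance] AddQuantale.instAddLeftMono List.instDecidableMemOfLawfulBEq
  NumberField.to_charZero Finset.decidableDforallFinset RKHS.instFunLike AddQuantale.instAddRightMono
  NonUnitalNonAssocSemiring.toAddCommMonoid Vector.instDecidableForallForallMemOfDecidablePred
  Multiset.decidableDforallMultiset RCLike.charZero_rclike IdemSemiring.toCanonicallyOrderedAdd
  Array.instDecidableForallForallMemOfDecidablePred Option.decidableForallMem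
  MonTypeEquivalenceMon.monMonoid NormedAlgebra.toAlgebra Int.decidableLELE Quantale.instMulRightMono
  Group.IsPerfect.subsingleton_of_isMulCommutative littleWedderburn Int.decidableLTLE
  NormedRing.toRing CompletePartialOrder.toPartialOrder NonUnitalNonAssocSemiring.toMulZeroClass
  NeZero.of_gt' TestFunctionClass.toDFunLike Int.decidableLTLT
  NonAssocSemiring.toAddCommMonoidWithOne AddCommGroupWithOne.toAddGroupWithOne
  NormedCommRing.toCommRing Int.decidableLELT AlgHom.instNonUnitalAlgHomClassOfAlgHomClass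
  SeminormedRing.toRing CommMonTypeEquivalenceCommMon.commMonCommMonoid
  LinearOrderedCommMonoidWithZero.toPosMulStrictMono EuclideanDomain.toCommRing
  SeminormedCommRing.toCommRing ContDiffMapSupportedInClass.toDFunLike
  Module.free_of_finite_type_torsion_free' Invertible.toNeZero NonUnitalRing.toNonUnitalNonAssocRing
  IdemSemiring.toSemiring instCoeTOfCoeDep NontriviallyNormedField.toNormedField

-- part MP_e5fd74_lc.H66.Chain
section

/-! Rigidity of extremal configurations of a chain whose hinge lines meet an axis. -/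

namespace Pool.Agent.MP_e5fd74_lc.H66

open EuclideanGeometry Set ComplexConjugate
open scoped RealInnerProductSpace

/-- Planar data of a chain: lengths, signed sines, slopes, fold cosines, heights, axis points. -/
structure Design where
  n : ℕ
  l : ℕ → ℝ
  S : ℕ → ℝ
  k : ℕ → ℝ
  g : ℕ → ℝ
  y : ℕ → ℝ
  a : ℕ → ℝ

structure Design.Good (D : Design) (θ : ℕ → ℝ) : Prop where
  hn : 2 ≤ D.n
  hl : ∀ i, i < D.n → 0 < D.l i
  hS : ∀ i, i < D.n → (1 + D.k i ^ 2) * D.S i ^ 2 = 1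
  hy : ∀ i, i < D.n → D.y (i + 1) = D.y i + D.l i * D.S i
  hy0 : D.y 0 = 0
  hyn : D.y D.n = 0
  ha : ∀ i, i + 1 < D.n → D.a (i + 1) = D.a i + (D.k i - D.k (i + 1)) * D.y (i + 1)
  hg : ∀ i, i + 1 < D.n → D.y (i + 1) = 0 ∨ (D.g i = 1 ∧ D.k i ≠ D.k (i + 1))
  hθ : ∀ i, i + 1 < D.n → 0 < θ i ∧ θ i ≤ Real.pi ∧
    Real.cos (θ i) = -(D.k i * D.k (i + 1) + D.g i) * D.S i * D.S (i + 1)
  hne : ∀ i j, i + 1 < j → j < D.n → D.a i ≠ D.a j

/-- Links `i` and `j`, drawn in one plane with relative orientation `σ`, meet. -/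
def Design.Meet (D : Design) (i j : ℕ) (σ : ℝ) : Prop :=
  ∃ s, s ∈ uIcc (D.y i) (D.y (i + 1)) ∧ σ * s ∈ uIcc (D.y j) (D.y (j + 1)) ∧
    D.a j - D.a i = (D.k i - σ * D.k j) * s

/-- A choice of half-planes through the axis without crossings. -/
def Design.Wit (D : Design) (z : ℕ → ℂ) : Prop :=
  (∀ i, i < D.n → ‖z i‖ = 1) ∧ (∀ i, i + 1 < D.n → (z i * conj (z (i + 1))).re = D.g i) ∧
  ∀ i j, i + 1 < j → j < D.n → (z j = z i → ¬ D.Meet i j 1) ∧ (z j = -z i → ¬ D.Meet i j (-1))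

theorem align (m : ℕ) (q : ℕ → E3) (b : ℕ → ℝ) (h : ∀ i, i < m → ‖q (i + 1) - q i‖ ≤ b (i + 1) - b i)
    (hb : b 0 < b m) (hq : b m - b 0 ≤ ‖q m - q 0‖) :
    ∃ e : E3, ‖e‖ = 1 ∧ ∀ i, i < m → q (i + 1) - q i = (b (i + 1) - b i) • e := by
  have hpos : 0 < ‖q m - q 0‖ := by linarith
  set e : E3 := ‖q m - q 0‖⁻¹ • (q m - q 0) with he
  have he1 : ‖e‖ = 1 := by
    rw [he, norm_smul, norm_inv, norm_norm, inv_mul_cancel₀ hpos.ne']
  have h1 : ∀ i, i < m → ⟪q (i + 1) - q i, e⟫ ≤ b (i + 1) - b i := fun i hi => by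
    have := real_inner_le_norm (q (i + 1) - q i) e
    rw [he1, mul_one] at this
    exact this.trans (h i hi)
  have h2 : ∑ i ∈ Finset.range m, ⟪q (i + 1) - q i, e⟫ = ‖q m - q 0‖ := by
    rw [← sum_inner, Finset.sum_range_sub, he, real_inner_smul_right, real_inner_self_eq_norm_sq]
    field_simp
  have h3 : ∑ i ∈ Finset.range m, (b (i + 1) - b i) = b m - b 0 := Finset.sum_range_sub b m
  have h4 : ∀ i ∈ Finset.range m, ⟪q (i + 1) - q i, e⟫ = b (i + 1) - b i := by
    rw [← Finset.sum_eq_sum_iff_of_le (fun i hi => h1 i (Finset.mem_range.1 hi))]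
    apply le_antisymm (Finset.sum_le_sum (fun i hi => h1 i (Finset.mem_range.1 hi)))
    rw [h2, h3]; exact hq
  refine ⟨e, he1, fun i hi => ?_⟩
  have h5 := h4 i (Finset.mem_range.2 hi)
  have h6 := h i hi
  have h7 := norm_nonneg (q (i + 1) - q i)
  rw [← sub_eq_zero, ← norm_eq_zero]
  have h8 : ‖q (i + 1) - q i - (b (i + 1) - b i) • e‖ ^ 2 ≤ 0 := by
    rw [norm_sub_sq_real, real_inner_smul_right, h5, norm_smul, he1, mul_one, Real.norm_eq_abs,
      sq_abs]
    nlinarith only [h6, h7]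
  exact pow_eq_zero_iff (two_ne_zero) |>.1 (le_antisymm h8 (sq_nonneg _))

/-- The alignment property needed for rigidity. -/
def Design.Al (D : Design) (d : ℝ) : Prop :=
  ∀ p : ℕ → E3, (∀ i, i + 1 < D.n → ‖p (i + 1) - p i‖ = |D.a (i + 1) - D.a i|) →
    ‖p (D.n - 1) - p 0‖ = d →
    ∃ e : E3, ‖e‖ = 1 ∧ ∀ i, i + 1 < D.n → p (i + 1) - p i = (D.a (i + 1) - D.a i) • e

theorem Design.al_max (D : Design) (d : ℝ) (hm : ∀ i, i + 1 < D.n → D.a i ≤ D.a (i + 1))
    (h0 : D.a 0 < D.a (D.n - 1)) (hd : D.a (D.n - 1) - D.a 0 ≤ d) : D.Al d := by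
  intro p hp hpd
  obtain ⟨e, he, h⟩ := align (D.n - 1) p D.a (fun i hi => by
    rw [hp i (by omega), abs_of_nonneg (sub_nonneg.2 (hm i (by omega)))]) h0 (hpd ▸ hd)
  exact ⟨e, he, fun i hi => h i (by omega)⟩

theorem Design.al_min (D : Design) (d : ℝ) (hn : 2 ≤ D.n)
    (hm : ∀ i, i + 2 < D.n → D.a i ≤ D.a (i + 1))
    (h0 : D.a (D.n - 1) < D.a 0) (hd : d ≤ D.a 0 - D.a (D.n - 1)) : D.Al d := by
  intro p hp hpd
  obtain ⟨m, hm2⟩ : ∃ m, D.n = m + 2 := ⟨D.n - 2, by omega⟩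
  have e1 : D.n - 1 = m + 1 := by omega
  rw [e1] at h0 hd hpd
  have hmono : ∀ i, i ≤ m → D.a 0 ≤ D.a i := fun i hi => by
    induction i with
    | zero => exact le_rfl
    | succ i ih => exact (ih (by omega)).trans (hm i (by omega))
  have hlast := hp m (by omega)
  have ham := hmono m le_rfl
  rw [abs_of_nonpos (by linarith only [h0, ham]), norm_sub_rev] at hlast
  obtain ⟨e, he, h⟩ := align (m + 1) (fun i => if i = 0 then p (m + 1) else p (i - 1))
    (fun i => if i = 0 then D.a (m + 1) else D.a (i - 1)) (fun i hi => by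
      rcases i with _ | i
      · simp only [Nat.zero_add, one_ne_zero, if_false, if_true, Nat.sub_self]
        rw [norm_sub_rev, hpd]; exact hd
      · simp only [Nat.succ_ne_zero, if_false, Nat.add_sub_cancel]
        rw [hp i (by omega), abs_of_nonneg (sub_nonneg.2 (hm i (by omega)))])
    (by simp only [Nat.succ_ne_zero, if_false, if_true, Nat.add_sub_cancel]; linarith only [h0, ham])
    (by simp only [Nat.succ_ne_zero, if_false, if_true, Nat.add_sub_cancel]; rw [hlast]; linarith only [])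
  have h' : ∀ i, i < m → p (i + 1) - p i = (D.a (i + 1) - D.a i) • e := fun i hi => by
    simpa only [Nat.add_eq_zero_iff, one_ne_zero, and_false, and_self, ↓ reduceIte, add_tsub_cancel_right] using h (i + 1) (by omega)
  have hz : p 0 - p (m + 1) = (D.a 0 - D.a (m + 1)) • e := by simpa using h 0 (by omega)
  have hs : ∀ i, i ≤ m → p i - p 0 = (D.a i - D.a 0) • e := fun i hi => by
    induction i with
    | zero => simp
    | succ i ih =>
      have := h' i (by omega)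
      rw [show p (i + 1) - p 0 = (p (i + 1) - p i) + (p i - p 0) by abel, this, ih (by omega),
        ← add_smul]
      congr 1; ring
  refine ⟨e, he, fun i hi => ?_⟩
  rcases Nat.lt_or_ge i m with h1 | h1
  · exact h' i h1
  · obtain rfl : i = m := by omega
    rw [show p (i + 1) - p i = -(p 0 - p (i + 1)) - (p i - p 0) by abel, hz, hs i le_rfl,
      ← neg_smul, ← sub_smul]
    congr 1; ring

theorem mem_seg {P W : E3} {y y' s : ℝ} (hs : s ∈ uIcc y y') :
    P + s • W ∈ segment ℝ (P + y • W) (P + y' • W) := by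
  rw [← segment_eq_uIcc] at hs
  obtain ⟨a, b, ha, hb, hab, rfl⟩ := hs
  refine ⟨a, b, ha, hb, hab, ?_⟩
  rw [smul_add, smul_add, smul_smul, smul_smul, add_add_add_comm, ← add_smul, hab, one_smul,
    ← add_smul, smul_eq_mul, smul_eq_mul]

theorem of_mem_seg {P W q : E3} {y y' : ℝ} (hq : q ∈ segment ℝ (P + y • W) (P + y' • W)) :
    ∃ s ∈ uIcc y y', q = P + s • W := by
  obtain ⟨a, b, ha, hb, hab, rfl⟩ := hq
  refine ⟨a * y + b * y', ?_, ?_⟩
  · rw [← segment_eq_uIcc]; exact ⟨a, b, ha, hb, hab, rfl⟩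
  · rw [smul_add, smul_add, smul_smul, smul_smul, add_add_add_comm, ← add_smul, hab, one_smul,
      ← add_smul]

theorem Design.Good.S_ne {D : Design} {θ : ℕ → ℝ} (G : D.Good θ) {i : ℕ} (hi : i < D.n) :
    D.S i ≠ 0 := fun h => by
  have := G.hS i hi
  rw [h] at this; simp at this

theorem Design.sound (D : Design) {θ : ℕ → ℝ} (G : D.Good θ) {v : ℕ → E3}
    (hv : IsConfig D.n D.l θ v) (hal : D.Al (dist (v 0) (v D.n))) : ∃ z, D.Wit z := by
  obtain ⟨hd, hang, -, hdis⟩ := hv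
  have hn := G.hn
  have hne : ∀ i, i < D.n → D.l i * D.S i ≠ 0 := fun i hi =>
    mul_ne_zero (G.hl i hi).ne' (G.S_ne hi)
  obtain ⟨W, hW1⟩ : ∃ W : ℕ → E3, ∀ i, i < D.n → v (i + 1) - v i = (D.l i * D.S i) • W i :=
    ⟨fun i => (D.l i * D.S i)⁻¹ • (v (i + 1) - v i), fun i hi => by
      rw [smul_smul, mul_inv_cancel₀ (hne i hi), one_smul]⟩
  have hnorm : ∀ i, i < D.n → ‖v (i + 1) - v i‖ = D.l i := fun i hi => by
    rw [← hd i hi, dist_comm, dist_eq_norm]
  have hWn : ∀ i, i < D.n → ⟪W i, W i⟫ = 1 + D.k i ^ 2 := fun i hi => by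
    have h1 := hnorm i hi
    rw [hW1 i hi, norm_smul, Real.norm_eq_abs] at h1
    have h2 : (D.l i * D.S i) ^ 2 * ‖W i‖ ^ 2 = D.l i ^ 2 := by
      rw [← sq_abs (D.l i * D.S i), ← mul_pow, h1]
    rw [real_inner_self_eq_norm_sq]
    have h3 := G.hS i hi
    have h4 : (D.l i * D.S i) ^ 2 ≠ 0 := pow_ne_zero _ (hne i hi)
    apply mul_left_cancel₀ h4
    rw [h2]; linear_combination (-D.l i ^ 2) * h3
  have hWi : ∀ i, i + 1 < D.n → ⟪W i, W (i + 1)⟫ = D.k i * D.k (i + 1) + D.g i := fun i hi => by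
    have h1 := InnerProductGeometry.cos_angle_mul_norm_mul_norm (v i - v (i + 1))
      (v (i + 2) - v (i + 1))
    have h2 := hang i hi
    unfold EuclideanGeometry.angle at h2
    simp only [vsub_eq_sub] at h2
    rw [h2, (G.hθ i hi).2.2, norm_sub_rev, hnorm i (by omega), hnorm (i + 1) hi,
      ← neg_sub (v (i + 1)) (v i), hW1 i (by omega), hW1 (i + 1) hi, inner_neg_left,
      real_inner_smul_left, real_inner_smul_right] at h1
    apply mul_left_cancel₀ (mul_ne_zero (hne i (by omega)) (hne (i + 1) hi))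
    linear_combination h1
  obtain ⟨p, hv0⟩ : ∃ p : ℕ → E3, ∀ i, v i = p i + D.y i • W i :=
    ⟨fun i => v i - D.y i • W i, fun i => by simp⟩
  have hv1 : ∀ i, i < D.n → v (i + 1) = p i + D.y (i + 1) • W i := fun i hi => by
    rw [G.hy i hi, add_smul, ← hW1 i hi, ← add_assoc, ← hv0 i]; abel
  have hp1 : ∀ i, i + 1 < D.n → p (i + 1) - p i = D.y (i + 1) • (W i - W (i + 1)) := fun i hi => by
    have h1 := hv0 (i + 1)
    rw [hv1 i (by omega)] at h1
    rw [smul_sub, sub_eq_sub_iff_add_eq_add, ← h1, add_comm]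
  obtain ⟨e, he, hpe⟩ := hal p (fun i hi => by
      rw [hp1 i hi, G.ha i hi, add_sub_cancel_left]
      rcases G.hg i hi with h | ⟨h, -⟩
      · simp [h]
      · rw [norm_smul, abs_mul, mul_comm, Real.norm_eq_abs]
        congr 1
        rw [← sq_eq_sq₀ (norm_nonneg _) (abs_nonneg _), sq_abs, ← real_inner_self_eq_norm_sq,
          inner_sub_left, inner_sub_right, inner_sub_right, hWn i (by omega), hWn (i + 1) hi,
          real_inner_comm (W i), hWi i hi, h]
        ring) (by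
      have h1 := hv1 (D.n - 1) (by omega)
      rw [show D.n - 1 + 1 = D.n by omega, G.hyn, zero_smul, add_zero] at h1
      have h2 := hv0 0
      rw [G.hy0, zero_smul, add_zero] at h2
      rw [← h1, ← h2, dist_comm, dist_eq_norm])
  have hee : ⟪e, e⟫ = 1 := by rw [real_inner_self_eq_norm_sq, he]; norm_num
  have hWW : ∀ i, i + 1 < D.n → D.y (i + 1) ≠ 0 →
      W i - W (i + 1) = (D.k i - D.k (i + 1)) • e := fun i hi hy => by
    have h1 := hpe i hi
    rw [hp1 i hi, G.ha i hi, add_sub_cancel_left, mul_comm, ← smul_smul] at h1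
    exact smul_right_injective _ hy h1
  have hWe : ∀ i, i < D.n → ⟪W i, e⟫ = D.k i := fun i hi => by
    by_cases hy : D.y (i + 1) = 0
    · have hy' : D.y i ≠ 0 := fun h => hne i hi (by have := G.hy i hi; linarith only [hy, h, this])
      obtain ⟨j, rfl⟩ : ∃ j, i = j + 1 := by
        rcases i with _ | j
        · exact absurd G.hy0 hy'
        · exact ⟨j, rfl⟩
      obtain ⟨h1, h2⟩ := (G.hg j hi).resolve_left hy'
      have h3 := congrArg (fun x => ⟪W (j + 1), x⟫) (hWW j hi hy')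
      simp only [inner_sub_right, real_inner_smul_right] at h3
      rw [hWn _ hi, real_inner_comm, hWi j hi, h1] at h3
      apply mul_left_cancel₀ (sub_ne_zero.2 h2)
      linear_combination -h3
    · have hi' : i + 1 < D.n := by
        rcases Nat.lt_or_ge (i + 1) D.n with h | h
        · exact h
        · exact absurd ((show i + 1 = D.n by omega) ▸ G.hyn) hy
      obtain ⟨h1, h2⟩ := (G.hg i hi').resolve_left hy
      have h3 := congrArg (fun x => ⟪W i, x⟫) (hWW i hi' hy)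
      simp only [inner_sub_right, real_inner_smul_right] at h3
      rw [hWn _ hi, hWi i hi', h1] at h3
      apply mul_left_cancel₀ (sub_ne_zero.2 h2)
      linear_combination -h3
  obtain ⟨u, hu⟩ : ∃ u : ℕ → E3, ∀ i, u i = W i - D.k i • e := ⟨_, fun _ => rfl⟩
  have hue : ∀ i, i < D.n → ⟪e, u i⟫ = 0 := fun i hi => by
    rw [hu, inner_sub_right, real_inner_smul_right, real_inner_comm, hWe i hi, hee]; ring
  have huu : ∀ i j, i < D.n → j < D.n → ⟪u i, u j⟫ = ⟪W i, W j⟫ - D.k i * D.k j :=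
    fun i j hi hj => by
    rw [hu, hu, inner_sub_left, inner_sub_right, inner_sub_right, real_inner_smul_right,
      real_inner_smul_left, real_inner_smul_left, real_inner_smul_right, hWe i hi,
      real_inner_comm (W j) e, hWe j hj, hee]
    ring
  have hpa : ∀ i, i < D.n → p i = p 0 + (D.a i - D.a 0) • e := fun i hi => by
    induction i with
    | zero => simp
    | succ i ih =>
      rw [← sub_add_cancel (p (i + 1)) (p i), hpe i hi, ih (by omega), add_comm, add_assoc,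
        ← add_smul]
      congr 2; ring
  obtain ⟨b, hb⟩ := Orthonormal.exists_orthonormalBasis_extension_of_card_eq (𝕜 := ℝ) (E := E3)
    (ι := Fin 3) (by simp) (v := fun _ => e) (s := {0}) (by
      constructor
      · intro i; exact he
      · intro i j hij; exact absurd (Subsingleton.elim i j) hij)
  have hb0 : b 0 = e := hb 0 rfl
  set z : ℕ → ℂ := fun i => ⟨⟪b 1, u i⟫, ⟪b 2, u i⟫⟩ with hz
  have hzu : ∀ i j, i < D.n → (z i * conj (z j)).re = ⟪u i, u j⟫ := fun i j hi => by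
    rw [← b.sum_inner_mul_inner (u i) (u j), Fin.sum_univ_three, hb0, real_inner_comm e (u i),
      hue i hi]
    simp only [hz, Complex.mul_re, Complex.conj_re, Complex.conj_im]
    rw [real_inner_comm (b 1) (u i), real_inner_comm (b 2) (u i)]
    ring
  have hu1 : ∀ i, i < D.n → ⟪u i, u i⟫ = 1 := fun i hi => by
    rw [huu i i hi hi, hWn i hi]; ring
  have key : ∀ i j (σ : ℝ), i + 1 < j → j < D.n → σ * σ = 1 → z j = σ * z i → ¬ D.Meet i j σ := by
    rintro i j σ hij hj hσ hzz ⟨s, hs1, hs2, hs3⟩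
    have hi : i < D.n := by omega
    have h1 : ⟪u i, u j⟫ = σ := by
      rw [← hzu i j hi, hzz, map_mul, Complex.conj_ofReal, mul_left_comm, Complex.re_ofReal_mul,
        hzu i i hi, hu1 i hi, mul_one]
    have h2 : u j = σ • u i := by
      rw [← sub_eq_zero, ← inner_self_eq_zero (𝕜 := ℝ), inner_sub_left, inner_sub_right,
        inner_sub_right, real_inner_smul_right, real_inner_smul_left, real_inner_smul_left,
        real_inner_smul_right, hu1 i hi, hu1 j hj, real_inner_comm (u i), h1]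
      linear_combination -hσ
    have h3 := mem_seg (P := p i) (W := W i) hs1
    have h4 := mem_seg (P := p j) (W := W j) hs2
    rw [← hv0, ← hv1 _ hi] at h3
    rw [← hv0, ← hv1 _ hj] at h4
    refine Set.disjoint_left.1 (hdis i j hij hj) h3 ?_
    convert h4 using 1
    have h5 : ∀ i, W i = u i + D.k i • e := fun i => by simp [hu]
    rw [hpa i hi, hpa j hj, h5 i, h5 j, h2]
    have h6 : D.a j = D.a i + (D.k i - σ * D.k j) * s := by linarith only [hs3]
    rw [h6, smul_add, smul_add, smul_smul, smul_smul, smul_smul,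
      show σ * s * σ = s by linear_combination s * hσ]
    module
  refine ⟨z, fun i hi => ?_, fun i hi => ?_, fun i j hij hj => ⟨fun h => ?_, fun h => ?_⟩⟩
  · have := hzu i i hi
    rw [hu1 i hi, Complex.mul_conj, Complex.ofReal_re, Complex.normSq_eq_norm_sq] at this
    exact (pow_eq_one_iff_of_nonneg (norm_nonneg _) two_ne_zero).1 this
  · rw [hzu i (i + 1) (by omega), huu i (i + 1) (by omega) hi, hWi i hi]; ring
  · exact key i j 1 hij hj (by norm_num) (by simpa using h)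
  · exact key i j (-1) hij hj (by norm_num) (by simpa using h)

theorem eq_of_re_one {z w : ℂ} (hz : ‖z‖ = 1) (hw : ‖w‖ = 1) (h : (z * conj w).re = 1) :
    w = z := by
  have h1 : z.re ^ 2 + z.im ^ 2 = 1 := by
    have := Complex.sq_norm z; rw [hz, Complex.normSq_apply] at this; linarith
  have h2 : w.re ^ 2 + w.im ^ 2 = 1 := by
    have := Complex.sq_norm w; rw [hw, Complex.normSq_apply] at this; linarith
  simp only [Complex.mul_re, Complex.conj_re, Complex.conj_im] at h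
  have h3 : (w.re - z.re) ^ 2 + (w.im - z.im) ^ 2 = 0 := by linarith
  apply Complex.ext
  · nlinarith only [sq_nonneg (w.im - z.im), h1, h2, h]
  · nlinarith only [sq_nonneg (w.re - z.re), h1, h2, h]

theorem seg_inter {A B C : E3} (h : ∠ A B C ≠ 0) : segment ℝ A B ∩ segment ℝ B C = {B} := by
  apply Set.Subset.antisymm
  · rintro q ⟨⟨a, b, ha, hb, hab, h1⟩, ⟨c, d, hc, hd, hcd, h2⟩⟩
    have h3 : q - B = a • (A - B) := by
      rw [← h1, show b = 1 - a by linarith only [hab]]; module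
    have h4 : q - B = d • (C - B) := by
      rw [← h2, show c = 1 - d by linarith]; module
    by_contra hq
    have hq' : q - B ≠ 0 := sub_ne_zero.2 hq
    have ha' : 0 < a := lt_of_le_of_ne ha (fun h => hq' (by rw [h3, ← h, zero_smul]))
    have hd' : 0 < d := lt_of_le_of_ne hd (fun h => hq' (by rw [h4, ← h, zero_smul]))
    apply h
    unfold EuclideanGeometry.angle
    simp only [vsub_eq_sub]
    rw [← InnerProductGeometry.angle_smul_left_of_pos _ _ ha',
      ← InnerProductGeometry.angle_smul_right_of_pos _ _ hd', ← h3, ← h4,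
      InnerProductGeometry.angle_self hq']
  · rintro q rfl
    exact ⟨right_mem_segment _ _ _, left_mem_segment _ _ _⟩

theorem Design.complete (D : Design) {θ : ℕ → ℝ} (G : D.Good θ) {z : ℕ → ℂ} (hz : D.Wit z) :
    ∃ v, IsConfig D.n D.l θ v ∧ dist (v 0) (v D.n) = |D.a (D.n - 1) - D.a 0| := by
  obtain ⟨hz1, hz2, hz3⟩ := hz
  have hn := G.hn
  let W : ℕ → E3 := fun i => !₂[D.k i, (z i).re, (z i).im]
  let P : ℕ → E3 := fun i => !₂[D.a i, 0, 0]
  let v : ℕ → E3 := fun i => if i < D.n then P i + D.y i • W i else P (D.n - 1)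
  have hv0 : ∀ i, i < D.n → v i = P i + D.y i • W i := fun i hi => if_pos hi
  have hv1 : ∀ i, i < D.n → v (i + 1) = P i + D.y (i + 1) • W i := fun i hi => by
    by_cases h : i + 1 < D.n
    · rw [hv0 _ h]
      rcases G.hg i h with h1 | ⟨h1, -⟩
      · have := G.ha i h
        rw [h1, mul_zero, add_zero] at this
        simp only [h1, zero_smul, P, this]
      · have h2 := eq_of_re_one (hz1 i hi) (hz1 _ h) ((hz2 i h).trans h1)
        ext t
        fin_cases t <;> simp only [P, G.ha i h, W, h2, Fin.zero_eta, Fin.isValue, PiLp.add_apply, Matrix.cons_val_zero, PiLp.smul_apply, smul_eq_mul, Fin.mk_one, Matrix.cons_val_one, zero_add, Fin.reduceFinMk, Matrix.cons_val]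
        ring
    · have e : i + 1 = D.n := by omega
      simp only [v, if_neg h]
      rw [e, G.hyn, zero_smul, add_zero, ← e, Nat.add_sub_cancel]
  have hin : ∀ i j, ⟪W i, W j⟫ = D.k i * D.k j + (z i * conj (z j)).re := fun i j => by
    simp only [W, PiLp.inner_apply, RCLike.inner_apply, Real.ringHom_apply, Fin.sum_univ_three, Fin.isValue, Matrix.cons_val_zero, Matrix.cons_val_one, Matrix.cons_val, Complex.mul_re, Complex.conj_re, Complex.conj_im, mul_neg, sub_neg_eq_add]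
    ring
  have hsub : ∀ i, i < D.n → v (i + 1) - v i = (D.l i * D.S i) • W i := fun i hi => by
    rw [hv1 i hi, hv0 i hi, G.hy i hi]; module
  have hnorm : ∀ i, i < D.n → ‖v (i + 1) - v i‖ = D.l i := fun i hi => by
    rw [← sq_eq_sq₀ (norm_nonneg _) (G.hl i hi).le, hsub i hi, ← real_inner_self_eq_norm_sq,
      real_inner_smul_left, real_inner_smul_right, hin, Complex.mul_conj, Complex.ofReal_re,
      Complex.normSq_eq_norm_sq, hz1 i hi]
    linear_combination (D.l i ^ 2) * G.hS i hi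
  have hang : ∀ i, i + 1 < D.n → ∠ (v i) (v (i + 1)) (v (i + 2)) = θ i := fun i hi => by
    obtain ⟨h1, h2, h3⟩ := G.hθ i hi
    unfold EuclideanGeometry.angle InnerProductGeometry.angle
    simp only [vsub_eq_sub]
    rw [norm_sub_rev, hnorm i (by omega), hnorm (i + 1) hi, ← neg_sub (v (i + 1)) (v i),
      hsub i (by omega), hsub (i + 1) hi, inner_neg_left, real_inner_smul_left,
      real_inner_smul_right, hin, hz2 i hi, ← Real.arccos_cos h1.le h2, h3]
    congr 1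
    have := (G.hl i (by omega)).ne'
    have := (G.hl (i + 1) hi).ne'
    field_simp
  refine ⟨v, ⟨fun i hi => ?_, hang, fun i hi => ?_, fun i j hij hj => ?_⟩, ?_⟩
  · rw [dist_comm, dist_eq_norm, hnorm i hi]
  · exact seg_inter (by rw [hang i hi]; exact (G.hθ i hi).1.ne')
  · have hi : i < D.n := by omega
    rw [Set.disjoint_left]
    intro q h1 h2
    rw [hv0 i hi, hv1 i hi] at h1
    rw [hv0 j hj, hv1 j hj] at h2
    obtain ⟨s, hs, e1⟩ := of_mem_seg h1
    obtain ⟨t, ht, e2⟩ := of_mem_seg h2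
    have e3 := e1.symm.trans e2
    have c0 : D.a i + s * D.k i = D.a j + t * D.k j := by
      simpa only [Fin.isValue, P, W, PiLp.add_apply, Matrix.cons_val_zero, PiLp.smul_apply, smul_eq_mul] using congrArg (fun x : E3 => x 0) e3
    have c1 : s * (z i).re = t * (z j).re := by simpa [P, W] using congrArg (fun x : E3 => x 1) e3
    have c2 : s * (z i).im = t * (z j).im := by simpa [P, W] using congrArg (fun x : E3 => x 2) e3
    have c3 : (s : ℂ) * z i = t * z j := Complex.ext (by simpa using c1) (by simpa using c2)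
    have c4 : |s| = |t| := by simpa [hz1 i hi, hz1 j hj] using congrArg norm c3
    by_cases hs0 : s = 0
    · have : t = 0 := by rw [hs0] at c4; simpa using c4.symm
      exact G.hne i j hij hj (by rw [hs0, this] at c0; simpa using c0)
    have hs1 : (s : ℂ) ≠ 0 := by exact_mod_cast hs0
    rcases abs_eq_abs.1 c4 with h | h
    · subst h
      exact (hz3 i j hij hj).1 (mul_left_cancel₀ hs1 c3).symm ⟨s, hs, by simpa only [one_mul] using ht, by linarith only [c0]⟩
    · obtain rfl : t = -s := by linarith only [h]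
      refine (hz3 i j hij hj).2 (mul_left_cancel₀ hs1 ?_) ⟨s, hs, by simpa only [neg_mul, one_mul] using ht, by linarith only [c0]⟩
      push_cast at c3
      linear_combination c3
  · have e1 : v D.n = P (D.n - 1) := if_neg (lt_irrefl _)
    rw [hv0 0 (by omega), G.hy0, zero_smul, add_zero, e1, dist_comm, EuclideanSpace.dist_eq]
    simp only [Real.dist_eq, sq_abs, Fin.sum_univ_three, Fin.isValue, Matrix.cons_val_zero, Matrix.cons_val_one, sub_self, ne_eq, OfNat.ofNat_ne_zero, not_false_eq_true, zero_pow, add_zero, Matrix.cons_val, Real.sqrt_sq_eq_abs, P]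

end Pool.Agent.MP_e5fd74_lc.H66

/-! One planar piece with four spikes: sign lemmas over the reals. -/

namespace Pool.Agent.MP_e5fd74_lc.H66

open Set

/-- Slopes and heights of a ten-link piece. -/
structure Pc where
  k1 : ℝ
  k2 : ℝ
  h : ℝ
  y2 : ℝ
  y3 : ℝ
  y4 : ℝ
  y5 : ℝ
  y6 : ℝ
  y7 : ℝ
  y8 : ℝ

namespace Pc

def kt (C : Pc) (r : ℕ) : ℝ := [0, C.k2, C.k1, -C.k2, -C.k1, C.k1, C.k2, -C.k1, -C.k2, 0].getD r 0

def yt (C : Pc) (r : ℕ) : ℝ := [0, -1, C.y2, C.y3, C.y4, C.y5, C.y6, C.y7, C.y8, -C.h].getD r 0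

def lo (C : Pc) (r : ℕ) : ℝ := [-1, C.y2, C.y2, C.y3, C.y5, C.y5, C.y7, C.y8, C.y8, -C.h].getD r 0

def hi (C : Pc) (r : ℕ) : ℝ := [0, -1, C.y3, C.y4, C.y4, C.y6, C.y6, C.y7, -C.h, 0].getD r 0

def ax (C : Pc) : ℕ → ℝ
  | 0 => 0
  | r + 1 => ax C r + (C.kt r - C.kt (r + 1)) * C.yt (r + 1)

structure Ok (C : Pc) : Prop where
  k2 : 0 < C.k2
  k12 : C.k2 < C.k1
  h : 0 < C.h
  y2 : C.y2 < -1
  y3 : 0 < C.y3
  y4 : C.y3 < C.y4
  y5 : C.y5 < 0
  y7 : 0 < C.y7
  y6 : C.y7 < C.y6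
  y8 : C.y8 < -C.h

variable {C : Pc}

theorem uIcc_eq (H : C.Ok) {r : ℕ} (hr : r < 10) :
    uIcc (C.yt r) (C.yt (r + 1)) = Icc (C.lo r) (C.hi r) := by
  obtain ⟨_, _, _, _, _, _, _, _, _, _⟩ := H
  interval_cases r <;> simp only [yt, lo, hi, List.getD_cons_zero, List.getD_cons_succ,
    List.getD_nil] <;>
    first | (apply uIcc_of_le; linarith) | (apply uIcc_of_ge; linarith)

theorem yt_ne (H : C.Ok) {r : ℕ} (h0 : 0 < r) (hr : r < 10) :
    C.yt r ≠ 0 ∧ C.kt (r - 1) ≠ C.kt r ∧ 0 < (C.kt (r - 1) - C.kt r) * C.yt r := by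
  obtain ⟨_, _, _, _, _, _, _, _, _, _⟩ := H
  have key : 0 < (C.kt (r - 1) - C.kt r) * C.yt r := by
    interval_cases r <;> simp only [yt, kt, List.getD_cons_zero, List.getD_cons_succ,
      Nat.reduceSub, Nat.sub_self] <;>
      first | (apply mul_pos <;> linarith) | (apply mul_pos_of_neg_of_neg <;> linarith)
  refine ⟨fun h => ?_, fun h => ?_, key⟩
  · rw [h, mul_zero] at key; exact lt_irrefl _ key
  · rw [h, sub_self, zero_mul] at key; exact lt_irrefl _ key

theorem ax_lt (H : C.Ok) {r : ℕ} (hr : r < 9) : C.ax r < C.ax (r + 1) := by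
  have := (yt_ne H (r := r + 1) (by omega) (by omega)).2.2
  simp only [Nat.add_sub_cancel] at this
  rw [ax]; linarith only [this]

theorem ax_le (H : C.Ok) {r r' : ℕ} (h : r ≤ r') (hr : r' < 10) : C.ax r ≤ C.ax r' := by
  induction r', h using Nat.le_induction with
  | base => exact le_rfl
  | succ m _ ih => exact (ih (by omega)).trans (ax_lt H (by omega)).le

theorem aux_ne {A c s lo hi : ℝ} (h1 : lo ≤ s) (h2 : s ≤ hi) (h3 : c * lo < A) (h4 : c * hi < A) :
    A ≠ c * s := by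
  rcases le_total 0 c with h | h
  · have := mul_le_mul_of_nonneg_left h2 h; linarith
  · have := mul_le_mul_of_nonpos_left h1 h; linarith

theorem simple (H : C.Ok) {r r' : ℕ} (h : r + 1 < r') (hr : r' < 10) {s : ℝ}
    (h1 : s ∈ Icc (C.lo r) (C.hi r)) (h2 : s ∈ Icc (C.lo r') (C.hi r')) :
    C.ax r' - C.ax r ≠ (C.kt r - C.kt r') * s := by
  obtain ⟨a1, a2, a3, a4, a5, a6, a7, a8, a9, a10⟩ := H
  have e : 0 < C.k1 - C.k2 := sub_pos.2 a2
  have p1 := mul_pos a1 a3
  have p2 := mul_pos a1 (sub_pos.2 a4)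
  have p3 := mul_pos a1 a5
  have p4 := mul_pos a1 (sub_pos.2 a6)
  have p5 := mul_pos a1 (sub_pos.2 a7)
  have p6 := mul_pos a1 a8
  have p7 := mul_pos a1 (sub_pos.2 a9)
  have p8 := mul_pos a1 (sub_pos.2 a10)
  have q1 := mul_pos e a3
  have q2 := mul_pos e (sub_pos.2 a4)
  have q3 := mul_pos e a5
  have q4 := mul_pos e (sub_pos.2 a6)
  have q5 := mul_pos e (sub_pos.2 a7)
  have q6 := mul_pos e a8
  have q7 := mul_pos e (sub_pos.2 a9)
  have q8 := mul_pos e (sub_pos.2 a10)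
  obtain ⟨b1, b2⟩ := h1
  obtain ⟨b3, b4⟩ := h2
  have c1 := mul_nonneg a1.le (sub_nonneg.2 b1)
  have c2 := mul_nonneg a1.le (sub_nonneg.2 b2)
  have c3 := mul_nonneg a1.le (sub_nonneg.2 b3)
  have c4 := mul_nonneg a1.le (sub_nonneg.2 b4)
  have d1 := mul_nonneg e.le (sub_nonneg.2 b1)
  have d2 := mul_nonneg e.le (sub_nonneg.2 b2)
  have d3 := mul_nonneg e.le (sub_nonneg.2 b3)
  have d4 := mul_nonneg e.le (sub_nonneg.2 b4)
  have hr0 : r < 8 := by omega
  intro hh
  interval_cases r <;> interval_cases r' <;>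
    simp only [ax, yt, kt, lo, hi, List.getD_cons_zero, List.getD_cons_succ] at * <;>
    linarith only [q2, c1, d1, hh, a5, b2, b3, a1, a2, p3, q3, q4, c2, d2, p5, q5, a8, p6, q6, q7, q1, q8, p1, d3, a3, b1, b4, c3, c4, d4]

theorem kt_abs (H : C.Ok) (r : ℕ) (s : ℝ) : |C.kt r * s| ≤ C.k1 * |s| := by
  obtain ⟨a1, a2, -⟩ := H
  rw [abs_mul]
  apply mul_le_mul_of_nonneg_right _ (abs_nonneg s)
  rcases Nat.lt_or_ge r 10 with h | h
  · interval_cases r <;> simp only [kt, List.getD_cons_zero, List.getD_cons_succ] <;>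
      rw [abs_le] <;> constructor <;> linarith only [a1, a2]
  · rw [kt, List.getD_eq_default _ _ (by simpa using h), abs_zero]; linarith only [a1, a2]

/-- Points leaning to the right are low, unless they lie on the right spikes. -/
theorem right (H : C.Ok) {r : ℕ} (hr : r < 10) {s U L : ℝ} (h1 : s ∈ Icc (C.lo r) (C.hi r))
    (u1 : C.y3 < U) (u2 : C.y6 < U) (l1 : -L < -1) (l2 : -L < C.y5) (l3 : -L < C.y8) :
    C.kt r * s ≤ -(C.k2 * |s|) ∨ (0 ≤ s ∧ s < U) ∨ (s ≤ 0 ∧ -s < L) := by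
  obtain ⟨a1, a2, a3, a4, a5, a6, a7, a8, a9, a10⟩ := H
  obtain ⟨b1, b2⟩ := h1
  rcases le_total 0 s with hs | hs
  · rw [abs_of_nonneg hs]
    have := mul_le_mul_of_nonneg_right a2.le hs
    interval_cases r <;> simp only [kt, lo, hi, List.getD_cons_zero, List.getD_cons_succ] at * <;>
      first | (left; linarith only [hs, b2, this, a3]) | (right; left; constructor <;> linarith only [hs, u2, a8, a9, b2, u1, b1])
  · rw [abs_of_nonpos hs]
    have := mul_le_mul_of_nonpos_right a2.le hs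
    interval_cases r <;> simp only [kt, lo, hi, List.getD_cons_zero, List.getD_cons_succ] at * <;>
      first | (left; linarith only [this, a5, hs, b1, a8]) | (right; right; constructor <;> linarith only [hs, l1, b1, l2, l3, a3, b2, a10])

/-- Points leaning to the left are low, unless they lie on the left spikes. -/
theorem left (H : C.Ok) {r : ℕ} (hr : r < 10) {s U L : ℝ} (h1 : s ∈ Icc (C.lo r) (C.hi r))
    (u1 : C.y4 < U) (u2 : C.y7 < U) (l1 : -L < C.y2) (l2 : -L < C.y5) (l3 : -L < -C.h) :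
    -(C.kt r * s) ≤ -(C.k2 * |s|) ∨ (0 ≤ s ∧ s < U) ∨ (s ≤ 0 ∧ -s < L) := by
  obtain ⟨a1, a2, a3, a4, a5, a6, a7, a8, a9, a10⟩ := H
  obtain ⟨b1, b2⟩ := h1
  rcases le_total 0 s with hs | hs
  · rw [abs_of_nonneg hs]
    have := mul_le_mul_of_nonneg_right a2.le hs
    interval_cases r <;> simp only [kt, lo, hi, List.getD_cons_zero, List.getD_cons_succ] at * <;>
      first | (left; linarith only [hs, b2, this, a3]) | (right; left; constructor <;> linarith only [hs, u1, a5, a6, b2, b1, u2])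
  · rw [abs_of_nonpos hs]
    have := mul_le_mul_of_nonpos_right a2.le hs
    interval_cases r <;> simp only [kt, lo, hi, List.getD_cons_zero, List.getD_cons_succ] at * <;>
      first | (left; linarith only [a5, hs, b1, this, a8]) | (right; right; constructor <;> linarith only [hs, l1, a4, b1, b2, l2, l3])

theorem abs_le' (H : C.Ok) {r : ℕ} (hr : r < 10) {s Y : ℝ} (h1 : s ∈ Icc (C.lo r) (C.hi r))
    (u1 : C.y4 ≤ Y) (u2 : C.y6 ≤ Y) (l1 : -Y ≤ C.y2) (l2 : -Y ≤ C.y5) (l3 : -Y ≤ C.y8) :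
    |s| ≤ Y := by
  obtain ⟨a1, a2, a3, a4, a5, a6, a7, a8, a9, a10⟩ := H
  obtain ⟨b1, b2⟩ := h1
  rw [abs_le]
  interval_cases r <;> simp only [lo, hi, List.getD_cons_zero, List.getD_cons_succ] at * <;>
    constructor <;> linarith only [l1, a4, b1, b2, u1, a6, a5, l2, u2, a8, l3, a9, a3, a10]

end Pc

end Pool.Agent.MP_e5fd74_lc.H66

/-! The chain built from spike pieces, and the reduction of simplicity to a finite condition. -/

namespace Pool.Agent.MP_e5fd74_lc.H66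

open Set ComplexConjugate

/-- Directions, number of pieces, the four reaches of each piece, fold cosines. -/
structure Par where
  c1 : ℝ
  s1 : ℝ
  c2 : ℝ
  s2 : ℝ
  K : ℕ
  UR : ℕ → ℕ
  UL : ℕ → ℕ
  LR : ℕ → ℕ
  LL : ℕ → ℕ
  gf : ℕ → ℝ

namespace Par

variable (P : Par)

def t2 (j : ℕ) : ℝ := 6 * P.LL j - 2
def t4 (j : ℕ) : ℝ := 6 * P.UL j - 2
def t7 (j : ℕ) : ℝ := 6 * P.UR j - 2
def t9 (j : ℕ) : ℝ := 6 * P.LR j - 2
def Tj (j : ℕ) : ℝ := P.t2 j + P.t4 j + P.t7 j + P.t9 j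
def T : ℝ := ∑ j ∈ Finset.range P.K, P.Tj j
noncomputable def k1 : ℝ := P.c1 / P.s1
noncomputable def k2 : ℝ := P.c2 / P.s2
def hp (j : ℕ) : ℝ := 1 + (P.t2 j - P.t4 j + P.t7 j - P.t9 j) * (P.s2 - P.s1)

noncomputable def pc (j : ℕ) : Pc where
  k1 := P.k1
  k2 := P.k2
  h := P.hp j
  y2 := -1 - P.t2 j * P.s2
  y3 := -1 + 2 * P.s1 - P.t2 j * (P.s2 - P.s1)
  y4 := -1 + 2 * P.s1 - P.t2 j * (P.s2 - P.s1) + P.t4 j * P.s2
  y5 := -1 - 2 * P.s1 + (P.t4 j - P.t2 j) * (P.s2 - P.s1)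
  y6 := -1 + 2 * P.s1 + (P.t4 j - P.t2 j) * (P.s2 - P.s1) + P.t7 j * P.s1
  y7 := -1 + 2 * P.s1 + (P.t4 j - P.t2 j - P.t7 j) * (P.s2 - P.s1)
  y8 := -P.hp j - P.t9 j * P.s2

def St (r : ℕ) : ℝ := [-1, -P.s2, P.s1, P.s2, -P.s1, P.s1, -P.s2, -P.s1, P.s2, 1].getD r 0
def lt (j r : ℕ) : ℝ := [1, P.t2 j, P.t2 j + 2, P.t4 j, P.t4 j + 4, P.t7 j + 4, P.t7 j,
  P.t9 j + 2, P.t9 j, P.hp j].getD r 0
def ct (j r : ℕ) : ℝ := [-P.s2, P.c1 * P.c2 + P.s1 * P.s2, P.c1 * P.c2 - P.s1 * P.s2,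
  P.c1 * P.c2 + P.s1 * P.s2, P.s1 ^ 2 - P.c1 ^ 2, P.c1 * P.c2 + P.s1 * P.s2,
  P.c1 * P.c2 - P.s1 * P.s2, P.c1 * P.c2 + P.s1 * P.s2, -P.s2, P.gf j].getD r 0
noncomputable def kc (r : ℕ) : ℝ := [0, P.k2, -P.k2, 0, -P.k1, P.k1].getD r 0
def Sc (r : ℕ) : ℝ := [-1, P.s2, -P.s2, 1, P.s1, -P.s1].getD r 0
noncomputable def lc (r : ℕ) : ℝ :=
  [1, P.T / 2, P.T / 2, 1, 12 * P.K + P.T, 12 * P.K + P.T].getD r 0
noncomputable def yc (r : ℕ) : ℝ :=
  [0, -1, -1 + P.T / 2 * P.s2, -1, 0, (12 * P.K + P.T) * P.s1].getD r 0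
def cc (r : ℕ) : ℝ := [P.s2, P.s2 ^ 2 - P.c2 ^ 2, P.s2, 0, P.s1 ^ 2 - P.c1 ^ 2].getD r 0

noncomputable def kk (i : ℕ) : ℝ := if i / 10 < P.K then (P.pc (i / 10)).kt (i % 10) else P.kc (i % 10)
noncomputable def yy (i : ℕ) : ℝ := if i / 10 < P.K then (P.pc (i / 10)).yt (i % 10) else P.yc (i % 10)
noncomputable def ll (i : ℕ) : ℝ := if i / 10 < P.K then P.lt (i / 10) (i % 10) else P.lc (i % 10)
def SS (i : ℕ) : ℝ := if i / 10 < P.K then P.St (i % 10) else P.Sc (i % 10)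
def cs (i : ℕ) : ℝ := if i / 10 < P.K then P.ct (i / 10) (i % 10) else P.cc (i % 10)
def gg (i : ℕ) : ℝ := if i % 10 = 9 then P.gf (i / 10) else if i = 10 * P.K + 3 then 0 else 1
noncomputable def aa : ℕ → ℝ
  | 0 => 0
  | i + 1 => aa i + (P.kk i - P.kk (i + 1)) * P.yy (i + 1)

noncomputable def D (n : ℕ) : Design := ⟨n, P.ll, P.SS, P.kk, P.gg, P.yy, P.aa⟩

structure Ok : Prop where
  e1 : P.c1 ^ 2 + P.s1 ^ 2 = 1
  e2 : P.c2 ^ 2 + P.s2 ^ 2 = 1
  c1l : 1 / 2 ≤ P.c1
  s1l : 4 / 5 ≤ P.s1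
  s1u : P.s1 ≤ 7 / 8
  c2 : 0 < P.c2
  c12 : P.c2 < P.c1
  s12 : P.s1 < P.s2
  dc : P.T * (P.c1 - P.c2) ≤ 1 / 10
  ds : P.T * (P.s2 - P.s1) ≤ 1 / 10
  K : 0 < P.K
  UR : ∀ j, 1 ≤ P.UR j
  UL : ∀ j, 1 ≤ P.UL j
  LR : ∀ j, 1 ≤ P.LR j
  LL : ∀ j, 1 ≤ P.LL j

variable {P}

theorem Ok.t (H : P.Ok) (j : ℕ) : 4 ≤ P.t2 j ∧ 4 ≤ P.t4 j ∧ 4 ≤ P.t7 j ∧ 4 ≤ P.t9 j := by
  have h1 : (1 : ℝ) ≤ P.UR j := by exact_mod_cast H.UR j
  have h2 : (1 : ℝ) ≤ P.UL j := by exact_mod_cast H.UL j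
  have h3 : (1 : ℝ) ≤ P.LR j := by exact_mod_cast H.LR j
  have h4 : (1 : ℝ) ≤ P.LL j := by exact_mod_cast H.LL j
  unfold t2 t4 t7 t9
  refine ⟨?_, ?_, ?_, ?_⟩ <;> linarith only [h4, h2, h1, h3]

theorem Ok.Tj_pos (H : P.Ok) (j : ℕ) : 16 ≤ P.Tj j := by
  have := H.t j; unfold Tj; linarith

theorem Ok.Tj_le (H : P.Ok) {j : ℕ} (hj : j < P.K) : P.Tj j ≤ P.T :=
  Finset.single_le_sum (f := P.Tj) (fun i _ => by linarith only [H.Tj_pos i]) (Finset.mem_range.2 hj)

theorem Ok.T_ge (H : P.Ok) : 16 ≤ P.T := (H.Tj_pos 0).trans (H.Tj_le H.K)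

theorem Ok.ks1 (H : P.Ok) : P.k1 * P.s1 = P.c1 := by
  have := H.s1l
  unfold k1; field_simp

theorem Ok.ks2 (H : P.Ok) : P.k2 * P.s2 = P.c2 := by
  have := H.s1l; have := H.s12
  have : P.s2 ≠ 0 := by linarith
  unfold k2; field_simp

theorem Ok.c1u (H : P.Ok) : P.c1 ≤ 3 / 5 := by
  have := H.e1; have := H.s1l; have := H.c1l
  nlinarith

theorem Ok.s2u (H : P.Ok) : P.s2 ≤ 1 := by
  have := H.e2; have := H.s1l; have := H.s12
  nlinarith [sq_nonneg P.c2]

theorem Ok.k2p (H : P.Ok) : 0 < P.k2 := div_pos H.c2 (by linarith [H.s1l, H.s12])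

theorem Ok.k12 (H : P.Ok) : P.k2 < P.k1 := by
  have := H.s1l; have := H.s12; have := H.c2; have := H.c12
  unfold k1 k2
  rw [div_lt_div_iff₀ (by linarith) (by linarith)]
  nlinarith

theorem Ok.k1u (H : P.Ok) : P.k1 ≤ 3 / 4 := by
  have := H.s1l; have := H.c1u
  unfold k1
  rw [div_le_iff₀ (by linarith)]
  linarith

theorem Ok.kT (H : P.Ok) : (P.k1 - P.k2) * P.T ≤ 1 := by
  have a1 := H.ks1; have a2 := H.ks2; have a3 := H.dc; have a4 := H.ds; have a5 := H.T_ge
  have a6 := H.k2p; have a7 := H.k12; have a8 := H.k1u; have a9 := H.s1l; have a10 := H.s12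
  have h1 : (P.k1 - P.k2) * P.T * P.s1 = P.T * (P.c1 - P.c2) + P.k2 * (P.T * (P.s2 - P.s1)) := by
    linear_combination P.T * a1 - P.T * a2
  have h2 : P.k2 * (P.T * (P.s2 - P.s1)) ≤ 3 / 4 * (1 / 10) :=
    mul_le_mul (by linarith only [a7, a8]) a4 (mul_nonneg (by linarith only [a5, a6, a7, a8]) (by linarith only [a10])) (by norm_num)
  have h3 : 0 ≤ (P.k1 - P.k2) * P.T := mul_nonneg (by linarith only [a7]) (by linarith only [a5, a6, a7, a8])
  nlinarith only [a3, a4, a6, a7, a8, a9, h1]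

/-- The small drift terms of a piece. -/
theorem Ok.drift (H : P.Ok) {j : ℕ} (hj : j < P.K) :
    0 < P.t2 j * (P.s2 - P.s1) ∧ 0 < P.t4 j * (P.s2 - P.s1) ∧ 0 < P.t7 j * (P.s2 - P.s1) ∧
    0 < P.t9 j * (P.s2 - P.s1) ∧ P.t2 j * (P.s2 - P.s1) + P.t4 j * (P.s2 - P.s1) +
      P.t7 j * (P.s2 - P.s1) + P.t9 j * (P.s2 - P.s1) ≤ 1 / 10 := by
  obtain ⟨a1, a2, a3, a4⟩ := H.t j
  have e := sub_pos.2 H.s12
  refine ⟨by positivity, by positivity, by positivity, by positivity, ?_⟩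
  have := mul_le_mul_of_nonneg_right (H.Tj_le hj) e.le
  have := H.ds
  unfold Tj at *
  linarith

theorem Ok.pc (H : P.Ok) {j : ℕ} (hj : j < P.K) : (P.pc j).Ok := by
  obtain ⟨a1, a2, a3, a4⟩ := H.t j
  obtain ⟨b1, b2, b3, b4, b5⟩ := H.drift hj
  have := H.s1l; have := H.s1u; have := H.s12
  have s2 : 0 < P.s2 := by linarith
  have c1 : 0 < P.t2 j * P.s2 := by positivity
  have c2 : 0 < P.t4 j * P.s2 := by positivity
  have c3 : 0 < P.t7 j * P.s1 := by positivity
  have c4 : 0 < P.t9 j * P.s2 := by positivity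
  refine ⟨H.k2p, H.k12, ?_, ?_, ?_, ?_, ?_, ?_, ?_, ?_⟩ <;> simp only [Par.pc, hp] <;> linarith

theorem aa_def (i : ℕ) : P.aa (i + 1) = P.aa i + (P.kk i - P.kk (i + 1)) * P.yy (i + 1) := rfl

theorem idx (j : ℕ) {r : ℕ} (hr : r < 10) : (10 * j + r) / 10 = j ∧ (10 * j + r) % 10 = r := by
  omega

theorem kk_lt {j r : ℕ} (hj : j < P.K) (hr : r < 10) : P.kk (10 * j + r) = (P.pc j).kt r := by
  simp only [kk, idx j hr, if_pos hj]

theorem kk_K {r : ℕ} (hr : r < 10) : P.kk (10 * P.K + r) = P.kc r := by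
  simp only [kk, idx P.K hr, lt_irrefl, if_false]

theorem yy_K {r : ℕ} (hr : r < 10) : P.yy (10 * P.K + r) = P.yc r := by
  simp only [yy, idx P.K hr, lt_irrefl, if_false]

theorem yy_lt {j r : ℕ} (hj : j < P.K) (hr : r ≤ 10) : P.yy (10 * j + r) = (P.pc j).yt r := by
  rcases Nat.lt_or_ge r 10 with h | h
  · simp only [yy, idx j h, if_pos hj]
  · obtain rfl : r = 10 := by omega
    have e1 : (10 * j + 10) / 10 = j + 1 := by omega
    have e2 : (10 * j + 10) % 10 = 0 := by omega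
    simp only [yy, e1, e2]
    split_ifs <;> simp [Pc.yt, yc]

theorem aa_lt {j r : ℕ} (hj : j < P.K) (hr : r < 10) :
    P.aa (10 * j + r) = P.aa (10 * j) + (P.pc j).ax r := by
  induction r with
  | zero => simp [Pc.ax]
  | succ r ih =>
    rw [← add_assoc, aa, ih (by omega), add_assoc (10 * j), kk_lt hj hr, kk_lt hj (by omega),
      yy_lt hj hr.le, Pc.ax, add_assoc]

theorem Ok.width (H : P.Ok) (j : ℕ) : (P.pc j).ax 9 = 12 * P.c1 + P.Tj j * (P.c1 - P.c2) := by
  have a1 := H.ks1; have a2 := H.ks2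
  simp only [Pc.ax, Pc.kt, Pc.yt, Par.pc, hp, Tj, List.getD_cons_zero, List.getD_cons_succ]
  rw [← a1, ← a2]; ring

theorem Ok.aa_succ (H : P.Ok) {j : ℕ} (hj : j < P.K) :
    P.aa (10 * (j + 1)) = P.aa (10 * j) + (12 * P.c1 + P.Tj j * (P.c1 - P.c2)) := by
  rw [show 10 * (j + 1) = 10 * j + 9 + 1 by ring, aa, add_assoc (10 * j), yy_lt hj le_rfl,
    aa_lt hj (by norm_num), H.width]
  simp [Pc.yt]

theorem Ok.aa_sum (H : P.Ok) {j : ℕ} (hj : j ≤ P.K) :
    P.aa (10 * j) = 12 * P.c1 * j + (∑ i ∈ Finset.range j, P.Tj i) * (P.c1 - P.c2) := by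
  induction j with
  | zero => simp [aa]
  | succ j ih => rw [H.aa_succ hj, ih (by omega), Finset.sum_range_succ]; push_cast; ring

theorem Ok.aa_diff (H : P.Ok) {a b : ℕ} (hab : a ≤ b) (hb : b ≤ P.K) :
    12 * P.c1 * ((b : ℝ) - a) ≤ P.aa (10 * b) - P.aa (10 * a) ∧
      P.aa (10 * b) - P.aa (10 * a) ≤ 12 * P.c1 * ((b : ℝ) - a) + 1 / 10 := by
  rw [H.aa_sum hb, H.aa_sum (hab.trans hb)]
  have h0 : ∀ i, 0 ≤ P.Tj i := fun i => by linarith only [H.Tj_pos i]
  have h1 : ∑ i ∈ Finset.range a, P.Tj i ≤ ∑ i ∈ Finset.range b, P.Tj i :=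
    Finset.sum_le_sum_of_subset_of_nonneg (Finset.range_mono hab) (fun i _ _ => h0 i)
  have h2 : ∑ i ∈ Finset.range b, P.Tj i ≤ P.T :=
    Finset.sum_le_sum_of_subset_of_nonneg (Finset.range_mono hb) (fun i _ _ => h0 i)
  have h3 : 0 ≤ ∑ i ∈ Finset.range a, P.Tj i := Finset.sum_nonneg (fun i _ => h0 i)
  have e := (sub_pos.2 H.c12).le
  have h4 := mul_le_mul_of_nonneg_right h1 e
  have h5 := mul_le_mul_of_nonneg_right h2 e
  have h6 := mul_nonneg h3 e
  have := H.dc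
  constructor <;> linarith only [h4, h5, h6, this]

theorem Ok.aa_K (H : P.Ok) :
    P.aa (10 * P.K + 1) = P.aa (10 * P.K) + P.k2 ∧
    P.aa (10 * P.K + 2) = P.aa (10 * P.K) + P.T * P.c2 - P.k2 ∧
    P.aa (10 * P.K + 3) = (12 * P.K + P.T) * P.c1 ∧
    P.aa (10 * P.K + 4) = (12 * P.K + P.T) * P.c1 ∧
    P.aa (10 * P.K + 5) = -((12 * P.K + P.T) * P.c1) := by
  have a1 := H.ks1; have a2 := H.ks2
  have b0 := H.aa_sum le_rfl
  have k0 := kk_K (P := P) (r := 0) (by norm_num)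
  rw [add_zero] at k0
  have b1 : P.aa (10 * P.K + 1) = P.aa (10 * P.K) + P.k2 := by
    rw [aa, k0, kk_K (by norm_num), yy_K (by norm_num)]; simp [kc, yc]
  have b2 : P.aa (10 * P.K + 2) = P.aa (10 * P.K) + P.T * P.c2 - P.k2 := by
    rw [show 10 * P.K + 2 = 10 * P.K + 1 + 1 by ring, aa, b1, add_assoc (10 * P.K),
      kk_K (by norm_num), kk_K (by norm_num), yy_K (by norm_num)]
    simp only [kc, yc, List.getD_cons_zero, List.getD_cons_succ]
    rw [← a2]; ring
  have b3 : P.aa (10 * P.K + 3) = (12 * P.K + P.T) * P.c1 := by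
    rw [show 10 * P.K + 3 = 10 * P.K + 2 + 1 by ring, aa, b2, add_assoc (10 * P.K),
      kk_K (by norm_num), kk_K (by norm_num), yy_K (by norm_num), b0]
    simp only [kc, yc, List.getD_cons_zero, List.getD_cons_succ]
    unfold T; ring
  have b4 : P.aa (10 * P.K + 4) = (12 * P.K + P.T) * P.c1 := by
    rw [show 10 * P.K + 4 = 10 * P.K + 3 + 1 by ring, aa, b3, add_assoc (10 * P.K),
      yy_K (by norm_num)]
    simp [yc]
  refine ⟨b1, b2, b3, b4, ?_⟩
  rw [show 10 * P.K + 5 = 10 * P.K + 4 + 1 by ring, aa, b4, add_assoc (10 * P.K),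
    kk_K (by norm_num), kk_K (by norm_num), yy_K (by norm_num)]
  simp only [kc, yc, List.getD_cons_zero, List.getD_cons_succ]
  rw [← a1]; ring

theorem split (P : Par) (i : ℕ) (m : ℕ) (hi : i < 10 * P.K + m) :
    (∃ j r, j < P.K ∧ r < 10 ∧ i = 10 * j + r) ∨ ∃ r, r < m ∧ i = 10 * P.K + r := by
  rcases Nat.lt_or_ge i (10 * P.K) with h | h
  · exact Or.inl ⟨i / 10, i % 10, by omega, by omega, by omega⟩
  · exact Or.inr ⟨i - 10 * P.K, by omega, by omega⟩

/-- The axis points increase strictly except at the folds. -/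
theorem Ok.aa_step (H : P.Ok) {i : ℕ} (hi : i < 10 * P.K + 4) :
    P.aa i ≤ P.aa (i + 1) ∧ (i % 10 ≠ 9 → i ≠ 10 * P.K + 3 → P.aa i < P.aa (i + 1)) := by
  rcases P.split i 4 hi with ⟨j, r, hj, hr, rfl⟩ | ⟨r, hr, rfl⟩
  · rcases Nat.lt_or_ge r 9 with h | h
    · have : P.aa (10 * j + r) < P.aa (10 * j + r + 1) := by
        rw [add_assoc, aa_lt hj hr, aa_lt hj (by omega)]
        linarith only [Pc.ax_lt (H.pc hj) h]
      exact ⟨this.le, fun _ _ => this⟩
    · obtain rfl : r = 9 := by omega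
      refine ⟨?_, fun h => absurd (by omega) h⟩
      rw [aa_def (10 * j + 9), add_assoc (10 * j), yy_lt hj le_rfl]; simp [Pc.yt]
  · obtain ⟨b1, b2, b3, b4, -⟩ := H.aa_K
    have b0 := H.aa_sum le_rfl
    have := H.k2p; have a2 := H.ks2; have := H.T_ge; have := H.s1l; have := H.s12
    have h1 : 2 * P.k2 < P.T * P.c2 := by
      rw [← a2, mul_left_comm, mul_comm 2]
      apply mul_lt_mul_of_pos_left _ H.k2p
      nlinarith
    have h2 : P.aa (10 * P.K + 3) = P.aa (10 * P.K) + P.T * P.c2 := by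
      rw [b3, b0]; unfold T; ring
    interval_cases r
    · simp only [add_zero]; constructor <;> intros <;> linarith
    · rw [add_assoc]; constructor <;> intros <;> linarith only [b1, b2, h1]
    · rw [add_assoc]; constructor <;> intros <;> linarith
    · rw [add_assoc]; exact ⟨by linarith only [b3, b4], fun _ h => absurd rfl h⟩

theorem Ok.aa_mono (H : P.Ok) {i j : ℕ} (hij : i ≤ j) (hj : j ≤ 10 * P.K + 4) : P.aa i ≤ P.aa j := by
  induction j, hij using Nat.le_induction with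
  | base => exact le_rfl
  | succ m _ ih => exact (ih (by omega)).trans (H.aa_step (by omega)).1

theorem Ok.A_pos (H : P.Ok) : 0 < (12 * P.K + P.T) * P.c1 := by
  have := H.T_ge; have := H.c1l
  positivity

theorem Ok.aa_ne (H : P.Ok) {i j : ℕ} (hij : i + 1 < j) (hj : j < 10 * P.K + 6) :
    P.aa i ≠ P.aa j := by
  rcases Nat.lt_or_ge j (10 * P.K + 5) with h | h
  · have h1 := H.aa_step (i := i) (by omega)
    have h2 := H.aa_step (i := i + 1) (by omega)
    have h3 := H.aa_mono (i := i + 1 + 1) (j := j) (by omega) (by omega)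
    by_cases h4 : i % 10 = 9
    · have := h2.2 (by omega) (by omega)
      linarith only [h1.1, h3, this]
    · have := h1.2 h4 (by omega)
      linarith only [h2.1, h3, this]
  · obtain rfl : j = 10 * P.K + 5 := by omega
    have := H.aa_mono (i := 0) (j := i) (by omega) (by omega)
    rw [H.aa_K.2.2.2.2]
    have := H.A_pos
    simp only [aa] at *
    linarith

theorem Ok.good (H : P.Ok) {n : ℕ} (hn : n = 10 * P.K + 4 ∨ n = 10 * P.K + 6) {θ : ℕ → ℝ}
    (hθ : ∀ i, i + 1 < n → 0 < θ i ∧ θ i ≤ Real.pi ∧ Real.cos (θ i) = P.cs i) :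
    (P.D n).Good θ := by
  have a1 := H.ks1; have a2 := H.ks2; have e1 := H.e1; have e2 := H.e2
  have hn6 : n ≤ 10 * P.K + 6 := by omega
  have hT := H.T_ge
  refine ⟨by simp only [D]; omega, fun i hi => ?_, fun i hi => ?_, fun i hi => ?_, ?_, ?_,
    fun i _ => rfl, fun i hi => ?_, fun i hi => ?_, fun i j hij hj => H.aa_ne hij (hj.trans_le hn6)⟩
  · rcases P.split i 6 (hi.trans_le hn6) with ⟨j, r, hj, hr, rfl⟩ | ⟨r, hr, rfl⟩
    · obtain ⟨b1, b2, b3, b4⟩ := H.t j
      have b5 : 0 < P.hp j := (H.pc hj).h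
      simp only [D, ll, idx j hr, if_pos hj]
      interval_cases r <;> simp only [lt, List.getD_cons_zero, List.getD_cons_succ] <;> linarith only [b1, b2, b3, b4, b5]
    · have : (0 : ℝ) ≤ P.K := by positivity
      simp only [D, ll, idx P.K (show r < 10 by omega), lt_irrefl, if_false]
      interval_cases r <;> simp only [lc, List.getD_cons_zero, List.getD_cons_succ] <;> linarith only [hT]
  · have f1 : (1 + P.k1 ^ 2) * P.s1 ^ 2 = 1 := by rw [← a1] at e1; linear_combination e1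
    have f2 : (1 + P.k2 ^ 2) * P.s2 ^ 2 = 1 := by rw [← a2] at e2; linear_combination e2
    rcases P.split i 6 (hi.trans_le hn6) with ⟨j, r, hj, hr, rfl⟩ | ⟨r, hr, rfl⟩
    · simp only [D, kk, SS, idx j hr, if_pos hj]
      interval_cases r <;>
        simp only [Pc.kt, Par.pc, St, List.getD_cons_zero, List.getD_cons_succ, neg_sq] <;> linarith only [f2, f1]
    · simp only [D, kk, SS, idx P.K (show r < 10 by omega), lt_irrefl, if_false]
      interval_cases r <;>
        simp only [kc, Sc, List.getD_cons_zero, List.getD_cons_succ, neg_sq] <;> linarith only [f2, f1]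
  · rcases P.split i 6 (hi.trans_le hn6) with ⟨j, r, hj, hr, rfl⟩ | ⟨r, hr, rfl⟩
    · simp only [D]
      rw [add_assoc, yy_lt hj (by omega), yy_lt hj hr.le]
      simp only [ll, SS, idx j hr, if_pos hj]
      interval_cases r <;>
        simp only [Pc.yt, Par.pc, St, lt, hp, List.getD_cons_zero, List.getD_cons_succ,
          List.getD_nil] <;> ring
    · simp only [D]
      rw [add_assoc, yy_K (by omega), yy_K (by omega)]
      simp only [ll, SS, idx P.K (show r < 10 by omega), lt_irrefl, if_false]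
      interval_cases r <;>
        simp only [yc, Sc, lc, List.getD_cons_zero, List.getD_cons_succ, List.getD_nil] <;> ring
  · have := yy_lt (P := P) (j := 0) (r := 0) H.K (by norm_num)
    simpa [D, Pc.yt] using this
  · rcases hn with rfl | rfl <;> simp only [D] <;> rw [yy_K (by norm_num)] <;> simp [yc]
  · simp only [D] at hi ⊢
    rcases P.split i 5 (by omega) with ⟨j, r, hj, hr, rfl⟩ | ⟨r, hr, rfl⟩
    · rw [add_assoc, yy_lt hj (by omega)]
      rcases Nat.lt_or_ge r 9 with h | h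
      · right
        rw [kk_lt hj hr, kk_lt hj (by omega), gg, if_neg (by omega), if_neg (by omega)]
        exact ⟨rfl, by simpa using (Pc.yt_ne (H.pc hj) (r := r + 1) (by omega) (by omega)).2.1⟩
      · obtain rfl : r = 9 := by omega
        left; simp [Pc.yt]
    · rw [add_assoc, yy_K (by omega), kk_K (by omega), kk_K (by omega)]
      have := H.k2p; have := H.k12
      by_cases h3 : r = 3
      · left; simp [h3, yc]
      · right
        rw [gg, if_neg (by omega), if_neg (by omega)]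
        refine ⟨rfl, ?_⟩
        interval_cases r <;> simp only [kc, List.getD_cons_zero, List.getD_cons_succ] <;>
          first | exact absurd rfl h3 | (intro h; linarith)
  · simp only [D] at hi ⊢
    refine ⟨(hθ i hi).1, (hθ i hi).2.1, (hθ i hi).2.2.trans ?_⟩
    rcases P.split i 5 (by omega) with ⟨j, r, hj, hr, rfl⟩ | ⟨r, hr, rfl⟩
    · rcases Nat.lt_or_ge r 9 with h | h
      · rw [add_assoc, kk_lt hj hr, kk_lt hj (by omega), gg, if_neg (by omega), if_neg (by omega)]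
        simp only [cs, SS, idx j hr, idx j (show r + 1 < 10 by omega), if_pos hj]
        interval_cases r <;>
          simp only [Pc.kt, Par.pc, St, ct, List.getD_cons_zero, List.getD_cons_succ] <;>
          (try rw [← a1]) <;> (try rw [← a2]) <;> ring
      · obtain rfl : r = 9 := by omega
        have f1 : (10 * j + 9 + 1) / 10 = j + 1 := by omega
        have f2 : (10 * j + 9 + 1) % 10 = 0 := by omega
        simp only [cs, SS, kk, gg, idx j hr, f1, f2, if_pos hj, if_true]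
        split_ifs <;> simp [Pc.kt, St, Sc, ct]
    · rw [add_assoc, kk_K (by omega), kk_K (by omega), gg, if_neg (by omega)]
      simp only [cs, SS, idx P.K (show r < 10 by omega), idx P.K (show r + 1 < 10 by omega),
        lt_irrefl, if_false, add_right_inj]
      interval_cases r <;>
        simp only [kc, Sc, cc, List.getD_cons_zero, List.getD_cons_succ, Nat.reduceEqDiff,
          if_true, if_false] <;>
        (try rw [← a1]) <;> (try rw [← a2]) <;> ring

end Par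

end Pool.Agent.MP_e5fd74_lc.H66

/-! Which pieces cross, and the finite form of the existence of a simple extremal configuration. -/

namespace Pool.Agent.MP_e5fd74_lc.H66

open Set ComplexConjugate

namespace Par

variable {P : Par}

theorem Ok.meet_iff (H : P.Ok) (n : ℕ) {a b r r' : ℕ} (ha : a < P.K) (hb : b < P.K) (hr : r < 10)
    (hr' : r' < 10) (σ : ℝ) : (P.D n).Meet (10 * a + r) (10 * b + r') σ ↔
    ∃ s, s ∈ Icc ((P.pc a).lo r) ((P.pc a).hi r) ∧ σ * s ∈ Icc ((P.pc b).lo r') ((P.pc b).hi r') ∧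
      P.aa (10 * b) + (P.pc b).ax r' - (P.aa (10 * a) + (P.pc a).ax r) =
        ((P.pc a).kt r - σ * (P.pc b).kt r') * s := by
  simp only [Design.Meet, D]
  rw [add_assoc, add_assoc, yy_lt ha hr.le, yy_lt ha hr, yy_lt hb hr'.le, yy_lt hb hr',
    Pc.uIcc_eq (H.pc ha) hr, Pc.uIcc_eq (H.pc hb) hr', aa_lt ha hr, aa_lt hb hr', kk_lt ha hr,
    kk_lt hb hr']

theorem Ok.reach (H : P.Ok) (j : ℕ) : P.s1 ≤ P.UR j * P.s1 ∧ P.s1 ≤ P.UL j * P.s1 ∧
    P.s1 ≤ P.LR j * P.s1 ∧ P.s1 ≤ P.LL j * P.s1 := by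
  have h1 : (1 : ℝ) ≤ P.UR j := by exact_mod_cast H.UR j
  have h2 : (1 : ℝ) ≤ P.UL j := by exact_mod_cast H.UL j
  have h3 : (1 : ℝ) ≤ P.LR j := by exact_mod_cast H.LR j
  have h4 : (1 : ℝ) ≤ P.LL j := by exact_mod_cast H.LL j
  have h : 0 ≤ P.s1 := by linarith [H.s1l]
  exact ⟨le_mul_of_one_le_left h h1, le_mul_of_one_le_left h h2, le_mul_of_one_le_left h h3,
    le_mul_of_one_le_left h h4⟩

theorem Ok.right (H : P.Ok) {j r : ℕ} (hj : j < P.K) (hr : r < 10) {s : ℝ}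
    (hs : s ∈ Icc ((P.pc j).lo r) ((P.pc j).hi r)) :
    (P.pc j).kt r * s ≤ -(P.k2 * |s|) ∨ (0 ≤ s ∧ s < 6 * (P.UR j * P.s1)) ∨
      (s ≤ 0 ∧ -s < 6 * (P.LR j * P.s1)) := by
  obtain ⟨b1, b2, b3, b4, b5⟩ := H.drift hj
  obtain ⟨c1, c2, c3, c4⟩ := H.reach j
  have := H.s1l; have := H.s1u
  apply Pc.right (H.pc hj) hr hs <;> simp only [Par.pc, hp, t2, t4, t7, t9] at * <;> linarith

theorem Ok.left (H : P.Ok) {j r : ℕ} (hj : j < P.K) (hr : r < 10) {s : ℝ}
    (hs : s ∈ Icc ((P.pc j).lo r) ((P.pc j).hi r)) :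
    -((P.pc j).kt r * s) ≤ -(P.k2 * |s|) ∨ (0 ≤ s ∧ s < 6 * (P.UL j * P.s1)) ∨
      (s ≤ 0 ∧ -s < 6 * (P.LL j * P.s1)) := by
  obtain ⟨b1, b2, b3, b4, b5⟩ := H.drift hj
  obtain ⟨c1, c2, c3, c4⟩ := H.reach j
  have := H.s1l; have := H.s1u
  apply Pc.left (H.pc hj) hr hs <;> simp only [Par.pc, hp, t2, t4, t7, t9] at * <;> linarith

theorem Ok.absT (H : P.Ok) {j r : ℕ} (hj : j < P.K) (hr : r < 10) {s : ℝ}
    (hs : s ∈ Icc ((P.pc j).lo r) ((P.pc j).hi r)) : |s| ≤ P.T := by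
  obtain ⟨b1, b2, b3, b4, b5⟩ := H.drift hj
  obtain ⟨a1, a2, a3, a4⟩ := H.t j
  have := H.s1l; have := H.s1u; have := H.Tj_le hj; have u := H.s2u
  have := mul_le_mul_of_nonneg_left u (show 0 ≤ P.t2 j by linarith only [a1])
  have := mul_le_mul_of_nonneg_left u (show 0 ≤ P.t4 j by linarith only [a2])
  have := mul_le_mul_of_nonneg_left u (show 0 ≤ P.t7 j by linarith only [a3])
  have := mul_le_mul_of_nonneg_left u (show 0 ≤ P.t9 j by linarith only [a4])
  apply Pc.abs_le' (H.pc hj) hr hs <;> simp only [Par.pc, hp, Tj] at * <;> linarith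

theorem Ok.gap (H : P.Ok) {a b r r' : ℕ} (hab : a + 1 < b) (hb : b < P.K) (hr : r < 10)
    (hr' : r' < 10) : 12 * P.c1 * ((b : ℝ) - a - 1) ≤
      P.aa (10 * b) + (P.pc b).ax r' - (P.aa (10 * a) + (P.pc a).ax r) := by
  have ha : a < P.K := by omega
  have h1 := (H.aa_diff (a := a + 1) (b := b) hab.le hb.le).1
  have h2 := H.aa_succ ha
  have h3 := Pc.ax_le (H.pc ha) (r := r) (r' := 9) (by omega) (by norm_num)
  have h4 := Pc.ax_le (H.pc hb) (r := 0) (r' := r') (by omega) hr'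
  rw [H.width] at h3
  simp only [Pc.ax] at h4
  push_cast at h1
  linarith only [h2, h3, h4, h1]

theorem Ok.far (H : P.Ok) (n : ℕ) {a b r r' : ℕ} (hab : a + 1 < b) (hb : b < P.K) (hr : r < 10)
    (hr' : r' < 10) {σ : ℝ}
    (hc : (σ = 1 ∧ ¬(b - a ≤ P.UR a ∧ b - a ≤ P.UL b) ∧ ¬(b - a ≤ P.LR a ∧ b - a ≤ P.LL b)) ∨
      (σ = -1 ∧ ¬(b - a ≤ P.UR a ∧ b - a ≤ P.LL b) ∧ ¬(b - a ≤ P.LR a ∧ b - a ≤ P.UL b))) :
    ¬ (P.D n).Meet (10 * a + r) (10 * b + r') σ := by
  have ha : a < P.K := by omega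
  rw [H.meet_iff n ha hb hr hr']
  rintro ⟨s, h1, h2, h3⟩
  have g := H.gap hab hb hr hr'
  rw [h3, show ((P.pc a).kt r - σ * (P.pc b).kt r') * s =
    (P.pc a).kt r * s - (P.pc b).kt r' * (σ * s) by ring] at g
  have hσ : |σ * s| = |s| := by rcases hc with ⟨rfl, -⟩ | ⟨rfl, -⟩ <;> simp
  have hd : (1 : ℝ) ≤ (b : ℝ) - a - 1 := by
    have : ((a + 2 : ℕ) : ℝ) ≤ b := by exact_mod_cast hab
    push_cast at this; linarith only [this]
  have c1 := H.c1l
  have g1 : 6 ≤ 12 * P.c1 * ((b : ℝ) - a - 1) := by nlinarith only [hd, c1]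
  have k1 := abs_le.1 (Pc.kt_abs (H.pc ha) r s)
  have k2 := abs_le.1 (Pc.kt_abs (H.pc hb) r' (σ * s))
  rw [hσ] at k2
  change _ ≤ _ ∧ _ ≤ P.k1 * _ at k1
  change -(P.k1 * _) ≤ _ ∧ _ at k2
  have k3 : (P.k1 - P.k2) * |s| ≤ 1 :=
    (mul_le_mul_of_nonneg_left (H.absT ha hr h1) (sub_pos.2 H.k12).le).trans H.kT
  have hk : 0 < P.k1 := H.k2p.trans H.k12
  have s1 : 0 < P.s1 := by linarith only [H.s1l]
  have fin : ∀ m : ℕ, ¬ b - a ≤ m → |s| < 6 * (m * P.s1) → False := fun m hm hs => by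
    have h4 : ((m + 1 + a : ℕ) : ℝ) ≤ b := by exact_mod_cast (by omega : m + 1 + a ≤ b)
    push_cast at h4
    have h5 : |s| < 6 * (((b : ℝ) - a - 1) * P.s1) := by nlinarith only [s1, hs, h4]
    have h6 := mul_lt_mul_of_pos_left h5 hk
    have h7 : P.k1 * (6 * (((b : ℝ) - a - 1) * P.s1)) = 6 * P.c1 * ((b : ℝ) - a - 1) := by
      rw [← H.ks1]; ring
    linarith only [k1.2, k2.1, g, h6, h7]
  have hz : s ≠ 0 := by
    rintro rfl
    simp only [mul_zero, sub_zero] at g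
    linarith only [g1, g]
  rcases H.right ha hr h1 with h4 | h4
  · linarith only [k2.1, g, g1, k3, h4]
  rcases H.left hb hr' h2 with h5 | h5
  · rw [hσ] at h5; linarith only [k1.2, g, g1, k3, h5]
  rcases hc with ⟨rfl, e1, e2⟩ | ⟨rfl, e1, e2⟩
  · rw [one_mul] at h5
    rcases h4 with ⟨p1, p2⟩ | ⟨p1, p2⟩ <;> rcases h5 with ⟨q1, q2⟩ | ⟨q1, q2⟩
    · rw [← abs_of_nonneg p1] at p2 q2
      exact (not_and_or.1 e1).elim (fun e => fin _ e p2) (fun e => fin _ e q2)
    · exact hz (le_antisymm q1 p1)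
    · exact hz (le_antisymm p1 q1)
    · rw [← abs_of_nonpos p1] at p2 q2
      exact (not_and_or.1 e2).elim (fun e => fin _ e p2) (fun e => fin _ e q2)
  · rw [neg_one_mul] at h5
    rcases h4 with ⟨p1, p2⟩ | ⟨p1, p2⟩ <;> rcases h5 with ⟨q1, q2⟩ | ⟨q1, q2⟩
    · exact hz (by linarith only [p1, q1])
    · rw [neg_neg] at q2
      rw [← abs_of_nonneg p1] at p2 q2
      exact (not_and_or.1 e1).elim (fun e => fin _ e p2) (fun e => fin _ e q2)
    · rw [← abs_of_nonpos p1] at p2 q2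
      exact (not_and_or.1 e2).elim (fun e => fin _ e p2) (fun e => fin _ e q2)
    · exact hz (by linarith only [p1, q1])

theorem Ok.ax45 (H : P.Ok) {j : ℕ} (hj : j < P.K) :
    (P.pc j).ax 4 ≤ 4 * P.c1 - P.k1 + 1 / 5 ∧ 8 * P.c1 + P.k1 - 1 / 10 ≤ (P.pc j).ax 5 := by
  obtain ⟨b1, b2, b3, b4, b5⟩ := H.drift hj
  obtain ⟨a1, a2, a3, a4⟩ := H.t j
  have e1 := H.ks1; have e2 := H.ks2
  have hk : 0 < P.k1 := H.k2p.trans H.k12
  have hk' := H.k1u
  have f4 : (P.pc j).ax 4 = 4 * P.c1 - P.k1 + (P.t2 j + P.t4 j) * (P.c1 - P.c2) +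
      P.k1 * ((P.t4 j - P.t2 j) * (P.s2 - P.s1)) := by
    simp only [Pc.ax, Pc.kt, Pc.yt, Par.pc, List.getD_cons_zero, List.getD_cons_succ]
    rw [← e1, ← e2]; ring
  have f5 : (P.pc j).ax 5 = 8 * P.c1 + P.k1 + (P.t2 j + P.t4 j) * (P.c1 - P.c2) -
      P.k1 * ((P.t4 j - P.t2 j) * (P.s2 - P.s1)) := by
    simp only [Pc.ax, Pc.kt, Pc.yt, Par.pc, List.getD_cons_zero, List.getD_cons_succ]
    rw [← e1, ← e2]; ring
  have g1 : P.k1 * ((P.t4 j - P.t2 j) * (P.s2 - P.s1)) ≤ 1 / 10 := by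
    have : (P.t4 j - P.t2 j) * (P.s2 - P.s1) ≤ 1 / 10 := by linarith only [b1, b3, b4, b5]
    have := mul_le_mul_of_nonneg_left this hk.le
    linarith only [hk', this]
  have e := (sub_pos.2 H.c12).le
  have g2 : 0 ≤ (P.t2 j + P.t4 j) * (P.c1 - P.c2) := mul_nonneg (by linarith only [a1, a2]) e
  have g3 : (P.t2 j + P.t4 j) * (P.c1 - P.c2) ≤ 1 / 10 := by
    refine (mul_le_mul_of_nonneg_right ?_ e).trans H.dc
    have := H.Tj_le hj
    unfold Tj at this; linarith only [a3, a4, this]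
  constructor <;> linarith only [f4, g1, g3, f5, g2]

theorem Ok.cross (H : P.Ok) {a b r r' : ℕ} (hab : a + 1 < b) (hb : b < P.K) (hr : 5 ≤ r)
    (hr1 : r < 10) (hr' : r' ≤ 4) : ∃ s, 0 ≤ s ∧ s ≤ 6 * (((b - a : ℕ) : ℝ) * P.s1) - 11 / 10 ∧
      P.aa (10 * b) + (P.pc b).ax r' - (P.aa (10 * a) + (P.pc a).ax r) = 2 * P.k1 * s := by
  have ha : a < P.K := by omega
  have hk : 0 < P.k1 := H.k2p.trans H.k12
  have g := H.gap hab hb hr1 (show r' < 10 by omega)
  have hd : (1 : ℝ) ≤ (b : ℝ) - a - 1 := by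
    have : ((a + 2 : ℕ) : ℝ) ≤ b := by exact_mod_cast hab
    push_cast at this; linarith only [this]
  have c1 := H.c1l
  have g1 : 0 ≤ 12 * P.c1 * ((b : ℝ) - a - 1) := by positivity
  have h1 := (H.aa_diff (a := a) (b := b) (by omega) hb.le).2
  have h2 := Pc.ax_le (H.pc ha) hr hr1
  have h3 := Pc.ax_le (H.pc hb) hr' (by norm_num)
  have h4 := (H.ax45 ha).2
  have h5 := (H.ax45 hb).1
  have hk' := H.k1u
  refine ⟨(P.aa (10 * b) + (P.pc b).ax r' - (P.aa (10 * a) + (P.pc a).ax r)) / (2 * P.k1),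
    div_nonneg (by linarith only [g, g1]) (by linarith only [hk]), ?_, by field_simp⟩
  rw [div_le_iff₀ (by linarith only [hk]), Nat.cast_sub (by omega)]
  have h7 : 6 * (((b : ℝ) - a) * P.s1) * (2 * P.k1) = 12 * P.c1 * ((b : ℝ) - a) := by
    rw [← H.ks1]; ring
  rw [sub_mul, h7]
  linarith

theorem Ok.apex (H : P.Ok) {j : ℕ} (hj : j < P.K) {d : ℕ} {s : ℝ} (h0 : 0 ≤ s)
    (hs : s ≤ 6 * ((d : ℝ) * P.s1) - 11 / 10) :
    (d ≤ P.UR j → s ∈ Icc ((P.pc j).lo 5) ((P.pc j).hi 5)) ∧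
    (d ≤ P.UL j → s ∈ Icc ((P.pc j).lo 4) ((P.pc j).hi 4)) ∧
    (d ≤ P.LR j → -s ∈ Icc ((P.pc j).lo 7) ((P.pc j).hi 7)) ∧
    (d ≤ P.LL j → -s ∈ Icc ((P.pc j).lo 2) ((P.pc j).hi 2)) := by
  obtain ⟨b1, b2, b3, b4, b5⟩ := H.drift hj
  have := H.s1l; have := H.s1u
  have s1 : 0 ≤ P.s1 := by linarith
  refine ⟨fun h => ?_, fun h => ?_, fun h => ?_, fun h => ?_⟩ <;>
    have h' := mul_le_mul_of_nonneg_right (Nat.cast_le (α := ℝ).2 h) s1 <;>
    simp only [Pc.lo, Pc.hi, Par.pc, hp, t2, t4, t7, t9, List.getD_cons_zero,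
      List.getD_cons_succ] at * <;> constructor <;> linarith

/-- The finite condition on the half-planes of the pieces. -/
def Spike (P : Par) (Z : ℕ → ℂ) : Prop :=
  (∀ j, j < P.K → ‖Z j‖ = 1) ∧ (∀ j, j + 1 < P.K → (Z j * conj (Z (j + 1))).re = P.gf j) ∧
  ∀ a b, a + 1 < b → b < P.K →
    (Z b = Z a → ¬(b - a ≤ P.UR a ∧ b - a ≤ P.UL b) ∧ ¬(b - a ≤ P.LR a ∧ b - a ≤ P.LL b)) ∧
    (Z b = -Z a → ¬(b - a ≤ P.UR a ∧ b - a ≤ P.LL b) ∧ ¬(b - a ≤ P.LR a ∧ b - a ≤ P.UL b))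

theorem Ok.spike_of_wit (H : P.Ok) {n : ℕ} (hn : 10 * P.K < n) {z : ℕ → ℂ} (hz : (P.D n).Wit z) :
    P.Spike (fun j => z (10 * j)) := by
  obtain ⟨h1, h2, h3⟩ := hz
  simp only [D] at h1 h2
  have hc : ∀ j r, j < P.K → r < 10 → z (10 * j + r) = z (10 * j) := fun j r hj hr => by
    induction r with
    | zero => rfl
    | succ r ih =>
      rw [← ih (by omega), ← add_assoc]
      refine eq_of_re_one (h1 _ (by omega)) (h1 _ (by omega)) ?_
      rw [h2 _ (by omega), gg, if_neg (by omega), if_neg (by omega)]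
  refine ⟨fun j hj => h1 _ (by omega), fun j hj => ?_, fun a b hab hb => ?_⟩
  · have := h2 (10 * j + 9) (by omega)
    rw [hc j 9 (by omega) (by norm_num), gg, if_pos (by omega), (idx j (by norm_num)).1] at this
    exact this
  have ha : a < P.K := by omega
  have key : ∀ r r', r < 10 → r' < 10 →
      (z (10 * b) = z (10 * a) → ¬ (P.D n).Meet (10 * a + r) (10 * b + r') 1) ∧
      (z (10 * b) = -z (10 * a) → ¬ (P.D n).Meet (10 * a + r) (10 * b + r') (-1)) :=
    fun r r' hr hr' => by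
      have := h3 (10 * a + r) (10 * b + r') (by omega) (by simp only [D]; omega)
      rwa [hc a r ha hr, hc b r' hb hr'] at this
  refine ⟨fun h => ⟨fun ⟨p, q⟩ => ?_, fun ⟨p, q⟩ => ?_⟩, fun h => ⟨fun ⟨p, q⟩ => ?_, fun ⟨p, q⟩ => ?_⟩⟩
  · obtain ⟨s, s0, s1, s2⟩ := H.cross hab hb (r := 5) (r' := 4) le_rfl (by norm_num) le_rfl
    refine (key 5 4 (by norm_num) (by norm_num)).1 h ((H.meet_iff n ha hb (by norm_num)
      (by norm_num) _).2 ⟨s, (H.apex ha s0 s1).1 p, by simpa only [one_mul, mem_Icc] using (H.apex hb s0 s1).2.1 q, ?_⟩)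
    rw [s2]; simp only [Pc.kt, Par.pc, List.getD_cons_zero, List.getD_cons_succ]; ring
  · obtain ⟨s, s0, s1, s2⟩ := H.cross hab hb (r := 7) (r' := 2) (by norm_num) (by norm_num)
      (by norm_num)
    refine (key 7 2 (by norm_num) (by norm_num)).1 h ((H.meet_iff n ha hb (by norm_num)
      (by norm_num) _).2 ⟨-s, (H.apex ha s0 s1).2.2.1 p,
        by simpa only [mul_neg, one_mul, mem_Icc] using (H.apex hb s0 s1).2.2.2 q, ?_⟩)
    rw [s2]; simp only [Pc.kt, Par.pc, List.getD_cons_zero, List.getD_cons_succ]; ring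
  · obtain ⟨s, s0, s1, s2⟩ := H.cross hab hb (r := 5) (r' := 2) le_rfl (by norm_num) (by norm_num)
    refine (key 5 2 (by norm_num) (by norm_num)).2 h ((H.meet_iff n ha hb (by norm_num)
      (by norm_num) _).2 ⟨s, (H.apex ha s0 s1).1 p, by simpa only [neg_mul, one_mul, mem_Icc] using (H.apex hb s0 s1).2.2.2 q, ?_⟩)
    rw [s2]; simp only [Pc.kt, Par.pc, List.getD_cons_zero, List.getD_cons_succ]; ring
  · obtain ⟨s, s0, s1, s2⟩ := H.cross hab hb (r := 7) (r' := 4) (by norm_num) (by norm_num) le_rfl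
    refine (key 7 4 (by norm_num) (by norm_num)).2 h ((H.meet_iff n ha hb (by norm_num)
      (by norm_num) _).2 ⟨-s, (H.apex ha s0 s1).2.2.1 p,
        by simpa only [mul_neg, neg_mul, one_mul, neg_neg, mem_Icc] using (H.apex hb s0 s1).2.1 q, ?_⟩)
    rw [s2]; simp only [Pc.kt, Par.pc, List.getD_cons_zero, List.getD_cons_succ]; ring

theorem Ok.last_simple (H : P.Ok) (n : ℕ) {r r' : ℕ} (h : r + 1 < r') (hr : r' < 4) :
    ¬ (P.D n).Meet (10 * P.K + r) (10 * P.K + r') 1 := by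
  rintro ⟨s, h1, h2, h3⟩
  simp only [D] at h1 h2 h3
  rw [add_assoc, yy_K (by omega), yy_K (by omega)] at h1 h2
  rw [kk_K (by omega), kk_K (by omega)] at h3
  have m1 := H.aa_mono (i := 10 * P.K + r) (j := 10 * P.K + r') (by omega) (by omega)
  have m2 := H.aa_ne (i := 10 * P.K + r) (j := 10 * P.K + r') (by omega) (by omega)
  have m3 := sub_pos.2 (lt_of_le_of_ne m1 m2)
  rw [h3] at m3
  have hk := H.k2p
  have hr0 : r < 2 := by omega
  interval_cases r <;> interval_cases r' <;>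
    simp only [kc, yc, List.getD_cons_zero, List.getD_cons_succ] at h1 h2 m3
  · rw [uIcc_of_ge (by norm_num)] at h1
    nlinarith only [h1.2, hk, m3]
  · simp at m3
  · rw [uIcc_of_le (by norm_num), one_mul] at h2
    nlinarith only [h2.2, hk, m3]

theorem Ok.wit_of_spike (H : P.Ok) {n : ℕ} (hn : n ≤ 10 * P.K + 6) {Z : ℕ → ℂ} (hZ : P.Spike Z)
    (h1 : ∀ j, j < P.K + 2 → ‖Z j‖ = 1) (h2 : ∀ j, j < P.K → (Z j * conj (Z (j + 1))).re = P.gf j)
    (h3 : (Z P.K * conj (Z (P.K + 1))).re = 0)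
    (h4 : ∀ a b, a < b → b < P.K + 2 → (P.K ≤ b ∨ b = a + 1) → Z b ≠ Z a ∧ Z b ≠ -Z a) :
    (P.D n).Wit (fun i => Z (if i < 10 * P.K + 4 then i / 10 else P.K + 1)) := by
  have hself : ∀ j, j < P.K + 2 → (Z j * conj (Z j)).re = 1 := fun j hj => by
    rw [Complex.mul_conj, Complex.ofReal_re, Complex.normSq_eq_norm_sq, h1 j hj]; norm_num
  refine ⟨fun i _ => h1 _ (by split_ifs <;> omega), fun i hi => ?_, fun i j hij hj => ?_⟩
  · simp only [D, gg] at hi ⊢
    by_cases c1 : i % 10 = 9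
    · rw [if_pos c1, if_pos (by omega), if_pos (by omega), show (i + 1) / 10 = i / 10 + 1 by omega]
      exact h2 _ (by omega)
    by_cases c2 : i = 10 * P.K + 3
    · rw [if_neg c1, if_pos c2, if_pos (by omega), if_neg (by omega), show i / 10 = P.K by omega]
      exact h3
    rw [if_neg c1, if_neg c2]
    by_cases c3 : i < 10 * P.K + 3
    · rw [if_pos (by omega), if_pos (by omega), show (i + 1) / 10 = i / 10 by omega]
      exact hself _ (by omega)
    · rw [if_neg (by omega), if_neg (by omega)]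
      exact hself _ (by omega)
  simp only [D] at hj
  have hi4 : i < 10 * P.K + 4 := by omega
  simp only [if_pos hi4]
  by_cases c1 : j < 10 * P.K + 4
  swap
  · simp only [if_neg c1]
    have := h4 (i / 10) (P.K + 1) (by omega) (by omega) (by omega)
    exact ⟨fun h => absurd h this.1, fun h => absurd h this.2⟩
  simp only [if_pos c1]
  rcases Nat.lt_or_ge (i / 10) (j / 10) with c2 | c2
  · by_cases c3 : P.K ≤ j / 10 ∨ j / 10 = i / 10 + 1
    · have := h4 (i / 10) (j / 10) c2 (by omega) c3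
      exact ⟨fun h => absurd h this.1, fun h => absurd h this.2⟩
    · have hab : i / 10 + 1 < j / 10 := by omega
      have hb : j / 10 < P.K := by omega
      have := hZ.2.2 _ _ hab hb
      have f := fun σ => H.far n hab hb (Nat.mod_lt i (by norm_num)) (Nat.mod_lt j (by norm_num))
        (σ := σ)
      rw [Nat.div_add_mod, Nat.div_add_mod] at f
      exact ⟨fun h => f 1 (Or.inl ⟨rfl, this.1 h⟩), fun h => f (-1) (Or.inr ⟨rfl, this.2 h⟩)⟩
  have e : j / 10 = i / 10 := by omega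
  refine ⟨fun _ => ?_, fun h => ?_⟩
  · rcases P.split j 4 c1 with ⟨b, r', hb, hr', rfl⟩ | ⟨r', hr', rfl⟩
    · obtain ⟨r, rfl⟩ : ∃ r, i = 10 * b + r := ⟨i % 10, by omega⟩
      rw [H.meet_iff n hb hb (by omega) hr']
      rintro ⟨s, p1, p2, p3⟩
      rw [one_mul] at p2 p3
      exact Pc.simple (H.pc hb) (by omega) hr' p1 p2 (by linarith only [p3])
    · obtain ⟨r, rfl⟩ : ∃ r, i = 10 * P.K + r := ⟨i % 10, by omega⟩
      exact H.last_simple n (by omega) hr'
  · rw [e] at h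
    have h5 : Z (i / 10) = 0 := by linear_combination h / 2
    have := h1 (i / 10) (by omega)
    rw [h5] at this
    simp at this

end Par

end Pool.Agent.MP_e5fd74_lc.H66

/-! Half-planes at torsion angles are states in `ZMod 3 × ZMod 4`. -/

namespace Pool.Agent.MP_e5fd74_lc.H66

open ComplexConjugate Complex

/-- The combinatorial problem: a walk of states avoiding the conflicts given by the reaches. -/
def Sol (K : ℕ) (R L : ℕ → ℕ) (ty : ℕ → Bool) : Prop :=
  ∃ (col : ℕ → ZMod 3) (cls : ℕ → ZMod 4),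
    (∀ j, j + 1 < K → (ty j = true → col (j + 1) = col j ∧
        (cls (j + 1) = cls j + 1 ∨ cls (j + 1) = cls j - 1)) ∧
      (ty j = false → col (j + 1) ≠ col j ∧ cls (j + 1) = cls j)) ∧
    ∀ a b, a + 1 < b → b < K → b - a ≤ R a → b - a ≤ L b → col a = col b → cls a ≠ cls b

noncomputable def om : ℂ := ⟨-1 / 2, √3 / 2⟩

theorem sq3 : √3 * √3 = (3 : ℝ) := Real.mul_self_sqrt (by norm_num)

theorem om_cube : om ^ 3 = 1 := by
  have := sq3
  apply Complex.ext
  · simp only [om, pow_succ, pow_zero, one_mul, mul_re, mul_im, one_re]; linarith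
  · simp only [om, pow_succ, pow_zero, one_mul, mul_im, mul_re, one_im]; linear_combination (-√3 / 8) * this

theorem om_prim : IsPrimitiveRoot om 3 := by
  have : Fact (Nat.Prime 3) := ⟨by norm_num⟩
  have h : om ≠ 1 := fun h => by
    have := congrArg Complex.re h
    norm_num [om] at this
  rw [← orderOf_eq_prime om_cube h]
  exact IsPrimitiveRoot.orderOf om

theorem om_norm : ‖om‖ = 1 := om_prim.norm'_eq_one (by norm_num)

theorem step {z w η : ℂ} (hz : ‖z‖ = 1) (hw : ‖w‖ = 1) (hη : ‖η‖ = 1)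
    (h : (z * conj w).re = η.re) : ∃ e : ℤ, (e = 1 ∨ e = -1) ∧ w = z * η ^ e := by
  have hz0 : z * conj z = 1 := by rw [mul_conj, normSq_eq_norm_sq, hz]; norm_num
  have h1 : ‖w * conj z‖ = 1 := by rw [norm_mul, hw, RCLike.norm_conj, hz, one_mul]
  have h2 : (w * conj z).re = η.re := by
    rw [← h]; simp only [mul_re, conj_re, conj_im]; ring
  have h3 : (w * conj z).im ^ 2 = η.im ^ 2 := by
    have a := Complex.sq_norm (w * conj z)
    have b := Complex.sq_norm η
    rw [h1, normSq_apply, h2] at a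
    rw [hη, normSq_apply] at b
    linarith only [a, b]
  have h4 : w = z * (w * conj z) := by rw [mul_left_comm, hz0, mul_one]
  rcases sq_eq_sq_iff_eq_or_eq_neg.1 h3 with h5 | h5
  · exact ⟨1, Or.inl rfl, by rw [h4, zpow_one, Complex.ext h2 h5]⟩
  · refine ⟨-1, Or.inr rfl, ?_⟩
    rw [h4, zpow_neg_one, Complex.inv_eq_conj hη]
    congr 1
    exact Complex.ext h2 h5

theorem re_step {z η : ℂ} (hz : ‖z‖ = 1) (hη : ‖η‖ = 1) {e : ℤ} (he : e = 1 ∨ e = -1) :
    (z * conj (z * η ^ e)).re = η.re := by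
  have hz0 : z * conj z = 1 := by rw [mul_conj, normSq_eq_norm_sq, hz]; norm_num
  rw [map_mul, ← mul_assoc, hz0, one_mul, conj_re]
  rcases he with rfl | rfl
  · rw [zpow_one]
  · rw [zpow_neg_one, Complex.inv_eq_conj hη, conj_re]

/-- The two ways of realising the four classes. -/
def Mode (P : Par) (η : ℂ) : Prop :=
  (η = I ∧ ∀ j, P.LR j = 1 ∧ P.LL j = 1) ∨ (η ^ 2 = I ∧ ∀ j, P.LR j = P.UR j ∧ P.LL j = P.UL j)

theorem Mode.nrm {P : Par} {η : ℂ} (h : Mode P η) : ‖η‖ = 1 := by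
  rcases h with ⟨rfl, -⟩ | ⟨h, -⟩
  · simp
  · have := congrArg norm h
    rw [norm_pow, norm_I] at this
    exact (pow_eq_one_iff_of_nonneg (norm_nonneg _) two_ne_zero).1 this

theorem Mode.pow8 {P : Par} {η : ℂ} (h : Mode P η) : η ^ 8 = 1 := by
  rcases h with ⟨rfl, -⟩ | ⟨h, -⟩
  · rw [show 8 = 4 * 2 from rfl, pow_mul, I_pow_four, one_pow]
  · rw [show 8 = 2 * 4 from rfl, pow_mul, h, I_pow_four]

/-- Signed numbers of steps of each type. -/
def cnt (ty : ℕ → Bool) (b : Bool) (e : ℕ → ℤ) : ℕ → ℤ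
  | 0 => 0
  | j + 1 => cnt ty b e j + if ty j = b then e j else 0

theorem sol_of_spike {P : Par} {η : ℂ} (hM : Mode P η) {ty : ℕ → Bool}
    (hg : ∀ j, j + 1 < P.K → P.gf j = if ty j = true then η.re else -1 / 2) {Z : ℕ → ℂ}
    (hZ : P.Spike Z) : Sol P.K P.UR P.UL ty := by
  obtain ⟨h1, h2, h3⟩ := hZ
  have hη := hM.nrm
  have hη0 : η ≠ 0 := fun h => by rw [h] at hη; simp at hη
  have ho0 : om ≠ 0 := om_prim.ne_zero (by norm_num)
  have : ∀ j, ∃ e : ℤ, j + 1 < P.K → (e = 1 ∨ e = -1) ∧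
      Z (j + 1) = Z j * (if ty j = true then η else om) ^ e := fun j => by
    by_cases hj : j + 1 < P.K
    · obtain ⟨e, he⟩ := step (η := if ty j = true then η else om) (h1 j (by omega)) (h1 _ hj)
        (by split_ifs; exacts [hη, om_norm]) (by rw [h2 j hj, hg j hj]; split_ifs <;> rfl)
      exact ⟨e, fun _ => he⟩
    · exact ⟨0, fun h => absurd h hj⟩
  choose e he using this
  have hZ : ∀ j, j < P.K → Z j = Z 0 * om ^ cnt ty false e j * η ^ cnt ty true e j := by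
    intro j hj
    induction j with
    | zero => simp [cnt]
    | succ j ih =>
      rw [(he j hj).2, ih (by omega)]
      cases h : ty j <;> simp [cnt, h, zpow_add₀ hη0, zpow_add₀ ho0] <;> ring
  refine ⟨fun j => cnt ty false e j, fun j => cnt ty true e j, fun j hj => ⟨fun h => ?_, fun h => ?_⟩,
    fun a b hab hb hR hL hc hk => ?_⟩
  · rcases (he j hj).1 with h' | h' <;> simp [cnt, h, h', sub_eq_add_neg]
  · rcases (he j hj).1 with h' | h' <;> simp only [cnt, h, ↓ reduceIte, h', Int.cast_add, Int.cast_one, ne_eq, add_eq_left, one_ne_zero, not_false_eq_true, Bool.false_eq_true, add_zero, and_self, Int.reduceNeg, Int.cast_neg, neg_eq_zero]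
  · obtain ⟨m, hm⟩ := (ZMod.intCast_eq_intCast_iff_dvd_sub _ _ _).1 hc
    obtain ⟨m', hm'⟩ := (ZMod.intCast_eq_intCast_iff_dvd_sub _ _ _).1 hk
    have e1 : om ^ cnt ty false e b = om ^ cnt ty false e a := by
      rw [show cnt ty false e b = cnt ty false e a + ((3 : ℕ) : ℤ) * m by linarith only [hm], zpow_add₀ ho0,
        zpow_mul, zpow_natCast, om_cube, one_zpow, mul_one]
    have e2 : Z b = Z a * (η ^ 4) ^ m' := by
      rw [hZ b hb, hZ a (by omega), e1,
        show cnt ty true e b = cnt ty true e a + ((4 : ℕ) : ℤ) * m' by linarith only [hm'], zpow_add₀ hη0,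
        zpow_mul, zpow_natCast]
      ring
    rcases hM with ⟨rfl, -⟩ | ⟨h, h'⟩
    · rw [I_pow_four, one_zpow, mul_one] at e2
      exact ((h3 a b hab hb).1 e2).1 ⟨hR, hL⟩
    · rw [show 4 = 2 * 2 from rfl, pow_mul, h, I_sq] at e2
      rcases Int.even_or_odd m' with h4 | h4
      · rw [h4.neg_one_zpow, mul_one] at e2
        exact ((h3 a b hab hb).1 e2).1 ⟨hR, hL⟩
      · rw [h4.neg_one_zpow, mul_neg_one] at e2
        exact ((h3 a b hab hb).2 e2).1 ⟨hR, (h' b).2 ▸ hL⟩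

theorem wit_of_sol {P : Par} (H : P.Ok) {η ζ : ℂ} (hM : Mode P η) {ty : ℕ → Bool}
    (hg : ∀ j, j + 1 < P.K → P.gf j = if ty j = true then η.re else -1 / 2)
    (hζ : ‖ζ‖ = 1) (hζ' : ζ ^ 24 ≠ 1) (hgK : P.gf (P.K - 1) = ζ.re) {n : ℕ}
    (hn : n ≤ 10 * P.K + 6) (hS : Sol P.K P.UR P.UL ty) : ∃ z, (P.D n).Wit z := by
  obtain ⟨col, cls, h1, h2⟩ := hS
  have hK := H.K
  have hη := hM.nrm
  have hη0 : η ≠ 0 := fun h => by rw [h] at hη; simp at hη
  have ho0 : om ≠ 0 := om_prim.ne_zero (by norm_num)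
  have : ∀ j, ∃ e : ℤ, (e = 1 ∨ e = -1) ∧ (j + 1 < P.K →
      (ty j = true → cls (j + 1) = cls j + e) ∧ (ty j = false → col (j + 1) = col j + e)) := by
    intro j
    by_cases hj : j + 1 < P.K
    · cases h : ty j
      · have h3 := ((h1 j hj).2 h).1
        have : ∀ x y : ZMod 3, y ≠ x → y = x + 1 ∨ y = x + -1 := by decide
        rcases this _ _ h3 with h4 | h4
        · exact ⟨1, Or.inl rfl, fun _ => ⟨by simp, fun _ => by simpa using h4⟩⟩
        · exact ⟨-1, Or.inr rfl, fun _ => ⟨by simp, fun _ => by simpa using h4⟩⟩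
      · rcases ((h1 j hj).1 h).2 with h4 | h4
        · exact ⟨1, Or.inl rfl, fun _ => ⟨fun _ => by simpa using h4, by simp⟩⟩
        · exact ⟨-1, Or.inr rfl, fun _ => ⟨fun _ => by simpa [sub_eq_add_neg] using h4, by simp⟩⟩
    · exact ⟨1, Or.inl rfl, fun h => absurd h hj⟩
  choose e he1 he2 using this
  have hc : ∀ j, j < P.K → col j = col 0 + cnt ty false e j ∧ cls j = cls 0 + cnt ty true e j := by
    intro j hj
    induction j with
    | zero => simp [cnt]
    | succ j ih =>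
      obtain ⟨i1, i2⟩ := ih (by omega)
      cases h : ty j
      · rw [(he2 j hj).2 h, ((h1 j hj).2 h).2, i1, i2]; simp [cnt, h, add_assoc]
      · rw [(he2 j hj).1 h, ((h1 j hj).1 h).1, i1, i2]; simp [cnt, h, add_assoc]
  obtain ⟨Y, hY⟩ : ∃ Y : ℕ → ℂ, ∀ j, Y j = om ^ cnt ty false e j * η ^ cnt ty true e j :=
    ⟨_, fun _ => rfl⟩
  have hY1 : ∀ j, ‖Y j‖ = 1 := fun j => by
    rw [hY, norm_mul, norm_zpow, norm_zpow, om_norm, hη, one_zpow, one_zpow, one_mul]
  have hY24 : ∀ j, Y j ^ 24 = 1 := fun j => by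
    have a : om ^ 24 = 1 := by rw [show 24 = 3 * 8 from rfl, pow_mul, om_cube, one_pow]
    have b : η ^ 24 = 1 := by rw [show 24 = 8 * 3 from rfl, pow_mul, hM.pow8, one_pow]
    rw [hY, mul_pow, ← zpow_natCast, ← zpow_natCast, ← zpow_mul, ← zpow_mul, mul_comm _ ((24 : ℕ) : ℤ),
      mul_comm _ ((24 : ℕ) : ℤ), zpow_mul, zpow_mul, zpow_natCast, zpow_natCast, a, b, one_zpow,
      one_zpow, one_mul]
  have hYs : ∀ j, Y (j + 1) = Y j * (if ty j = true then η else om) ^ e j := fun j => by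
    rw [hY, hY]
    cases h : ty j <;> simp [cnt, h, zpow_add₀ hη0, zpow_add₀ ho0] <;> ring
  have hre : ∀ j, j + 1 < P.K → (Y j * conj (Y (j + 1))).re = P.gf j := fun j hj => by
    rw [hYs, re_step (hY1 j) (by split_ifs; exacts [hη, om_norm]) (he1 j), hg j hj]
    split_ifs <;> rfl
  have hsame : ∀ a b (σ : ℂ), a < P.K → b < P.K → σ ^ 2 = 1 → (σ = 1 ∨ η ^ 2 = I) →
      Y b = σ * Y a → col a = col b ∧ cls a = cls b := fun a b σ ha hb hσ hσ' h => by
    rw [hY, hY] at h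
    have h3 : om ^ (cnt ty false e b - cnt ty false e a) *
        η ^ (cnt ty true e b - cnt ty true e a) = σ := by
      rw [zpow_sub₀ ho0, zpow_sub₀ hη0, div_mul_div_comm, h, mul_div_assoc, div_self, mul_one]
      exact mul_ne_zero (zpow_ne_zero _ ho0) (zpow_ne_zero _ hη0)
    generalize hu : cnt ty false e b - cnt ty false e a = u at h3
    generalize hw : cnt ty true e b - cnt ty true e a = w at h3
    have h4 : om ^ (u * 8) = 1 := by
      have := congrArg (· ^ 8) h3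
      simp only [mul_pow] at this
      rw [show σ ^ 8 = (σ ^ 2) ^ 4 by ring, hσ, one_pow, ← zpow_natCast (η ^ w), ← zpow_mul,
        mul_comm w, zpow_mul, zpow_natCast, hM.pow8, one_zpow, mul_one, ← zpow_natCast,
        ← zpow_mul] at this
      exact this
    have h5 : ((3 : ℕ) : ℤ) ∣ u := by
      have := (om_prim.zpow_eq_one_iff_dvd _).1 h4
      omega
    rw [(om_prim.zpow_eq_one_iff_dvd _).2 h5, one_mul] at h3
    have h6 : I ^ w = 1 := by
      have hB : η ^ 2 = I → I ^ w = 1 := fun hB => by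
        rw [← hB, ← zpow_natCast, ← zpow_mul, mul_comm, zpow_mul, h3, zpow_natCast, hσ]
      rcases hσ' with rfl | hB'
      · rcases hM with ⟨rfl, -⟩ | ⟨hB', -⟩
        · exact h3
        · exact hB hB'
      · exact hB hB'
    have h7 := (Complex.isPrimitiveRoot_I.zpow_eq_one_iff_dvd _).1 h6
    rw [(hc a ha).1, (hc a ha).2, (hc b hb).1, (hc b hb).2]
    exact ⟨by rw [(ZMod.intCast_eq_intCast_iff_dvd_sub _ _ _).2 (hu ▸ h5)],
      by rw [(ZMod.intCast_eq_intCast_iff_dvd_sub _ _ _).2 (hw ▸ h7)]⟩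
  let Z : ℕ → ℂ := fun j => if j < P.K then Y j else if j = P.K then Y (P.K - 1) * ζ
    else Y (P.K - 1) * ζ * I
  have z1 : ∀ j, j < P.K → Z j = Y j := fun j hj => if_pos hj
  have z2 : Z P.K = Y (P.K - 1) * ζ := by simp only [Z, lt_self_iff_false, ↓ reduceIte]
  have z3 : Z (P.K + 1) = Y (P.K - 1) * ζ * I := by simp only [Z, add_lt_iff_neg_left, not_lt_zero, ↓ reduceIte, Nat.add_eq_left, one_ne_zero]
  have n2 : ‖Y (P.K - 1) * ζ‖ = 1 := by rw [norm_mul, hY1, hζ, one_mul]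
  refine ⟨_, H.wit_of_spike (Z := Z) hn ⟨fun j hj => ?_, fun j hj => ?_, fun a b hab hb => ?_⟩
    (fun j hj => ?_) (fun j hj => ?_) ?_ (fun a b hab hb hc => ?_)⟩
  · rw [z1 j hj, hY1]
  · rw [z1 j (by omega), z1 _ hj, hre j hj]
  · have ha : a < P.K := by omega
    rw [z1 a ha, z1 b hb]
    rcases hM with ⟨hA, hA'⟩ | ⟨hB, hB'⟩
    · refine ⟨fun h => ⟨fun ⟨p, q⟩ => ?_, ?_⟩, fun _ => ⟨?_, ?_⟩⟩
      · have := hsame a b 1 ha hb (by norm_num) (Or.inl rfl) (by rw [h, one_mul])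
        exact h2 a b hab hb p q this.1 this.2
      · rw [(hA' a).1]; omega
      · rw [(hA' b).2]; omega
      · rw [(hA' a).1]; omega
    · rw [(hB' a).1, (hB' b).2]
      refine ⟨fun h => ?_, fun h => ?_⟩ <;> rw [and_self] <;> rintro ⟨p, q⟩
      · have := hsame a b 1 ha hb (by norm_num) (Or.inl rfl) (by rw [h, one_mul])
        exact h2 a b hab hb p q this.1 this.2
      · have := hsame a b (-1) ha hb (by norm_num) (Or.inr hB) (by rw [h, neg_one_mul])
        exact h2 a b hab hb p q this.1 this.2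
  · simp only [Z]
    split_ifs
    · exact hY1 j
    · exact n2
    · rw [norm_mul, n2, norm_I, one_mul]
  · rw [z1 j hj]
    by_cases h : j + 1 < P.K
    · rw [z1 _ h, hre j h]
    · have e1 : j + 1 = P.K := by omega
      have e2 : j = P.K - 1 := by omega
      rw [e1, z2, e2, hgK, ← re_step (hY1 (P.K - 1)) hζ (Or.inl rfl), zpow_one]
  · rw [z2, z3, ← zpow_one I, re_step n2 norm_I (Or.inl rfl), I_re]
  · have key : ∀ x y : ℂ, ‖x‖ = 1 → (x * conj y).re ≠ 1 → (x * conj y).re ≠ -1 →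
        y ≠ x ∧ y ≠ -x := fun x y hx p q => by
      have hx0 : x * conj x = 1 := by rw [mul_conj, normSq_eq_norm_sq, hx]; norm_num
      constructor
      · rintro rfl; exact p (by rw [hx0, one_re])
      · rintro rfl; exact q (by rw [map_neg, mul_neg, hx0, neg_re, one_re])
    have key2 : ∀ x y : ℂ, x ^ 24 = 1 → y ^ 24 ≠ 1 → y ≠ x ∧ y ≠ -x := fun x y p q => by
      constructor
      · rintro rfl; exact q p
      · rintro rfl; exact q (by rw [Even.neg_pow (by decide), p])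
    by_cases hb1 : b < P.K
    · obtain rfl : b = a + 1 := by omega
      rw [z1 a (by omega), z1 _ hb1]
      have hr : η.re ≠ 1 ∧ η.re ≠ -1 := by
        have hh := Complex.sq_norm η
        rw [hη, normSq_apply] at hh
        rcases hM with ⟨rfl, -⟩ | ⟨hB, -⟩
        · norm_num
        · have := congrArg Complex.im hB
          simp only [pow_two, mul_im, I_im] at this
          constructor <;> intro h <;> rw [h] at hh this <;> nlinarith only [hh, this]
      apply key _ _ (hY1 a) <;> rw [hre a hb1, hg a hb1] <;> split_ifs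
      · exact hr.1
      · norm_num
      · exact hr.2
      · norm_num
    by_cases ha1 : a < P.K
    · rw [z1 a ha1]
      apply key2 _ _ (hY24 a)
      by_cases hb2 : b = P.K
      · rw [hb2, z2, mul_pow, hY24, one_mul]; exact hζ'
      · rw [show b = P.K + 1 by omega, z3, mul_pow, mul_pow, hY24, one_mul,
          show 24 = 4 * 6 from rfl, pow_mul I, I_pow_four, one_pow, mul_one]
        exact hζ'
    · rw [show a = P.K by omega, show b = P.K + 1 by omega, z2, z3]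
      apply key _ _ n2 <;> rw [← zpow_one I, re_step n2 norm_I (Or.inl rfl), I_re] <;> norm_num

/-- The geometric half of the reduction, for both thresholds. -/
theorem geo_main {P : Par} (H : P.Ok) {η ζ : ℂ} (hM : Mode P η) {ty : ℕ → Bool}
    (hg : ∀ j, j + 1 < P.K → P.gf j = if ty j = true then η.re else -1 / 2)
    (hζ : ‖ζ‖ = 1) (hζ' : ζ ^ 24 ≠ 1) (hgK : P.gf (P.K - 1) = ζ.re) {θ : ℕ → ℝ}
    (hθ : ∀ i, i + 1 < 10 * P.K + 6 → 0 < θ i ∧ θ i ≤ Real.pi ∧ Real.cos (θ i) = P.cs i) :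
    (Sol P.K P.UR P.UL ty ↔ ∃ v, IsConfig (10 * P.K + 4) P.ll θ v ∧
      (12 * P.K + P.T) * P.c1 ≤ dist (v 0) (v (10 * P.K + 4))) ∧
    (Sol P.K P.UR P.UL ty ↔ ∃ v, IsConfig (10 * P.K + 6) P.ll θ v ∧
      dist (v 0) (v (10 * P.K + 6)) ≤ (12 * P.K + P.T) * P.c1) := by
  have G4 := H.good (n := 10 * P.K + 4) (Or.inl rfl) (fun i hi => hθ i (by omega))
  have G6 := H.good (n := 10 * P.K + 6) (Or.inr rfl) hθ
  obtain ⟨-, -, b3, -, b5⟩ := H.aa_K
  have hA := H.A_pos
  have a0 : P.aa 0 = 0 := rfl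
  refine ⟨⟨fun h => ?_, fun ⟨v, hv, hd⟩ => ?_⟩, ⟨fun h => ?_, fun ⟨v, hv, hd⟩ => ?_⟩⟩
  · obtain ⟨z, hz⟩ := wit_of_sol H hM hg hζ hζ' hgK (n := 10 * P.K + 4) (by omega) h
    obtain ⟨v, hv, hd⟩ := Design.complete _ G4 hz
    refine ⟨v, hv, ?_⟩
    change dist (v 0) (v (10 * P.K + 4)) = |P.aa (10 * P.K + 3) - P.aa 0| at hd
    rw [hd, b3, a0, sub_zero]; exact le_abs_self _
  · obtain ⟨z, hz⟩ := Design.sound _ G4 hv (Design.al_max _ _
      (fun i hi => (H.aa_step (by simp only [Par.D] at hi; omega)).1)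
      (by change P.aa 0 < P.aa (10 * P.K + 3); rw [b3, a0]; exact hA)
      (by change P.aa (10 * P.K + 3) - P.aa 0 ≤ _; rw [b3, a0, sub_zero]; exact hd))
    exact sol_of_spike hM hg (H.spike_of_wit (by omega) hz)
  · obtain ⟨z, hz⟩ := wit_of_sol H hM hg hζ hζ' hgK (n := 10 * P.K + 6) (by omega) h
    obtain ⟨v, hv, hd⟩ := Design.complete _ G6 hz
    refine ⟨v, hv, ?_⟩
    change dist (v 0) (v (10 * P.K + 6)) = |P.aa (10 * P.K + 5) - P.aa 0| at hd
    rw [hd, b5, a0, sub_zero, abs_neg, abs_of_pos hA]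
  · obtain ⟨z, hz⟩ := Design.sound _ G6 hv (Design.al_min _ _ G6.hn
      (fun i hi => (H.aa_step (by simp only [Par.D] at hi; omega)).1)
      (by change P.aa (10 * P.K + 5) < P.aa 0; rw [b5, a0]; linarith)
      (by change _ ≤ P.aa 0 - P.aa (10 * P.K + 5); rw [b5, a0, zero_sub, neg_neg]; exact hd))
    exact sol_of_spike hM hg (H.spike_of_wit (by omega) hz)

end Pool.Agent.MP_e5fd74_lc.H66

end

-- part MP_e5fd74_lc.H46.Pieces
section

/-! Chains assembled from planar pieces whose ends lie on the axis. -/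

namespace Pool.Agent.MP_e5fd74_lc.H46

open Pool.Agent.MP_e5fd74_lc.H66 Set ComplexConjugate

/-- A planar piece: number of links, lengths, cosines and sines of the directions. -/
structure Pie where
  n : ℕ
  l : ℕ → ℝ
  c : ℕ → ℝ
  S : ℕ → ℝ

namespace Pie

variable (A : Pie)

def y (r : ℕ) : ℝ := ∑ i ∈ Finset.range r, A.l i * A.S i
def X (r : ℕ) : ℝ := ∑ i ∈ Finset.range r, A.l i * A.c i
noncomputable def k (r : ℕ) : ℝ := A.c r / A.S r
noncomputable def x (r : ℕ) : ℝ := A.X r - A.k r * A.y r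
def w : ℝ := A.X A.n
noncomputable def step (r : ℕ) : ℝ := (A.k r - A.k (r + 1)) * A.y (r + 1)

/-- The point `(X, s)` lies on link `r`. -/
def On (r : ℕ) (X s : ℝ) : Prop := s ∈ uIcc (A.y r) (A.y (r + 1)) ∧ X = A.x r + A.k r * s

def Pt (X s : ℝ) : Prop := ∃ r, r < A.n ∧ A.On r X s

structure Base : Prop where
  hn : 2 ≤ A.n
  hl : ∀ r, r < A.n → 0 < A.l r
  hu : ∀ r, r < A.n → A.c r ^ 2 + A.S r ^ 2 = 1
  hS : ∀ r, r < A.n → A.S r ≠ 0
  hy : A.y A.n = 0

structure Ok : Prop extends A.Base where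
  hst : ∀ r, r + 1 < A.n → A.step r ≠ 0
  simple : ∀ r r', r + 1 < r' → r' < A.n → ∀ X s, A.On r X s → ¬ A.On r' X s

theorem y_zero : A.y 0 = 0 := by simp [y]
theorem X_zero : A.X 0 = 0 := by simp [X]
theorem x_zero : A.x 0 = 0 := by simp [x, y, X]
theorem y_succ (r : ℕ) : A.y (r + 1) = A.y r + A.l r * A.S r := Finset.sum_range_succ _ _
theorem X_succ (r : ℕ) : A.X (r + 1) = A.X r + A.l r * A.c r := Finset.sum_range_succ _ _

variable {A}

theorem kS {r : ℕ} (h : A.S r ≠ 0) : A.k r * A.S r = A.c r := by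
  unfold k; field_simp

theorem x_alt {r : ℕ} (h : A.S r ≠ 0) : A.x r = A.X (r + 1) - A.k r * A.y (r + 1) := by
  rw [x, X_succ, y_succ, ← kS h]; ring

theorem x_succ {r : ℕ} (h : A.S r ≠ 0) : A.x (r + 1) = A.x r + A.step r := by
  rw [x_alt h, x, step]; ring

theorem Base.x_last (H : A.Base) : A.x (A.n - 1) = A.w := by
  have := H.hn
  rw [x_alt (H.hS _ (by omega)), show A.n - 1 + 1 = A.n by omega, H.hy, w]; ring

/-- Every point of a piece is within the total length of its start. -/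
theorem Base.crude (H : A.Base) {X s : ℝ} (h : A.Pt X s) :
    |X| ≤ ∑ i ∈ Finset.range A.n, A.l i ∧ |s| ≤ ∑ i ∈ Finset.range A.n, A.l i := by
  obtain ⟨r, hr, h1, rfl⟩ := h
  have hb : ∀ r, r ≤ A.n → |A.X r| ≤ ∑ i ∈ Finset.range A.n, A.l i ∧
      |A.y r| ≤ ∑ i ∈ Finset.range A.n, A.l i := fun r hr => by
    have key : ∀ f : ℕ → ℝ, (∀ i, i < A.n → f i ^ 2 ≤ 1) →
        |∑ i ∈ Finset.range r, A.l i * f i| ≤ ∑ i ∈ Finset.range A.n, A.l i := fun f hf => by
      refine (Finset.abs_sum_le_sum_abs _ _).trans ((Finset.sum_le_sum (g := A.l) ?_).trans ?_)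
      · intro i hi
        have hi' : i < A.n := lt_of_lt_of_le (Finset.mem_range.1 hi) hr
        rw [abs_mul, abs_of_pos (H.hl i hi')]
        exact mul_le_of_le_one_right (H.hl i hi').le ((sq_le_one_iff_abs_le_one _).1 (hf i hi'))
      · exact Finset.sum_le_sum_of_subset_of_nonneg (Finset.range_mono hr)
          (fun i hi _ => (H.hl i (Finset.mem_range.1 hi)).le)
    exact ⟨key A.c (fun i hi => by linarith only [H.hu i hi, sq_nonneg (A.S i)]),
      key A.S (fun i hi => by linarith only [H.hu i hi, sq_nonneg (A.c i)])⟩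
  obtain ⟨a1, a2⟩ := hb r hr.le
  obtain ⟨b1, b2⟩ := hb (r + 1) hr
  rw [← segment_eq_uIcc] at h1
  obtain ⟨p, q, hp, hq, hpq, rfl⟩ := h1
  have e : A.x r + A.k r * (p • A.y r + q • A.y (r + 1)) = p * A.X r + q * A.X (r + 1) := by
    have e1 := x_alt (H.hS r hr)
    have e2 : A.x r = A.X r - A.k r * A.y r := rfl
    simp only [smul_eq_mul]
    linear_combination p * e2 + q * e1 - A.x r * hpq
  rw [e, smul_eq_mul, smul_eq_mul]
  simp only [abs_le] at a1 a2 b1 b2 ⊢
  generalize ∑ i ∈ Finset.range A.n, A.l i = L at *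
  have f : ∀ u v : ℝ, -L ≤ u ∧ u ≤ L → -L ≤ v ∧ v ≤ L → -L ≤ p * u + q * v ∧ p * u + q * v ≤ L :=
    fun u v hu hv => by
      have := mul_le_mul_of_nonneg_left hu.1 hp
      have := mul_le_mul_of_nonneg_left hu.2 hp
      have := mul_le_mul_of_nonneg_left hv.1 hq
      have := mul_le_mul_of_nonneg_left hv.2 hq
      have : p * L + q * L = L := by rw [← add_mul, hpq, one_mul]
      constructor <;> linarith
  exact ⟨f _ _ a1 b1, f _ _ a2 b2⟩

end Pie

/-- Position of the first link of piece `p`. -/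
def st (n : ℕ → ℕ) (p : ℕ) : ℕ := ∑ q ∈ Finset.range p, n q

theorem st_succ (n : ℕ → ℕ) (p : ℕ) : st n (p + 1) = st n p + n p := Finset.sum_range_succ _ _

/-- Piece and place of link `i`. -/
def idx (n : ℕ → ℕ) : ℕ → ℕ × ℕ
  | 0 => (0, 0)
  | i + 1 => if (idx n i).2 + 1 < n (idx n i).1 then ((idx n i).1, (idx n i).2 + 1)
    else ((idx n i).1 + 1, 0)

theorem idx_st {n : ℕ → ℕ} {m : ℕ} (h : ∀ p, p < m → 1 ≤ n p) (p : ℕ) (hp : p ≤ m) :
    idx n (st n p) = (p, 0) ∧ ∀ r, r < n p → idx n (st n p + r) = (p, r) := by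
  have key : ∀ p, idx n (st n p) = (p, 0) → ∀ r, r < n p → idx n (st n p + r) = (p, r) := by
    intro p h0 r hr
    induction r with
    | zero => exact h0
    | succ r ih => rw [← add_assoc, idx, ih (by omega), if_pos hr]
  induction p with
  | zero => exact ⟨rfl, key 0 rfl⟩
  | succ p ih =>
    have h1 := h p (by omega)
    have h2 : idx n (st n (p + 1)) = (p + 1, 0) := by
      rw [st_succ, show st n p + n p = st n p + (n p - 1) + 1 by omega, idx,
        (ih (by omega)).2 _ (by omega), if_neg (by dsimp only; omega)]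
    exact ⟨h2, key _ h2⟩

theorem exists_st (n : ℕ → ℕ) (m i : ℕ) (hi : i < st n m) :
    ∃ p r, p < m ∧ r < n p ∧ i = st n p + r := by
  induction m with
  | zero => simp [st] at hi
  | succ m ih =>
    rw [st_succ] at hi
    by_cases h : i < st n m
    · obtain ⟨p, r, a, b, c⟩ := ih h
      exact ⟨p, r, by omega, b, c⟩
    · exact ⟨m, i - st n m, by omega, by omega, by omega⟩

theorem st_mono (n : ℕ → ℕ) {p q : ℕ} (h : p ≤ q) : st n p ≤ st n q :=
  Finset.sum_le_sum_of_subset (Finset.range_mono h)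

theorem st_lt (n : ℕ → ℕ) {p q r : ℕ} (h : p < q) (hr : r < n p) : st n p + r < st n q := by
  have := st_mono n (show p + 1 ≤ q from h)
  rw [st_succ] at this; omega

theorem length_flat {α : Type} (n : ℕ → ℕ) (f : ℕ → ℕ → α) (m : ℕ) :
    ((List.range m).flatMap (fun p => (List.range (n p)).map (f p))).length = st n m := by
  induction m with
  | zero => rfl
  | succ m ih => rw [List.range_succ, List.flatMap_append, List.length_append, ih, st_succ]; simp

theorem getD_flat {α : Type} (n : ℕ → ℕ) (f : ℕ → ℕ → α) (d : α) {m p r : ℕ} (hp : p < m)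
    (hr : r < n p) :
    ((List.range m).flatMap (fun p => (List.range (n p)).map (f p))).getD (st n p + r) d =
      f p r := by
  induction m with
  | zero => omega
  | succ m ih =>
    rw [List.range_succ, List.flatMap_append]
    rcases Nat.lt_or_ge p m with h | h
    · rw [List.getD_append _ _ _ _ (by rw [length_flat]; exact st_lt n h hr), ih h]
    · obtain rfl : p = m := by omega
      rw [List.getD_append_right _ _ _ _ (by rw [length_flat]; omega), length_flat,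
        Nat.add_sub_cancel_left]
      simp [hr]

/-- Pieces, joint angles and fold cosines. -/
structure Chn where
  m : ℕ
  A : ℕ → Pie
  g : ℕ → ℝ
  θ : ℕ → ℕ → ℝ

namespace Chn

variable (C : Chn)

def nn (p : ℕ) : ℕ := (C.A p).n
def N : ℕ := st C.nn C.m
def o (p : ℕ) : ℝ := ∑ q ∈ Finset.range p, (C.A q).w
def ix (i : ℕ) : ℕ × ℕ := idx C.nn i
def ll (i : ℕ) : ℝ := (C.A (C.ix i).1).l (C.ix i).2
def th (i : ℕ) : ℝ := C.θ (C.ix i).1 (C.ix i).2

noncomputable def D : Design where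
  n := C.N
  l := C.ll
  S := fun i => (C.A (C.ix i).1).S (C.ix i).2
  k := fun i => (C.A (C.ix i).1).k (C.ix i).2
  g := fun i => if (C.ix i).2 + 1 < C.nn (C.ix i).1 then 1 else C.g (C.ix i).1
  y := fun i => (C.A (C.ix i).1).y (C.ix i).2
  a := fun i => C.o (C.ix i).1 + (C.A (C.ix i).1).x (C.ix i).2

/-- Pieces `a` and `b`, drawn in one plane with relative orientation `σ`, meet. -/
def Conf (a b : ℕ) (σ : ℝ) : Prop :=
  ∃ X s, (C.A a).Pt (X - C.o a) s ∧ (C.A b).Pt (X - C.o b) (σ * s)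

/-- A choice of planes for the pieces without crossings. -/
def Pl (Z : ℕ → ℂ) : Prop :=
  (∀ p, p < C.m → ‖Z p‖ = 1) ∧ (∀ p, p + 1 < C.m → (Z p * conj (Z (p + 1))).re = C.g p) ∧
  ∀ a b, a + 1 < b → b < C.m → (Z b = Z a → ¬ C.Conf a b 1) ∧ (Z b = -Z a → ¬ C.Conf a b (-1))

structure Ok : Prop where
  hm : 1 ≤ C.m
  hA : ∀ p, p < C.m → (C.A p).Ok
  hθ : ∀ p r, p < C.m → r + 1 < C.nn p → 0 < C.θ p r ∧ C.θ p r ≤ Real.pi ∧ Real.cos (C.θ p r) =
    -((C.A p).c r * (C.A p).c (r + 1) + (C.A p).S r * (C.A p).S (r + 1))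
  hf : ∀ p r, p + 1 < C.m → r + 1 = C.nn p → 0 < C.θ p r ∧ C.θ p r ≤ Real.pi ∧
    Real.cos (C.θ p r) =
      -((C.A p).c r * (C.A (p + 1)).c 0 + C.g p * ((C.A p).S r * (C.A (p + 1)).S 0))
  hg : ∀ p, p + 1 < C.m → -1 < C.g p ∧ C.g p < 1

theorem o_succ (p : ℕ) : C.o (p + 1) = C.o p + (C.A p).w := Finset.sum_range_succ _ _

variable {C}

theorem Ok.n2 (H : C.Ok) {p : ℕ} (hp : p < C.m) : 2 ≤ C.nn p := (H.hA p hp).hn

theorem Ok.ix0 (H : C.Ok) {p : ℕ} (hp : p ≤ C.m) : C.ix (st C.nn p) = (p, 0) :=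
  (idx_st (fun q hq => by have := H.n2 hq; omega) p hp).1

theorem Ok.ix1 (H : C.Ok) {p r : ℕ} (hp : p < C.m) (hr : r < C.nn p) :
    C.ix (st C.nn p + r) = (p, r) :=
  (idx_st (fun q hq => by have := H.n2 hq; omega) p hp.le).2 r hr

/-- The two kinds of joints. -/
theorem Ok.cases (H : C.Ok) {i : ℕ} (hi : i < C.N) : ∃ p r, p < C.m ∧ r < C.nn p ∧
    i = st C.nn p + r ∧ C.ix i = (p, r) ∧ ((r + 1 < C.nn p ∧ C.ix (i + 1) = (p, r + 1)) ∨
      (r + 1 = C.nn p ∧ C.ix (i + 1) = (p + 1, 0) ∧ (i + 1 < C.N → p + 1 < C.m))) := by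
  obtain ⟨p, r, hp, hr, rfl⟩ := exists_st _ _ _ hi
  refine ⟨p, r, hp, hr, rfl, H.ix1 hp hr, ?_⟩
  rcases Nat.lt_or_ge (r + 1) (C.nn p) with h | h
  · exact Or.inl ⟨h, H.ix1 hp h⟩
  · have e : st C.nn p + r + 1 = st C.nn (p + 1) := by rw [st_succ]; omega
    refine Or.inr ⟨by omega, by rw [e]; exact H.ix0 hp, fun h2 => ?_⟩
    by_contra h3
    rw [e, N, show C.m = p + 1 by omega] at h2
    exact lt_irrefl _ h2

theorem Ok.N2 (H : C.Ok) : 2 ≤ C.N := by
  have h1 := st_mono C.nn H.hm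
  have h2 := H.n2 (p := 0) H.hm
  rw [st_succ] at h1
  unfold N; omega

theorem Ok.a_succ (H : C.Ok) {i : ℕ} (hi : i + 1 < C.N) :
    C.D.a (i + 1) = C.D.a i + (C.D.k i - C.D.k (i + 1)) * C.D.y (i + 1) := by
  obtain ⟨p, r, hp, hr, -, e1, ⟨h, e2⟩ | ⟨h, e2, -⟩⟩ := H.cases (show i < C.N by omega)
  · simp only [D, e1, e2]
    rw [Pie.x_succ ((H.hA p hp).hS r hr), Pie.step, add_assoc]
  · simp only [D, e1, e2]
    rw [Pie.y_zero, Pie.x_zero, o_succ, ← (H.hA p hp).toBase.x_last,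
      show (C.A p).n - 1 = r by unfold nn at h; omega]
    ring

theorem Ok.a_zero (H : C.Ok) : C.D.a 0 = 0 := by
  have := H.ix0 (p := 0) (Nat.zero_le _)
  simp only [st, Finset.range_zero, Finset.sum_empty] at this
  simp [D, this, o, Pie.x_zero]

theorem Ok.a_last (H : C.Ok) : C.D.a (C.N - 1) = C.o C.m := by
  obtain ⟨p, hp⟩ : ∃ p, C.m = p + 1 := ⟨C.m - 1, by have := H.hm; omega⟩
  have h2 := H.n2 (p := p) (by omega)
  have e : C.N - 1 = st C.nn p + (C.nn p - 1) := by rw [N, hp, st_succ]; omega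
  simp only [D]
  rw [e, H.ix1 (by omega) (by omega), hp, o_succ]
  exact congrArg _ (H.hA p (by omega)).toBase.x_last

theorem Ok.good (H : C.Ok) (hne : ∀ i j, i + 1 < j → j < C.N → C.D.a i ≠ C.D.a j) :
    C.D.Good C.th := by
  refine ⟨H.N2, fun i hi => ?_, fun i hi => ?_, fun i hi => ?_, ?_, ?_, fun i hi => H.a_succ hi,
    fun i hi => ?_, fun i hi => ?_, hne⟩
  · obtain ⟨p, r, hp, hr, -, e1, -⟩ := H.cases hi
    simp only [D, ll, e1]; exact (H.hA p hp).hl r hr
  · obtain ⟨p, r, hp, hr, -, e1, -⟩ := H.cases hi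
    simp only [D, e1]
    have h1 := (H.hA p hp).hu r hr
    rw [← Pie.kS ((H.hA p hp).hS r hr)] at h1
    linear_combination h1
  · obtain ⟨p, r, hp, hr, -, e1, ⟨h, e2⟩ | ⟨h, e2, -⟩⟩ := H.cases hi
    · simp only [D, ll, e1, e2]; exact Pie.y_succ _ _
    · simp only [D, ll, e1, e2]
      rw [← Pie.y_succ, h, Pie.y_zero]; exact (H.hA p hp).hy.symm
  · have := H.ix0 (p := 0) (Nat.zero_le _)
    simp only [st, Finset.range_zero, Finset.sum_empty] at this
    simp [D, this, Pie.y_zero]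
  · simp only [D, N, H.ix0 le_rfl, Pie.y_zero]
  · obtain ⟨p, r, hp, hr, -, e1, ⟨h, e2⟩ | ⟨h, e2, -⟩⟩ := H.cases (show i < C.N from by
      change i + 1 < C.N at hi; omega)
    · right
      simp only [D, e1, e2, if_pos h, true_and]
      intro h3
      exact (H.hA p hp).hst r h (by rw [Pie.step, h3, sub_self, zero_mul])
    · left; simp only [D, e2, Pie.y_zero]
  · obtain ⟨p, r, hp, hr, -, e1, ⟨h, e2⟩ | ⟨h, e2, h3⟩⟩ := H.cases (show i < C.N from by
      change i + 1 < C.N at hi; omega)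
    · obtain ⟨a, b, c⟩ := H.hθ p r hp h
      simp only [D, th, e1, e2, if_pos h]
      refine ⟨a, b, c.trans ?_⟩
      rw [← Pie.kS ((H.hA p hp).hS r hr), ← Pie.kS ((H.hA p hp).hS _ h)]; ring
    · obtain ⟨a, b, c⟩ := H.hf p r (h3 hi) h
      simp only [D, th, e1, e2, if_neg (show ¬ r + 1 < C.nn p by omega)]
      refine ⟨a, b, c.trans ?_⟩
      rw [← Pie.kS ((H.hA p hp).hS r hr), ← Pie.kS ((H.hA _ (h3 hi)).hS 0
        (by have := H.n2 (h3 hi); unfold nn at this; omega))]; ring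

theorem Ok.meet_iff (H : C.Ok) {a b r r' : ℕ} (ha : a < C.m) (hb : b < C.m) (hr : r < C.nn a)
    (hr' : r' < C.nn b) (σ : ℝ) : C.D.Meet (st C.nn a + r) (st C.nn b + r') σ ↔
    ∃ X s, (C.A a).On r (X - C.o a) s ∧ (C.A b).On r' (X - C.o b) (σ * s) := by
  have e : ∀ {p r : ℕ}, p < C.m → r < C.nn p →
      C.D.y (st C.nn p + r + 1) = (C.A p).y (r + 1) := fun {p r} hp hr => by
    obtain ⟨p', r', -, -, -, e1, ⟨h, e2⟩ | ⟨h, e2, -⟩⟩ := H.cases (st_lt C.nn hp hr)
    · rw [H.ix1 hp hr] at e1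
      obtain ⟨rfl, rfl⟩ := Prod.mk.inj e1
      simp only [D, e2]
    · rw [H.ix1 hp hr] at e1
      obtain ⟨rfl, rfl⟩ := Prod.mk.inj e1
      simp only [D, e2]
      rw [h, Pie.y_zero]; exact (H.hA p hp).hy.symm
  unfold Design.Meet Pie.On
  rw [e ha hr, e hb hr']
  simp only [D, H.ix1 ha hr, H.ix1 hb hr']
  constructor
  · rintro ⟨s, h1, h2, h3⟩
    exact ⟨C.o a + (C.A a).x r + (C.A a).k r * s, s, ⟨h1, by ring⟩, h2, by linarith only [h3]⟩
  · rintro ⟨X, s, ⟨h1, h3⟩, h2, h4⟩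
    exact ⟨s, h1, h2, by linarith only [h3, h4]⟩

theorem Ok.pl_of_wit (H : C.Ok) {z : ℕ → ℂ} (hz : C.D.Wit z) : C.Pl (fun p => z (st C.nn p)) := by
  obtain ⟨h1, h2, h3⟩ := hz
  have hc : ∀ p r, p < C.m → r < C.nn p → z (st C.nn p + r) = z (st C.nn p) := by
    intro p r hp hr
    induction r with
    | zero => rfl
    | succ r ih =>
      have h4 := st_lt C.nn hp hr
      rw [← ih (by omega), ← add_assoc]
      refine eq_of_re_one (h1 _ (show _ < C.N by unfold N; omega)) (h1 _ h4) ?_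
      rw [h2 (st C.nn p + r) h4]
      simp only [D, H.ix1 hp (show r < C.nn p by omega), if_pos hr]
  refine ⟨fun p hp => h1 _ (st_lt C.nn hp (r := 0) (by have := H.n2 hp; omega)), fun p hp => ?_,
    fun a b hab hb => ?_⟩
  · have h4 := H.n2 (p := p) (by omega)
    have h5 := H.n2 hp
    have e : st C.nn p + (C.nn p - 1) + 1 = st C.nn (p + 1) := by rw [st_succ]; omega
    have := h2 (st C.nn p + (C.nn p - 1)) (by rw [e]; exact st_lt C.nn hp (r := 0) (by omega))
    rw [e, hc p _ (by omega) (by omega)] at this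
    rw [this]
    simp only [D, H.ix1 (show p < C.m by omega) (show C.nn p - 1 < C.nn p by omega)]
    rw [if_neg (by omega)]
  · have ha : a < C.m := by omega
    have key : ∀ r r', r < C.nn a → r' < C.nn b →
        (z (st C.nn b) = z (st C.nn a) → ¬ C.D.Meet (st C.nn a + r) (st C.nn b + r') 1) ∧
        (z (st C.nn b) = -z (st C.nn a) → ¬ C.D.Meet (st C.nn a + r) (st C.nn b + r') (-1)) :=
      fun r r' hr hr' => by
        have h4 := st_lt C.nn hab (r := 1) (by have := H.n2 (p := a + 1) (by omega); omega)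
        rw [st_succ] at h4
        have := h3 (st C.nn a + r) (st C.nn b + r') (by omega) (st_lt C.nn hb hr')
        rwa [hc a r ha hr, hc b r' hb hr'] at this
    constructor
    · rintro h ⟨X, s, ⟨r, hr, p⟩, r', hr', q⟩
      exact (key r r' hr hr').1 h ((H.meet_iff ha hb hr hr' _).2 ⟨X, s, p, q⟩)
    · rintro h ⟨X, s, ⟨r, hr, p⟩, r', hr', q⟩
      exact (key r r' hr hr').2 h ((H.meet_iff ha hb hr hr' _).2 ⟨X, s, p, q⟩)

theorem Ok.wit_of_pl (H : C.Ok) {Z : ℕ → ℂ} (hZ : C.Pl Z) : C.D.Wit (fun i => Z (C.ix i).1) := by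
  obtain ⟨h1, h2, h3⟩ := hZ
  have hself : ∀ p, p < C.m → (Z p * conj (Z p)).re = 1 := fun p hp => by
    rw [Complex.mul_conj, Complex.ofReal_re, Complex.normSq_eq_norm_sq, h1 p hp]; norm_num
  refine ⟨fun i hi => ?_, fun i hi => ?_, fun i j hij hj => ?_⟩
  · obtain ⟨p, r, hp, hr, -, e1, -⟩ := H.cases hi
    simp only [e1]; exact h1 p hp
  · obtain ⟨p, r, hp, hr, -, e1, ⟨h, e2⟩ | ⟨h, e2, h4⟩⟩ := H.cases (show i < C.N from by
      change i + 1 < C.N at hi; omega)
    · simp only [D, e1, e2, if_pos h]; exact hself p hp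
    · simp only [D, e1, e2, if_neg (show ¬ r + 1 < C.nn p by omega)]; exact h2 p (h4 hi)
  obtain ⟨a, r, ha, hr, rfl, e1, -⟩ := H.cases (show i < C.N from by change j < C.N at hj; omega)
  obtain ⟨b, r', hb, hr', rfl, e2, -⟩ := H.cases hj
  simp only [e1, e2, H.meet_iff ha hb hr hr']
  rcases (by omega : b < a ∨ b = a ∨ b = a + 1 ∨ a + 1 < b) with h | rfl | rfl | h
  · have := st_lt C.nn h hr'; omega
  · refine ⟨?_, fun h => ?_⟩
    · rintro - ⟨X, s, p, q⟩
      rw [one_mul] at q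
      exact (H.hA b hb).simple r r' (by omega) hr' _ _ p q
    · have h5 : Z b = 0 := by linear_combination h / 2
      have := h1 b hb
      rw [h5] at this
      simp at this
  · have h5 := h2 a hb
    have h6 := H.hg a hb
    have h7 := hself a ha
    refine ⟨fun h => ?_, fun h => ?_⟩
    · rw [h] at h5; linarith only [h6.2, h5, h7]
    · rw [h, map_neg, mul_neg, Complex.neg_re] at h5; linarith only [h6.1, h5, h7]
  · refine ⟨fun h4 => ?_, fun h4 => ?_⟩
    · rintro ⟨X, s, p, q⟩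
      exact (h3 a b h hb).1 h4 ⟨X, s, ⟨r, hr, p⟩, r', hr', q⟩
    · rintro ⟨X, s, p, q⟩
      exact (h3 a b h hb).2 h4 ⟨X, s, ⟨r, hr, p⟩, r', hr', q⟩

theorem Ok.mono (H : C.Ok) {B : ℕ} (hB : B ≤ C.N)
    (h : ∀ p r, p < C.m → r + 1 < C.nn p → st C.nn p + r + 1 < B → 0 < (C.A p).step r) :
    (∀ i, i + 1 < B → C.D.a i ≤ C.D.a (i + 1)) ∧ (∀ i j, i ≤ j → j < B → C.D.a i ≤ C.D.a j) ∧
      ∀ i j, i + 1 < j → j < B → C.D.a i < C.D.a j := by
  have h1 : ∀ i, i + 1 < B → C.D.a i ≤ C.D.a (i + 1) ∧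
      ((C.ix i).2 = 0 ∨ (C.ix (i + 1)).2 ≠ 0 → C.D.a i < C.D.a (i + 1)) := fun i hi => by
    rw [H.a_succ (by omega)]
    obtain ⟨p, r, hp, hr, e0, e1, ⟨h2, e2⟩ | ⟨h2, e2, -⟩⟩ := H.cases (show i < C.N by omega)
    · have := h p r hp h2 (by omega)
      simp only [D, e1, e2]
      unfold Pie.step at this
      exact ⟨by linarith only [this], fun _ => by linarith only [this]⟩
    · have := H.n2 hp
      simp only [D, e1, e2, Pie.y_zero, mul_zero, add_zero, le_refl, true_and]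
      intro h3; omega
  have h2 : ∀ i j, i ≤ j → j < B → C.D.a i ≤ C.D.a j := fun i j hij hj => by
    induction j, hij using Nat.le_induction with
    | base => exact le_rfl
    | succ m _ ih => exact (ih (by omega)).trans (h1 m hj).1
  refine ⟨fun i hi => (h1 i hi).1, h2, fun i j hij hj => ?_⟩
  have a1 := h1 i (by omega)
  have a2 := h1 (i + 1) (by omega)
  have a3 := h2 (i + 1 + 1) j hij hj
  by_cases h3 : (C.ix (i + 1)).2 = 0
  · linarith only [a1.1, a2.2 (Or.inl h3), a3]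
  · linarith only [a2.1, a1.2 (Or.inr h3), a3]

theorem Ok.main_max (H : C.Ok) (h : ∀ p r, p < C.m → r + 1 < C.nn p → 0 < (C.A p).step r)
    (h0 : 0 < C.o C.m) :
    (∃ Z, C.Pl Z) ↔ ∃ v, IsConfig C.N C.ll C.th v ∧ C.o C.m ≤ dist (v 0) (v C.N) := by
  obtain ⟨m1, -, m3⟩ := H.mono le_rfl (fun p r hp hr _ => h p r hp hr)
  have G := H.good (fun i j hij hj => (m3 i j hij hj).ne)
  constructor
  · rintro ⟨Z, hZ⟩
    obtain ⟨v, hv, hd⟩ := Design.complete _ G (H.wit_of_pl hZ)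
    refine ⟨v, hv, ?_⟩
    change dist (v 0) (v C.N) = |C.D.a (C.N - 1) - C.D.a 0| at hd
    rw [hd, H.a_last, H.a_zero, sub_zero]; exact le_abs_self _
  · rintro ⟨v, hv, hd⟩
    obtain ⟨z, hz⟩ := Design.sound _ G hv (Design.al_max _ _ m1
      (by change C.D.a 0 < C.D.a (C.N - 1); rwa [H.a_last, H.a_zero])
      (by change C.D.a (C.N - 1) - C.D.a 0 ≤ _; rwa [H.a_last, H.a_zero, sub_zero]))
    exact ⟨_, H.pl_of_wit hz⟩

theorem Ok.main_min (H : C.Ok)
    (h : ∀ p r, p < C.m → r + 1 < C.nn p → (p + 1 < C.m ∨ r + 2 < C.nn p) → 0 < (C.A p).step r)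
    (h0 : C.o C.m < 0) :
    (∃ Z, C.Pl Z) ↔ ∃ v, IsConfig C.N C.ll C.th v ∧ dist (v 0) (v C.N) ≤ -C.o C.m := by
  have hN := H.N2
  obtain ⟨m1, m2, m3⟩ := H.mono (B := C.N - 1) (by omega) (fun p r hp hr h1 => h p r hp hr (by
    by_contra h2
    rw [N, show C.m = p + 1 by omega, st_succ] at h1
    omega))
  have G := H.good (fun i j hij hj => by
    rcases Nat.lt_or_ge j (C.N - 1) with h1 | h1
    · exact (m3 i j hij h1).ne
    · have := m2 0 i (Nat.zero_le _) (by omega)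
      rw [show j = C.N - 1 by omega, H.a_last]
      rw [H.a_zero] at this
      linarith only [h0, this])
  constructor
  · rintro ⟨Z, hZ⟩
    obtain ⟨v, hv, hd⟩ := Design.complete _ G (H.wit_of_pl hZ)
    refine ⟨v, hv, ?_⟩
    change dist (v 0) (v C.N) = |C.D.a (C.N - 1) - C.D.a 0| at hd
    rw [hd, H.a_last, H.a_zero, sub_zero, abs_of_neg h0]
  · rintro ⟨v, hv, hd⟩
    obtain ⟨z, hz⟩ := Design.sound _ G hv (Design.al_min _ _ hN
      (fun i hi => m1 i (by change i + 2 < C.N at hi; omega))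
      (by change C.D.a (C.N - 1) < C.D.a 0; rwa [H.a_last, H.a_zero])
      (by change _ ≤ C.D.a 0 - C.D.a (C.N - 1); rwa [H.a_last, H.a_zero, zero_sub]))
    exact ⟨_, H.pl_of_wit hz⟩

end Chn

end Pool.Agent.MP_e5fd74_lc.H46

end
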