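import Pool.Agent.MP_e5fd74_lc.Mg.H46_Shape

attribute [-instance] Fintype.decidableForallFintype Finset.decidableDforallFinset
  Multiset.decidableDforallMultiset Vector.instDecidableForallForallMemOfDecidablePred
  Array.instDecidableForallForallMemOfDecidablePred Int.decidableLTLE Option.decidableForallMem
  Int.decidableLELE Int.decidableLTLT Int.decidableLELT AddQuantale.instAddLeftMono
  forall_prop_decidable NumberField.to_charZero instCoeHTCTOfCoeHTC AddQuantale.instAddRightMono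
  RKHS.instFunLike instCoeHTCTOfCoeTailOfCoeHTC NeZero.of_gt' instCoeTOfCoeDep
  Quantale.instMulRightMono instCoeT Invertible.toNeZero

/-! The vertex piece: coordinates, simplicity and envelope. -/

namespace Pool.Agent.MP_e5fd74_lc.H46

open Set Real

def fM (ψ : ℚ) (m r : ℕ) : ℚ :=
  if r = 0 then 3 / 8 else if r = 1 then 1 / 4 else if r = 11 + 4 * m then -1 / 4
  else if r = 12 + 4 * m then -3 / 8
  else if r < 4 ∨ (7 + 2 * m ≤ r ∧ r < 9 + 4 * m) then (if r % 2 = 0 then ψ else 3 / 2)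
  else (if r % 2 = 0 then -ψ else -3 / 2)

def lM (m : ℕ) (D T a b c d : ℚ) (r : ℕ) : ℚ :=
  if r = 0 ∨ r = 12 + 4 * m then 24 else if r = 1 ∨ r = 11 + 4 * m then 48
  else if r = 2 then a else if r = 3 then a + 1 else if r = 4 then b else if r = 5 then b + 1 + D
  else if r < 6 + 2 * m then (T - b - d - 1) / m else if r = 6 + 2 * m then 1
  else if r = 7 + 2 * m then (T - a - c) / m + 1 else if r < 7 + 4 * m then (T - a - c) / m
  else if r = 7 + 4 * m then c + D - 1 else if r = 8 + 4 * m then c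
  else if r = 9 + 4 * m then d + 1 else d

def qM (ψ : ℚ) (m : ℕ) (e : ℚ) (r : ℕ) : ℚ :=
  if r = 0 ∨ r = 11 + 4 * m then 1 / 8 else if r = 1 ∨ r = 10 + 4 * m then ψ - 1 / 4
  else if r = 3 ∨ r = 6 + 2 * m ∨ r = 8 + 4 * m then ψ + 3 / 2
  else if r = 12 + 4 * m then e else ψ - 3 / 2

noncomputable def pM (ψ : ℚ) (m : ℕ) (D T a b c d : ℚ) : Pie :=
  fp (13 + 4 * m) (-1) 0 (fM ψ m) (lM m D T a b c d)

theorem qM_ok (ψ : ℚ) (m : ℕ) (e : ℚ) (r : ℕ) (hr : r + 1 < 13 + 4 * m) :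
    qM ψ m e r = fM ψ m (r + 1) - fM ψ m r ∨ qM ψ m e r = fM ψ m r - fM ψ m (r + 1) := by
  rcases (by omega : r = 0 ∨ r = 1 ∨ r = 2 ∨ r = 3 ∨ (4 ≤ r ∧ r < 6 + 2 * m ∧ r % 2 = 0) ∨
    (4 ≤ r ∧ r < 6 + 2 * m ∧ r % 2 = 1) ∨ r = 6 + 2 * m ∨
    (7 + 2 * m ≤ r ∧ r < 8 + 4 * m ∧ r % 2 = 0) ∨ (7 + 2 * m ≤ r ∧ r < 8 + 4 * m ∧ r % 2 = 1) ∨
    r = 8 + 4 * m ∨ r = 9 + 4 * m ∨ r = 10 + 4 * m ∨ r = 11 + 4 * m) with
    h | h | h | h | h | h | h | h | h | h | h | h | h <;> (unfold qM; simp (disch := omega) only [if_pos, if_neg, true_or, or_true, if_true]) <;> (unfold fM; simp (disch := omega) only [if_pos, if_neg, true_or, or_true, if_true]) <;>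
    first | (left; ring1) | (right; ring1)

/-- Numerical facts on the fixed directions. -/
theorem trig0 : 1 / 3 < sin (3 / 8 : ℝ) ∧ sin (3 / 8 : ℝ) < 3 / 8 ∧ 6 / 25 < sin (1 / 4 : ℝ) ∧
    sin (1 / 4 : ℝ) < 1 / 4 ∧ 9 / 10 < cos (3 / 8 : ℝ) ∧ cos (3 / 8 : ℝ) ≤ 1 ∧
    9 / 10 < cos (1 / 4 : ℝ) ∧ cos (1 / 4 : ℝ) ≤ 1 ∧ 1 / 20 < cos (3 / 2 : ℝ) ∧
    cos (3 / 2 : ℝ) < 2 / 25 ∧ 99 / 100 < sin (3 / 2 : ℝ) := by
  have a := sin_lo (x := 3 / 8) (by norm_num)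
  have b := sin_lo (x := 1 / 4) (by norm_num)
  have c := one_sub_sq_div_two_le_cos (x := (3 / 8 : ℝ))
  have d := one_sub_sq_div_two_le_cos (x := (1 / 4 : ℝ))
  have p1 := pi_gt_d2
  have p2 := pi_lt_d2
  have e := sin_lo (x := π / 2 - 3 / 2) (by linarith only [p1])
  have f := sin_lt (x := π / 2 - 3 / 2) (by linarith only [p1])
  have g := one_sub_sq_div_two_le_cos (x := π / 2 - 3 / 2)
  rw [sin_pi_div_two_sub] at e f
  rw [cos_pi_div_two_sub] at g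
  have h1 : 7 / 100 < π / 2 - 3 / 2 := by linarith only [p1]
  have h2 : π / 2 - 3 / 2 < 2 / 25 := by linarith only [p2]
  generalize π / 2 - 3 / 2 = x at *
  refine ⟨by linarith only [a], sin_lt (by norm_num), by linarith only [b], sin_lt (by norm_num), by linarith only [c],
    cos_le_one _, by linarith only [d], cos_le_one _, ?_, by linarith only [f, h2], by nlinarith only [e, f, g, h2]⟩
  have : x ^ 3 < 1 / 100 := by
    have := pow_lt_pow_left₀ h2 (by linarith only [h1]) (n := 3) (by norm_num)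
    linarith only [this]
  linarith only [e, h1, this]

theorem trig1 {ψ : ℝ} (h1 : 3 / 2 < ψ) (h2 : ψ ≤ 3 / 2 + 1 / 100) :
    0 < cos ψ ∧ cos ψ < cos (3 / 2) ∧ sin (3 / 2) < sin ψ ∧ cos (3 / 2) - cos ψ ≤ ψ - 3 / 2 ∧
    sin ψ - sin (3 / 2) ≤ ψ - 3 / 2 ∧ ψ < π / 2 := by
  have p1 := pi_gt_d2
  have a1 := abs_cos_sub_cos_le (3 / 2) ψ
  have a2 := abs_sin_sub_sin_le ψ (3 / 2)
  rw [abs_sub_comm (3 / 2 : ℝ) ψ] at a1
  rw [abs_of_pos (sub_pos.2 h1)] at a1 a2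
  exact ⟨cos_pos_of_mem_Ioo ⟨by linarith only [h1, p1], by linarith only [h2, p1]⟩,
    cos_lt_cos_of_nonneg_of_le_pi (by linarith only []) (by linarith only [h2, p1]) h1,
    sin_lt_sin_of_lt_of_le_pi_div_two (by linarith only [p1]) (by linarith only [h2, p1]) h1, (le_abs_self _).trans a1,
    (le_abs_self _).trans a2, by linarith only [h2, p1]⟩

theorem ite_pos_of {p : Prop} [Decidable p] {x y : ℚ} (hx : 0 < x) (hy : 0 < y) :
    0 < if p then x else y := by split_ifs <;> assumption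

/-- Admissible parameters of a vertex piece. -/
structure VP (ψ : ℚ) (m : ℕ) (D T a b c d : ℚ) : Prop where
  hm : 1 ≤ m
  hD : 10000 ≤ D
  ha : D / 2 ≤ a
  hb : D / 2 ≤ b
  hc : D / 2 ≤ c
  hd : D / 2 ≤ d
  q1 : 9 / 8 * D * m ≤ T - a - c
  q2 : 9 / 8 * D * m ≤ T - b - d - 1
  q3 : T ≤ 3 / 2 * D * m
  p1 : 3 / 2 < ψ
  p2 : T * (ψ - 3 / 2) ≤ 1 / 20

section

variable {ψ : ℚ} {m : ℕ} {D T a b c d : ℚ}

theorem pM_cs (r : ℕ) : (pM ψ m D T a b c d).c r = -(-1) ^ r * cos (fM ψ m r) ∧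
    (pM ψ m D T a b c d).S r = -(-1) ^ r * sin (fM ψ m r) := by
  simp only [pM, fp, neg_mul, one_mul, add_zero, and_self]

theorem pM_e1 {r : ℕ} (h : r = 2 ∨ (7 + 2 * m ≤ r ∧ r < 9 + 4 * m)) (h2 : r % 2 = 0) :
    (pM ψ m D T a b c d).c r = -cos ψ ∧ (pM ψ m D T a b c d).S r = -sin ψ := by
  have e : fM ψ m r = ψ := by (unfold fM; simp (disch := omega) only [if_pos, if_neg, true_or, or_true, if_true])
  have := pM_cs (ψ := ψ) (m := m) (D := D) (T := T) (a := a) (b := b) (c := c) (d := d) r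
  rw [e, (Nat.even_iff.2 h2).neg_one_pow] at this
  simpa using this

theorem pM_o1 {r : ℕ} (h : r = 3 ∨ (7 + 2 * m ≤ r ∧ r < 9 + 4 * m)) (h2 : r % 2 = 1) :
    (pM ψ m D T a b c d).c r = cos (3 / 2) ∧ (pM ψ m D T a b c d).S r = sin (3 / 2) := by
  have e : fM ψ m r = 3 / 2 := by (unfold fM; simp (disch := omega) only [if_pos, if_neg, true_or, or_true, if_true])
  have := pM_cs (ψ := ψ) (m := m) (D := D) (T := T) (a := a) (b := b) (c := c) (d := d) r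
  rw [e, (Nat.odd_iff.2 h2).neg_one_pow] at this
  simpa using this

theorem pM_e2 {r : ℕ} (h : (4 ≤ r ∧ r < 7 + 2 * m) ∨ r = 10 + 4 * m) (h2 : r % 2 = 0) :
    (pM ψ m D T a b c d).c r = -cos ψ ∧ (pM ψ m D T a b c d).S r = sin ψ := by
  have e : fM ψ m r = -ψ := by (unfold fM; simp (disch := omega) only [if_pos, if_neg, true_or, or_true, if_true])
  have := pM_cs (ψ := ψ) (m := m) (D := D) (T := T) (a := a) (b := b) (c := c) (d := d) r
  rw [e, (Nat.even_iff.2 h2).neg_one_pow] at this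
  simpa using this

theorem pM_o2 {r : ℕ} (h : (4 ≤ r ∧ r < 7 + 2 * m) ∨ r = 9 + 4 * m) (h2 : r % 2 = 1) :
    (pM ψ m D T a b c d).c r = cos (3 / 2) ∧ (pM ψ m D T a b c d).S r = -sin (3 / 2) := by
  have e : fM ψ m r = -(3 / 2) := by (unfold fM; simp (disch := omega) only [if_pos, if_neg, true_or, or_true, if_true]); norm_num
  have := pM_cs (ψ := ψ) (m := m) (D := D) (T := T) (a := a) (b := b) (c := c) (d := d) r
  rw [e, (Nat.odd_iff.2 h2).neg_one_pow] at this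
  simpa using this

theorem pM_low : ((pM ψ m D T a b c d).c 0 = -cos (3 / 8) ∧
      (pM ψ m D T a b c d).S 0 = -sin (3 / 8)) ∧
    ((pM ψ m D T a b c d).c 1 = cos (1 / 4) ∧ (pM ψ m D T a b c d).S 1 = sin (1 / 4)) ∧
    ((pM ψ m D T a b c d).c (11 + 4 * m) = cos (1 / 4) ∧
      (pM ψ m D T a b c d).S (11 + 4 * m) = -sin (1 / 4)) ∧
    (pM ψ m D T a b c d).c (12 + 4 * m) = -cos (3 / 8) ∧
      (pM ψ m D T a b c d).S (12 + 4 * m) = sin (3 / 8) := by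
  have e1 : fM ψ m (11 + 4 * m) = -(1 / 4) := by (unfold fM; simp (disch := omega) only [if_pos, if_neg, true_or, or_true, if_true]); norm_num
  have e2 : fM ψ m (12 + 4 * m) = -(3 / 8) := by (unfold fM; simp (disch := omega) only [if_pos, if_neg, true_or, or_true, if_true]); norm_num
  have f := pM_cs (ψ := ψ) (m := m) (D := D) (T := T) (a := a) (b := b) (c := c) (d := d)
  refine ⟨by simpa [fM] using f 0, by simpa [fM] using f 1, ?_, ?_⟩
  · have := f (11 + 4 * m)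
    rw [e1, (Nat.odd_iff.2 (by omega)).neg_one_pow] at this
    simpa using this
  · have := f (12 + 4 * m)
    rw [e2, (Nat.even_iff.2 (by omega)).neg_one_pow] at this
    simpa using this

/-- One step of the coordinates. -/
theorem pM_step (r : ℕ) {L : ℚ} {C S : ℝ} (hL : lM m D T a b c d r = L)
    (h : (pM ψ m D T a b c d).c r = C ∧ (pM ψ m D T a b c d).S r = S) :
    (pM ψ m D T a b c d).y (r + 1) = (pM ψ m D T a b c d).y r + L * S ∧
    (pM ψ m D T a b c d).X (r + 1) = (pM ψ m D T a b c d).X r + L * C := by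
  rw [Pie.y_succ, Pie.X_succ, h.1, h.2, ← hL]
  exact ⟨rfl, rfl⟩

/-- Exact coordinates of all vertices. -/
structure Crd (A : Pie) (m : ℕ) (D T a b c d q q' h x0 s0 s1 c1 σ τ : ℝ) : Prop where
  y1 : A.y 1 = -s0
  y2 : A.y 2 = h
  y3 : A.y 3 = h - a * s1 - a * σ
  y4 : A.y 4 = h + s1 - a * σ
  y5 : A.y 5 = h + s1 + b * s1 + (b - a) * σ
  yC : ∀ i : ℕ, i ≤ m → A.y (6 + 2 * i) = h - D * s1 + (b - a + i * q') * σ
  yC' : ∀ i : ℕ, i < m → A.y (7 + 2 * i) = h + (q' - D) * s1 + (b - a + (i + 1) * q') * σ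
  yu : A.y (7 + 2 * m) = h - D * s1 + s1 + (T - a - d) * σ
  yD : ∀ i : ℕ, i < m → A.y (8 + 2 * m + 2 * i) = h + (q - D) * s1 + 2 * s1 + (T - a - d - i * q) * σ
  yD' : ∀ i : ℕ, i < m →
    A.y (9 + 2 * m + 2 * i) = h - D * s1 + 2 * s1 + (T - a - d - (i + 1) * q) * σ
  z0 : A.y (8 + 4 * m) = h + s1 + c * s1 + (c - d) * σ
  z1 : A.y (9 + 4 * m) = h + s1 - d * σ
  z2 : A.y (10 + 4 * m) = h - d * s1 - d * σ
  z3 : A.y (11 + 4 * m) = h
  z4 : A.y (12 + 4 * m) = -s0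
  z5 : A.y (13 + 4 * m) = 0
  Xu : A.X (6 + 2 * m) = x0 + (D + 2) * c1 + (T + a - d - 1) * τ
  Xw : A.X (13 + 4 * m) = 2 * x0 + 2 * (D + 1) * c1 + 2 * T * τ

theorem pM_crd (hm : 1 ≤ m) : Crd (pM ψ m D T a b c d) m D T a b c d ((T - a - c) / m)
    ((T - b - d - 1) / m) (48 * sin (1 / 4) - 24 * sin (3 / 8))
    (48 * cos (1 / 4) - 24 * cos (3 / 8)) (24 * sin (3 / 8)) (sin (3 / 2)) (cos (3 / 2))
    (sin ψ - sin (3 / 2)) (cos (3 / 2) - cos ψ) := by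
  have hm' : (m : ℝ) ≠ 0 := by positivity
  obtain ⟨l0, l1, l2, l3⟩ :=
    pM_low (ψ := ψ) (m := m) (D := D) (T := T) (a := a) (b := b) (c := c) (d := d)
  have st := @pM_step ψ m D T a b c d
  have s0 := st 0 (L := 24) (by (unfold lM; simp (disch := omega) only [if_pos, if_neg, true_or, or_true, if_true])) l0
  have s1 := st 1 (L := 48) (by (unfold lM; simp (disch := omega) only [if_pos, if_neg, true_or, or_true, if_true])) l1
  have s2 := st 2 (L := a) (by (unfold lM; simp (disch := omega) only [if_pos, if_neg, true_or, or_true, if_true]))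
    (pM_e1 (by omega) rfl)
  have s3 := st 3 (L := a + 1) (by (unfold lM; simp (disch := omega) only [if_pos, if_neg, true_or, or_true, if_true]))
    (pM_o1 (by omega) rfl)
  have s4 := st 4 (L := b) (by (unfold lM; simp (disch := omega) only [if_pos, if_neg, true_or, or_true, if_true]))
    (pM_e2 (by omega) rfl)
  have s5 := st 5 (L := b + 1 + D) (by (unfold lM; simp (disch := omega) only [if_pos, if_neg, true_or, or_true, if_true]))
    (pM_o2 (by omega) rfl)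
  have sC := fun i (hi : i < m) => st (6 + 2 * i) (L := (T - b - d - 1) / m)
    (by (unfold lM; simp (disch := omega) only [if_pos, if_neg, true_or, or_true, if_true])) (pM_e2 (by omega) (by omega))
  have sC' := fun i (hi : i < m) => st (6 + 2 * i + 1) (L := (T - b - d - 1) / m)
    (by (unfold lM; simp (disch := omega) only [if_pos, if_neg, true_or, or_true, if_true])) (pM_o2 (by omega) (by omega))
  have su := st (6 + 2 * m) (L := 1) (by (unfold lM; simp (disch := omega) only [if_pos, if_neg, true_or, or_true, if_true]))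
    (pM_e2 (by omega) (by omega))
  have su' := st (7 + 2 * m) (L := (T - a - c) / m + 1)
    (by (unfold lM; simp (disch := omega) only [if_pos, if_neg, true_or, or_true, if_true])) (pM_o1 (by omega) (by omega))
  have sD := fun i (hi : i < m) => st (8 + 2 * m + 2 * i) (L := (T - a - c) / m)
    (by (unfold lM; simp (disch := omega) only [if_pos, if_neg, true_or, or_true, if_true])) (pM_e1 (by omega) (by omega))
  have sD' := fun i (hi : i + 1 < m) => st (8 + 2 * m + 2 * i + 1) (L := (T - a - c) / m)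
    (by (unfold lM; simp (disch := omega) only [if_pos, if_neg, true_or, or_true, if_true])) (pM_o1 (by omega) (by omega))
  have t0 := st (7 + 4 * m) (L := c + D - 1) (by (unfold lM; simp (disch := omega) only [if_pos, if_neg, true_or, or_true, if_true]))
    (pM_o1 (by omega) (by omega))
  have t1 := st (8 + 4 * m) (L := c) (by (unfold lM; simp (disch := omega) only [if_pos, if_neg, true_or, or_true, if_true]))
    (pM_e1 (by omega) (by omega))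
  have t2 := st (9 + 4 * m) (L := d + 1) (by (unfold lM; simp (disch := omega) only [if_pos, if_neg, true_or, or_true, if_true]))
    (pM_o2 (by omega) (by omega))
  have t3 := st (10 + 4 * m) (L := d) (by (unfold lM; simp (disch := omega) only [if_pos, if_neg, true_or, or_true, if_true]))
    (pM_e2 (by omega) (by omega))
  have t4 := st (11 + 4 * m) (L := 48) (by (unfold lM; simp (disch := omega) only [if_pos, if_neg, true_or, or_true, if_true])) l2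
  have t5 := st (12 + 4 * m) (L := 24) (by (unfold lM; simp (disch := omega) only [if_pos, if_neg, true_or, or_true, if_true])) l3
  clear st l0 l1 l2 l3
  generalize pM ψ m D T a b c d = A at *
  rw [A.y_zero, A.X_zero] at s0
  push_cast at *
  have hq : (m : ℝ) * ((T - a - c) / m) = T - a - c := mul_div_cancel₀ _ hm'
  have hq' : (m : ℝ) * ((T - b - d - 1) / m) = T - b - d - 1 := mul_div_cancel₀ _ hm'
  generalize ((T : ℝ) - a - c) / m = q at *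
  generalize ((T : ℝ) - b - d - 1) / m = q' at *
  generalize sin (1 / 4 : ℝ) = u0 at *
  generalize cos (1 / 4 : ℝ) = w0 at *
  generalize sin (3 / 8 : ℝ) = ut at *
  generalize cos (3 / 8 : ℝ) = wt at *
  generalize sin (3 / 2 : ℝ) = u1 at *
  generalize cos (3 / 2 : ℝ) = w1 at *
  generalize sin (ψ : ℝ) = u2 at *
  generalize cos (ψ : ℝ) = w2 at *
  have hC : ∀ i : ℕ, i ≤ m →
      A.y (6 + 2 * i) = 48 * u0 - 24 * ut - D * u1 + (b - a + i * q') * (u2 - u1) ∧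
      A.X (6 + 2 * i) = 48 * w0 - 24 * wt + (D + 2) * w1 + (a + b + i * q') * (w1 - w2) := by
    intro i hi
    induction i with
    | zero =>
      rw [mul_zero, add_zero, s5.1, s5.2, s4.1, s4.2, s3.1, s3.2, s2.1, s2.2, s1.1, s1.2, s0.1, s0.2]
      push_cast; constructor <;> ring
    | succ i ih =>
      rw [show 6 + 2 * (i + 1) = 6 + 2 * i + 1 + 1 by ring, (sC' i hi).1, (sC' i hi).2, (sC i hi).1,
        (sC i hi).2, (ih (by omega)).1, (ih (by omega)).2]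
      push_cast; constructor <;> ring
  rw [show 6 + 2 * m + 1 = 7 + 2 * m by ring, (hC m le_rfl).1, (hC m le_rfl).2, hq'] at su
  rw [show 7 + 2 * m + 1 = 8 + 2 * m by ring, su.1, su.2] at su'
  have hD : ∀ i : ℕ, i < m → A.y (8 + 2 * m + 2 * i) =
      48 * u0 - 24 * ut + (q - D) * u1 + 2 * u1 + (T - a - d - i * q) * (u2 - u1) ∧
      A.X (8 + 2 * m + 2 * i) = 48 * w0 - 24 * wt + (D + 2 + q) * w1 +
        (T + a - d + i * q) * (w1 - w2) := by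
    intro i hi
    induction i with
    | zero => rw [mul_zero, add_zero, su'.1, su'.2]; push_cast; constructor <;> ring
    | succ i ih =>
      rw [show 8 + 2 * m + 2 * (i + 1) = 8 + 2 * m + 2 * i + 1 + 1 by ring, (sD' i hi).1,
        (sD' i hi).2, (sD i (by omega)).1, (sD i (by omega)).2, (ih (by omega)).1,
        (ih (by omega)).2]
      push_cast; constructor <;> ring
  have hD' : ∀ i : ℕ, i < m → A.y (9 + 2 * m + 2 * i) =
      48 * u0 - 24 * ut - D * u1 + 2 * u1 + (T - a - d - (i + 1) * q) * (u2 - u1) ∧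
      A.X (9 + 2 * m + 2 * i) = 48 * w0 - 24 * wt + (D + 2) * w1 +
        (T + a - d + (i + 1) * q) * (w1 - w2) := fun i hi => by
    rw [show 9 + 2 * m + 2 * i = 8 + 2 * m + 2 * i + 1 by ring, (sD i hi).1, (sD i hi).2,
      (hD i hi).1, (hD i hi).2]
    constructor <;> ring
  have hv := hD' (m - 1) (by omega)
  rw [show 9 + 2 * m + 2 * (m - 1) = 7 + 4 * m by omega, Nat.cast_sub hm, Nat.cast_one,
    sub_add_cancel, hq] at hv
  rw [show 7 + 4 * m + 1 = 8 + 4 * m by ring, hv.1, hv.2] at t0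
  rw [show 8 + 4 * m + 1 = 9 + 4 * m by ring, t0.1, t0.2] at t1
  rw [show 9 + 4 * m + 1 = 10 + 4 * m by ring, t1.1, t1.2] at t2
  rw [show 10 + 4 * m + 1 = 11 + 4 * m by ring, t2.1, t2.2] at t3
  rw [show 11 + 4 * m + 1 = 12 + 4 * m by ring, t3.1, t3.2] at t4
  rw [show 12 + 4 * m + 1 = 13 + 4 * m by ring, t4.1, t4.2] at t5
  refine ⟨by rw [s0.1]; ring, by rw [s1.1, s0.1]; ring, by rw [s2.1, s1.1, s0.1]; ring,
    by rw [s3.1, s2.1, s1.1, s0.1]; ring, by rw [s4.1, s3.1, s2.1, s1.1, s0.1]; ring,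
    fun i hi => (hC i hi).1, fun i hi => ?_, by rw [su.1]; ring, fun i hi => (hD i hi).1,
    fun i hi => (hD' i hi).1, by rw [t0.1]; ring, by rw [t1.1]; ring, by rw [t2.1]; ring,
    by rw [t3.1]; ring, by rw [t4.1]; ring, by rw [t5.1]; ring,
    by rw [(hC m le_rfl).2, hq']; ring, by rw [t5.2]; ring⟩
  rw [show 7 + 2 * i = 6 + 2 * i + 1 by ring, (sC i hi).1, (hC i hi.le).1]; ring

end

/-- What the other pieces see of a vertex piece. -/
structure Env (A : Pie) (κ w a b c d : ℝ) : Prop where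
  wd : A.w = w
  bd : ∀ X s, A.Pt X s → -110 - κ * |s| ≤ X ∧ X ≤ w + 110 + κ * |s|
  rt : ∀ X s, A.Pt X s → X ≤ w + 110 - κ * |s| ∨ (0 ≤ s ∧ s ≤ c + 20) ∨ (s ≤ 0 ∧ -s ≤ d + 20)
  lf : ∀ X s, A.Pt X s → -110 + κ * |s| ≤ X ∨ (0 ≤ s ∧ s ≤ b + 20) ∨ (s ≤ 0 ∧ -s ≤ a + 20)
  ur : ∃ x, w - 100 ≤ x ∧ x ≤ w ∧ ∀ s, 0 ≤ s → s ≤ c - 12 → A.Pt (x + κ * s) s
  lr : ∃ x, w - 100 ≤ x ∧ x ≤ w ∧ ∀ s, 0 ≤ s → s ≤ d - 12 → A.Pt (x + κ * s) (-s)
  ul : ∃ x, 0 ≤ x ∧ x ≤ 100 ∧ ∀ s, 0 ≤ s → s ≤ b - 12 → A.Pt (x - κ * s) s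
  ll : ∃ x, 0 ≤ x ∧ x ≤ 100 ∧ ∀ s, 0 ≤ s → s ≤ a - 12 → A.Pt (x - κ * s) (-s)

/-- The real inequalities used. -/
structure Num (m : ℕ) (D T a b c d q q' h x0 s0 s1 c1 σ τ k0 kt k1 k2 : ℝ) : Prop where
  hm : 1 ≤ m
  hD : 10000 ≤ D
  ha : D / 2 ≤ a
  hb : D / 2 ≤ b
  hc : D / 2 ≤ c
  hd : D / 2 ≤ d
  q1 : 9 / 8 * D ≤ q
  q2 : q ≤ 3 / 2 * D
  q3 : 9 / 8 * D ≤ q'
  q4 : q' ≤ 3 / 2 * D
  q5 : m * q = T - a - c
  q6 : m * q' = T - b - d - 1
  h1 : 0 < h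
  h2 : h < 4
  x1 : 0 ≤ x0
  x2 : x0 ≤ 48
  u1 : 0 < s0
  u2 : s0 < 9
  s1l : 99 / 100 < s1
  s1u : s1 ≤ 1
  c1l : 1 / 20 < c1
  c1u : c1 < 2 / 25
  σ0 : 0 ≤ σ
  σ1 : T * σ ≤ 1 / 20
  τ0 : 0 ≤ τ
  τ1 : T * τ ≤ 1 / 20
  e1 : k1 * s1 = c1
  e2 : k2 * (s1 + σ) = c1 - τ
  p2 : 0 < k2
  p1 : k2 < k1
  pt : k1 < kt
  p0 : kt < k0
  p5 : k0 ≤ 5

section

variable {A : Pie} {m : ℕ} {D T a b c d q q' h x0 s0 s1 c1 σ τ k0 kt k1 k2 : ℝ}

theorem Num.basic (N : Num m D T a b c d q q' h x0 s0 s1 c1 σ τ k0 kt k1 k2) :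
    (∀ t, -T ≤ t → t ≤ T → -(1 / 20) ≤ t * σ ∧ t * σ ≤ 1 / 20) ∧
    (∀ i : ℕ, i ≤ m → 0 ≤ i * q ∧ i * q ≤ T - a - c ∧ 0 ≤ i * q' ∧ i * q' ≤ T - b - d - 1) ∧
    9900 ≤ D * s1 ∧ D * s1 ≤ D ∧ (D * s1 / 2 ≤ a * s1 ∧ a * s1 ≤ a) ∧
    (D * s1 / 2 ≤ b * s1 ∧ b * s1 ≤ b) ∧ (D * s1 / 2 ≤ c * s1 ∧ c * s1 ≤ c) ∧
    (D * s1 / 2 ≤ d * s1 ∧ d * s1 ≤ d) ∧ (D * s1 / 8 ≤ (q - D) * s1 ∧ (q - D) * s1 ≤ D * s1 / 2) ∧
    (D * s1 / 8 ≤ (q' - D) * s1 ∧ (q' - D) * s1 ≤ D * s1 / 2) ∧ 1 / 20 < k1 ∧ k1 < 1 / 10 ∧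
    (k1 - k2) * (T + 20) ≤ 1 := by
  obtain ⟨hm, hD, ha, hb, hc, hd, q1, q2, q3, q4, q5, q6, h1, h2, x1, x2, u1, u2, s1l, s1u, c1l, c1u,
    σ0, σ1, τ0, τ1, e1, e2, p2, p1, pt, p0, p5⟩ := N
  have ms : ∀ x y : ℝ, x ≤ y → x * s1 ≤ y * s1 := fun x y h =>
    mul_le_mul_of_nonneg_right h (by linarith only [s1l])
  have m1 : ∀ x : ℝ, 0 ≤ x → x * s1 ≤ x := fun x h => mul_le_of_le_one_right h s1u
  have hi : ∀ i : ℕ, i ≤ m → 0 ≤ i * q ∧ i * q ≤ T - a - c ∧ 0 ≤ i * q' ∧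
      i * q' ≤ T - b - d - 1 := fun i hi => by
    have : (i : ℝ) ≤ m := by exact_mod_cast hi
    exact ⟨mul_nonneg i.cast_nonneg (by linarith only [hD, q1]), q5 ▸ mul_le_mul_of_nonneg_right this (by linarith only [hD, q1]),
      mul_nonneg i.cast_nonneg (by linarith only [hD, q3]), q6 ▸ mul_le_mul_of_nonneg_right this (by linarith only [hD, q3])⟩
  have hT : D ≤ T := by have := hi 0 (Nat.zero_le _); simp only [CharP.cast_eq_zero, zero_mul, Std.le_refl, sub_nonneg, true_and] at this; linarith only [hb, hd, this]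
  have k1u : k1 < 1 / 10 := by nlinarith only [s1l, c1u, e1]
  refine ⟨fun t a1 a2 => ?_, hi, by nlinarith only [hD, s1l], m1 _ (by linarith only [hD, p2, p1, k1u]),
    ⟨by linarith only [ms _ _ ha], m1 _ (by linarith only [hD, ha, p2, p1, k1u])⟩, ⟨by linarith only [ms _ _ hb], m1 _ (by linarith only [hD, hb, p2, p1, k1u])⟩,
    ⟨by linarith only [ms _ _ hc], m1 _ (by linarith only [hD, hc, p2, p1, k1u])⟩, ⟨by linarith only [ms _ _ hd], m1 _ (by linarith only [hD, hd, p2, p1, k1u])⟩,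
    ⟨by linarith only [ms _ _ q1], by linarith only [ms _ _ q2]⟩,
    ⟨by linarith only [ms _ _ q3], by linarith only [ms _ _ q4]⟩, by nlinarith only [s1l, s1u, c1l, e1], k1u, ?_⟩
  · have := mul_le_mul_of_nonneg_right a1 σ0
    have := mul_le_mul_of_nonneg_right a2 σ0
    constructor <;> linarith
  · have f1 : (k1 - k2) * T * s1 = T * τ + k2 * (T * σ) := by linear_combination T * e1 - T * e2
    have f2 : k2 * (T * σ) ≤ 1 / 10 * (1 / 20) :=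
      mul_le_mul (by linarith only [p1, k1u]) σ1 (mul_nonneg (by linarith only [hD, p2, p1, hT, k1u]) σ0) (by norm_num)
    have f3 : 0 ≤ (k1 - k2) * T := mul_nonneg (by linarith only [p1]) (by linarith only [hD, p2, p1, hT, k1u])
    nlinarith only [hD, s1l, c1l, c1u, σ0, σ1, τ0, τ1, e1, e2, p2, p1, hT, k1u, f1, f2]

end

/-- Bounds on the heights of the vertices. -/
structure VB (A : Pie) (m : ℕ) (T D a b c d : ℝ) : Prop where
  big : 9900 ≤ D ∧ D ≤ T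
  ha : D / 2 ≤ a ∧ a ≤ T
  hb : D / 2 ≤ b ∧ b ≤ T
  hc : D / 2 ≤ c ∧ c ≤ T
  hd : D / 2 ≤ d ∧ d ≤ T
  y1 : -9 < A.y 1 ∧ A.y 1 < 0
  y2 : 0 < A.y 2 ∧ A.y 2 < A.y 4
  y3 : -a - 1 ≤ A.y 3 ∧ A.y 3 ≤ -a + 5
  y4 : A.y 4 ≤ 6
  y5 : b + 0 ≤ A.y 5
  aC : ∀ r, 5 ≤ r → r ≤ 6 + 2 * m → (r % 2 = 0 ∧ -D - 1 ≤ A.y r ∧ A.y r ≤ -D + 5) ∨
    (r % 2 = 1 ∧ 1000 ≤ A.y r ∧ A.y r ≤ b + 20)
  yu : A.y (6 + 2 * m) < A.y (6 + 2 * m + 1) ∧ A.y (6 + 2 * m + 1) ≤ -D + 6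
  aD : ∀ r, 8 + 2 * m ≤ r → r ≤ 8 + 4 * m → (r % 2 = 0 ∧ 1000 ≤ A.y r ∧ A.y r ≤ c + 20) ∨
    (r % 2 = 1 ∧ A.y (6 + 2 * m + 1) < A.y r ∧ A.y r ≤ -D + 7)
  z0 : c + 0 ≤ A.y (8 + 4 * m)
  z1 : A.y (8 + 4 * m + 1) ≤ 6
  z2 : -d - 1 ≤ A.y (8 + 4 * m + 2) ∧ A.y (8 + 4 * m + 2) ≤ -d + 5
  z3 : 0 < A.y (8 + 4 * m + 3) ∧ A.y (8 + 4 * m + 3) < A.y (8 + 4 * m + 1)
  z4 : -9 < A.y (8 + 4 * m + 4) ∧ A.y (8 + 4 * m + 4) < 0
  z5 : A.y (8 + 4 * m + 5) = 0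

section

variable {A : Pie} {m : ℕ} {D T a b c d q q' h x0 s0 s1 c1 σ τ k0 kt k1 k2 : ℝ}

theorem Crd.vb (C : Crd A m D T a b c d q q' h x0 s0 s1 c1 σ τ)
    (N : Num m D T a b c d q q' h x0 s0 s1 c1 σ τ k0 kt k1 k2) :
    VB A m T (D * s1) (a * s1) (b * s1) (c * s1) (d * s1) := by
  obtain ⟨dr, hi, b1, b2, ⟨b3, b3'⟩, ⟨b4, b4'⟩, ⟨b5, b5'⟩, ⟨b6, b6'⟩, ⟨b7, b7'⟩, ⟨b8, b8'⟩, -⟩ :=
    N.basic
  obtain ⟨hm, hD, ha, hb, hc, hd, -, -, -, -, -, -, h1, h2, -, -, u1, u2, s1l, s1u, -⟩ := N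
  have hT := hi 0 (Nat.zero_le _)
  simp only [Nat.cast_zero, zero_mul] at hT
  obtain ⟨-, hT, -, hT'⟩ := hT
  have a0 : 0 ≤ a ∧ 0 ≤ b ∧ 0 ≤ c ∧ 0 ≤ d :=
    ⟨by linarith only [ha, hD], by linarith only [hb, hD], by linarith only [hc, hD],
      by linarith only [hd, hD]⟩
  obtain ⟨a1, a2, a3, a4⟩ := a0
  have dr' : ∀ t, -T ≤ t ∧ t ≤ T → -(1 / 20) ≤ t * σ ∧ t * σ ≤ 1 / 20 := fun t h => dr t h.1 h.2
  have d1 := dr' a (by constructor <;> linarith only [hT, hT', a1, a2, a3, a4])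
  have d2 := dr' d (by constructor <;> linarith only [hT, hT', a1, a2, a3, a4])
  have d3 := dr' (T - a - d) (by constructor <;> linarith only [hT, hT', a1, a2, a3, a4])
  have d4 := dr' (b - a) (by constructor <;> linarith only [hT, hT', a1, a2, a3, a4])
  have d5 := dr' (c - d) (by constructor <;> linarith only [hT, hT', a1, a2, a3, a4])
  have e1 : ∀ i : ℕ, i ≤ m → -(1 / 20) ≤ (b - a + i * q') * σ ∧ (b - a + i * q') * σ ≤ 1 / 20 :=
    fun i h => by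
      obtain ⟨-, -, f1, f2⟩ := hi i h
      exact dr' _ (by constructor <;> linarith only [hT, f1, f2, a1, a2, a3, a4])
  have e2 : ∀ i : ℕ, i ≤ m → -(1 / 20) ≤ (T - a - d - i * q) * σ ∧
      (T - a - d - i * q) * σ ≤ 1 / 20 := fun i h => by
    obtain ⟨f1, f2, -, -⟩ := hi i h
    exact dr' _ (by constructor <;> linarith only [hT', f1, f2, a1, a2, a3, a4])
  obtain ⟨y1, y2, y3, y4, y5, yC, yC', yu, yD, yD', z0, z1, z2, z3, z4, z5, -, -⟩ := C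
  have yu0 := yC m le_rfl
  have e3 := e1 m le_rfl
  rw [show 7 + 2 * m = 6 + 2 * m + 1 by ring] at yu
  rw [show 9 + 4 * m = 8 + 4 * m + 1 by ring] at z1
  rw [show 10 + 4 * m = 8 + 4 * m + 2 by ring] at z2
  rw [show 11 + 4 * m = 8 + 4 * m + 3 by ring] at z3
  rw [show 12 + 4 * m = 8 + 4 * m + 4 by ring] at z4
  rw [show 13 + 4 * m = 8 + 4 * m + 5 by ring] at z5
  clear dr dr' hi
  refine ⟨⟨b1, by linarith only [b2, ha, hc, hT]⟩, ⟨b3, by linarith only [b3', a3, hT]⟩,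
    ⟨b4, by linarith only [b4', a4, hT']⟩, ⟨b5, by linarith only [b5', a1, hT]⟩,
    ⟨b6, by linarith only [b6', a2, hT']⟩, by constructor <;> linarith only [y1, u1, u2],
    by constructor <;> linarith only [y2, y4, h1, d1.2, s1l],
    by constructor <;> linarith only [y3, h1, h2, d1.1, d1.2], by linarith only [y4, h2, s1u, d1.1],
    by linarith only [y5, h1, s1l, d4.1], fun r r1 r2 => ?_,
    by constructor <;> linarith only [yu, yu0, e3.2, d3.1, d3.2, s1l, s1u, h2], fun r r1 r2 => ?_,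
    by linarith only [z0, h1, s1l, d5.1], by linarith only [z1, h2, s1u, d2.1],
    by constructor <;> linarith only [z2, h1, h2, d2.1, d2.2],
    by constructor <;> linarith only [z1, z3, h1, d2.2, s1l],
    by constructor <;> linarith only [z4, u1, u2], z5⟩
  · have : r = 5 ∨ (∃ i, i ≤ m ∧ r = 6 + 2 * i) ∨ ∃ i, i < m ∧ r = 7 + 2 * i := by
      rcases (by omega : r = 5 ∨ (6 ≤ r ∧ r % 2 = 0) ∨ (6 ≤ r ∧ r % 2 = 1)) with e | e | e
      · exact Or.inl e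
      · exact Or.inr (Or.inl ⟨(r - 6) / 2, by omega, by omega⟩)
      · exact Or.inr (Or.inr ⟨(r - 7) / 2, by omega, by omega⟩)
    rcases this with rfl | ⟨i, i1, rfl⟩ | ⟨i, i1, rfl⟩
    · exact Or.inr ⟨rfl, by constructor <;> linarith only [y5, h1, h2, s1l, s1u, d4.1, d4.2, b1, b4]⟩
    · obtain ⟨f1, f2⟩ := e1 i i1
      exact Or.inl ⟨by omega, by constructor <;> linarith only [yC i i1, f1, f2, h1, h2]⟩
    · obtain ⟨f1, f2⟩ := e1 (i + 1) i1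
      push_cast at f1 f2
      exact Or.inr ⟨by omega,
        by constructor <;> linarith only [yC' i i1, f1, f2, h1, h2, b8, b8', b1, b4]⟩
  · have : r = 8 + 4 * m ∨ (∃ i, i < m ∧ r = 8 + 2 * m + 2 * i) ∨
        ∃ i, i < m ∧ r = 9 + 2 * m + 2 * i := by
      rcases (by omega : r = 8 + 4 * m ∨ (r < 8 + 4 * m ∧ r % 2 = 0) ∨ r % 2 = 1) with e | e | e
      · exact Or.inl e
      · exact Or.inr (Or.inl ⟨(r - (8 + 2 * m)) / 2, by omega, by omega⟩)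
      · exact Or.inr (Or.inr ⟨(r - (9 + 2 * m)) / 2, by omega, by omega⟩)
    rcases this with rfl | ⟨i, i1, rfl⟩ | ⟨i, i1, rfl⟩
    · exact Or.inl ⟨by omega,
        by constructor <;> linarith only [z0, h1, h2, s1l, s1u, d5.1, d5.2, b1, b5]⟩
    · obtain ⟨f1, f2⟩ := e2 i i1.le
      exact Or.inl ⟨by omega,
        by constructor <;> linarith only [yD i i1, f1, f2, h1, h2, b7, b7', b1, b5, s1l, s1u]⟩
    · obtain ⟨f1, f2⟩ := e2 (i + 1) i1
      push_cast at f1 f2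
      exact Or.inr ⟨by omega,
        by constructor <;> linarith only [yD' i i1, yu, f1, f2, h2, d3.2, s1l, s1u]⟩

theorem VB.zone (V : VB A m T D a b c d) :
    (∀ r, 4 ≤ r → r ≤ 7 + 2 * m → -D - 1 ≤ A.y r ∧ A.y r ≤ b + 20) ∧
    (∀ r, 7 + 2 * m ≤ r → r ≤ 9 + 4 * m → -D - 1 ≤ A.y r ∧ A.y r ≤ c + 20) ∧
    ∀ r, r ≤ 13 + 4 * m → -(T + 20) ≤ A.y r ∧ A.y r ≤ T + 20 := by
  obtain ⟨⟨g1, g2⟩, ⟨a1, a2⟩, ⟨b1, b2⟩, ⟨c1, c2⟩, ⟨d1, d2⟩, ⟨y1, y1'⟩, ⟨y2, y2'⟩, ⟨y3, y3'⟩, y4, y5,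
    aC, ⟨yu, yu'⟩, aD, z0, z1, ⟨z2, z2'⟩, ⟨z3, z3'⟩, ⟨z4, z4'⟩, z5⟩ := V
  have y0 := A.y_zero
  have yu0 := ((aC (6 + 2 * m) (by omega) le_rfl).resolve_right (by omega)).2.1
  have hC : ∀ r, 4 ≤ r → r ≤ 7 + 2 * m → -D - 1 ≤ A.y r ∧ A.y r ≤ b + 20 := fun r r1 r2 => by
    rcases (by omega : r = 4 ∨ r = 6 + 2 * m + 1 ∨ (5 ≤ r ∧ r ≤ 6 + 2 * m)) with
      rfl | rfl | ⟨r3, r4⟩
    · constructor <;> linarith only [y2, y2', y4, g1, b1]
    · constructor <;> linarith only [yu, yu', yu0, g1, b1]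
    · rcases aC r r3 r4 with ⟨-, f1, f2⟩ | ⟨-, f1, f2⟩ <;> constructor <;>
        linarith only [f1, f2, g1, b1]
  have hD : ∀ r, 7 + 2 * m ≤ r → r ≤ 9 + 4 * m → -D - 1 ≤ A.y r ∧ A.y r ≤ c + 20 :=
    fun r r1 r2 => by
    rcases (by omega : r = 6 + 2 * m + 1 ∨ r = 8 + 4 * m + 1 ∨ (8 + 2 * m ≤ r ∧ r ≤ 8 + 4 * m)) with
      rfl | rfl | ⟨r3, r4⟩
    · constructor <;> linarith only [yu, yu', yu0, g1, c1]
    · constructor <;> linarith only [z1, z3, z3', g1, c1]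
    · rcases aD r r3 r4 with ⟨-, f1, f2⟩ | ⟨-, f1, f2⟩ <;> constructor <;>
        linarith only [f1, f2, g1, c1, yu, yu0]
  refine ⟨hC, hD, fun r hr => ?_⟩
  rcases (by omega : r = 0 ∨ r = 1 ∨ r = 2 ∨ r = 3 ∨ (4 ≤ r ∧ r ≤ 7 + 2 * m) ∨
    (7 + 2 * m ≤ r ∧ r ≤ 9 + 4 * m) ∨ r = 8 + 4 * m + 2 ∨ r = 8 + 4 * m + 3 ∨ r = 8 + 4 * m + 4 ∨
    r = 8 + 4 * m + 5) with rfl | rfl | rfl | rfl | ⟨r1, r2⟩ | ⟨r1, r2⟩ | rfl | rfl | rfl | rfl
  · constructor <;> linarith only [y0, g1, g2]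
  · constructor <;> linarith only [y1, y1', g1, g2]
  · constructor <;> linarith only [y2, y2', y4, g1, g2]
  · constructor <;> linarith only [y3, y3', a1, a2, g1]
  · obtain ⟨f1, f2⟩ := hC r r1 r2
    constructor <;> linarith only [f1, f2, g2, b2]
  · obtain ⟨f1, f2⟩ := hD r r1 r2
    constructor <;> linarith only [f1, f2, g2, c2]
  · constructor <;> linarith only [z2, z2', d1, d2, g1, g2]
  · constructor <;> linarith only [z1, z3, z3', g1, g2]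
  · constructor <;> linarith only [z4, z4', g1, g2]
  · constructor <;> linarith only [z5, g1, g2]

theorem VB.ms (V : VB A m T D a b c d) (hm : 1 ≤ m) (hn : A.n = 13 + 4 * m) (p2 : 0 < k2)
    (p1 : k2 < k1) (pt : k1 < kt) (p0 : kt < k0) (p5 : k0 ≤ 5) (p6 : 1 / 20 < k1)
    (p7 : (k1 - k2) * (T + 20) ≤ 1)
    (K0 : A.k 0 = kt) (K1 : A.k 1 = k0) (K2 : A.k 2 = k2) (K3 : A.k 3 = k1)
    (KC : ∀ r, 4 ≤ r → r ≤ 6 + 2 * m → (r % 2 = 0 ∧ A.k r = -k2) ∨ (r % 2 = 1 ∧ A.k r = -k1))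
    (KD : ∀ r, 6 + 2 * m < r → r ≤ 8 + 4 * m → (r % 2 = 0 ∧ A.k r = k2) ∨ (r % 2 = 1 ∧ A.k r = k1))
    (L1 : A.k (8 + 4 * m + 1) = -k1) (L2 : A.k (8 + 4 * m + 2) = -k2)
    (L3 : A.k (8 + 4 * m + 3) = -k0) (L4 : A.k (8 + 4 * m + 4) = -kt) :
    A.MS (6 + 2 * m) (8 + 4 * m) k0 kt k1 k2 13 (T + 20) := by
  have hZ := V.zone.2.2
  obtain ⟨⟨g1, g2⟩, ⟨a1, a2⟩, ⟨b1, b2⟩, ⟨c1, c2⟩, ⟨d1, d2⟩, ⟨y1, y1'⟩, ⟨y2, y2'⟩, ⟨y3, y3'⟩, y4, y5,
    aC, ⟨yu, yu'⟩, aD, z0, z1, ⟨z2, z2'⟩, ⟨z3, z3'⟩, ⟨z4, z4'⟩, z5⟩ := V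
  have g : 400 ≤ -((k1 + k2) * A.y (6 + 2 * m + 1)) := by
    have : 1 / 20 * 8000 ≤ (k1 + k2) * -A.y (6 + 2 * m + 1) :=
      mul_le_mul (by linarith only [p6, p2]) (by linarith only [yu', g1]) (by norm_num)
        (by linarith only [p6, p2])
    linarith only [this]
  refine ⟨by omega, by omega, by omega, by omega, by omega, p2, p1, pt, p0, K0, K1, K2, K3, KC, KD,
    L1, L2, L3, L4, y1', y2, by linarith only [y3', a1, g1], y2', by linarith only [y4, y5, b1, g1],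
    fun r r1 r2 => ?_, yu, by linarith only [yu', g1], fun r r1 r2 => ?_,
    by linarith only [z0, z1, c1, g1], by linarith only [z2', d1, g1], z3', z3, z4',
    by linarith only [y4], by linarith only [z1], by linarith only [g, p5],
    fun r hr => (hZ r (hn ▸ hr)).1, by linarith only [g, p7]⟩
  · rcases aC r r1 r2 with ⟨e, f1, f2⟩ | ⟨e, f1, f2⟩
    · exact Or.inl ⟨e, by linarith only [f2, g1]⟩
    · exact Or.inr ⟨e, by linarith only [f1]⟩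
  · rcases aD r (by omega) r2 with ⟨e, f1, f2⟩ | ⟨e, f1, f2⟩
    · exact Or.inl ⟨e, by linarith only [f1]⟩
    · exact Or.inr ⟨e, f1, by linarith only [f2, g1]⟩

theorem lean_bd {κ s : ℝ} (p2 : 0 < k2) (p1 : k2 < k1) (p7 : (k1 - k2) * (T + 20) ≤ 1)
    (p8 : k1 < 1 / 10) (f1 : -k1 ≤ κ) (f2 : κ ≤ k1) (f3 : |s| ≤ T + 20) :
    -(k1 * |s|) ≤ κ * s ∧ κ * s ≤ k1 * |s| ∧
      ((k2 ≤ κ ∧ 0 ≤ s) ∨ (κ ≤ -k2 ∧ s ≤ 0) → k1 * |s| - 1 ≤ κ * s) ∧
      ((k2 ≤ κ ∧ s ≤ 0) ∨ (κ ≤ -k2 ∧ 0 ≤ s) → κ * s ≤ 1 - k1 * |s|) ∧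
      (s ≤ 0 → -D - 1 ≤ s → k1 * |s| ≤ k1 * D + 1) := by
  have f4 : |κ * s| ≤ k1 * |s| := by
    rw [abs_mul]; exact mul_le_mul_of_nonneg_right (abs_le.2 ⟨f1, f2⟩) (abs_nonneg _)
  have f5 := (mul_le_mul_of_nonneg_left f3 (show 0 ≤ k1 - k2 by linarith only [p1])).trans p7
  refine ⟨(abs_le.1 f4).1, (abs_le.1 f4).2, ?_, ?_, fun g1 g2 => ?_⟩
  · rintro (⟨g1, g2⟩ | ⟨g1, g2⟩)
    · rw [abs_of_nonneg g2] at *; linarith only [f5, mul_le_mul_of_nonneg_right g1 g2]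
    · rw [abs_of_nonpos g2] at *; linarith only [f5, mul_le_mul_of_nonpos_right g1 g2]
  · rintro (⟨g1, g2⟩ | ⟨g1, g2⟩)
    · rw [abs_of_nonpos g2] at *; linarith only [f5, mul_le_mul_of_nonpos_right g1 g2]
    · rw [abs_of_nonneg g2] at *; linarith only [f5, mul_le_mul_of_nonneg_right g1 g2]
  · rw [abs_of_nonpos g1]
    linarith only [p8, mul_le_mul_of_nonneg_left g2 (show 0 ≤ k1 by linarith only [p2, p1])]

theorem VB.env (H : A.Base) (V : VB A m T D a b c d) (hm : 1 ≤ m)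
    (M : A.MS (6 + 2 * m) (8 + 4 * m) k0 kt k1 k2 13 (T + 20)) (p5 : k0 ≤ 5) (p8 : k1 < 1 / 10)
    (p7 : (k1 - k2) * (T + 20) ≤ 1) (xu : A.x (6 + 2 * m) ≤ 100)
    (w1 : 2 * (k1 * D) ≤ A.w) (w2 : A.w ≤ 2 * (k1 * D) + 97) : Env A k1 A.w a b c d := by
  obtain ⟨yC, yD, hZ⟩ := V.zone
  obtain ⟨⟨g1, g2⟩, ⟨a1, -⟩, ⟨b1, -⟩, ⟨c1, -⟩, ⟨d1, -⟩, ⟨y1, y1'⟩, ⟨y2, y2'⟩, ⟨y3, y3'⟩, y4, y5,
    aC, ⟨-, yu'⟩, aD, z0, z1, ⟨z2, z2'⟩, ⟨z3, z3'⟩, ⟨z4, z4'⟩, z5⟩ := V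
  have F := M.fwd
  have hn := M.hn
  have p1 := M.p1
  have p2 := M.p2
  have y0 := A.y_zero
  have y6 := ((aC 6 (by omega) (by omega)).resolve_right (by omega)).2.2
  have yv := ((aD (7 + 4 * m) (by omega) (by omega)).resolve_left (by omega)).2.2
  clear aC aD
  have ku : A.k (6 + 2 * m) = -k2 := ((M.KC _ (by omega) le_rfl).resolve_right (by omega)).2
  have ku1 : A.k (6 + 2 * m + 1) = k1 :=
    ((M.KD _ (by omega) (by omega)).resolve_left (by omega)).2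
  have kD' : (k1 - k2) * D ≤ 1 :=
    (mul_le_mul_of_nonneg_left (by linarith only [g2]) (by linarith only [p1])).trans p7
  have x0' : ∀ r, r < A.n → 0 ≤ A.x r ∧ A.x r ≤ A.w := fun r hr =>
    ⟨A.x_zero ▸ F.mono H (Nat.zero_le r) hr, H.x_last ▸ F.mono H (by omega) (by omega)⟩
  have xu' : A.w - 100 ≤ A.x (6 + 2 * m + 1) := by
    rw [H.xs (by omega), ku, ku1]
    have f2 := mul_le_mul_of_nonneg_left yu' (show 0 ≤ k1 + k2 by linarith only [p1, p2])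
    linarith only [(x0' (6 + 2 * m) (by omega)).1, f2, w2, kD', p1, p8]
  have xL : ∀ r, r ≤ 6 + 2 * m → A.x r ≤ 100 := fun r hr =>
    (F.mono H hr (by omega)).trans xu
  have xR : ∀ r, 6 + 2 * m < r → r < A.n → A.w - 100 ≤ A.x r := fun r hr hr' =>
    xu'.trans (F.mono H hr hr')
  have cls : ∀ X s, A.Pt X s → (|s| ≤ 12 ∧ -60 ≤ X ∧ X ≤ A.w + 60) ∨ ∃ x κ, X = x + κ * s ∧
      0 ≤ x ∧ x ≤ A.w ∧ -k1 ≤ κ ∧ κ ≤ k1 ∧ |s| ≤ T + 20 ∧
      ((k2 ≤ κ ∧ -(a + 20) ≤ s ∧ s ≤ 20) ∨ (κ ≤ -k2 ∧ x ≤ 100 ∧ -D - 1 ≤ s ∧ s ≤ b + 20) ∨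
        (k2 ≤ κ ∧ A.w - 100 ≤ x ∧ -D - 1 ≤ s ∧ s ≤ c + 20) ∨
        (κ ≤ -k2 ∧ -(d + 20) ≤ s ∧ s ≤ 20)) := by
    rintro X s ⟨r, hr, o⟩
    obtain ⟨j1, j2, j3, j4, j5, j6⟩ := M.kb hr
    obtain ⟨j7, j8⟩ := x0' r hr
    by_cases hl : r < 2 ∨ 10 + 4 * m < r
    · have f1 : |s| ≤ 12 := by
        rw [abs_le]
        rcases (by omega : r = 0 ∨ r = 1 ∨ r = 8 + 4 * m + 3 ∨ r = 8 + 4 * m + 4) with
          rfl | rfl | rfl | rfl
        · exact ⟨o.ge (by linarith only [y0]) (by linarith only [y1]),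
            o.le (by linarith only [y0]) (by linarith only [y1'])⟩
        · exact ⟨o.ge (by linarith only [y1]) (by linarith only [y2]),
            o.le (by linarith only [y1']) (by linarith only [y2', y4])⟩
        · exact ⟨o.ge (by linarith only [z3]) (by linarith only [z4]),
            o.le (by linarith only [z3', z1]) (by linarith only [z4'])⟩
        · exact ⟨o.ge (by linarith only [z4]) (by linarith only [z5]),
            o.le (by linarith only [z4']) (by linarith only [z5])⟩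
      have f2 : |A.k r * s| ≤ 5 * 12 := by
        rw [abs_mul]
        exact mul_le_mul (abs_le.2 ⟨by linarith only [j1, p5], by linarith only [j2, p5]⟩) f1
          (abs_nonneg _) (by norm_num)
      rw [abs_le] at f2
      exact Or.inl ⟨f1, by linarith only [o.2, f2.1, j7], by linarith only [o.2, f2.2, j8]⟩
    refine Or.inr ⟨A.x r, A.k r, o.2, j7, j8, j4 (by omega), j3 (by omega), abs_le.2
      ⟨o.ge (hZ r (by omega)).1 (hZ (r + 1) (by omega)).1,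
        o.le (hZ r (by omega)).2 (hZ (r + 1) (by omega)).2⟩, ?_⟩
    rcases (by omega : r = 2 ∨ r = 3 ∨ (4 ≤ r ∧ r ≤ 6 + 2 * m) ∨ (6 + 2 * m < r ∧ r ≤ 8 + 4 * m) ∨
      r = 8 + 4 * m + 1 ∨ r = 8 + 4 * m + 2) with rfl | rfl | ⟨r1, r2⟩ | ⟨r1, r2⟩ | rfl | rfl
    · exact Or.inl ⟨j5 (by omega), o.ge (by linarith only [y2, a1, g1]) (by linarith only [y3]),
        o.le (by linarith only [y2', y4]) (by linarith only [y3', a1, g1])⟩
    · exact Or.inl ⟨j5 (by omega), o.ge (by linarith only [y3]) (by linarith only [y2, y2', a1, g1]),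
        o.le (by linarith only [y3', a1, g1]) (by linarith only [y4])⟩
    · exact Or.inr (Or.inl ⟨j6 (by omega), xL r r2, o.ge (yC r r1 (by omega)).1
        (yC (r + 1) (by omega) (by omega)).1, o.le (yC r r1 (by omega)).2
        (yC (r + 1) (by omega) (by omega)).2⟩)
    · exact Or.inr (Or.inr (Or.inl ⟨j5 (by omega), xR r r1 hr, o.ge (yD r (by omega) (by omega)).1
        (yD (r + 1) (by omega) (by omega)).1, o.le (yD r (by omega) (by omega)).2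
        (yD (r + 1) (by omega) (by omega)).2⟩))
    · exact Or.inr (Or.inr (Or.inr ⟨j6 (by omega), o.ge (by linarith only [z3, z3', d1, g1])
        (by linarith only [z2]), o.le (by linarith only [z1]) (by linarith only [z2', d1, g1])⟩))
    · exact Or.inr (Or.inr (Or.inr ⟨j6 (by omega), o.ge (by linarith only [z2])
        (by linarith only [z3, d1, g1]), o.le (by linarith only [z2', d1, g1])
        (by linarith only [z3', z1])⟩))
  have low : ∀ s t t' : ℝ, |s| ≤ 12 → D / 2 ≤ t → D / 2 ≤ t' →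
      (0 ≤ s ∧ s ≤ t + 20) ∨ (s ≤ 0 ∧ -s ≤ t' + 20) := fun s t t' f1 f2 f3 => by
    rw [abs_le] at f1
    rcases le_total 0 s with g | g
    · exact Or.inl ⟨g, by linarith only [f1.2, f2, g1]⟩
    · exact Or.inr ⟨g, by linarith only [f1.1, f3, g1]⟩
  have pt' : ∀ r, r < A.n → ∀ κ s : ℝ, A.k r = κ →
      ((A.y r ≤ s ∧ s ≤ A.y (r + 1)) ∨ (A.y (r + 1) ≤ s ∧ s ≤ A.y r)) →
      A.Pt (A.x r + κ * s) s := fun r hr κ s f1 f4 => ⟨r, hr, mem_uIcc.2 f4, by rw [f1]⟩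
  refine ⟨rfl, fun X s hP => ?_, fun X s hP => ?_, fun X s hP => ?_,
    ⟨A.x (7 + 4 * m), xR _ (by omega) (by omega), (x0' _ (by omega)).2, fun s f1 f2 => ?_⟩,
    ⟨A.x (8 + 4 * m + 1), xR _ (by omega) (by omega), (x0' _ (by omega)).2, fun s f1 f2 => ?_⟩,
    ⟨A.x 5, (x0' _ (by omega)).1, xL _ (by omega), fun s f1 f2 => ?_⟩,
    ⟨A.x 3, (x0' _ (by omega)).1, xL _ (by omega), fun s f1 f2 => ?_⟩⟩
  · have := mul_nonneg (show 0 ≤ k1 by linarith only [p1, p2]) (abs_nonneg s)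
    rcases cls X s hP with ⟨f1, f2, f3⟩ | ⟨x, κ, rfl, f1, f2, f3, f4, f5, -⟩
    · constructor <;> linarith only [this, f2, f3]
    · obtain ⟨j1, j2, -⟩ := lean_bd (D := D) p2 p1 p7 p8 f3 f4 f5
      constructor <;> linarith only [j1, j2, f1, f2]
  · rcases cls X s hP with ⟨f1, f2, f3⟩ | ⟨x, κ, rfl, f1, f2, f3, f4, f5, f6⟩
    · exact Or.inr (low s _ _ f1 c1 d1)
    obtain ⟨-, i2, -, i4, i5⟩ := lean_bd (D := D) p2 p1 p7 p8 f3 f4 f5
    rcases le_total 0 s with g | g <;>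
      rcases f6 with ⟨j1, j2, j3⟩ | ⟨j1, j2, j3, j4⟩ | ⟨j1, j2, j3, j4⟩ | ⟨j1, j2, j3⟩
    · exact Or.inr (Or.inl ⟨g, by linarith only [j3, c1, g1]⟩)
    · exact Or.inl (by linarith only [i4 (Or.inr ⟨j1, g⟩), f2])
    · exact Or.inr (Or.inl ⟨g, j4⟩)
    · exact Or.inl (by linarith only [i4 (Or.inr ⟨j1, g⟩), f2])
    · exact Or.inl (by linarith only [i4 (Or.inl ⟨j1, g⟩), f2])
    · exact Or.inl (by linarith only [i5 g j3, i2, j2, w1])
    · exact Or.inl (by linarith only [i4 (Or.inl ⟨j1, g⟩), f2])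
    · exact Or.inr (Or.inr ⟨g, by linarith only [j2]⟩)
  · rcases cls X s hP with ⟨f1, f2, f3⟩ | ⟨x, κ, rfl, f1, f2, f3, f4, f5, f6⟩
    · exact Or.inr (low s _ _ f1 b1 a1)
    obtain ⟨i1, -, i3, -, i5⟩ := lean_bd (D := D) p2 p1 p7 p8 f3 f4 f5
    rcases le_total 0 s with g | g <;>
      rcases f6 with ⟨j1, j2, j3⟩ | ⟨j1, j2, j3, j4⟩ | ⟨j1, j2, j3, j4⟩ | ⟨j1, j2, j3⟩
    · exact Or.inr (Or.inl ⟨g, by linarith only [j3, b1, g1]⟩)
    · exact Or.inr (Or.inl ⟨g, j4⟩)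
    · exact Or.inl (by linarith only [i3 (Or.inl ⟨j1, g⟩), f1])
    · exact Or.inr (Or.inl ⟨g, by linarith only [j3, b1, g1]⟩)
    · exact Or.inr (Or.inr ⟨g, by linarith only [j2]⟩)
    · exact Or.inl (by linarith only [i3 (Or.inr ⟨j1, g⟩), f1])
    · exact Or.inl (by linarith only [i5 g j3, i1, j2, w1])
    · exact Or.inl (by linarith only [i3 (Or.inr ⟨j1, g⟩), f1])
  · rw [show 8 + 4 * m = 7 + 4 * m + 1 by ring] at z0
    exact pt' _ (by omega) _ s ((M.KD _ (by omega) (by omega)).resolve_left (by omega)).2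
      (Or.inl ⟨by linarith only [yv, g1, f1], by linarith only [z0, f2]⟩)
  · have := pt' _ (by omega) _ (-s) M.L1
      (Or.inr ⟨by linarith only [z2', f2], by linarith only [z3, z3', f1]⟩)
    rwa [neg_mul_neg] at this
  · have := pt' 5 (by omega) (-k1) s ((M.KC _ (by omega) (by omega)).resolve_left (by omega)).2
      (Or.inr ⟨by linarith only [y6, g1, f1], by linarith only [y5, f2]⟩)
    rwa [neg_mul, ← sub_eq_add_neg] at this
  · have := pt' 3 (by omega) k1 (-s) M.K3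
      (Or.inl ⟨by linarith only [y3', f2], by linarith only [y2, y2', f1]⟩)
    rwa [mul_neg, ← sub_eq_add_neg] at this

end

theorem pM_ok {ψ : ℚ} {m : ℕ} {D T a b c d : ℚ} (P : VP ψ m D T a b c d) :
    (pM ψ m D T a b c d).Ok ∧ (pM ψ m D T a b c d).Fwd ∧
    Env (pM ψ m D T a b c d) (ct (3 / 2)) (2 * (48 * cos (1 / 4) - 24 * cos (3 / 8)) +
      2 * (D + 1) * cos (3 / 2) + 2 * T * (cos (3 / 2) - cos ψ))
      (a * sin (3 / 2)) (b * sin (3 / 2)) (c * sin (3 / 2)) (d * sin (3 / 2)) := by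
  have C := pM_crd (ψ := ψ) (D := D) (T := T) (a := a) (b := b) (c := c) (d := d) P.hm
  obtain ⟨hm, hD, ha, hb, hc, hd, q1, q2, q3, p1, p2⟩ := P
  have hm0 : (1 : ℚ) ≤ m := by exact_mod_cast hm
  have hq1 : 9 / 8 * D ≤ (T - a - c) / m := (le_div_iff₀ (by linarith only [hm0])).2 q1
  have hq2 : 9 / 8 * D ≤ (T - b - d - 1) / m := (le_div_iff₀ (by linarith only [hm0])).2 q2
  have hq3 : (T - a - c) / m ≤ 3 / 2 * D := (div_le_iff₀ (by linarith only [hm0])).2 (by linarith only [hD, ha, hc, q3])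
  have hq4 : (T - b - d - 1) / m ≤ 3 / 2 * D := (div_le_iff₀ (by linarith only [hm0])).2 (by linarith only [hD, hb, hd, q3])
  have hT : D ≤ T := by linarith only [hD, hb, hd, q2, q3]
  have hl : ∀ r, r < 13 + 4 * m → 0 < lM m D T a b c d r := fun r _ => by
    unfold lM
    repeat' apply ite_pos_of
    all_goals linarith only [hD, ha, hb, hq2, hq1, hc, hd]
  have p3 : ψ ≤ 3 / 2 + 1 / 100 := by nlinarith only [hD, hb, hd, q2, q3, p2]
  rw [← Rat.cast_le (K := ℝ)] at hD ha hb hc hd hq1 hq2 hq3 hq4 hT p2 p3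
  rw [← Rat.cast_lt (K := ℝ)] at p1
  push_cast at hD ha hb hc hd hq1 hq2 hq3 hq4 hT p1 p2 p3
  obtain ⟨t1, t2, t3, t4, t5, t6, t7, t8, t9, t10, t11⟩ := trig0
  obtain ⟨u1, u2, u3, u4, u5, u6⟩ := trig1 p1 p3
  have hp := pi_gt_three
  have hm' : (m : ℝ) ≠ 0 := by positivity
  have hT0 : (0 : ℝ) ≤ T := by linarith only [hD, hT]
  have N : Num m D T a b c d ((T - a - c) / m) ((T - b - d - 1) / m)
      (48 * sin (1 / 4) - 24 * sin (3 / 8)) (48 * cos (1 / 4) - 24 * cos (3 / 8)) (24 * sin (3 / 8))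
      (sin (3 / 2)) (cos (3 / 2)) (sin ψ - sin (3 / 2)) (cos (3 / 2) - cos ψ) (ct (1 / 4))
      (ct (3 / 8)) (ct (3 / 2)) (ct ψ) :=
    ⟨hm, hD, ha, hb, hc, hd, hq1, hq3, hq2, hq4, mul_div_cancel₀ _ hm', mul_div_cancel₀ _ hm',
      by linarith only [t2, t3], by linarith only [t1, t4], by linarith only [t6, t7],
      by linarith only [t5, t8], by linarith only [t1], by linarith only [t2], t11, sin_le_one _, t9,
      t10, by linarith only [u3], (mul_le_mul_of_nonneg_left u5 hT0).trans p2, by linarith only [u2],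
      (mul_le_mul_of_nonneg_left u4 hT0).trans p2, div_mul_cancel₀ _ (by linarith only [t11]),
      by rw [add_sub_cancel, sub_sub_cancel]; exact div_mul_cancel₀ _ (by linarith only [t11, u3]),
      ct_pos (by linarith only [p1]) u6, ct_lt (by norm_num) p1 (by linarith only [u6, hp]),
      ct_lt (by norm_num) (by norm_num) (by linarith only [hp]),
      ct_lt (by norm_num) (by norm_num) (by linarith only [hp]),
      (div_le_iff₀ (by linarith only [t3])).2 (by linarith only [t3, t8])⟩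
  obtain ⟨l0, l1, l2, l3⟩ :=
    pM_low (ψ := ψ) (m := m) (D := D) (T := T) (a := a) (b := b) (c := c) (d := d)
  have e1 := @pM_e1 ψ m D T a b c d
  have o1 := @pM_o1 ψ m D T a b c d
  have e2 := @pM_e2 ψ m D T a b c d
  have o2 := @pM_o2 ψ m D T a b c d
  have B : (pM ψ m D T a b c d).Base := by
    have B0 := fp_base (n := 13 + 4 * m) (ε := -1) (α := 0) (φ := fM ψ m) (by norm_num) (by omega)
      hl (fun r hr h => ?_) C.z5
    · exact B0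
    have h2 : (pM ψ m D T a b c d).S r = 0 := by simp only [pM, fp]; rw [h, mul_zero]
    rcases (by omega : r = 0 ∨ r = 1 ∨ r = 11 + 4 * m ∨ r = 12 + 4 * m ∨
      ((r = 2 ∨ (7 + 2 * m ≤ r ∧ r < 9 + 4 * m)) ∧ r % 2 = 0) ∨
      ((r = 3 ∨ (7 + 2 * m ≤ r ∧ r < 9 + 4 * m)) ∧ r % 2 = 1) ∨
      (((4 ≤ r ∧ r < 7 + 2 * m) ∨ r = 10 + 4 * m) ∧ r % 2 = 0) ∨
      (((4 ≤ r ∧ r < 7 + 2 * m) ∨ r = 9 + 4 * m) ∧ r % 2 = 1)) with
      rfl | rfl | rfl | rfl | h3 | h3 | h3 | h3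
    · linarith only [l0.2, h2, t1]
    · linarith only [l1.2, h2, t3]
    · linarith only [l2.2, h2, t3]
    · linarith only [l3.2, h2, t1]
    · linarith only [(e1 h3.1 h3.2).2, h2, t11, u3]
    · linarith only [(o1 h3.1 h3.2).2, h2, t11]
    · linarith only [(e2 h3.1 h3.2).2, h2, t11, u3]
    · linarith only [(o2 h3.1 h3.2).2, h2, t11]
  have hn : (pM ψ m D T a b c d).n = 13 + 4 * m := rfl
  generalize pM ψ m D T a b c d = A at *
  have ka : ∀ {r : ℕ} {x : ℝ}, A.c r = cos x ∧ A.S r = sin x → A.k r = ct x := fun h => by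
    rw [Pie.k, h.1, h.2, ct]
  have kb : ∀ {r : ℕ} {x : ℝ}, A.c r = -cos x ∧ A.S r = -sin x → A.k r = ct x := fun h => by
    rw [Pie.k, h.1, h.2, ct, neg_div_neg_eq]
  have kc : ∀ {r : ℕ} {x : ℝ}, A.c r = -cos x ∧ A.S r = sin x → A.k r = -ct x := fun h => by
    rw [Pie.k, h.1, h.2, ct, neg_div]
  have kd : ∀ {r : ℕ} {x : ℝ}, A.c r = cos x ∧ A.S r = -sin x → A.k r = -ct x := fun h => by
    rw [Pie.k, h.1, h.2, ct, div_neg]
  have V := C.vb N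
  obtain ⟨-, -, -, -, -, -, -, -, -, -, b9, b10, b11⟩ := N.basic
  have M := V.ms hm hn N.p2 N.p1 N.pt N.p0 N.p5 b9 b11 (kb l0) (ka l1) (kb (e1 (by omega) rfl))
    (ka (o1 (by omega) rfl))
    (fun r r1 r2 => (Nat.mod_two_eq_zero_or_one r).imp (fun h => ⟨h, kc (e2 (by omega) h)⟩)
      (fun h => ⟨h, kd (o2 (by omega) h)⟩))
    (fun r r1 r2 => (Nat.mod_two_eq_zero_or_one r).imp (fun h => ⟨h, kb (e1 (by omega) h)⟩)
      (fun h => ⟨h, ka (o1 (by omega) h)⟩))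
    (kd (o2 (by omega) (by omega))) (kc (e2 (by omega) (by omega)))
    (by rw [show 8 + 4 * m + 3 = 11 + 4 * m by ring]; exact kd l2)
    (by rw [show 8 + 4 * m + 4 = 12 + 4 * m by ring]; exact kc l3)
  have hw := C.Xw
  rw [← hn] at hw
  change A.w = _ at hw
  have kD : ct (3 / 2) * (D * sin (3 / 2)) = D * cos (3 / 2) := by rw [← N.e1]; ring
  have Tτ := mul_nonneg hT0 N.τ0
  refine ⟨M.ok B, M.fwd, hw ▸ V.env B hm M N.p5 b10 b11 ?_ ?_ ?_⟩
  · rw [Pie.x, ((M.KC _ (by omega) le_rfl).resolve_right (by omega)).2, C.Xu]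
    have f0 := ((V.aC (6 + 2 * m) (by omega) le_rfl).resolve_right (by omega)).2.2
    have f1 : ((T : ℝ) + a - d - 1) * (cos (3 / 2) - cos ψ) ≤ 2 * T * (cos (3 / 2) - cos ψ) :=
      mul_le_mul_of_nonneg_right (by
        have := mul_pos (show (0 : ℝ) < m by positivity) (show 0 < ((T : ℝ) - a - c) / m by
          linarith only [hq1, hD])
        rw [N.q5] at this
        linarith only [this, hc, hd, hD]) N.τ0
    have f2 := mul_le_mul_of_nonneg_left f0 N.p2.le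
    have f3 : (ct (3 / 2) - ct ψ) * (D * sin (3 / 2)) ≤ 1 :=
      (mul_le_mul_of_nonneg_left (by linarith only [V.big.2]) (by linarith only [N.p1])).trans b11
    linarith only [f1, f2, f3, kD, N.x2, N.τ1, t10, N.p1, b10]
  · rw [kD, hw]; linarith only [N.x1, t9, Tτ]
  · rw [kD, hw]; linarith only [N.x2, t10, N.τ1]

end Pool.Agent.MP_e5fd74_lc.H46
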