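import Pool.Agent.Lib.Cx.All
import Pool.Agent.MP_e5fd74_lc.Mg.H46_Pieces
import Pool.Agent.MP_e5fd74_lc.Mg.H46_Vertex

attribute [-instance] List.instDecidableMemOfLawfulBEq Finset.decidableDforallFinset
  Multiset.decidableDforallMultiset Vector.instDecidableForallForallMemOfDecidablePred
  Option.decidableForallMem Array.instDecidableForallForallMemOfDecidablePred Int.decidableLTLE
  AddQuantale.instAddLeftMono Int.decidableLTLT Int.decidableLELE MonTypeEquivalenceMon.monMonoid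
  Int.decidableLELT RKHS.instFunLike NumberField.to_charZero AddQuantale.instAddRightMono
  CompletePartialOrder.toPartialOrder instCoeOTCOfCoeOut AlgHom.instNonUnitalAlgHomClassOfAlgHomClass
  Group.IsPerfect.subsingleton_of_isMulCommutative instCoeHTCOfCoeHeadOfCoeOTC
  Quantale.instMulRightMono NeZero.of_gt' instCoeTOfCoeDep littleWedderburn
  CommMonTypeEquivalenceCommMon.commMonCommMonoid instCoeTCOfCoe Invertible.toNeZero
  TestFunctionClass.toDFunLike NonUnitalAlgSemiHomClass.toDistribMulActionSemiHomClass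
  instCoeHTCTOfCoeTailOfCoeHTC BialgHomClass.toMonoidHomClass ContDiffMapSupportedInClass.toDFunLike
  NormedField.toField NonUnitalNonAssocRing.toAddCommGroup

-- part MP_e5fd74_lc.Rat
section

/-!
Polynomial-time arithmetic on rational numbers for the Prelude encodings.
-/

namespace Pool.Agent.MP_e5fd74_lc

open Pool.Agent.Lib.Cx

variable {α : Type} [Enc α]

/-- One step of Euclid's algorithm. -/
def gstep (p : ℕ × ℕ) : ℕ × ℕ := if p.1 = 0 then p else (p.2 % p.1, p.1)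

theorem gstep_gcd (p : ℕ × ℕ) : (gstep p).1.gcd (gstep p).2 = p.1.gcd p.2 := by
  unfold gstep
  split_ifs with h
  · rfl
  · exact (Nat.gcd_rec _ _).symm

theorem gstep_iter_gcd (n : ℕ) (p : ℕ × ℕ) :
    (gstep^[n] p).1.gcd (gstep^[n] p).2 = p.1.gcd p.2 := by
  induction n with
  | zero => rfl
  | succ n ih => rw [Function.iterate_succ_apply', gstep_gcd, ih]

theorem gstep_two (p : ℕ × ℕ) : 2 * (gstep (gstep p)).1 ≤ p.1 := by
  obtain ⟨a, b⟩ := p
  by_cases ha : a = 0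
  · simp [gstep, ha]
  by_cases hb : b % a = 0
  · simp [gstep, ha, hb]
  simp only [gstep, ha, hb, if_false]
  have h1 : b % a < a := Nat.mod_lt _ (Nat.pos_of_ne_zero ha)
  have h2 : a % (b % a) < b % a := Nat.mod_lt _ (Nat.pos_of_ne_zero hb)
  have h3 := Nat.div_add_mod a (b % a)
  have h4 : 1 ≤ a / (b % a) := (Nat.one_le_div_iff (Nat.pos_of_ne_zero hb)).2 h1.le
  nlinarith

theorem gstep_zero (n : ℕ) : ∀ p : ℕ × ℕ, p.1 < 2 ^ n → (gstep^[2 * n] p).1 = 0 := by
  induction n with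
  | zero => intro p h; simpa using h
  | succ n ih =>
    intro p h
    rw [show 2 * (n + 1) = 2 * n + 1 + 1 by ring, Function.iterate_succ_apply,
      Function.iterate_succ_apply]
    apply ih
    have := gstep_two p
    rw [pow_succ] at h
    omega

theorem gstep_le (n : ℕ) (p : ℕ × ℕ) :
    (gstep^[n] p).1 ≤ p.1 + p.2 ∧ (gstep^[n] p).2 ≤ p.1 + p.2 := by
  induction n with
  | zero => simp
  | succ n ih =>
    rw [Function.iterate_succ_apply']
    unfold gstep
    split_ifs with h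
    · exact ih
    · exact ⟨(Nat.mod_le _ _).trans ih.2, ih.1⟩

@[fun_prop] theorem pt_gcd {f g : α → ℕ} (hf : PT f) (hg : PT g) :
    PT (fun x => (f x).gcd (g x)) := by
  have h1 : PT (fun z : α × (ℕ × ℕ) => gstep z.2) := by unfold gstep; fun_prop
  have h2 : PT (fun x => gstep^[2 * size (f x)] (f x, g x)) := by
    refine PT.iterate (f := fun _ p => gstep p) h1 (by fun_prop) (by fun_prop) (by fun_prop)
      (M := fun x => 3 * size (f x + g x) + 1) (by fun_prop) (fun x i _ => ?_)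
    have h := gstep_le i (f x, g x)
    have := size_nat_mono h.1
    have := size_nat_mono h.2
    change size (gstep^[i] (f x, g x)) ≤ _
    rw [size_prod]
    dsimp only at *
    omega
  refine h2.snd.of_eq fun x => ?_
  have h3 := gstep_iter_gcd (2 * size (f x)) (f x, g x)
  rw [gstep_zero (size (f x)) (f x, g x) (lt_two_pow_size _), Nat.gcd_zero_left] at h3
  exact h3.symm

theorem pt_intPair {f : α → ℤ} (hf : PT f) : PT (fun x => ((f x).toNat, (-f x).toNat)) := hf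

theorem pt_ofIntPair {f : α → ℤ} (hf : PT (fun x => ((f x).toNat, (-f x).toNat))) : PT f := hf

theorem pt_ratPair {f : α → ℚ} (hf : PT f) : PT (fun x => ((f x).num, (f x).den)) := hf

theorem pt_ofRatPair {f : α → ℚ} (hf : PT (fun x => ((f x).num, (f x).den))) : PT f := hf

/-- Positive part of the numerator. -/
def np (r : ℚ) : ℕ := r.num.toNat

/-- Negative part of the numerator. -/
def nn (r : ℚ) : ℕ := (-r.num).toNat

@[fun_prop] theorem pt_np {f : α → ℚ} (hf : PT f) : PT (fun x => np (f x)) :=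
  (pt_intPair (pt_ratPair hf).fst).fst

@[fun_prop] theorem pt_nn {f : α → ℚ} (hf : PT f) : PT (fun x => nn (f x)) :=
  (pt_intPair (pt_ratPair hf).fst).snd

@[fun_prop] theorem pt_den {f : α → ℚ} (hf : PT f) : PT (fun x => (f x).den) :=
  (pt_ratPair hf).snd

theorem np_sub_nn (r : ℚ) : ((np r : ℚ) - nn r) / r.den = r := by
  have h : ((np r : ℤ) - nn r) = r.num := by unfold np nn; omega
  have h' : ((np r : ℚ) - nn r) = r.num := by exact_mod_cast h
  rw [h', Rat.num_div_den]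

/-- The fraction `(a - b) / d`. -/
def fr (a b d : ℕ) : ℚ := ((a : ℚ) - b) / d

theorem fr_eq (a b d : ℕ) : fr a b d = mkRat ((a : ℤ) - b) d := by
  rw [Rat.mkRat_eq_div]; simp [fr]

theorem natAbs_sub (a b : ℕ) : ((a : ℤ) - b).natAbs = (a - b) + (b - a) := by omega

@[fun_prop] theorem pt_fr {a b d : α → ℕ} (ha : PT a) (hb : PT b) (hd : PT d) :
    PT (fun x => fr (a x) (b x) (d x)) := by
  apply pt_ofRatPair
  apply PT.prodMk
  · apply pt_ofIntPair
    have : PT (fun x => if d x = 0 then ((0 : ℕ), (0 : ℕ)) else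
        ((a x - b x) / (d x).gcd ((a x - b x) + (b x - a x)),
          (b x - a x) / (d x).gcd ((a x - b x) + (b x - a x)))) := by fun_prop
    refine this.of_eq fun x => ?_
    rw [fr_eq, Rat.num_mkRat, natAbs_sub]
    split_ifs with h
    · rfl
    · rcases le_total (a x) (b x) with h1 | h1
      · obtain ⟨c, hc⟩ := Nat.exists_eq_add_of_le h1
        have e1 : a x - b x = 0 := by omega
        have e2 : b x - a x = c := by omega
        have e3 : ((a x : ℤ) - b x) = -(c : ℤ) := by omega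
        rw [e1, e2, e3, zero_add, Int.neg_ediv_of_dvd (by exact_mod_cast Nat.gcd_dvd_right _ _),
          ← Int.natCast_div, Nat.zero_div]
        generalize c / (d x).gcd c = u
        simp
      · obtain ⟨c, hc⟩ := Nat.exists_eq_add_of_le h1
        have e1 : a x - b x = c := by omega
        have e2 : b x - a x = 0 := by omega
        have e3 : ((a x : ℤ) - b x) = (c : ℤ) := by omega
        rw [e1, e2, e3, add_zero, ← Int.natCast_div, Nat.zero_div]
        generalize c / (d x).gcd c = u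
        simp
  · have : PT (fun x => if d x = 0 then 1 else
        d x / (d x).gcd ((a x - b x) + (b x - a x))) := by fun_prop
    refine this.of_eq fun x => ?_
    rw [fr_eq, Rat.den_mkRat, natAbs_sub]

@[fun_prop] theorem pt_natCast {a : α → ℕ} (ha : PT a) : PT (fun x => (a x : ℚ)) :=
  (pt_fr ha (PT.const 0) (PT.const 1)).of_eq fun x => by simp [fr]

@[fun_prop] theorem pt_add {f g : α → ℚ} (hf : PT f) (hg : PT g) : PT (fun x => f x + g x) := by
  have : PT (fun x => fr (np (f x) * (g x).den + np (g x) * (f x).den)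
      (nn (f x) * (g x).den + nn (g x) * (f x).den) ((f x).den * (g x).den)) := by fun_prop
  refine this.of_eq fun x => ?_
  have h1 : ((f x).den : ℚ) ≠ 0 := by exact_mod_cast (f x).den_nz
  have h2 : ((g x).den : ℚ) ≠ 0 := by exact_mod_cast (g x).den_nz
  conv_lhs => rw [← np_sub_nn (f x), ← np_sub_nn (g x)]
  simp only [fr]
  push_cast
  field_simp
  ring

@[fun_prop] theorem pt_neg {f : α → ℚ} (hf : PT f) : PT (fun x => -f x) := by
  have : PT (fun x => fr (nn (f x)) (np (f x)) (f x).den) := by fun_prop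
  refine this.of_eq fun x => ?_
  conv_lhs => rw [← np_sub_nn (f x)]
  simp only [fr]
  ring

@[fun_prop] theorem pt_sub {f g : α → ℚ} (hf : PT f) (hg : PT g) : PT (fun x => f x - g x) :=
  (pt_add hf (pt_neg hg)).of_eq fun _ => sub_eq_add_neg _ _

@[fun_prop] theorem pt_mul {f g : α → ℚ} (hf : PT f) (hg : PT g) : PT (fun x => f x * g x) := by
  have : PT (fun x => fr (np (f x) * np (g x) + nn (f x) * nn (g x))
      (np (f x) * nn (g x) + nn (f x) * np (g x)) ((f x).den * (g x).den)) := by fun_prop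
  refine this.of_eq fun x => ?_
  have h1 : ((f x).den : ℚ) ≠ 0 := by exact_mod_cast (f x).den_nz
  have h2 : ((g x).den : ℚ) ≠ 0 := by exact_mod_cast (g x).den_nz
  conv_lhs => rw [← np_sub_nn (f x), ← np_sub_nn (g x)]
  simp only [fr]
  push_cast
  field_simp
  ring

@[fun_prop] theorem pt_inv {f : α → ℚ} (hf : PT f) : PT (fun x => (f x)⁻¹) := by
  have : PT (fun x => fr (np (f x) * (f x).den) (nn (f x) * (f x).den)
      ((np (f x) + nn (f x)) * (np (f x) + nn (f x)))) := by fun_prop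
  refine this.of_eq fun x => ?_
  have h1 : ((f x).den : ℚ) ≠ 0 := by exact_mod_cast (f x).den_nz
  have h2 : np (f x) = 0 ∨ nn (f x) = 0 := by unfold np nn; omega
  conv_lhs => rw [← np_sub_nn (f x)]
  simp only [fr]
  push_cast
  rcases h2 with h | h
  · rw [h]
    by_cases h3 : (nn (f x) : ℚ) = 0
    · simp [h3]
    · simp only [Nat.cast_zero, zero_sub, zero_mul, zero_add]
      field_simp
  · rw [h]
    by_cases h3 : (np (f x) : ℚ) = 0
    · simp [h3]
    · simp only [Nat.cast_zero, sub_zero, zero_mul, add_zero]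
      field_simp

@[fun_prop] theorem pt_div {f g : α → ℚ} (hf : PT f) (hg : PT g) : PT (fun x => f x / g x) :=
  (pt_mul hf (pt_inv hg)).of_eq fun _ => div_eq_mul_inv _ _

end Pool.Agent.MP_e5fd74_lc

end

-- part MP_e5fd74_lc.H66.Red
section

/-! Three-colouring reduces to the state problem: one row of cells for each edge. -/

namespace Pool.Agent.MP_e5fd74_lc.H66

def Col3 (E : List (ℕ × ℕ)) : Prop := ∃ f : ℕ → ZMod 3, ∀ e ∈ E, f e.1 ≠ f e.2

def pos (N t v : ℕ) : ℕ := if t % 2 = 0 then v else N - 1 - v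

def iu (N : ℕ) (E : List (ℕ × ℕ)) (t : ℕ) : ℕ :=
  min (pos N t (E.getD t (0, 0)).1) (pos N t (E.getD t (0, 0)).2)

def iv (N : ℕ) (E : List (ℕ × ℕ)) (t : ℕ) : ℕ :=
  max (pos N t (E.getD t (0, 0)).1) (pos N t (E.getD t (0, 0)).2)

def rR (N u v i k : ℕ) : ℕ :=
  if i = N then 1 else if k = 0 ∨ k = 2 then 2 else if k = 3 then (if i = u then 7 * (v - u) + 2 else 2)
  else if k = 4 then 14 * (N - 1 - i) + 6 else if k = 6 ∧ i + 1 = N then 2 else 1

def rL (N u v i k : ℕ) : ℕ :=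
  if i = N then k + 1 else if k ≤ 1 then 14 * i + 5 + k
  else if k = 3 then (if i = v then 7 * (v - u) + 1 else 1)
  else if k = 5 ∧ i = v then 7 * (v - u) + 2 else 2

def rT (N i k : ℕ) : Bool :=
  if i = N then decide (k = 0) else decide ((2 ≤ k ∧ k ≤ 5) ∨ (k = 6 ∧ i + 1 = N))

def RR (N : ℕ) (E : List (ℕ × ℕ)) (p : ℕ) : ℕ :=
  rR N (iu N E (p / (7 * N + 2))) (iv N E (p / (7 * N + 2))) (p % (7 * N + 2) / 7)
    (p % (7 * N + 2) % 7)

def LL (N : ℕ) (E : List (ℕ × ℕ)) (p : ℕ) : ℕ :=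
  rL N (iu N E (p / (7 * N + 2))) (iv N E (p / (7 * N + 2))) (p % (7 * N + 2) / 7)
    (p % (7 * N + 2) % 7)

def TT (N p : ℕ) : Bool := rT N (p % (7 * N + 2) / 7) (p % (7 * N + 2) % 7)

theorem RR_pos (N E p) : 1 ≤ RR N E p := by unfold RR rR; split_ifs <;> omega

theorem LL_pos (N E p) : 1 ≤ LL N E p := by unfold LL rL; split_ifs <;> omega

/-- The position of piece `k` of cell `i` in row `t`. -/
def pl (N t i k : ℕ) : ℕ := t * (7 * N + 2) + (7 * i + k)

def Va (N i k : ℕ) : Prop := (i < N ∧ k < 7) ∨ (i = N ∧ k < 2)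

theorem pl_dec {N i k : ℕ} (t : ℕ) (h : Va N i k) : pl N t i k / (7 * N + 2) = t ∧
    pl N t i k % (7 * N + 2) / 7 = i ∧ pl N t i k % (7 * N + 2) % 7 = k := by
  have h1 : 7 * i + k < 7 * N + 2 := by unfold Va at h; omega
  have h2 : pl N t i k % (7 * N + 2) = 7 * i + k := by
    rw [pl, Nat.mul_add_mod_of_lt h1]
  refine ⟨?_, by unfold Va at h; omega, by unfold Va at h; omega⟩
  rw [pl, mul_comm, Nat.mul_add_div (by omega), Nat.div_eq_of_lt h1, add_zero]

theorem exists_pl (N p : ℕ) : ∃ t i k, Va N i k ∧ p = pl N t i k := by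
  have h1 := Nat.mod_lt p (show 0 < 7 * N + 2 by omega)
  refine ⟨p / (7 * N + 2), p % (7 * N + 2) / 7, p % (7 * N + 2) % 7, by unfold Va; omega, ?_⟩
  rw [pl, Nat.div_add_mod, Nat.div_add_mod']

theorem pl_lt {N i k t m : ℕ} (h : Va N i k) : pl N t i k < m * (7 * N + 2) ↔ t < m := by
  rw [← Nat.div_lt_iff_lt_mul (by omega), (pl_dec t h).1]

theorem pl_succ (N t i k : ℕ) : pl N (t + 1) i k = pl N t 0 0 + (7 * N + 2) + (7 * i + k) := by
  unfold pl; ring

theorem pl_eq (N t i k : ℕ) : pl N t i k = pl N t 0 0 + (7 * i + k) := by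
  unfold pl; ring

theorem RR_pl {N i k : ℕ} (E t) (h : Va N i k) :
    RR N E (pl N t i k) = rR N (iu N E t) (iv N E t) i k := by
  simp only [RR, pl_dec t h]

theorem LL_pl {N i k : ℕ} (E t) (h : Va N i k) :
    LL N E (pl N t i k) = rL N (iu N E t) (iv N E t) i k := by
  simp only [LL, pl_dec t h]

theorem TT_pl {N i k : ℕ} (t) (h : Va N i k) : TT N (pl N t i k) = rT N i k := by
  simp only [TT, pl_dec t h]

theorem pos_pos {N v : ℕ} (t : ℕ) (h : v < N) : pos N t v < N ∧ pos N t (pos N t v) = v ∧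
    pos N (t + 1) (N - 1 - v) = pos N t v := by
  unfold pos; split_ifs <;> omega

theorem uv {N : ℕ} {E : List (ℕ × ℕ)} (hE : ∀ e ∈ E, e.1 < N ∧ e.2 < N ∧ e.1 ≠ e.2) {t : ℕ}
    (ht : t < E.length) : iu N E t < iv N E t ∧ iv N E t < N ∧
    ((pos N t (iu N E t) = E[t].1 ∧ pos N t (iv N E t) = E[t].2) ∨
      (pos N t (iu N E t) = E[t].2 ∧ pos N t (iv N E t) = E[t].1)) := by
  have := hE _ (List.getElem_mem ht)
  simp only [iu, iv, List.getD_eq_getElem _ _ ht, pos]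
  split_ifs <;> omega

def off (N i k : ℕ) : ℕ := if i = N then k + 1 else k - 2

theorem off_cases {N i k : ℕ} (h : Va N i k) : (i < N ∧ k ≤ 2 ∧ off N i k = 0) ∨
    (i < N ∧ 2 < k ∧ k < 7 ∧ off N i k + 2 = k) ∨ (i = N ∧ k < 2 ∧ off N i k = k + 1) := by
  unfold Va at h; unfold off; split_ifs <;> omega

theorem rR_cases {N u v i k d : ℕ} (h : Va N i k) (hd : 2 ≤ d) (hR : d ≤ rR N u v i k) :
    (d = 2 ∧ i < N ∧ (k = 0 ∨ k = 2 ∨ k = 3 ∨ (k = 6 ∧ i + 1 = N))) ∨
      (k = 3 ∧ i = u ∧ d ≤ 7 * (v - u) + 2) ∨ (k = 4 ∧ i < N ∧ d ≤ 14 * (N - 1 - i) + 6) := by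
  unfold Va at h; unfold rR at hR; split_ifs at hR <;> omega

theorem rL_cases {N u v i k d : ℕ} (h : Va N i k) (hd : 2 ≤ d) (hL : d ≤ rL N u v i k) :
    d = 2 ∨ (i < N ∧ k ≤ 1 ∧ d ≤ 14 * i + 5 + k) ∨ (i = v ∧ (k = 3 ∨ k = 5)) := by
  unfold Va at h; unfold rL at hL; split_ifs at hL <;> omega

theorem conflicts {N u v u' v' t t' i k i' k' : ℕ} (h : Va N i k) (h' : Va N i' k') (huv : u < v)
    (hv : v < N) (hs : t' = t → u' = u ∧ v' = v) (hab : pl N t i k + 1 < pl N t' i' k')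
    (hR : pl N t' i' k' - pl N t i k ≤ rR N u v i k)
    (hL : pl N t' i' k' - pl N t i k ≤ rL N u' v' i' k')
    (hc : (2 * t + off N i k) % 4 = (2 * t' + off N i' k') % 4) :
    (i < N ∧ k = 0 ∧ t' = t ∧ i' = i ∧ k' = 2) ∨ (k = 3 ∧ k' = 3 ∧ t' = t ∧ i = u ∧ i' = v) ∨
      (k = 4 ∧ t' = t + 1 ∧ i + i' + 1 = N ∧ k' ≤ 1) := by
  have hle : t ≤ t' := by
    rw [← (pl_dec t h).1, ← (pl_dec t' h').1]
    exact Nat.div_le_div_right (by omega)
  have r1 := rR_cases h (by omega) hR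
  have r2 := rL_cases h' (by omega) hL
  have o1 := off_cases h
  have o2 := off_cases h'
  clear hR hL h h'
  rcases (by omega : t' = t ∨ t' = t + 1 ∨ t + 2 ≤ t') with rfl | rfl | h2
  · obtain ⟨rfl, rfl⟩ := hs rfl
    rw [pl_eq N t' i k, pl_eq N t' i' k', Nat.add_sub_add_left] at r1 r2
    rw [pl_eq N t' i k, pl_eq N t' i' k', add_assoc, Nat.add_lt_add_iff_left] at hab
    have hc' : off N i k % 4 = off N i' k' % 4 := by clear r1 r2 o1 o2; omega
    clear hc hle hs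
    generalize off N i k = x at *
    generalize off N i' k' = y at *
    rcases r1 with ⟨a, b, rfl | rfl | rfl | ⟨rfl, c⟩⟩ | ⟨rfl, rfl, c⟩ | ⟨rfl, b, c⟩
    · left; clear r2; omega
    · exfalso; clear r2; omega
    · exfalso; clear r2; omega
    · exfalso; clear r2; omega
    · right; left; omega
    · exfalso; omega
  · rw [pl_eq N t i k, pl_succ, add_assoc (pl N t 0 0), Nat.add_sub_add_left] at r1 r2
    have hc' : off N i k % 4 = (off N i' k' + 2) % 4 := by clear r1 r2 o1 o2; omega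
    clear hc hle hs hab
    generalize off N i k = x at *
    generalize off N i' k' = y at *
    rcases r1 with ⟨a, b, rfl | rfl | rfl | ⟨rfl, c⟩⟩ | ⟨rfl, rfl, c⟩ | ⟨rfl, b, c⟩
    · exfalso; clear r2 o1 o2; omega
    · exfalso; clear r2 o1 o2; omega
    · exfalso; clear r2 o1 o2; omega
    · exfalso; clear r2 o1 o2; omega
    · exfalso; clear r2 o1 o2; omega
    · right; right; omega
  · have h3 : pl N (t + 2) 0 0 ≤ pl N t' 0 0 := by
      unfold pl; exact Nat.add_le_add_right (Nat.mul_le_mul_right _ h2) _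
    rw [pl_succ, pl_succ] at h3
    rw [pl_eq N t i k, pl_eq N t' i' k'] at r1
    clear r2 o1 o2 hc hab
    exfalso
    omega

def cx (c p : ZMod 3) (k : ℕ) : ZMod 3 :=
  if k = 0 then (if c + 1 = p then c + 2 else c + 1)
  else if k = 1 then (if c + 1 = p then c + 1 else c + 2) else c

theorem cx_ne : ∀ c p : ZMod 3, cx c p 0 ≠ p ∧ cx c p 1 ≠ cx c p 0 ∧ cx c p 0 ≠ c ∧ cx c p 1 ≠ c := by
  decide

theorem cx_ge (c p : ZMod 3) {k : ℕ} (h : 2 ≤ k) : cx c p k = c := by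
  rw [cx, if_neg (by omega), if_neg (by omega)]

theorem sol_of_col {N : ℕ} {E : List (ℕ × ℕ)} (hE : ∀ e ∈ E, e.1 < N ∧ e.2 < N ∧ e.1 ≠ e.2)
    (h : Col3 E) : Sol (E.length * (7 * N + 2)) (RR N E) (LL N E) (TT N) := by
  obtain ⟨f, hf⟩ := h
  let C : ℕ → ℕ → ℕ → ZMod 3 := fun t i k => if i = N then f (pos N t (N - 1))
    else cx (f (pos N t i)) (f (pos N t (i - 1))) k
  refine ⟨fun p => C (p / (7 * N + 2)) (p % (7 * N + 2) / 7) (p % (7 * N + 2) % 7),
    fun p => ((2 * (p / (7 * N + 2)) + off N (p % (7 * N + 2) / 7) (p % (7 * N + 2) % 7) : ℕ) :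
      ZMod 4), fun j hj => ?_, fun a b hab hb hR hL hc hs => ?_⟩
  · obtain ⟨t, i, k, hv, rfl⟩ := exists_pl N j
    have ht : t < E.length := (pl_lt hv).1 (by omega)
    have hN : 0 < N := by have := uv hE ht; omega
    have p1 : ∀ x y : ℕ, y = x + 1 → (y : ZMod 4) = x + 1 ∨ (y : ZMod 4) = x - 1 := by
      rintro x y rfl; left; push_cast; rfl
    have p2 : ∀ x y : ℕ, y % 4 = x % 4 → (y : ZMod 4) = x := fun x y h =>
      (ZMod.natCast_eq_natCast_iff' _ _ _).2 h
    rw [TT_pl t hv]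
    by_cases c1 : Va N i (k + 1)
    · rw [show pl N t i k + 1 = pl N t i (k + 1) from rfl]
      simp only [pl_dec t hv, pl_dec t c1, C, rT, off]
      unfold Va at hv c1
      by_cases c2 : i = N
      · simp only [if_pos c2, decide_eq_true_eq, decide_eq_false_iff_not]
        exact ⟨fun _ => ⟨trivial, p1 _ _ (by omega)⟩, fun h => absurd (by omega) h⟩
      · simp only [if_neg c2, decide_eq_true_eq, decide_eq_false_iff_not]
        refine ⟨fun h => ⟨by rw [cx_ge _ _ (by omega), cx_ge _ _ (by omega)], p1 _ _ (by omega)⟩,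
          fun h => ⟨?_, p2 _ _ (by omega)⟩⟩
        rcases (by omega : k = 0 ∨ k = 1) with rfl | rfl
        · exact (cx_ne _ _).2.1
        · rw [cx_ge _ _ le_rfl]; exact (cx_ne _ _).2.2.2.symm
    by_cases c2 : i = N
    · obtain rfl : k = 1 := by unfold Va at hv c1; omega
      have v0 : Va N 0 0 := Or.inl ⟨hN, by norm_num⟩
      rw [show pl N t i 1 + 1 = pl N (t + 1) 0 0 by rw [pl_succ, pl_eq N t i]; omega]
      simp only [pl_dec t hv, pl_dec (t + 1) v0, C, rT, off, if_pos c2, if_neg hN.ne]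
      refine ⟨fun h => by simp at h, fun _ => ⟨?_, p2 _ _ (by omega)⟩⟩
      have := (pos_pos t (show N - 1 < N by omega)).2.2
      rw [Nat.sub_self] at this
      rw [← this]
      exact (cx_ne _ _).2.2.1
    · obtain rfl : k = 6 := by unfold Va at hv c1; omega
      have v0 : Va N (i + 1) 0 := by unfold Va at hv ⊢; omega
      rw [show pl N t i 6 + 1 = pl N t (i + 1) 0 by unfold pl; ring]
      simp only [pl_dec t hv, pl_dec t v0, C, rT, off, if_neg c2, decide_eq_true_eq,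
        decide_eq_false_iff_not, cx_ge _ _ (show 2 ≤ 6 by norm_num)]
      by_cases c3 : i + 1 = N
      · simp only [if_pos c3]
        refine ⟨fun _ => ⟨by rw [← c3, Nat.add_sub_cancel], Or.inl ?_⟩, fun h => by simp [c3] at h⟩
        rw [← Nat.cast_succ]
        exact p2 _ _ (by omega)
      · simp only [if_neg c3]
        exact ⟨fun h => absurd h (by omega), fun _ => ⟨(cx_ne _ _).1, p2 _ _ (by omega)⟩⟩
  · obtain ⟨t, i, k, hv, rfl⟩ := exists_pl N a
    obtain ⟨t', i', k', hv', rfl⟩ := exists_pl N b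
    have ht : t < E.length := (pl_lt hv).1 (by omega)
    obtain ⟨u1, u2, u3⟩ := uv hE ht
    rw [RR_pl E t hv] at hR
    rw [LL_pl E t' hv'] at hL
    simp only [pl_dec t hv, pl_dec t' hv', C] at hc hs
    rcases conflicts hv hv' u1 u2 (by rintro rfl; exact ⟨rfl, rfl⟩) hab hR hL
      ((ZMod.natCast_eq_natCast_iff' _ _ _).1 hs) with
      ⟨q0, rfl, rfl, rfl, rfl⟩ | ⟨rfl, rfl, rfl, rfl, rfl⟩ | ⟨rfl, rfl, q1, q2⟩
    · rw [if_neg q0.ne, if_neg q0.ne, cx_ge _ _ le_rfl] at hc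
      exact (cx_ne _ _).2.2.1 hc
    · rw [if_neg (by omega), if_neg (by omega), cx_ge _ _ (by norm_num),
        cx_ge _ _ (by norm_num)] at hc
      have := hf _ (List.getElem_mem ht)
      rcases u3 with ⟨e1, e2⟩ | ⟨e1, e2⟩ <;> rw [e1, e2] at hc
      · exact this hc
      · exact this hc.symm
    · rw [if_neg (by omega), if_neg (by omega), cx_ge _ _ (by norm_num),
        show i' = N - 1 - i by omega, (pos_pos t (show i < N by omega)).2.2] at hc
      rcases (by omega : k' = 0 ∨ k' = 1) with rfl | rfl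
      · exact (cx_ne _ _).2.2.1 hc.symm
      · exact (cx_ne _ _).2.2.2 hc.symm

theorem z4a : ∀ x y z : ZMod 4, (y = x + 1 ∨ y = x - 1) → (z = y + 1 ∨ z = y - 1) → x ≠ z →
    z = x + 2 := by decide

theorem z4b : ∀ x y z : ZMod 4, (y = x + 1 ∨ y = x - 1) → (z = x + 1 ∨ z = x - 1) →
    y = z ∨ y = z + 2 := by decide

theorem z4c : ∀ x : ZMod 4, x + 2 + 2 = x := by decide

set_option synthInstance.maxSize 1000 in
theorem z3a : ∀ x y a c : ZMod 3, y ≠ x → a ≠ y → x ≠ a → c ≠ x → c ≠ y → a = c := by decide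

theorem col_of_sol {N : ℕ} {E : List (ℕ × ℕ)} (hE : ∀ e ∈ E, e.1 < N ∧ e.2 < N ∧ e.1 ≠ e.2)
    (h : Sol (E.length * (7 * N + 2)) (RR N E) (LL N E) (TT N)) : Col3 E := by
  obtain ⟨col, cls, h1, h2⟩ := h
  have stK : ∀ t i k, t < E.length → Va N i k → Va N i (k + 1) → rT N i k = true →
      col (pl N t i (k + 1)) = col (pl N t i k) ∧ (cls (pl N t i (k + 1)) = cls (pl N t i k) + 1 ∨
        cls (pl N t i (k + 1)) = cls (pl N t i k) - 1) := fun t i k ht v v' hT =>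
    (h1 (pl N t i k) ((pl_lt v').2 ht)).1 (by rw [TT_pl t v, hT])
  have stC : ∀ t i k, t < E.length → Va N i k → Va N i (k + 1) → rT N i k = false →
      col (pl N t i (k + 1)) ≠ col (pl N t i k) ∧ cls (pl N t i (k + 1)) = cls (pl N t i k) :=
    fun t i k ht v v' hT => (h1 (pl N t i k) ((pl_lt v').2 ht)).2 (by rw [TT_pl t v, hT])
  have cf : ∀ t i k t' i' k', t' < E.length → Va N i k → Va N i' k' →
      pl N t i k + 1 < pl N t' i' k' →
      pl N t' i' k' - pl N t i k ≤ rR N (iu N E t) (iv N E t) i k →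
      pl N t' i' k' - pl N t i k ≤ rL N (iu N E t') (iv N E t') i' k' →
      col (pl N t i k) = col (pl N t' i' k') → cls (pl N t i k) ≠ cls (pl N t' i' k') :=
    fun t i k t' i' k' ht v v' p q r =>
      h2 _ _ p ((pl_lt v').2 ht) (by rwa [RR_pl E t v]) (by rwa [LL_pl E t' v'])
  have va : ∀ {i} k, i < N → k < 7 → Va N i k := fun k a b => Or.inl ⟨a, b⟩
  have loc : ∀ t i k, t < E.length → i < N → k < 5 → k ≠ 1 →
      col (pl N t i k) = col (pl N t i (k + 2)) → cls (pl N t i k) ≠ cls (pl N t i (k + 2)) :=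
    fun t i k ht hi hk hk' => cf t i k t i (k + 2) ht (va _ hi (by omega)) (va _ hi (by omega))
      (by unfold pl; omega) (by unfold pl rR; split_ifs <;> omega)
      (by unfold pl rL; split_ifs <;> omega)
  have cell : ∀ t i, t < E.length → i < N →
      (col (pl N t i 1) ≠ col (pl N t i 0) ∧ col (pl N t i 2) ≠ col (pl N t i 1) ∧
        col (pl N t i 0) ≠ col (pl N t i 2) ∧ col (pl N t i 3) = col (pl N t i 2) ∧
        col (pl N t i 4) = col (pl N t i 2) ∧ col (pl N t i 5) = col (pl N t i 2)) ∧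
      cls (pl N t i 1) = cls (pl N t i 0) ∧
      (cls (pl N t i 3) = cls (pl N t i 0) + 1 ∨ cls (pl N t i 3) = cls (pl N t i 0) - 1) ∧
      cls (pl N t i 4) = cls (pl N t i 0) + 2 ∧ cls (pl N t i 5) = cls (pl N t i 3) + 2 ∧
      cls (pl N t i 6) = cls (pl N t i 0) := fun t i ht hi => by
    have s0 := stC t i 0 ht (va _ hi (by omega)) (va _ hi (by omega)) (by simp [rT, hi.ne])
    have s1 := stC t i 1 ht (va _ hi (by omega)) (va _ hi (by omega)) (by simp [rT, hi.ne])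
    have s2 := stK t i 2 ht (va _ hi (by omega)) (va _ hi (by omega)) (by simp [rT, hi.ne])
    have s3 := stK t i 3 ht (va _ hi (by omega)) (va _ hi (by omega)) (by simp [rT, hi.ne])
    have s4 := stK t i 4 ht (va _ hi (by omega)) (va _ hi (by omega)) (by simp [rT, hi.ne])
    have s5 := stK t i 5 ht (va _ hi (by omega)) (va _ hi (by omega)) (by simp [rT, hi.ne])
    have l0 := loc t i 0 ht hi (by omega) (by omega)
    have l2 := loc t i 2 ht hi (by omega) (by omega)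
    have l3 := loc t i 3 ht hi (by omega) (by omega)
    have l4 := loc t i 4 ht hi (by omega) (by omega)
    simp only [Nat.reduceAdd] at s0 s1 s2 s3 s4 s5 l0 l2 l3 l4
    have e2 : cls (pl N t i 2) = cls (pl N t i 0) := s1.2.trans s0.2
    have e4 := z4a _ _ _ s2.2 s3.2 (l2 (s3.1.trans s2.1).symm)
    have e5 := z4a _ _ _ s3.2 s4.2 (l3 (s4.1.trans s3.1).symm)
    have e6 := z4a _ _ _ s4.2 s5.2 (l4 (s5.1.trans s4.1).symm)
    refine ⟨⟨s0.1, s1.1, fun h => l0 h e2.symm, s2.1, s3.1.trans s2.1,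
      s4.1.trans (s3.1.trans s2.1)⟩, s0.2, e2 ▸ s2.2, e2 ▸ e4, e5, ?_⟩
    rw [e6, e4, z4c, e2]
  have row : ∀ t i, t < E.length → i < N → cls (pl N t i 0) = cls (pl N t 0 0) := by
    intro t i ht hi
    induction i with
    | zero => rfl
    | succ i ih =>
      have e : pl N t i 6 + 1 = pl N t (i + 1) 0 := by unfold pl; ring
      have := (h1 (pl N t i 6) (by rw [e]; exact (pl_lt (va _ hi (by omega))).2 ht)).2
        (by rw [TT_pl t (va _ (by omega) (by omega))]; simp [rT, hi.ne])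
      rw [e] at this
      rw [this.2, (cell t i ht (by omega)).2.2.2.2.2, ih (by omega)]
  have nxt : ∀ t, t + 1 < E.length → cls (pl N (t + 1) 0 0) = cls (pl N t 0 0) + 2 := by
    intro t ht
    have hN : 0 < N := by have := uv hE ht; omega
    obtain ⟨i, hi⟩ : ∃ i, i + 1 = N := ⟨N - 1, by omega⟩
    have v0 : Va N N 0 := Or.inr ⟨rfl, by omega⟩
    have v1 : Va N N 1 := Or.inr ⟨rfl, by omega⟩
    have e : pl N t i 6 + 1 = pl N t N 0 := by unfold pl; omega
    have e' : pl N t N 1 + 1 = pl N (t + 1) 0 0 := by rw [pl_succ, pl_eq N t N]; omega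
    have a := (h1 (pl N t i 6) (by rw [e]; exact (pl_lt v0).2 (by omega))).1
      (by rw [TT_pl t (va _ (by omega) (by omega))]; simp [rT, hi]; omega)
    rw [e] at a
    have b := stK t N 0 (by omega) v0 v1 (by simp [rT])
    have c := (h1 (pl N t N 1) (by rw [e']; exact (pl_lt (va _ hN (by omega))).2 ht)).2
      (by rw [TT_pl t v1]; simp [rT])
    rw [e'] at c
    have d := cf t i 6 t N 1 (by omega) (va _ (by omega) (by omega)) v1 (by unfold pl; omega)
      (by unfold pl rR; split_ifs <;> omega) (by unfold pl rL; split_ifs <;> omega)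
      (b.1.trans a.1).symm
    rw [c.2, z4a _ _ _ a.2 b.2 d, (cell t i (by omega) (by omega)).2.2.2.2.2,
      row t i (by omega) (by omega)]
  have copy : ∀ t i, t < E.length → i < N → col (pl N t i 2) = col (pl N 0 (pos N t i) 2) := by
    intro t
    induction t with
    | zero => intro i _ _; rfl
    | succ t ih =>
      intro i ht hi
      obtain ⟨j, hj, rfl⟩ : ∃ j, j < N ∧ i = N - 1 - j := ⟨N - 1 - i, by omega, by omega⟩
      rw [(pos_pos t hj).2.2, ← ih j (by omega) hj]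
      have c1 := cell (t + 1) _ ht hi
      have c2 := cell t j (by omega) hj
      have e : cls (pl N t j 4) = cls (pl N (t + 1) (N - 1 - j) 0) := by
        rw [c2.2.2.2.1, row _ _ ht hi, row _ _ (by omega) hj, nxt t ht]
      have d : ∀ k, k ≤ 1 → col (pl N t j 4) = col (pl N (t + 1) (N - 1 - j) k) →
          cls (pl N t j 4) ≠ cls (pl N (t + 1) (N - 1 - j) k) := fun k hk =>
        cf t j 4 (t + 1) (N - 1 - j) k ht (va _ hj (by omega)) (va _ hi (by omega))
          (by rw [pl_succ, pl_eq N t j]; omega)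
          (by rw [pl_succ, pl_eq N t j, rR, if_neg hj.ne, if_neg (by omega), if_neg (by omega),
            if_pos rfl]; omega)
          (by rw [pl_succ, pl_eq N t j]; unfold rL; split_ifs <;> omega)
      rw [← c2.1.2.2.2.2.1]
      exact z3a _ _ _ _ c1.1.1 c1.1.2.1 c1.1.2.2.1 (fun h => d 0 (by omega) h e)
        (fun h => d 1 le_rfl h (e.trans c1.2.1.symm))
  refine ⟨fun v => col (pl N 0 v 2), fun e he => ?_⟩
  obtain ⟨t, ht, rfl⟩ := List.getElem_of_mem he
  obtain ⟨u1, u2, u3⟩ := uv hE ht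
  have key : col (pl N t (iu N E t) 2) ≠ col (pl N t (iv N E t) 2) := fun h => by
    have c1 := cell t (iu N E t) ht (by omega)
    have c2 := cell t (iv N E t) ht u2
    have d : ∀ k, k = 3 ∨ k = 5 → col (pl N t (iu N E t) 3) = col (pl N t (iv N E t) k) →
        cls (pl N t (iu N E t) 3) ≠ cls (pl N t (iv N E t) k) := fun k hk =>
      cf t _ 3 t _ k ht (va _ (by omega) (by omega)) (va _ u2 (by omega)) (by unfold pl; omega)
        (by rw [rR, if_neg (by omega), if_neg (by omega), if_pos rfl, if_pos rfl]; unfold pl; omega)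
        (by clear u3; unfold pl rL; split_ifs <;> omega)
    have r1 := c1.2.2.1
    have r2 := c2.2.2.1
    rw [row _ _ ht (by omega)] at r1
    rw [row _ _ ht u2] at r2
    rcases z4b _ _ _ r1 r2 with g | g
    · exact d 3 (Or.inl rfl) (by rw [c1.1.2.2.2.1, c2.1.2.2.2.1, h]) g
    · exact d 5 (Or.inr rfl) (by rw [c1.1.2.2.2.1, c2.1.2.2.2.2.2, h]) (g.trans c2.2.2.2.2.1.symm)
  rw [copy t _ ht (by omega), copy t _ ht u2] at key
  rcases u3 with ⟨e1, e2⟩ | ⟨e1, e2⟩ <;> rw [e1, e2] at key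
  · exact key
  · exact key.symm

end Pool.Agent.MP_e5fd74_lc.H66

/-! Three-colouring is NP-hard. -/

namespace Pool.Agent.MP_e5fd74_lc.H66

open Pool.Agent.Lib.Cx

def lit (l : ℕ × Bool) : ℕ := 3 + 2 * l.1 + if l.2 = true then 0 else 1

def gad (c : Clause3 ℕ) (g : ℕ) : List (ℕ × ℕ) :=
  [(lit c.1, g), (lit c.2.1, g + 1), (g, g + 1), (g, g + 2), (g + 1, g + 2), (g + 2, g + 3),
    (lit c.2.2, g + 4), (g + 3, g + 4), (0, g + 3), (0, g + 4)]

def edges (φ : List (Clause3 ℕ)) : List (ℕ × ℕ) :=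
  [(0, 1), (0, 2), (1, 2)] ++ ((List.range (3 * φ.length)).flatMap
    (fun v => [(3 + 2 * v, 4 + 2 * v), (2, 3 + 2 * v), (2, 4 + 2 * v)]) ++
    φ.zipIdx.flatMap (fun z => gad z.1 (3 + 6 * φ.length + 5 * z.2)))

theorem pt_edges : PT edges := by
  unfold edges gad lit
  fun_prop

theorem mem_edges {φ : List (Clause3 ℕ)} {e : ℕ × ℕ} : e ∈ edges φ ↔
    e ∈ [(0, 1), (0, 2), (1, 2)] ∨ (∃ v, v < 3 * φ.length ∧
      e ∈ [(3 + 2 * v, 4 + 2 * v), (2, 3 + 2 * v), (2, 4 + 2 * v)]) ∨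
    ∃ j, ∃ h : j < φ.length, e ∈ gad φ[j] (3 + 6 * φ.length + 5 * j) := by
  simp only [edges, List.mem_append, List.mem_flatMap, List.mem_range]
  refine or_congr Iff.rfl (or_congr Iff.rfl ⟨?_, ?_⟩)
  · rintro ⟨⟨c, j⟩, hz, he⟩
    obtain ⟨hj, hc⟩ := List.mem_zipIdx' hz
    exact ⟨j, hj, hc ▸ he⟩
  · rintro ⟨j, hj, he⟩
    exact ⟨(φ[j], j), by simp [List.mem_zipIdx_iff_getElem?, hj], he⟩

theorem vars_lt {φ : List (Clause3 ℕ)} (h : ∀ v ∈ vars3 φ, v < 3 * φ.length) {c : Clause3 ℕ}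
    (hc : c ∈ φ) : c.1.1 < 3 * φ.length ∧ c.2.1.1 < 3 * φ.length ∧ c.2.2.1 < 3 * φ.length := by
  refine ⟨h _ ?_, h _ ?_, h _ ?_⟩ <;> exact List.mem_flatMap.2 ⟨c, hc, by simp⟩

theorem lit_lt {l : ℕ × Bool} {m : ℕ} (h : l.1 < 3 * m) : 3 ≤ lit l ∧ lit l < 3 + 6 * m := by
  unfold lit; split_ifs <;> omega

theorem edges_ok {φ : List (Clause3 ℕ)} (h : ∀ v ∈ vars3 φ, v < 3 * φ.length) :
    ∀ e ∈ edges φ, e.1 < 11 * φ.length + 3 ∧ e.2 < 11 * φ.length + 3 ∧ e.1 ≠ e.2 := by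
  intro e he
  rcases mem_edges.1 he with h1 | ⟨v, hv, h1⟩ | ⟨j, hj, h1⟩
  · simp only [List.mem_cons, List.not_mem_nil, or_false] at h1
    rcases h1 with rfl | rfl | rfl <;> dsimp only <;> omega
  · simp only [List.mem_cons, List.not_mem_nil, or_false] at h1
    rcases h1 with rfl | rfl | rfl <;> dsimp only <;> omega
  · obtain ⟨a, b, c⟩ := vars_lt h (List.getElem_mem hj)
    have := lit_lt a; have := lit_lt b; have := lit_lt c
    simp only [gad, List.mem_cons, List.not_mem_nil, or_false] at h1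
    rcases h1 with rfl | rfl | rfl | rfl | rfl | rfl | rfl | rfl | rfl | rfl <;> dsimp only <;> omega

def tab (p q : Bool) (r : ℕ) : ZMod 3 :=
  (if p = true then [1, 2, 0, 1, 2] else if q = true then [2, 1, 0, 1, 2] else [0, 2, 1, 2, 1]).getD r 0

theorem col_iff {φ : List (Clause3 ℕ)} (h : ∀ v ∈ vars3 φ, v < 3 * φ.length) :
    Sat3 φ ↔ Col3 (edges φ) := by
  constructor
  · rintro ⟨a, ha⟩
    let cl : ℕ → Clause3 ℕ := fun j => φ.getD j ((0, true), (0, true), (0, true))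
    let f : ℕ → ZMod 3 := fun p => if p < 3 then p else if p < 3 + 6 * φ.length then
      (if a ((p - 3) / 2) = decide ((p - 3) % 2 = 0) then 0 else 1) else
      tab (a (cl ((p - (3 + 6 * φ.length)) / 5)).1.1 == (cl ((p - (3 + 6 * φ.length)) / 5)).1.2)
        (a (cl ((p - (3 + 6 * φ.length)) / 5)).2.1.1 == (cl ((p - (3 + 6 * φ.length)) / 5)).2.1.2)
        ((p - (3 + 6 * φ.length)) % 5)
    have f0 : f 0 = 0 := rfl
    have f1 : f 1 = 1 := rfl
    have f2 : f 2 = 2 := rfl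
    have fl : ∀ l : ℕ × Bool, l.1 < 3 * φ.length → f (lit l) = if a l.1 = l.2 then 0 else 1 := by
      rintro ⟨v, b⟩ hl
      have := lit_lt hl
      simp only [f]
      rw [if_neg (by omega), if_pos this.2]
      cases b
      · rw [show (lit (v, false) - 3) / 2 = v by simp only [lit, Bool.false_eq_true, ↓ reduceIte, Nat.reduceSubDiff]; omega,
          show (lit (v, false) - 3) % 2 = 1 by simp only [lit, Bool.false_eq_true, ↓ reduceIte, Nat.reduceSubDiff]; omega]; rfl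
      · rw [show (lit (v, true) - 3) / 2 = v by simp only [lit, ↓ reduceIte, add_zero, add_tsub_cancel_left, ne_eq, OfNat.ofNat_ne_zero, not_false_eq_true, mul_div_cancel_left₀],
          show (lit (v, true) - 3) % 2 = 0 by simp only [lit, ↓ reduceIte, add_zero, add_tsub_cancel_left, Nat.mul_mod_right]]; rfl
    have fg : ∀ j r (hj : j < φ.length), r < 5 → f (3 + 6 * φ.length + 5 * j + r) =
        tab (a φ[j].1.1 == φ[j].1.2) (a φ[j].2.1.1 == φ[j].2.1.2) r := fun j r hj hr => by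
      simp only [f]
      rw [if_neg (by omega), if_neg (by omega),
        show (3 + 6 * φ.length + 5 * j + r - (3 + 6 * φ.length)) / 5 = j by omega,
        show (3 + 6 * φ.length + 5 * j + r - (3 + 6 * φ.length)) % 5 = r by omega]
      simp only [cl, List.getD_eq_getElem _ _ hj]
    refine ⟨f, fun e he => ?_⟩
    rcases mem_edges.1 he with h1 | ⟨v, hv, h1⟩ | ⟨j, hj, h1⟩
    · simp only [List.mem_cons, List.not_mem_nil, or_false] at h1
      rcases h1 with rfl | rfl | rfl <;> simp only [f0, f1, f2] <;> decide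
    · have e1 := fl (v, true) hv
      have e2 := fl (v, false) hv
      rw [show lit (v, true) = 3 + 2 * v from rfl] at e1
      rw [show lit (v, false) = 4 + 2 * v by simp [lit]; omega] at e2
      simp only [List.mem_cons, List.not_mem_nil, or_false] at h1
      rcases h1 with rfl | rfl | rfl <;> simp only [f2, e1, e2] <;> cases a v <;>
        simp only [if_true, Bool.false_eq_true, Bool.true_eq_false, if_false] <;> decide
    · obtain ⟨p, q, r⟩ := vars_lt h (List.getElem_mem hj)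
      have g0 := fg j 0 hj (by norm_num)
      rw [add_zero] at g0
      have g1 := fg j 1 hj (by norm_num)
      have g2 := fg j 2 hj (by norm_num)
      have g3 := fg j 3 hj (by norm_num)
      have g4 := fg j 4 hj (by norm_num)
      have hh := ha _ (List.getElem_mem hj)
      unfold Clause3.Holds at hh
      simp only [gad, List.mem_cons, List.not_mem_nil, or_false] at h1
      rcases h1 with rfl | rfl | rfl | rfl | rfl | rfl | rfl | rfl | rfl | rfl <;>
        simp only [f0, g0, g1, g2, g3, g4, fl _ p, fl _ q, fl _ r] <;> revert hh <;>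
        generalize a φ[j].1.1 = x1 <;> generalize φ[j].1.2 = y1 <;>
        generalize a φ[j].2.1.1 = x2 <;> generalize φ[j].2.1.2 = y2 <;>
        generalize a φ[j].2.2.1 = x3 <;> generalize φ[j].2.2.2 = y3 <;>
        revert x1 y1 x2 y2 x3 y3 <;> decide
  · rintro ⟨f, hf⟩
    have t1 := hf (0, 1) (mem_edges.2 (Or.inl (by simp)))
    have t2 := hf (0, 2) (mem_edges.2 (Or.inl (by simp)))
    have t3 := hf (1, 2) (mem_edges.2 (Or.inl (by simp)))
    dsimp only at t1 t2 t3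
    refine ⟨fun v => decide (f (3 + 2 * v) = f 0), fun c hc => ?_⟩
    have fl : ∀ l : ℕ × Bool, l.1 < 3 * φ.length → decide (f (3 + 2 * l.1) = f 0) ≠ l.2 →
        f (lit l) = f 1 := by
      rintro ⟨v, b⟩ hl hb
      have e1 := hf (3 + 2 * v, 4 + 2 * v) (mem_edges.2 (Or.inr (Or.inl ⟨v, hl, by simp⟩)))
      have e2 := hf (2, 3 + 2 * v) (mem_edges.2 (Or.inr (Or.inl ⟨v, hl, by simp⟩)))
      have e3 := hf (2, 4 + 2 * v) (mem_edges.2 (Or.inr (Or.inl ⟨v, hl, by simp⟩)))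
      dsimp only at e1 e2 e3 hb
      cases b
      · rw [show lit (v, false) = 4 + 2 * v by simp [lit]; omega]
        have hb' : f (3 + 2 * v) = f 0 := by simpa using hb
        rw [hb'] at e1
        exact (z3a _ _ _ _ t2.symm t3 t1 e1.symm e3.symm).symm
      · rw [show lit (v, true) = 3 + 2 * v from rfl]
        have hb' : f (3 + 2 * v) ≠ f 0 := by simpa using hb
        exact (z3a _ _ _ _ t2.symm t3 t1 hb' e2.symm).symm
    by_contra hn
    unfold Clause3.Holds at hn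
    simp only [not_or] at hn
    obtain ⟨p, q, r⟩ := vars_lt h hc
    obtain ⟨j, hj, rfl⟩ := List.getElem_of_mem hc
    have l1 := fl _ p hn.1
    have l2 := fl _ q hn.2.1
    have l3 := fl _ r hn.2.2
    have key : ∀ e ∈ gad φ[j] (3 + 6 * φ.length + 5 * j), f e.1 ≠ f e.2 := fun e he =>
      hf e (mem_edges.2 (Or.inr (Or.inr ⟨j, hj, he⟩)))
    simp only [gad, List.forall_mem_cons, l1, l2, l3] at key
    obtain ⟨k1, k2, k3, k4, k5, k6, k7, k8, k9, k10, -⟩ := key
    have o := z3a _ _ _ _ k3.symm k5.symm k4 k1 k2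
    rw [o] at k6
    exact k8 (z3a _ _ _ _ t1.symm k6.symm k9 k10.symm k7.symm)

/-- The state problem of the graph of a formula. -/
theorem sat_iff_sol {φ : List (Clause3 ℕ)} (h : ∀ v ∈ vars3 φ, v < 3 * φ.length) :
    Sat3 φ ↔ Sol ((edges φ).length * (7 * (11 * φ.length + 3) + 2))
      (RR (11 * φ.length + 3) (edges φ)) (LL (11 * φ.length + 3) (edges φ))
      (TT (11 * φ.length + 3)) :=
  (col_iff h).trans ⟨sol_of_col (edges_ok h), col_of_sol (edges_ok h)⟩

end Pool.Agent.MP_e5fd74_lc.H66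

/-! The rational instance attached to a formula, for an abstract coding of the angles. -/

namespace Pool.Agent.MP_e5fd74_lc.H66

open Pool.Agent.Lib.Cx Complex

section height

variable {α : Type} [Enc α]

/-- Height of a rational number. -/
def Ht (q : ℚ) : ℕ := q.num.natAbs + q.den

theorem ht_mk (a : ℤ) {b : ℕ} (hb : b ≠ 0) : Ht (mkRat a b) ≤ a.natAbs + b := by
  rw [Ht, Rat.num_mkRat, Rat.den_mkRat, if_neg hb, if_neg hb]
  exact Nat.add_le_add (Int.natAbs_ediv_le_natAbs _ _) (Nat.div_le_self _ _)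

theorem ht_add (q r : ℚ) : Ht (q + r) ≤ Ht q * Ht r := by
  rw [Rat.add_def']
  refine (ht_mk _ (mul_ne_zero q.den_nz r.den_nz)).trans ?_
  have := Int.natAbs_add_le (q.num * r.den) (r.num * q.den)
  simp only [Int.natAbs_mul, Int.natAbs_natCast] at this
  unfold Ht
  linarith only [Nat.zero_le (q.num.natAbs * r.num.natAbs), this]

theorem ht_mul (q r : ℚ) : Ht (q * r) ≤ Ht q * Ht r := by
  rw [Rat.mul_def']
  refine (ht_mk _ (mul_ne_zero q.den_nz r.den_nz)).trans ?_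
  rw [Int.natAbs_mul]
  unfold Ht
  linarith only [Nat.zero_le (q.num.natAbs * r.den), Nat.zero_le (q.den * r.num.natAbs)]

theorem ht_neg (q : ℚ) : Ht (-q) = Ht q := by simp [Ht]

theorem ht_inv (q : ℚ) : Ht q⁻¹ ≤ Ht q := by
  by_cases h : q.num = 0
  · rw [Rat.zero_of_num_zero h]; simp
  · simp [Ht, h, Int.natAbs_mul, Int.natAbs_sign_of_ne_zero h, add_comm]

/-- Heights bounded by a polynomial in the size of the input. -/
@[fun_prop] def QB (f : α → ℚ) : Prop := PB (fun x => Ht (f x))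

/-- Heights of all entries bounded by a polynomial in the size of the input. -/
@[fun_prop] def QL (l : α → List ℚ) : Prop := ∃ t, PB t ∧ ∀ x, ∀ q ∈ l x, Ht q ≤ t x

@[fun_prop] theorem QB.const (c : ℚ) : QB (fun _ : α => c) := PB.const _

@[fun_prop] theorem QB.natCast {a : α → ℕ} (h : PB a) : QB (fun x => (a x : ℚ)) :=
  (h.add (PB.const 1)).mono (fun _ => by simp [Ht])

@[fun_prop] theorem QB.add {f g : α → ℚ} (hf : QB f) (hg : QB g) : QB (fun x => f x + g x) :=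
  (PB.mul hf hg).mono (fun _ => ht_add _ _)

@[fun_prop] theorem QB.mul {f g : α → ℚ} (hf : QB f) (hg : QB g) : QB (fun x => f x * g x) :=
  (PB.mul hf hg).mono (fun _ => ht_mul _ _)

@[fun_prop] theorem QB.neg {f : α → ℚ} (hf : QB f) : QB (fun x => -f x) :=
  PB.mono hf (fun _ => (ht_neg _).le)

@[fun_prop] theorem QB.inv {f : α → ℚ} (hf : QB f) : QB (fun x => (f x)⁻¹) :=
  PB.mono hf (fun _ => ht_inv _)

@[fun_prop] theorem QB.sub {f g : α → ℚ} (hf : QB f) (hg : QB g) : QB (fun x => f x - g x) := by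
  simpa only [sub_eq_add_neg] using hf.add hg.neg

@[fun_prop] theorem QB.div {f g : α → ℚ} (hf : QB f) (hg : QB g) : QB (fun x => f x / g x) := by
  simpa only [div_eq_mul_inv] using hf.mul hg.inv

@[fun_prop] theorem QB.ite {c : α → Prop} [∀ x, Decidable (c x)] {f g : α → ℚ} (hf : QB f)
    (hg : QB g) : QB (fun x => if c x then f x else g x) :=
  (PB.add hf hg).mono (fun _ => by dsimp only; split_ifs <;> omega)

@[fun_prop] theorem QL.const (c : List ℚ) : QL (fun _ : α => c) :=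
  ⟨fun _ => (c.map Ht).sum, PB.const _, fun _ _ hq =>
    List.single_le_sum (fun _ _ => Nat.zero_le _) _ (List.mem_map_of_mem hq)⟩

@[fun_prop] theorem QL.cons {f : α → ℚ} {l : α → List ℚ} (hf : QB f) (hl : QL l) :
    QL (fun x => f x :: l x) := by
  obtain ⟨t, ht, h⟩ := hl
  refine ⟨_, PB.add hf ht, fun x q hq => ?_⟩
  rcases List.mem_cons.1 hq with rfl | hq
  · omega
  · have := h x q hq; omega

@[fun_prop] theorem QL.append {l m : α → List ℚ} (hl : QL l) (hm : QL m) :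
    QL (fun x => l x ++ m x) := by
  obtain ⟨t, ht, h⟩ := hl
  obtain ⟨t', ht', h'⟩ := hm
  refine ⟨_, PB.add ht ht', fun x q hq => ?_⟩
  rcases List.mem_append.1 hq with hq | hq
  · have := h x q hq; omega
  · have := h' x q hq; omega

@[fun_prop] theorem QB.getD {l : α → List ℚ} {r : α → ℕ} {d : α → ℚ} (hl : QL l) (hd : QB d) :
    QB (fun x => (l x).getD (r x) (d x)) := by
  obtain ⟨t, ht, h⟩ := hl
  refine (PB.add ht hd).mono (fun x => ?_)
  dsimp only
  by_cases hr : r x < (l x).length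
  · have := h x _ (List.getElem_mem hr)
    rw [List.getD_eq_getElem _ _ hr]; omega
  · rw [List.getD_eq_default _ _ (by omega)]; omega

theorem QL.range {f : α × ℕ → ℚ} {n : α → ℕ} (hf : QB f) (hn : PB n) :
    QL (fun x => (List.range (n x)).map (fun i => f (x, i))) := by
  obtain ⟨N, hN, h⟩ := PB.uniform hf hn
  refine ⟨N, hN, fun x q hq => ?_⟩
  obtain ⟨i, hi, rfl⟩ := List.mem_map.1 hq
  exact h x i ((size_nat_le_self i).trans (List.mem_range.1 hi).le)

end height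

abbrev Fm : Type := List (Clause3 ℕ)

/-- A coding of the ten angles used by the construction. -/
structure Cd (ang : ℚ → ℝ) where
  sym : Bool
  c1 : ℚ
  s1 : ℝ
  c2 : ℕ → ℝ
  s2 : ℕ → ℝ
  dq : ℕ → ℚ
  cd : ℕ → List ℚ
  η : ℂ
  ζ : ℂ
  e1 : (c1 : ℝ) ^ 2 + s1 ^ 2 = 1 ∧ 1 / 2 ≤ (c1 : ℝ) ∧ 4 / 5 ≤ s1 ∧ s1 ≤ 7 / 8
  e2 : ∀ m : ℕ, 100 ≤ m → c2 m ^ 2 + s2 m ^ 2 = 1 ∧ 0 < c2 m ∧ c2 m < c1 ∧ s1 < s2 m ∧
    c1 - c2 m ≤ 4 / m ∧ s2 m - s1 ≤ 4 / m
  mode : (sym = false ∧ η = I ∧ ∀ m, (dq m : ℝ) = s2 m - s1) ∨ (sym = true ∧ η ^ 2 = I)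
  hζ : ‖ζ‖ = 1 ∧ ζ ^ 24 ≠ 1
  hcd : ∀ m : ℕ, 100 ≤ m → ∀ i, i < 10 → 0 < ang ((cd m).getD i 0) ∧
    ang ((cd m).getD i 0) < Real.pi ∧ Real.cos (ang ((cd m).getD i 0)) =
      [-s2 m, c1 * c2 m + s1 * s2 m, c1 * c2 m - s1 * s2 m, s1 ^ 2 - c1 ^ 2, s2 m,
        s2 m ^ 2 - c2 m ^ 2, -1 / 2, η.re, ζ.re, 0].getD i 0
  pt1 : PT dq
  pt2 : PT cd
  qb1 : ∀ m : Fm × ℕ → ℕ, PB m → QB (fun x => dq (m x))
  qb2 : ∀ m : Fm × ℕ → ℕ, PB m → QL (fun x => cd (m x))

def nN (φ : Fm) : ℕ := 11 * φ.length + 3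
def kK (φ : Fm) : ℕ := (edges φ).length * (7 * nN φ + 2)
def uR (φ : Fm) (p : ℕ) : ℕ := min (RR (nN φ) (edges φ) p) (kK φ)
def uL (φ : Fm) (p : ℕ) : ℕ := min (LL (nN φ) (edges φ) p) (kK φ)
def lR (b : Bool) (φ : Fm) (p : ℕ) : ℕ := if b = true then uR φ p else 1
def lL (b : Bool) (φ : Fm) (p : ℕ) : ℕ := if b = true then uL φ p else 1
def Tn (b : Bool) (φ : Fm) : ℕ :=
  ((List.range (kK φ)).map (fun j => 6 * (uR φ j + uL φ j + lR b φ j + lL b φ j) - 8)).sum
def tq (r : ℕ) : ℚ := 6 * (r : ℚ) - 2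

def lt0 (a b c d x : ℚ) (r : ℕ) : ℚ :=
  [1, a, a + 2, b, b + 4, c + 4, c, d + 2, d, 1 + (a - b + c - d) * x].getD r 0

def lc0 (T K : ℚ) (r : ℕ) : ℚ := [1, T / 2, T / 2, 1, 12 * K + T, 12 * K + T].getD r 0

def lq (b : Bool) (dq : ℕ → ℚ) (φ : Fm) (i : ℕ) : ℚ :=
  if i / 10 < kK φ then lt0 (tq (lL b φ (i / 10))) (tq (uL φ (i / 10))) (tq (uR φ (i / 10)))
    (tq (lR b φ (i / 10))) (dq (40 * Tn b φ)) (i % 10)
  else lc0 (Tn b φ) (kK φ) (i % 10)

def ix (φ : Fm) (i : ℕ) : ℕ :=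
  if i / 10 < kK φ then [0, 1, 2, 1, 3, 1, 2, 1, 0,
    if i / 10 + 1 = kK φ then 8 else if TT (nN φ) (i / 10) = true then 7 else 6].getD (i % 10) 0
  else [4, 5, 4, 9, 3].getD (i % 10) 9

variable {ang : ℚ → ℝ}

def inst (C : Cd ang) (e : ℕ) (φ : Fm) : Inst :=
  ((List.range (10 * kK φ + e + 1)).map (fun i => lq C.sym C.dq φ i),
    (List.range (10 * kK φ + e)).map (fun i => (C.cd (40 * Tn C.sym φ)).getD (ix φ i) 0),
    (12 * (kK φ : ℚ) + Tn C.sym φ) * C.c1)

section poly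

variable {α : Type} [Enc α] {φ : α → Fm} {p : α → ℕ}

@[fun_prop] theorem pt_edges' (h : PT φ) : PT (fun x => edges (φ x)) := pt_edges.comp' h

@[fun_prop] theorem pt_nN (h : PT φ) : PT (fun x => nN (φ x)) := by unfold nN; fun_prop

@[fun_prop] theorem pb_nN (h : PT φ) : PB (fun x => nN (φ x)) := by unfold nN; fun_prop

@[fun_prop] theorem pt_kK (h : PT φ) : PT (fun x => kK (φ x)) := by unfold kK; fun_prop

@[fun_prop] theorem pb_kK (h : PT φ) : PB (fun x => kK (φ x)) := by unfold kK; fun_prop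

@[fun_prop] theorem pt_pos {a b c : α → ℕ} (ha : PT a) (hb : PT b) (hc : PT c) :
    PT (fun x => pos (a x) (b x) (c x)) := by unfold pos; fun_prop

@[fun_prop] theorem pt_rR {a b c d e : α → ℕ} (ha : PT a) (hb : PT b) (hc : PT c) (hd : PT d)
    (he : PT e) : PT (fun x => rR (a x) (b x) (c x) (d x) (e x)) := by unfold rR; fun_prop

@[fun_prop] theorem pt_rL {a b c d e : α → ℕ} (ha : PT a) (hb : PT b) (hc : PT c) (hd : PT d)
    (he : PT e) : PT (fun x => rL (a x) (b x) (c x) (d x) (e x)) := by unfold rL; fun_prop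

@[fun_prop] theorem pt_TT {a b : α → ℕ} (ha : PT a) (hb : PT b) :
    PT (fun x => TT (a x) (b x)) := by unfold TT rT; fun_prop

@[fun_prop] theorem pt_uR (h : PT φ) (hp : PT p) : PT (fun x => uR (φ x) (p x)) := by
  unfold uR RR iu iv; fun_prop

@[fun_prop] theorem pt_uL (h : PT φ) (hp : PT p) : PT (fun x => uL (φ x) (p x)) := by
  unfold uL LL iu iv; fun_prop

@[fun_prop] theorem pb_uR (h : PT φ) : PB (fun x => uR (φ x) (p x)) := by unfold uR; fun_prop

@[fun_prop] theorem pb_uL (h : PT φ) : PB (fun x => uL (φ x) (p x)) := by unfold uL; fun_prop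

@[fun_prop] theorem pt_lR (b : Bool) (h : PT φ) (hp : PT p) : PT (fun x => lR b (φ x) (p x)) := by
  unfold lR; fun_prop

@[fun_prop] theorem pt_lL (b : Bool) (h : PT φ) (hp : PT p) : PT (fun x => lL b (φ x) (p x)) := by
  unfold lL; fun_prop

@[fun_prop] theorem pb_lR (b : Bool) (h : PT φ) : PB (fun x => lR b (φ x) (p x)) := by
  unfold lR; fun_prop

@[fun_prop] theorem pb_lL (b : Bool) (h : PT φ) : PB (fun x => lL b (φ x) (p x)) := by
  unfold lL; fun_prop

@[fun_prop] theorem pt_Tn (b : Bool) (h : PT φ) : PT (fun x => Tn b (φ x)) := by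
  unfold Tn; fun_prop

@[fun_prop] theorem pb_Tn (b : Bool) (h : PT φ) : PB (fun x => Tn b (φ x)) := by
  refine PB.mono (s := fun x => kK (φ x) * (24 * (kK (φ x) + 1))) (by fun_prop) (fun x => ?_)
  have := List.sum_le_card_nsmul ((List.range (kK (φ x))).map (fun j => 6 * (uR (φ x) j +
    uL (φ x) j + lR b (φ x) j + lL b (φ x) j) - 8)) (24 * (kK (φ x) + 1)) (fun y hy => by
      obtain ⟨j, -, rfl⟩ := List.mem_map.1 hy
      unfold lR lL uR uL
      split_ifs <;> omega)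
  simpa only [Tn, ge_iff_le, List.length_map, List.length_range, smul_eq_mul] using this

@[fun_prop] theorem pt_tq (hp : PT p) : PT (fun x => tq (p x)) := by unfold tq; fun_prop

@[fun_prop] theorem qb_tq (hp : PB p) : QB (fun x => tq (p x)) := by unfold tq; fun_prop

@[fun_prop] theorem pt_lt0 {a b c d e : α → ℚ} (ha : PT a) (hb : PT b) (hc : PT c) (hd : PT d)
    (he : PT e) (hp : PT p) : PT (fun x => lt0 (a x) (b x) (c x) (d x) (e x) (p x)) := by
  unfold lt0; fun_prop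

@[fun_prop] theorem qb_lt0 {a b c d e : α → ℚ} (ha : QB a) (hb : QB b) (hc : QB c) (hd : QB d)
    (he : QB e) : QB (fun x => lt0 (a x) (b x) (c x) (d x) (e x) (p x)) := by
  unfold lt0; fun_prop

@[fun_prop] theorem pt_lc0 {a b : α → ℚ} (ha : PT a) (hb : PT b) (hp : PT p) :
    PT (fun x => lc0 (a x) (b x) (p x)) := by
  unfold lc0; fun_prop

@[fun_prop] theorem qb_lc0 {a b : α → ℚ} (ha : QB a) (hb : QB b) :
    QB (fun x => lc0 (a x) (b x) (p x)) := by
  unfold lc0; fun_prop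

end poly

theorem pt_inst (C : Cd ang) (e : ℕ) : PT (inst C e) := by
  have h0 : PT (fun z : Fm × ℕ => 40 * Tn C.sym z.1) :=
    PT.mul (PT.const 40) (pt_Tn _ (PT.fst PT.id'))
  have h3 : PT (fun z : Fm × ℕ => lq C.sym C.dq z.1 z.2) :=
    PT.ite (by fun_prop) (pt_lt0 (by fun_prop) (by fun_prop) (by fun_prop) (by fun_prop)
      (C.pt1.comp' h0) (by fun_prop)) (by fun_prop)
  have h4 : PT (fun z : Fm × ℕ => ix z.1 z.2) := by unfold ix; fun_prop
  have h5 : PT (fun z : Fm × ℕ => (C.cd (40 * Tn C.sym z.1)).getD (ix z.1 z.2) 0) :=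
    PT.listGetD (C.pt2.comp' h0) h4 (PT.const 0)
  unfold inst
  refine PT.prodMk (PT.map h3 (by fun_prop)) (PT.prodMk (PT.map h5 (by fun_prop)) (by fun_prop))

theorem ql_inst (C : Cd ang) (e : ℕ) :
    QL (fun φ => (inst C e φ).2.2 :: ((inst C e φ).1 ++ (inst C e φ).2.1)) := by
  have h1 := C.qb1 (fun z => 40 * Tn C.sym z.1) (by fun_prop)
  have h2 := C.qb2 (fun z => 40 * Tn C.sym z.1) (by fun_prop)
  have h3 : QB (fun z : Fm × ℕ => lq C.sym C.dq z.1 z.2) := by unfold lq; fun_prop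
  have h5 : QB (fun z : Fm × ℕ => (C.cd (40 * Tn C.sym z.1)).getD (ix z.1 z.2) 0) :=
    QB.getD h2 (QB.const 0)
  unfold inst
  exact QL.cons (by fun_prop) (QL.append (QL.range h3 (by fun_prop)) (QL.range h5 (by fun_prop)))

noncomputable def par (C : Cd ang) (φ : Fm) : Par where
  c1 := C.c1
  s1 := C.s1
  c2 := C.c2 (40 * Tn C.sym φ)
  s2 := C.s2 (40 * Tn C.sym φ)
  K := kK φ
  UR := uR φ
  UL := uL φ
  LR := lR C.sym φ
  LL := lL C.sym φ
  gf := fun j => if j + 1 = kK φ then C.ζ.re else if TT (nN φ) j = true then C.η.re else -1 / 2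

theorem kK_pos (φ : Fm) : 0 < kK φ := by
  unfold kK edges
  simp only [List.length_append, List.length_cons]
  positivity

theorem reach_pos (b : Bool) (φ : Fm) (j : ℕ) :
    1 ≤ uR φ j ∧ 1 ≤ uL φ j ∧ 1 ≤ lR b φ j ∧ 1 ≤ lL b φ j := by
  have := kK_pos φ
  have := RR_pos (nN φ) (edges φ) j
  have := LL_pos (nN φ) (edges φ) j
  unfold lR lL uR uL
  split_ifs <;> omega

theorem sum_range_list (f : ℕ → ℕ) (n : ℕ) :
    ((List.range n).map f).sum = ∑ j ∈ Finset.range n, f j := by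
  induction n with
  | zero => rfl
  | succ n ih => simp [List.range_succ, Finset.sum_range_succ, ih]

theorem par_T (C : Cd ang) (φ : Fm) : (par C φ).T = Tn C.sym φ := by
  rw [Tn, sum_range_list, Nat.cast_sum]
  refine Finset.sum_congr rfl (fun j _ => ?_)
  have := reach_pos C.sym φ j
  rw [Nat.cast_sub (by omega)]
  simp only [Par.Tj, Par.t2, Par.t4, Par.t7, Par.t9, par]
  push_cast
  ring

theorem Tn_ge (C : Cd ang) (φ : Fm) : 16 ≤ Tn C.sym φ := by
  have h := List.single_le_sum (l := (List.range (kK φ)).map (fun j => 6 * (uR φ j + uL φ j +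
    lR C.sym φ j + lL C.sym φ j) - 8)) (fun _ _ => Nat.zero_le _) _
    (List.mem_map_of_mem (List.mem_range.2 (kK_pos φ)))
  have := reach_pos C.sym φ 0
  unfold Tn
  omega

theorem par_ok (C : Cd ang) (φ : Fm) : (par C φ).Ok := by
  have hT := Tn_ge C φ
  obtain ⟨a1, a2, a3, a4⟩ := C.e1
  obtain ⟨b1, b2, b3, b4, b5, b6⟩ := C.e2 (40 * Tn C.sym φ) (by omega)
  have hT' : (0 : ℝ) < Tn C.sym φ := by exact_mod_cast (by omega : 0 < Tn C.sym φ)
  have key : (Tn C.sym φ : ℝ) * (4 / ((40 * Tn C.sym φ : ℕ) : ℝ)) = 1 / 10 := by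
    push_cast; field_simp; norm_num
  refine ⟨a1, b1, a2, a3, a4, b2, b3, b4, ?_, ?_, kK_pos φ, fun j => (reach_pos C.sym φ j).1,
    fun j => (reach_pos C.sym φ j).2.1, fun j => (reach_pos C.sym φ j).2.2.1,
    fun j => (reach_pos C.sym φ j).2.2.2⟩
  · rw [par_T, ← key]; exact mul_le_mul_of_nonneg_left b5 hT'.le
  · rw [par_T, ← key]; exact mul_le_mul_of_nonneg_left b6 hT'.le

theorem par_mode (C : Cd ang) (φ : Fm) : Mode (par C φ) C.η := by
  rcases C.mode with ⟨h1, h2, -⟩ | ⟨h1, h2⟩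
  · exact Or.inl ⟨h2, fun j => by simp [par, lR, lL, h1]⟩
  · exact Or.inr ⟨h2, fun j => by simp [par, lR, lL, h1]⟩

theorem par_ll (C : Cd ang) (φ : Fm) (i : ℕ) : (lq C.sym C.dq φ i : ℝ) = (par C φ).ll i := by
  have hT := par_T C φ
  have hr : i % 10 < 10 := Nat.mod_lt _ (by norm_num)
  have hh : ((1 + (tq (lL C.sym φ (i / 10)) - tq (uL φ (i / 10)) + tq (uR φ (i / 10)) -
      tq (lR C.sym φ (i / 10))) * C.dq (40 * Tn C.sym φ) : ℚ) : ℝ) = (par C φ).hp (i / 10) := by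
    simp only [Par.hp, Par.t2, Par.t4, Par.t7, Par.t9, par, tq]
    push_cast
    rcases C.mode with ⟨-, -, h⟩ | ⟨h, -⟩
    · rw [h]
    · simp [lR, lL, h]
  unfold lq lt0 lc0 Par.ll Par.lt Par.lc
  rw [hT, ← hh]
  change _ = if i / 10 < kK φ then _ else _
  generalize i % 10 = r at hr
  split_ifs <;> interval_cases r <;>
    simp only [tq, sub_add_cancel, sub_sub_sub_cancel_right, List.getD_eq_getElem?_getD, List.length_cons, List.length_nil, zero_add, Nat.reduceAdd, Nat.ofNat_pos, getElem?_pos, List.getElem_cons_zero, Option.getD_some, Rat.cast_one, Par.t2, par, Par.t4, Par.t7, Par.t9, Rat.cast_add, Rat.cast_mul, Rat.cast_sub, Rat.cast_ofNat, Rat.cast_natCast, Nat.one_lt_ofNat, List.getElem_cons_succ, Nat.reduceLT, Nat.lt_add_one, Rat.cast_div, lt_self_iff_false, not_false_eq_true, getElem?_neg, Option.getD_none, Rat.cast_zero]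

theorem par_cs (C : Cd ang) (φ : Fm) (i : ℕ) :
    0 < ang ((C.cd (40 * Tn C.sym φ)).getD (ix φ i) 0) ∧
    ang ((C.cd (40 * Tn C.sym φ)).getD (ix φ i) 0) < Real.pi ∧
    Real.cos (ang ((C.cd (40 * Tn C.sym φ)).getD (ix φ i) 0)) = (par C φ).cs i := by
  have hT := Tn_ge C φ
  have hr : i % 10 < 10 := Nat.mod_lt _ (by norm_num)
  have hx : ix φ i < 10 := by
    unfold ix
    generalize i % 10 = r at hr
    split_ifs <;> interval_cases r <;> simp
  obtain ⟨a, b, c⟩ := C.hcd (40 * Tn C.sym φ) (by omega) _ hx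
  refine ⟨a, b, c.trans ?_⟩
  unfold ix Par.cs Par.ct Par.cc
  change _ = if i / 10 < kK φ then _ else _
  generalize i % 10 = r at hr
  split_ifs with h1 h2 h3 <;> interval_cases r <;> simp [par, *]

theorem isConfig_congr {n : ℕ} {l l' θ θ' : ℕ → ℝ} (h1 : ∀ i, i < n → l i = l' i)
    (h2 : ∀ i, i + 1 < n → θ i = θ' i) (v : ℕ → E3) : IsConfig n l θ v ↔ IsConfig n l' θ' v :=
  and_congr (forall₂_congr fun i hi => by rw [h1 i hi])
    (and_congr_left' (forall₂_congr fun i hi => by rw [h2 i hi]))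

theorem spans_inst (C : Cd ang) (e : ℕ) (φ : Fm) (d : ℝ) : d ∈ Spans ang (inst C e φ) ↔
    ∃ v, IsConfig (10 * kK φ + e + 1) (par C φ).ll
      (fun i => ang ((C.cd (40 * Tn C.sym φ)).getD (ix φ i) 0)) v ∧
      d = dist (v 0) (v (10 * kK φ + e + 1)) := by
  simp only [Spans, inst, List.length_map, List.length_range, Set.mem_ofPred_eq]
  refine exists_congr fun v => and_congr_left' (isConfig_congr (fun i hi => ?_) (fun i hi => ?_) v)
  · rw [List.getD_eq_getElem _ _ (by simpa using hi), ← par_ll]; simp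
  · rw [List.getD_eq_getElem _ _ (by simpa only [List.getD_eq_getElem?_getD, List.length_map, List.length_range, Order.lt_add_one_iff, Order.add_one_le_iff] using hi)]; simp only [List.getD_eq_getElem?_getD, List.getElem_map, List.getElem_range]

theorem valid_inst (C : Cd ang) {e : ℕ} (he : e = 3 ∨ e = 5) (φ : Fm) : Valid ang (inst C e φ) := by
  refine ⟨by simp only [inst, List.getD_eq_getElem?_getD, List.length_map, List.length_range, Nat.add_left_cancel_iff], fun l hl => ?_, fun q hq => ?_⟩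
  · obtain ⟨i, hi, rfl⟩ := List.mem_map.1 hl
    have G := (par_ok C φ).good (n := 10 * kK φ + 6) (Or.inr rfl) (fun i _ =>
      ⟨(par_cs C φ i).1, (par_cs C φ i).2.1.le, (par_cs C φ i).2.2⟩)
    have := G.hl i (by have := List.mem_range.1 hi; simp only [Par.D]; omega)
    change 0 < (par C φ).ll i at this
    rw [← par_ll] at this
    exact_mod_cast this
  · obtain ⟨i, hi, rfl⟩ := List.mem_map.1 hq
    have := par_cs C φ i
    exact ⟨this.1, this.2.1⟩

theorem sol_min (K : ℕ) (R L : ℕ → ℕ) (ty : ℕ → Bool) :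
    Sol K R L ty ↔ Sol K (fun p => min (R p) K) (fun p => min (L p) K) ty := by
  refine exists₂_congr fun col cls => and_congr_right' (forall₄_congr fun a b _ _ => ?_)
  rw [le_min_iff, le_min_iff, and_iff_left (by omega), and_iff_left (by omega)]

theorem inst_iff (C : Cd ang) {φ : Fm} (h : ∀ v ∈ vars3 φ, v < 3 * φ.length) :
    (Sat3 φ ↔ ∃ d ∈ Spans ang (inst C 3 φ), ((inst C 3 φ).2.2 : ℝ) ≤ d) ∧
    (Sat3 φ ↔ ∃ d ∈ Spans ang (inst C 5 φ), d ≤ ((inst C 5 φ).2.2 : ℝ)) := by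
  have G := geo_main (par_ok C φ) (par_mode C φ) (ty := TT (nN φ)) (ζ := C.ζ)
    (fun j hj => if_neg (Nat.ne_of_lt hj)) C.hζ.1 C.hζ.2
    (if_pos (by have := kK_pos φ; simp only [par]; omega))
    (θ := fun i => ang ((C.cd (40 * Tn C.sym φ)).getD (ix φ i) 0)) (fun i _ =>
      have := par_cs C φ i
      ⟨this.1, this.2.1.le, this.2.2⟩)
  have hM : ∀ e, ((inst C e φ).2.2 : ℝ) = (12 * (par C φ).K + (par C φ).T) * (par C φ).c1 :=
    fun e => by rw [par_T]; simp only [inst, List.getD_eq_getElem?_getD, Rat.cast_mul, Rat.cast_add, Rat.cast_ofNat, Rat.cast_natCast, par]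
  have hS := (sat_iff_sol h).trans (sol_min _ _ _ _)
  simp only [spans_inst, hM]
  refine ⟨hS.trans (G.1.trans ⟨fun ⟨v, a, b⟩ => ⟨_, ⟨v, a, rfl⟩, b⟩, ?_⟩),
    hS.trans (G.2.trans ⟨fun ⟨v, a, b⟩ => ⟨_, ⟨v, a, rfl⟩, b⟩, ?_⟩)⟩
  · rintro ⟨d, ⟨v, a, rfl⟩, b⟩; exact ⟨v, a, b⟩
  · rintro ⟨d, ⟨v, a, rfl⟩, b⟩; exact ⟨v, a, b⟩

theorem hard_of_cd (C : Cd ang) {e : ℕ} (he : e = 3 ∨ e = 5) {Q : Inst → Prop}
    (hQ : ∀ φ : Fm, (∀ v ∈ vars3 φ, v < 3 * φ.length) → (Sat3 φ ↔ Q (inst C e φ))) :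
    ∀ L ∈ N68a2faeb.NP, ∃ (f : List Bool → Inst) (p : Polynomial ℕ), N68a2faeb.IsPolyTime f ∧
      ∀ x, Valid ang (f x) ∧ Small (p.eval x.length) (f x) ∧ (L x = true ↔ Q (f x)) := by
  intro L hL
  obtain ⟨g, hg, hx⟩ := hardOn_sat3 L hL
  obtain ⟨t, ht, h⟩ := ql_inst C e
  obtain ⟨p, hp⟩ := ht.comp hg
  refine ⟨fun x => inst C e (g x), p.comp (3 * Polynomial.X),
    pt_iff_isPolyTime.1 ((pt_inst C e).comp' hg), fun x => ⟨valid_inst C he _, fun q hq => ?_,
      (hx x).2.trans (hQ _ (hx x).1)⟩⟩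
  have h1 := h (g x) q hq
  have h2 := hp x
  rw [size_listBool] at h2
  simp only [Polynomial.eval_comp, Polynomial.eval_mul, Polynomial.eval_ofNat, Polynomial.eval_X]
  unfold Ht at h1
  dsimp only at h2
  omega

end Pool.Agent.MP_e5fd74_lc.H66

/-! The two codings: rational multiples of a fixed fraction of `π`, and rational cosines. -/

namespace Pool.Agent.MP_e5fd74_lc.H66

open Pool.Agent.Lib.Cx Real

def cdB (k m : ℕ) : List ℚ := [k * (5 / 6 + 1 / m), k * (1 / m), k * (2 / 3 + 1 / m), k * (1 / 3),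
  k * (1 / 6 - 1 / m), k * (1 / 3 - 2 * (1 / m)), k * (2 / 3), k * (1 / 4), k * (1 / 8), k * (1 / 2)]

theorem cd_deg (k : ℕ) (hk : 0 < k) : Nonempty (Cd (fun q : ℚ => (q : ℝ) * π / k)) := by
  have h3 := sq3
  have hp := pi_pos
  have hε : ∀ m : ℕ, 100 ≤ m → 0 < (1 : ℝ) / m ∧ (1 : ℝ) / m ≤ 1 / 100 := fun m hm => by
    have : (100 : ℝ) ≤ m := by exact_mod_cast hm
    exact ⟨by positivity, one_div_le_one_div_of_le (by norm_num) this⟩
  refine ⟨⟨true, 1 / 2, √3 / 2, fun m => cos (π / 3 + 1 / m * π), fun m => sin (π / 3 + 1 / m * π),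
    fun _ => 0, cdB k, Complex.exp ((π / 4 : ℝ) * Complex.I), Complex.exp ((π / 8 : ℝ) * Complex.I),
    ?_, fun m hm => ?_, Or.inr ⟨rfl, ?_⟩, ⟨Complex.norm_exp_ofReal_mul_I _, ?_⟩, fun m hm i hi => ?_,
    PT.const _, ?_, fun _ _ => QB.const _, fun m hm => ?_⟩⟩
  · have := sqrt_nonneg 3
    push_cast
    refine ⟨by linarith only [h3], le_rfl, by nlinarith only [h3, this], by nlinarith only [h3]⟩
  · obtain ⟨e1, e2⟩ := hε m hm
    have e3 : 0 < 1 / (m : ℝ) * π := by positivity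
    have e4 : 1 / (m : ℝ) * π ≤ π / 100 := by nlinarith only [hp, e2]
    have e5 : 1 / (m : ℝ) * π ≤ 4 / m := by
      rw [div_eq_mul_one_div 4, mul_comm 4]; exact mul_le_mul_of_nonneg_left pi_le_four e1.le
    have a1 := abs_cos_sub_cos_le (π / 3) (π / 3 + 1 / m * π)
    have a2 := abs_sin_sub_sin_le (π / 3 + 1 / m * π) (π / 3)
    rw [sub_add_cancel_left, abs_neg, abs_of_pos e3, cos_pi_div_three] at a1
    rw [add_sub_cancel_left, abs_of_pos e3, sin_pi_div_three] at a2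
    push_cast
    refine ⟨cos_sq_add_sin_sq _, cos_pos_of_mem_Ioo ⟨by linarith only [e3, e4], by linarith only [e3, e4]⟩, ?_, ?_,
      (le_abs_self _).trans (a1.trans e5), (le_abs_self _).trans (a2.trans e5)⟩
    · rw [← cos_pi_div_three]
      exact cos_lt_cos_of_nonneg_of_le_pi (by linarith only [e3, e4]) (by linarith only [e3, e4]) (by linarith only [e3])
    · rw [← sin_pi_div_three]
      exact sin_lt_sin_of_lt_of_le_pi_div_two (by linarith only [e3, e4]) (by linarith only [e3, e4]) (by linarith only [e3])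
  · rw [← Complex.exp_nat_mul, show ((2 : ℕ) : ℂ) * ((π / 4 : ℝ) * Complex.I) =
      π / 2 * Complex.I by push_cast; ring, Complex.exp_pi_div_two_mul_I]
  · rw [← Complex.exp_nat_mul, show ((24 : ℕ) : ℂ) * ((π / 8 : ℝ) * Complex.I) =
      π * Complex.I + 2 * π * Complex.I by push_cast; ring, Complex.exp_add,
      Complex.exp_two_pi_mul_I, Complex.exp_pi_mul_I]
    norm_num
  · obtain ⟨e1, e2⟩ := hε m hm
    have hk' : (k : ℝ) ≠ 0 := by exact_mod_cast hk.ne'
    have key : ∀ x : ℚ, ((k * x : ℚ) : ℝ) * π / k = x * π := fun x => by push_cast; field_simp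
    have e3 : 0 < 1 / (m : ℝ) * π := by positivity
    have e4 : 1 / (m : ℝ) * π ≤ π / 100 := by nlinarith only [hp, e2]
    generalize hw : π / 3 + 1 / (m : ℝ) * π = w
    interval_cases i <;> simp only [cdB, List.getD_cons_zero, List.getD_cons_succ, key] <;>
      push_cast <;> refine ⟨by linarith only [e3, e4], by linarith only [e3, e4], ?_⟩
    · rw [← cos_add_pi_div_two]; congr 1; linarith only [hw]
    · rw [show 1 / (m : ℝ) * π = w - π / 3 by linarith only [hw], cos_sub, cos_pi_div_three,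
        sin_pi_div_three]; ring
    · rw [show (2 / 3 + 1 / (m : ℝ)) * π = π / 3 + w by linarith only [hw], cos_add, cos_pi_div_three,
        sin_pi_div_three]
    · rw [show 1 / 3 * π = π / 3 by ring, cos_pi_div_three]; linarith only [h3]
    · rw [← cos_pi_div_two_sub]; congr 1; linarith only [hw]
    · rw [show (1 / 3 - 2 * (1 / (m : ℝ))) * π = π - 2 * w by linarith only [hw], cos_pi_sub, cos_two_mul']
      ring
    · rw [show 2 / 3 * π = π - π / 3 by ring, cos_pi_sub, cos_pi_div_three]; norm_num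
    · rw [show (π : ℂ) / 4 = (π / 4 : ℝ) by push_cast; rfl, Complex.exp_ofReal_mul_I_re]
      congr 1; ring
    · rw [show (π : ℂ) / 8 = (π / 8 : ℝ) by push_cast; rfl, Complex.exp_ofReal_mul_I_re]
      congr 1; ring
    · rw [show 1 / 2 * π = π / 2 by ring, cos_pi_div_two]
  · unfold cdB; fun_prop
  · unfold cdB; fun_prop

def tA (m : ℕ) : ℚ := 1 / 2 + 1 / m
def cA (m : ℕ) : ℚ := (1 - tA m * tA m) / (1 + tA m * tA m)
def sA (m : ℕ) : ℚ := 2 * tA m / (1 + tA m * tA m)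
def cdA (c s : ℚ) : List ℚ := [-s, 3 / 5 * c + 4 / 5 * s, 3 / 5 * c - 4 / 5 * s, 7 / 25, s,
  s * s - c * c, -1 / 2, 0, 3 / 5, 0]

theorem csA (m : ℕ) (hm : 100 ≤ m) : cA m ^ 2 + sA m ^ 2 = 1 ∧ 0 < cA m ∧ cA m < 3 / 5 ∧
    4 / 5 < sA m ∧ 3 / 5 - cA m ≤ 4 / m ∧ sA m - 4 / 5 ≤ 4 / m := by
  have h1 : (100 : ℚ) ≤ m := by exact_mod_cast hm
  have e1 : 0 < (1 : ℚ) / m := by positivity
  have e2 : (1 : ℚ) / m ≤ 1 / 100 := one_div_le_one_div_of_le (by norm_num) h1
  rw [div_eq_mul_one_div 4 (m : ℚ)]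
  unfold cA sA tA
  generalize (1 : ℚ) / m = x at e1 e2
  have h2 : 0 < 1 + (1 / 2 + x) * (1 / 2 + x) := by positivity
  refine ⟨by field_simp; ring, div_pos (by nlinarith only [e1, e2]) h2, ?_, ?_, ?_, ?_⟩
  · rw [div_lt_iff₀ h2]; nlinarith only [e1]
  · rw [lt_div_iff₀ h2]; nlinarith only [e1, e2]
  · rw [sub_le_comm, le_div_iff₀ h2]; linarith only [mul_pos e1 e1, mul_pos e1 (mul_pos e1 e1), e1]
  · rw [sub_le_iff_le_add, div_le_iff₀ h2]; linarith only [mul_pos e1 e1, mul_pos e1 (mul_pos e1 e1), e1]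

theorem cd_cos : Nonempty (Cd (fun q : ℚ => arccos q)) := by
  have hcs : ∀ m : ℕ, 100 ≤ m → (cA m : ℝ) ^ 2 + (sA m : ℝ) ^ 2 = 1 ∧ 0 < (cA m : ℝ) ∧
      (cA m : ℝ) < 3 / 5 ∧ 4 / 5 < (sA m : ℝ) ∧ 3 / 5 - (cA m : ℝ) ≤ 4 / m ∧
      (sA m : ℝ) - 4 / 5 ≤ 4 / m := fun m hm => by
    have := csA m hm
    rw [← Rat.cast_inj (α := ℝ), ← Rat.cast_lt (K := ℝ), ← Rat.cast_lt (K := ℝ),
      ← Rat.cast_lt (K := ℝ), ← Rat.cast_le (K := ℝ), ← Rat.cast_le (K := ℝ)] at this
    push_cast at this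
    exact this
  have p1 : PT tA := by unfold tA; fun_prop
  have p2 : PT cA := by unfold cA; fun_prop
  have p3 : PT sA := by unfold sA; fun_prop
  have q1 : ∀ m : Fm × ℕ → ℕ, PB m → QB (fun x => tA (m x)) := fun m hm => by
    unfold tA; fun_prop
  have q2 : ∀ m : Fm × ℕ → ℕ, PB m → QB (fun x => cA (m x)) := fun m hm => by
    have := q1 m hm
    unfold cA; fun_prop
  have q3 : ∀ m : Fm × ℕ → ℕ, PB m → QB (fun x => sA (m x)) := fun m hm => by
    have := q1 m hm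
    unfold sA; fun_prop
  refine ⟨⟨false, 3 / 5, 4 / 5, fun m => cA m, fun m => sA m, fun m => sA m - 4 / 5,
    fun m => cdA (cA m) (sA m), Complex.I, ⟨3 / 5, 4 / 5⟩, by norm_num, fun m hm => ?_,
    Or.inl ⟨rfl, rfl, fun m => by push_cast; rfl⟩, ⟨?_, ?_⟩, fun m hm i hi => ?_, by fun_prop, ?_,
    fun m hm => (q3 m hm).sub (QB.const _), fun m hm => ?_⟩⟩
  · push_cast; exact hcs m hm
  · rw [← sq_eq_sq₀ (norm_nonneg _) zero_le_one, Complex.sq_norm, Complex.normSq_mk]; norm_num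
  · have h2 : (⟨3 / 5, 4 / 5⟩ : ℂ) ^ 2 = ⟨-7 / 25, 24 / 25⟩ := by
      apply Complex.ext <;> norm_num [pow_two]
    have h4 : (⟨-7 / 25, 24 / 25⟩ : ℂ) ^ 2 = ⟨-527 / 625, -336 / 625⟩ := by
      apply Complex.ext <;> norm_num [pow_two]
    have h8 : (⟨-527 / 625, -336 / 625⟩ : ℂ) ^ 2 = ⟨164833 / 390625, 354144 / 390625⟩ := by
      apply Complex.ext <;> norm_num [pow_two]
    rw [show 24 = 2 * (2 * (2 * 3)) from rfl, pow_mul, h2, pow_mul, h4, pow_mul, h8]
    intro h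
    have := congrArg Complex.im h
    norm_num [pow_succ] at this
  · obtain ⟨a1, a2, a3, a4, -⟩ := hcs m hm
    have key : ∀ x y : ℝ, -1 < x → x < 1 → x = y →
        0 < arccos x ∧ arccos x < π ∧ cos (arccos x) = y := fun x y p q r =>
      ⟨arccos_pos.2 q, arccos_lt_pi.2 p, r ▸ cos_arccos p.le q.le⟩
    have a5 : (sA m : ℝ) < 1 := by nlinarith only [a1, a2]
    have a6 : 3 / 5 * (cA m : ℝ) + 4 / 5 * sA m < 1 := by
      nlinarith only [mul_pos (sub_pos.2 a3) (sub_pos.2 a3), a1]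
    interval_cases i <;> simp only [cdA, List.getD_cons_zero, List.getD_cons_succ] <;>
      apply key <;> push_cast <;> first | nlinarith only [a5, a4, a2, a6, a3, a1] | norm_num
  · unfold cdA; fun_prop
  · have := q2 m hm
    have := q3 m hm
    unfold cdA; fun_prop

end Pool.Agent.MP_e5fd74_lc.H66

end

-- part MP_e5fd74_lc.H46.Grid
section

/-! Three-colouring reduces to colouring a two-page needle graph: a grid of crossover gadgets. -/

namespace Pool.Agent.MP_e5fd74_lc.H46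

open Pool.Agent.MP_e5fd74_lc.H66

/-- Three-colourings in which two places whose needles reach each other on a page differ. -/
def Sol2 (K : ℕ) (RA LA RB LB : ℕ → ℕ) : Prop :=
  ∃ col : ℕ → ZMod 3, ∀ a b, a < b → b < K →
    (b - a ≤ RA a ∧ b - a ≤ LA b) ∨ (b - a ≤ RB a ∧ b - a ≤ LB b) → col a ≠ col b

def gRT (N v j k : ℕ) : ℕ :=
  if j = N then 1 else if k = 1 ∧ j = v then 7 else if k = 2 then 6 else if k = 4 ∨ k = 11 then 2
  else if k = 9 then 4 else 1

def gLT (N u j k : ℕ) : ℕ :=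
  if k = 0 then 4 else if j = N then 1
  else if k = 1 ∨ k = 8 ∨ k = 9 ∨ (k = 2 ∧ j = u) then 26 * j + 10 + k
  else if k = 6 then 4 else if k = 7 then 5 else 1

def gRB (N j k : ℕ) : ℕ :=
  if j = N then 1 else if k = 0 ∨ k = 7 then 4 else if k = 5 then 26 * (N - j) - 7
  else if k = 6 then 5 else if k = 8 then 3 else 1

def gLB (N j k : ℕ) : ℕ :=
  if j = N then 1 else if k = 2 then 2 else if k = 4 then 4 else if k = 11 then 5
  else if k = 12 then 7 else 1

def cu (N : ℕ) (E : List (ℕ × ℕ)) (t : ℕ) : ℕ := pos N t (E.getD (t - 1) (0, 0)).1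
def cv (N : ℕ) (E : List (ℕ × ℕ)) (t : ℕ) : ℕ := pos N t (E.getD (t - 1) (0, 0)).2

/-- Reach to the right on page `b`. -/
def GR (b N : ℕ) (E : List (ℕ × ℕ)) (p : ℕ) : ℕ :=
  if p / (13 * N + 2) % 2 = b then
    gRT N (cv N E (p / (13 * N + 2))) (p % (13 * N + 2) / 13) (p % (13 * N + 2) % 13)
  else gRB N (p % (13 * N + 2) / 13) (p % (13 * N + 2) % 13)

/-- Reach to the left on page `b`. -/
def GLf (b N : ℕ) (E : List (ℕ × ℕ)) (p : ℕ) : ℕ :=
  if p / (13 * N + 2) % 2 = b then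
    gLT N (cu N E (p / (13 * N + 2))) (p % (13 * N + 2) / 13) (p % (13 * N + 2) % 13)
  else gLB N (p % (13 * N + 2) / 13) (p % (13 * N + 2) % 13)

def pq (N t j k : ℕ) : ℕ := t * (13 * N + 2) + (13 * j + k)

def Vb (N j k : ℕ) : Prop := (j < N ∧ k < 13) ∨ (j = N ∧ k < 2)

theorem pq_dec {N j k : ℕ} (t : ℕ) (h : Vb N j k) : pq N t j k / (13 * N + 2) = t ∧
    pq N t j k % (13 * N + 2) / 13 = j ∧ pq N t j k % (13 * N + 2) % 13 = k := by
  have h1 : 13 * j + k < 13 * N + 2 := by unfold Vb at h; omega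
  have h2 : pq N t j k % (13 * N + 2) = 13 * j + k := by
    rw [pq, Nat.mul_add_mod_of_lt h1]
  refine ⟨?_, by unfold Vb at h; omega, by unfold Vb at h; omega⟩
  rw [pq, mul_comm, Nat.mul_add_div (by omega), Nat.div_eq_of_lt h1, add_zero]

theorem exists_pq (N p : ℕ) : ∃ t j k, Vb N j k ∧ p = pq N t j k := by
  have h1 := Nat.mod_lt p (show 0 < 13 * N + 2 by omega)
  refine ⟨p / (13 * N + 2), p % (13 * N + 2) / 13, p % (13 * N + 2) % 13, by unfold Vb; omega, ?_⟩
  rw [pq, Nat.div_add_mod, Nat.div_add_mod']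

theorem pq_lt {N j k t m : ℕ} (h : Vb N j k) : pq N t j k < m * (13 * N + 2) ↔ t < m := by
  rw [← Nat.div_lt_iff_lt_mul (by omega), (pq_dec t h).1]

theorem pq_succ (N t j k : ℕ) : pq N (t + 1) j k = pq N t 0 0 + (13 * N + 2 + (13 * j + k)) := by
  unfold pq; ring

theorem pq_eq (N t j k : ℕ) : pq N t j k = pq N t 0 0 + (13 * j + k) := by
  unfold pq; ring

theorem GR_pq {N j k : ℕ} (b E t) (h : Vb N j k) :
    GR b N E (pq N t j k) = if t % 2 = b then gRT N (cv N E t) j k else gRB N j k := by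
  simp only [GR, pq_dec t h]

theorem GLf_pq {N j k : ℕ} (b E t) (h : Vb N j k) :
    GLf b N E (pq N t j k) = if t % 2 = b then gLT N (cu N E t) j k else gLB N j k := by
  simp only [GLf, pq_dec t h]

theorem G_bd (b N E p) (hN : 0 < N) : 1 ≤ GR b N E p ∧ GR b N E p ≤ 2 * (13 * N + 2) ∧
    1 ≤ GLf b N E p ∧ GLf b N E p ≤ 2 * (13 * N + 2) := by
  obtain ⟨t, j, k, hv, rfl⟩ := exists_pq N p
  rw [GR_pq b E t hv, GLf_pq b E t hv]
  unfold Vb at hv
  refine ⟨?_, ?_, ?_, ?_⟩ <;> split_ifs <;>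
    first | unfold gRT | unfold gRB | unfold gLT | unfold gLB
  all_goals split_ifs <;> omega

theorem gRT_cases {N v j k d : ℕ} (hd : 2 ≤ d) (h : d ≤ gRT N v j k) : j ≠ N ∧
    ((k = 1 ∧ j = v ∧ d ≤ 7) ∨ (k = 2 ∧ d ≤ 6) ∨ (k = 4 ∧ d = 2) ∨ (k = 11 ∧ d = 2) ∨
      (k = 9 ∧ d ≤ 4)) := by
  unfold gRT at h; split_ifs at h <;> omega

theorem gLT_cases {N u j k d : ℕ} (hd : 2 ≤ d) (h : d ≤ gLT N u j k) : (k = 0 ∧ d ≤ 4) ∨
    (j ≠ N ∧ (((k = 1 ∨ k = 8 ∨ k = 9 ∨ (k = 2 ∧ j = u)) ∧ d ≤ 26 * j + 10 + k) ∨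
      (k = 6 ∧ d ≤ 4) ∨ (k = 7 ∧ d ≤ 5))) := by
  unfold gLT at h; split_ifs at h <;> omega

theorem gRB_cases {N j k d : ℕ} (hd : 2 ≤ d) (h : d ≤ gRB N j k) : j ≠ N ∧
    ((k = 0 ∧ d ≤ 4) ∨ (k = 7 ∧ d ≤ 4) ∨ (k = 5 ∧ d ≤ 26 * (N - j) - 7) ∨ (k = 6 ∧ d ≤ 5) ∨
      (k = 8 ∧ d ≤ 3)) := by
  unfold gRB at h; split_ifs at h <;> omega

theorem gLB_cases {N j k d : ℕ} (hd : 2 ≤ d) (h : d ≤ gLB N j k) : j ≠ N ∧
    ((k = 2 ∧ d = 2) ∨ (k = 4 ∧ d ≤ 4) ∨ (k = 11 ∧ d ≤ 5) ∨ (k = 12 ∧ d ≤ 7)) := by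
  unfold gLB at h; split_ifs at h <;> omega

/-- The edges inside a gadget. -/
def Ed (k k' : ℕ) : Prop := k' = k + 1 ∨ (k = 2 ∧ (k' = 6 ∨ k' = 7 ∨ k' = 8)) ∨ (k = 4 ∧ k' = 6) ∨
  (k = 0 ∧ (k' = 2 ∨ k' = 4)) ∨ (k = 5 ∧ k' = 12) ∨ ((k = 6 ∨ k = 7 ∨ k = 8) ∧ k' = 11)

instance (k k' : ℕ) : Decidable (Ed k k') := by unfold Ed; infer_instance

theorem cellT {N u v j k k' : ℕ} (hk : k < k') (hR : k' - k ≤ gRT N v j k)
    (hL : k' - k ≤ gLT N u j k') : Ed k k' ∨ (k = 1 ∧ k' = 8 ∧ j = v) := by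
  rcases Nat.lt_or_ge (k' - k) 2 with h3 | h3
  · exact Or.inl (Or.inl (by omega))
  have r1 := gRT_cases h3 hR
  have r2 := gLT_cases h3 hL
  clear hR hL
  rcases r1 with ⟨a, ⟨rfl, c, c'⟩ | ⟨rfl, c⟩ | ⟨rfl, c⟩ | ⟨rfl, c⟩ | ⟨rfl, c⟩⟩ <;>
    rcases r2 with ⟨rfl, e⟩ | ⟨-, ⟨rfl | rfl | rfl | ⟨rfl, e'⟩, e⟩ | ⟨rfl, e⟩ | ⟨rfl, e⟩⟩ <;>
    first | exact Or.inl (by decide) | exact Or.inr ⟨rfl, rfl, c⟩ | (exfalso; omega)

theorem cellB {N j k k' : ℕ} (hk : k < k') (hR : k' - k ≤ gRB N j k)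
    (hL : k' - k ≤ gLB N j k') : Ed k k' := by
  rcases Nat.lt_or_ge (k' - k) 2 with h3 | h3
  · exact Or.inl (by omega)
  have r1 := gRB_cases h3 hR
  have r2 := gLB_cases h3 hL
  clear hR hL
  rcases r1 with ⟨a, ⟨rfl, c⟩ | ⟨rfl, c⟩ | ⟨rfl, c⟩ | ⟨rfl, c⟩ | ⟨rfl, c⟩⟩ <;>
    rcases r2 with ⟨-, ⟨rfl, e⟩ | ⟨rfl, e⟩ | ⟨rfl, e⟩ | ⟨rfl, e⟩⟩ <;>
    first | decide | (exfalso; omega)

theorem conflicts2 {N t t' j k j' k' : ℕ} {E : List (ℕ × ℕ)} (h : Vb N j k) (h' : Vb N j' k')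
    (hab : pq N t j k < pq N t' j' k') {b : ℕ} (hb : b < 2)
    (hR : pq N t' j' k' - pq N t j k ≤ GR b N E (pq N t j k))
    (hL : pq N t' j' k' - pq N t j k ≤ GLf b N E (pq N t' j' k')) :
    (t' = t ∧ ((j' = j ∧ j < N ∧ (Ed k k' ∨ (k = 1 ∧ k' = 8 ∧ j = cv N E t))) ∨
      (j' = j + 1 ∧ k' = 0 ∧ (k = 9 ∨ k = 11 ∨ k = 12)) ∨ (j = N ∧ j' = N ∧ k = 0 ∧ k' = 1))) ∨
    (t' = t + 1 ∧ ((j = N ∧ k = 1 ∧ j' = 0 ∧ k' = 0) ∨ (k = 5 ∧ j + j' + 1 = N ∧
      (k' = 1 ∨ k' = 8 ∨ k' = 9 ∨ (k' = 2 ∧ j' = cu N E t'))))) := by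
  have hle : t ≤ t' := by
    rw [← (pq_dec t h).1, ← (pq_dec t' h').1]
    exact Nat.div_le_div_right hab.le
  rw [GR_pq b E t h] at hR
  rw [GLf_pq b E t' h'] at hL
  unfold Vb at h h'
  rcases (by omega : t' = t ∨ t' = t + 1 ∨ t + 2 ≤ t') with rfl | rfl | h2
  · refine Or.inl ⟨rfl, ?_⟩
    rw [pq_eq N t' j k, pq_eq N t' j' k', Nat.add_sub_add_left] at hR hL
    rw [pq_eq N t' j k, pq_eq N t' j' k', Nat.add_lt_add_iff_left] at hab
    rcases Nat.lt_or_ge j j' with hj | hj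
    · refine Or.inr (Or.inl ?_)
      rcases Nat.lt_or_ge (13 * j' + k' - (13 * j + k)) 2 with h3 | h3
      · clear hR hL; omega
      split_ifs at hR hL
      · have r1 := gRT_cases h3 hR
        have r2 := gLT_cases h3 hL
        clear hR hL
        rcases r1 with ⟨a, ⟨rfl, c, c'⟩ | ⟨rfl, c⟩ | ⟨rfl, c⟩ | ⟨rfl, c⟩ | ⟨rfl, c⟩⟩ <;>
          rcases r2 with ⟨rfl, e⟩ | ⟨-, ⟨rfl | rfl | rfl | ⟨rfl, -⟩, e⟩ | ⟨rfl, e⟩ | ⟨rfl, e⟩⟩ <;>
          first | (exfalso; omega) | exact ⟨by omega, rfl, by omega⟩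
      · have r1 := gRB_cases h3 hR
        have r2 := gLB_cases h3 hL
        clear hR hL
        rcases r1 with ⟨a, ⟨rfl, c⟩ | ⟨rfl, c⟩ | ⟨rfl, c⟩ | ⟨rfl, c⟩ | ⟨rfl, c⟩⟩ <;>
          rcases r2 with ⟨-, ⟨rfl, e⟩ | ⟨rfl, e⟩ | ⟨rfl, e⟩ | ⟨rfl, e⟩⟩ <;> (exfalso; omega)
    · obtain rfl : j' = j := by clear hR hL; omega
      rcases Nat.lt_or_ge j' N with hN | hN
      · refine Or.inl ⟨rfl, hN, ?_⟩
        rw [Nat.add_sub_add_left] at hR hL
        split_ifs at hR hL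
        · exact cellT (by omega) hR hL
        · exact Or.inl (cellB (by omega) hR hL)
      · exact Or.inr (Or.inr (by clear hR hL; omega))
  · refine Or.inr ⟨rfl, ?_⟩
    rw [pq_eq N t j k, pq_succ, Nat.add_sub_add_left] at hR hL
    clear hab
    rcases Nat.lt_or_ge (13 * N + 2 + (13 * j' + k') - (13 * j + k)) 2 with h3 | h3
    · exact Or.inl (by clear hR hL; omega)
    split_ifs at hR hL with e1 e2 e2
    · exfalso; clear hR hL h h' h3; omega
    · have r1 := gRT_cases h3 hR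
      clear hR hL
      rcases r1 with ⟨a, ⟨rfl, -, c'⟩ | ⟨rfl, c⟩ | ⟨rfl, c⟩ | ⟨rfl, c⟩ | ⟨rfl, c⟩⟩ <;>
        (exfalso; omega)
    · have r1 := gRB_cases h3 hR
      have r2 := gLT_cases h3 hL
      clear hR hL e1 e2
      refine Or.inr ?_
      rcases r1 with ⟨a, ⟨rfl, c⟩ | ⟨rfl, c⟩ | ⟨rfl, c⟩ | ⟨rfl, c⟩ | ⟨rfl, c⟩⟩ <;>
        rcases r2 with ⟨rfl, e⟩ | ⟨-, ⟨e', e⟩ | ⟨rfl, e⟩ | ⟨rfl, e⟩⟩ <;>
        first | exact ⟨rfl, by omega, e'⟩ | (exfalso; omega)
    · exfalso; clear hR hL h h' h3; omega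
  · have h3 : pq N (t + 2) 0 0 ≤ pq N t' 0 0 := by
      unfold pq; exact Nat.add_le_add_right (Nat.mul_le_mul_right _ h2) _
    rw [pq_succ, pq_succ] at h3
    rw [pq_eq N t j k, pq_eq N t' j' k'] at hR
    clear hL hab
    exfalso
    split_ifs at hR
    · have r1 := gRT_cases (by omega) hR
      clear hR
      rcases r1 with ⟨a, ⟨rfl, -, c'⟩ | ⟨rfl, c⟩ | ⟨rfl, c⟩ | ⟨rfl, c⟩ | ⟨rfl, c⟩⟩ <;> omega
    · have r1 := gRB_cases (by omega) hR
      clear hR
      rcases r1 with ⟨a, ⟨rfl, c⟩ | ⟨rfl, c⟩ | ⟨rfl, c⟩ | ⟨rfl, c⟩ | ⟨rfl, c⟩⟩ <;> omega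

/-- Colours of a gadget crossed by the colours `x` and `h`. -/
def gc (x h : ZMod 3) (k : ℕ) : ZMod 3 :=
  if x = h then [h, h + 1, h + 2, h + 1, h + 2, h, h + 1, h, h + 1, h + 2, h + 1, h + 2, h + 1].getD k 0
  else [h, -(x + h), x, h, -(x + h), x, h, -(x + h), h, -(x + h), h, x, -(x + h)].getD k 0

theorem gc_ed : ∀ x h : ZMod 3, ∀ k, k < 13 → ∀ k', k' < 13 → Ed k k' → gc x h k ≠ gc x h k' := by
  decide +kernel

theorem gc_out : ∀ x h : ZMod 3, gc x h 0 = h ∧ gc x h 5 = x ∧ gc x h 9 ≠ h ∧ gc x h 11 ≠ h ∧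
    gc x h 12 ≠ h ∧ x ≠ gc x h 1 ∧ x ≠ gc x h 8 ∧ x ≠ gc x h 9 ∧ (x = h → x ≠ gc x h 2) ∧
    (x ≠ h → gc x h 1 ≠ gc x h 8) := by
  decide +kernel

theorem cuv {N : ℕ} {E : List (ℕ × ℕ)} (hE : ∀ e ∈ E, e.1 < N ∧ e.2 < N ∧ e.1 ≠ e.2) {t : ℕ}
    (ht : t - 1 < E.length) : cu N E t < N ∧ cv N E t < N ∧ pos N t (cu N E t) = E[t - 1].1 ∧
      pos N t (cv N E t) = E[t - 1].2 := by
  have := hE _ (List.getElem_mem ht)
  simp only [cu, cv, List.getD_eq_getElem _ _ ht]
  exact ⟨(pos_pos t this.1).1, (pos_pos t this.2.1).1, (pos_pos t this.1).2.1,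
    (pos_pos t this.2.1).2.1⟩

theorem sol2_of_col {N : ℕ} {E : List (ℕ × ℕ)} (hE : ∀ e ∈ E, e.1 < N ∧ e.2 < N ∧ e.1 ≠ e.2)
    (h0 : 0 < E.length) (h : Col3 E) :
    Sol2 ((E.length + 1) * (13 * N + 2)) (GR 0 N E) (GLf 0 N E) (GR 1 N E) (GLf 1 N E) := by
  obtain ⟨f, hf⟩ := h
  let H : ℕ → ZMod 3 := fun t => f (pos N t (cu N E t))
  let C : ℕ → ℕ → ℕ → ZMod 3 := fun t j k => if j = N then (if k = 0 then H t else
    cx (H t) (H (t + 1)) 0) else gc (f (pos N t j)) (H t) k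
  refine ⟨fun p => C (p / (13 * N + 2)) (p % (13 * N + 2) / 13) (p % (13 * N + 2) % 13),
    fun a b hab hb hc => ?_⟩
  obtain ⟨t, j, k, hv, rfl⟩ := exists_pq N a
  obtain ⟨t', j', k', hv', rfl⟩ := exists_pq N b
  have ht : t' < E.length + 1 := (pq_lt hv').1 hb
  have hN : 0 < N := by have := hE _ (List.getElem_mem h0); omega
  simp only [pq_dec t hv, pq_dec t' hv', C]
  have key := hc.elim (fun h => conflicts2 hv hv' hab (by norm_num) h.1 h.2)
    (fun h => conflicts2 hv hv' hab (by norm_num) h.1 h.2)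
  unfold Vb at hv hv'
  rcases key with ⟨rfl, ⟨rfl, h1, h2 | ⟨rfl, rfl, h2⟩⟩ | ⟨rfl, rfl, h1⟩ | ⟨rfl, rfl, rfl, rfl⟩⟩ |
    ⟨rfl, ⟨rfl, rfl, rfl, rfl⟩ | ⟨rfl, h1, h2⟩⟩
  · rw [if_neg h1.ne, if_neg h1.ne]
    exact gc_ed _ _ k (by omega) k' (by omega) h2
  · rw [if_neg h1.ne, if_neg h1.ne]
    obtain ⟨-, -, e1, e2⟩ := cuv hE (t := t') (by omega)
    refine (gc_out _ _).2.2.2.2.2.2.2.2.2 ?_
    simp only [H]
    rw [h2, e1, e2]
    exact (hf _ (List.getElem_mem _)).symm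
  · have e : (if j + 1 = N then (if 0 = 0 then H t' else cx (H t') (H (t' + 1)) 0)
        else gc (f (pos N t' (j + 1))) (H t') 0) = H t' := by
      split_ifs with h2 h3
      · rfl
      · exact absurd rfl h3
      · exact (gc_out _ _).1
    rw [e, if_neg (by omega)]
    rcases h1 with rfl | rfl | rfl
    · exact (gc_out _ _).2.2.1
    · exact (gc_out _ _).2.2.2.1
    · exact (gc_out _ _).2.2.2.2.1
  · simp only [if_true, one_ne_zero, if_false]
    exact (cx_ne _ _).2.2.1.symm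
  · rw [if_pos rfl, if_neg one_ne_zero, if_neg hN.ne, (gc_out _ _).1]
    exact (cx_ne _ _).1
  · rw [if_neg (by omega), if_neg (by omega), (gc_out _ _).2.1,
      ← (pos_pos t (show j < N by omega)).2.2, show N - 1 - j = j' by omega]
    rcases h2 with rfl | rfl | rfl | ⟨rfl, h2⟩
    · exact (gc_out _ _).2.2.2.2.2.1
    · exact (gc_out _ _).2.2.2.2.2.2.1
    · exact (gc_out _ _).2.2.2.2.2.2.2.1
    · exact (gc_out _ _).2.2.2.2.2.2.2.2.1 (by rw [h2])

set_option synthInstance.maxSize 100000 in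
theorem cross : ∀ c n : ZMod 3, c ≠ n → ∀ e, c ≠ e → n ≠ e → ∀ s, s ≠ c → s ≠ e → ∀ w, w ≠ c →
    w ≠ s → w ≠ n → ∀ N, N ≠ n → ∀ ne, N ≠ ne → n ≠ ne → ∀ E, ne ≠ E → e ≠ E → ∀ se, e ≠ se →
    se ≠ E → ∀ S, S ≠ se → S ≠ s → ∀ sw, sw ≠ S → sw ≠ s → ∀ W, W ≠ sw → W ≠ w → ∀ nw, W ≠ nw →
    nw ≠ w → N ≠ nw → W = E ∧ N = S ∧ (N ≠ w → W = N) ∧ (nw ≠ n → W ≠ N) := by
  decide +kernel

theorem col_of_sol2 {N : ℕ} {E : List (ℕ × ℕ)} (hE : ∀ e ∈ E, e.1 < N ∧ e.2 < N ∧ e.1 ≠ e.2)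
    (h : Sol2 ((E.length + 1) * (13 * N + 2)) (GR 0 N E) (GLf 0 N E) (GR 1 N E) (GLf 1 N E)) :
    Col3 E := by
  obtain ⟨col, h⟩ := h
  have pg : ∀ a b t : ℕ, a < b → b < (E.length + 1) * (13 * N + 2) → b - a ≤ GR (t % 2) N E a →
      b - a ≤ GLf (t % 2) N E b → col a ≠ col b := fun a b t h1 h2 h3 h4 => by
    rcases Nat.mod_two_eq_zero_or_one t with e | e <;> rw [e] at h3 h4
    · exact h a b h1 h2 (Or.inl ⟨h3, h4⟩)
    · exact h a b h1 h2 (Or.inr ⟨h3, h4⟩)
  have top : ∀ t j k j' k', t < E.length + 1 → Vb N j k → Vb N j' k' → 13 * j + k < 13 * j' + k' →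
      13 * j' + k' - (13 * j + k) ≤ gRT N (cv N E t) j k →
      13 * j' + k' - (13 * j + k) ≤ gLT N (cu N E t) j' k' →
      col (pq N t j k) ≠ col (pq N t j' k') := fun t j k j' k' ht v v' h1 h2 h3 =>
    pg _ _ t (Nat.add_lt_add_left h1 _) ((pq_lt v').2 ht)
      (by rwa [GR_pq _ E t v, if_pos rfl, pq, pq, Nat.add_sub_add_left])
      (by rwa [GLf_pq _ E t v', if_pos rfl, pq, pq, Nat.add_sub_add_left])
  have bot : ∀ t j k k', t < E.length + 1 → j < N → k < k' → k' < 13 → k' - k ≤ gRB N j k →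
      k' - k ≤ gLB N j k' → col (pq N t j k) ≠ col (pq N t j k') := fun t j k k' ht v h1 v' h2 h3 =>
    pg _ _ (t + 1) (by unfold pq; omega) ((pq_lt (Or.inl ⟨v, v'⟩)).2 ht)
      (by rwa [GR_pq _ E t (Or.inl ⟨v, by omega⟩), if_neg (by omega), pq, pq, Nat.add_sub_add_left,
        Nat.add_sub_add_left])
      (by rwa [GLf_pq _ E t (Or.inl ⟨v, v'⟩), if_neg (by omega), pq, pq, Nat.add_sub_add_left,
        Nat.add_sub_add_left])
  have lng : ∀ t j k, t < E.length → j < N → (k = 1 ∨ k = 8 ∨ k = 9 ∨ (k = 2 ∧ j = cu N E (t + 1))) →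
      col (pq N t (N - 1 - j) 5) ≠ col (pq N (t + 1) j k) := fun t j k ht hj hk => by
    have v : Vb N (N - 1 - j) 5 := Or.inl ⟨by omega, by omega⟩
    have v' : Vb N j k := Or.inl ⟨hj, by omega⟩
    refine pg _ _ (t + 1) (by rw [pq_succ, pq_eq N t]; omega) ((pq_lt v').2 (by omega)) ?_ ?_
    · rw [GR_pq _ E t v, if_neg (by omega), pq_succ, pq_eq N t (N - 1 - j), Nat.add_sub_add_left,
        gRB, if_neg (by omega), if_neg (by omega), if_pos rfl]
      omega
    · rw [GLf_pq _ E (t + 1) v', if_pos rfl, pq_succ, pq_eq N t (N - 1 - j), Nat.add_sub_add_left,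
        gLT, if_neg (by omega), if_neg (by omega), if_pos hk]
      omega
  have cell : ∀ t j, t < E.length → j < N →
      col (pq N (t + 1) j 0) = col (pq N (t + 1) (j + 1) 0) ∧
      col (pq N t (N - 1 - j) 5) = col (pq N (t + 1) j 5) ∧
      (j = cu N E (t + 1) → col (pq N (t + 1) j 0) = col (pq N t (N - 1 - j) 5)) ∧
      (j = cv N E (t + 1) → col (pq N (t + 1) j 0) ≠ col (pq N t (N - 1 - j) 5)) := by
    intro t j ht hj
    have T : ∀ k k', k < k' → k' < 13 → k' - k ≤ gRT N (cv N E (t + 1)) j k →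
        k' - k ≤ gLT N (cu N E (t + 1)) j k' → col (pq N (t + 1) j k) ≠ col (pq N (t + 1) j k') :=
      fun k k' h1 h2 h3 h4 => top _ j k j k' (by omega) (Or.inl ⟨hj, by omega⟩) (Or.inl ⟨hj, h2⟩)
        (by omega) (by rwa [Nat.add_sub_add_left]) (by rwa [Nat.add_sub_add_left])
    have T' : ∀ k, k < 13 → 13 - k ≤ gRT N (cv N E (t + 1)) j k → 13 - k ≤ 4 →
        col (pq N (t + 1) j k) ≠ col (pq N (t + 1) (j + 1) 0) := fun k h1 h2 h3 =>
      top _ j k (j + 1) 0 (by omega) (Or.inl ⟨hj, h1⟩) (by unfold Vb; omega) (by omega)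
        (by rwa [show 13 * (j + 1) + 0 - (13 * j + k) = 13 - k by omega])
        (by rw [gLT, if_pos rfl]; omega)
    have B := fun k k' => bot (t + 1) j k k' (by omega) hj
    have L := fun k => lng t j k ht hj
    have hj' := hj.ne
    obtain ⟨c1, c2, c3, c4⟩ := cross _ _
      (B 7 8 (by norm_num) (by norm_num) (by simp [gRB, hj']) (by simp [gLB, hj'])) _
      (B 7 11 (by norm_num) (by norm_num) (by simp [gRB, hj']) (by simp [gLB, hj']))
      (B 8 11 (by norm_num) (by norm_num) (by simp [gRB, hj']) (by simp [gLB, hj'])) _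
      (B 6 7 (by norm_num) (by norm_num) (by simp [gRB, hj']) (by simp [gLB, hj']))
      (B 6 11 (by norm_num) (by norm_num) (by simp [gRB, hj']) (by simp [gLB, hj'])) _
      (T 2 7 (by norm_num) (by norm_num) (by simp [gRT, hj']) (by simp [gLT, hj']))
      (T 2 6 (by norm_num) (by norm_num) (by simp [gRT, hj']) (by simp [gLT, hj']))
      (T 2 8 (by norm_num) (by norm_num) (by simp [gRT, hj']) (by simp [gLT, hj'])) _
      (L 8 (by omega)) _ (L 9 (by omega))
      (B 8 9 (by norm_num) (by norm_num) (by simp [gRB, hj']) (by simp [gLB, hj'])) _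
      (T' 9 (by norm_num) (by simp [gRT, hj']) (by norm_num))
      (T' 11 (by norm_num) (by simp [gRT, hj']) (by norm_num)) _
      (B 11 12 (by norm_num) (by norm_num) (by simp [gRB, hj']) (by simp [gLB, hj']))
      (T' 12 (by norm_num) (by simp [gRT, hj']) (by norm_num)) _
      (B 5 12 (by norm_num) (by norm_num) (by simp only [Nat.reduceSub, gRB, hj', ↓ reduceIte, OfNat.ofNat_ne_zero, Nat.reduceEqDiff, or_self]; omega) (by simp [gLB, hj']))
      (B 5 6 (by norm_num) (by norm_num) (by simp only [Nat.reduceSub, gRB, hj', ↓ reduceIte, OfNat.ofNat_ne_zero, Nat.reduceEqDiff, or_self]; omega) (by simp [gLB, hj'])) _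
      (T 4 5 (by norm_num) (by norm_num) (by simp [gRT, hj']) (by simp [gLT, hj']))
      (T 4 6 (by norm_num) (by norm_num) (by simp [gRT, hj']) (by simp [gLT, hj'])) _
      (B 0 4 (by norm_num) (by norm_num) (by simp [gRB, hj']) (by simp [gLB, hj']))
      (B 0 2 (by norm_num) (by norm_num) (by simp [gRB, hj']) (by simp [gLB, hj'])) _
      (B 0 1 (by norm_num) (by norm_num) (by simp [gRB, hj']) (by simp [gLB, hj']))
      (B 1 2 (by norm_num) (by norm_num) (by simp [gRB, hj']) (by simp [gLB, hj']))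
      (L 1 (by omega))
    exact ⟨c1, c2, fun e => c3 (L 2 (by omega)), fun e => c4 (T 1 8 (by norm_num) (by norm_num)
      (by rw [gRT, if_neg hj', if_pos ⟨rfl, e⟩]) (by simp only [Nat.add_one_sub_one, gLT, OfNat.ofNat_ne_zero, ↓ reduceIte, hj', OfNat.ofNat_ne_one, Nat.reduceEqDiff, false_and, or_self, or_false, or_true, le_add_iff_nonneg_left, zero_le]))⟩
  have copy : ∀ t j, t ≤ E.length → j < N → col (pq N t j 5) = col (pq N 0 (pos N t j) 5) := by
    intro t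
    induction t with
    | zero => intro j _ _; rfl
    | succ t ih =>
      intro j ht hj
      rw [← (cell t j ht hj).2.1, ih _ (by omega) (by omega),
        ← (pos_pos t (show N - 1 - j < N by omega)).2.2, show N - 1 - (N - 1 - j) = j by omega]
  have row : ∀ t j, t < E.length → j ≤ N → col (pq N (t + 1) j 0) = col (pq N (t + 1) 0 0) := by
    intro t j ht hj
    induction j with
    | zero => rfl
    | succ j ih => rw [← (cell t j ht hj).1, ih (by omega)]
  refine ⟨fun v => col (pq N 0 v 5), fun e he => ?_⟩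
  obtain ⟨t, ht, rfl⟩ := List.getElem_of_mem he
  obtain ⟨u1, u2, u3, u4⟩ := cuv hE (t := t + 1) ht
  have c1 := cell t _ ht u1
  have c2 := cell t _ ht u2
  have e1 := c1.2.2.1 rfl
  have e2 := c2.2.2.2 rfl
  rw [c1.2.1, copy _ _ ht u1, u3, row t _ ht u1.le] at e1
  rw [c2.2.1, copy _ _ ht u2, u4, row t _ ht u2.le, e1] at e2
  exact e2

end Pool.Agent.MP_e5fd74_lc.H46

end

-- part MP_e5fd74_lc.H46.Planes
section

/-! Choices of planes correspond to colourings; crossings of vertex pieces. -/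

namespace Pool.Agent.MP_e5fd74_lc.H46

open Pool.Agent.MP_e5fd74_lc.H66 Complex ComplexConjugate

noncomputable def chi (x : ZMod 3) : ℂ := om ^ x.val

theorem chi_norm (x : ZMod 3) : ‖chi x‖ = 1 := by rw [chi, norm_pow, om_norm, one_pow]

theorem chi_add (x y : ZMod 3) : chi (x + y) = chi x * chi y := by
  rw [chi, chi, chi, ← pow_add, ZMod.val_add, ← pow_eq_pow_mod _ om_cube]

theorem chi_zero : chi 0 = 1 := by simp [chi]

theorem chi_one : chi 1 = om := by
  rw [chi, show (1 : ZMod 3).val = 1 from rfl, pow_one]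

theorem chi_cube (x : ZMod 3) : chi x ^ 3 = 1 := by
  rw [chi, ← pow_mul, mul_comm, pow_mul, om_cube, one_pow]

theorem chi_step (x : ZMod 3) {e : ℤ} (he : e = 1 ∨ e = -1) : chi x * om ^ e = chi (x + e) := by
  have h0 : om ≠ 0 := om_prim.ne_zero (by norm_num)
  rcases he with rfl | rfl
  · rw [chi_add, Int.cast_one, chi_one, zpow_one]
  · rw [zpow_neg_one, mul_inv_eq_iff_eq_mul₀ h0, ← chi_one, ← chi_add]
    simp

theorem self_re {z : ℂ} (h : ‖z‖ = 1) : z * conj z = 1 := by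
  rw [mul_conj, normSq_eq_norm_sq, h]; norm_num

theorem chi_re {x y : ZMod 3} (h : x ≠ y) : (chi x * conj (chi y)).re = -1 / 2 := by
  have : ∀ x y : ZMod 3, x ≠ y → y = x + (1 : ℤ) ∨ y = x + (-1 : ℤ) := by decide
  rcases this x y h with rfl | rfl
  · rw [← chi_step x (Or.inl rfl), re_step (chi_norm x) om_norm (Or.inl rfl)]; rfl
  · rw [← chi_step x (Or.inr rfl), re_step (chi_norm x) om_norm (Or.inr rfl)]; rfl

theorem chi_inj {x y : ZMod 3} {σ : ℂ} (hσ : σ = 1 ∨ σ = -1) (h : chi y = σ * chi x) :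
    σ = 1 ∧ x = y := by
  have h1 := self_re (chi_norm x)
  by_cases e : x = y
  · subst e
    refine ⟨?_, rfl⟩
    rcases hσ with rfl | rfl
    · rfl
    · have h2 : chi x = 0 := by linear_combination h / 2
      rw [h2] at h1; simp at h1
  · have h2 := chi_re e
    rcases hσ with rfl | rfl
    · rw [h, one_mul, h1] at h2; norm_num at h2
    · rw [h, neg_one_mul, map_neg, mul_neg, h1] at h2; norm_num at h2

theorem sol_of_pl {C : Chn} {K : ℕ} {P : ℕ → ℕ → Prop} (hm : 2 * K ≤ C.m)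
    (hg : ∀ p, p + 1 < 2 * K → C.g p = if p % 2 = 0 then 1 / 2 else -1 / 2)
    (hc : ∀ a b, a < b → b < K → P a b → C.Conf (2 * a + 1) (2 * b + 1) ((-1) ^ (a + b)))
    {Z : ℕ → ℂ} (hZ : C.Pl Z) : ∃ col : ℕ → ZMod 3, ∀ a b, a < b → b < K → P a b → col a ≠ col b := by
  obtain ⟨h1, h2, h3⟩ := hZ
  have key : ∀ j, ∃ c : ZMod 3, j < K → Z (2 * j + 1) = Z 1 * (-1) ^ j * chi c := by
    intro j
    induction j with
    | zero => exact ⟨0, fun _ => by simp [chi_zero]⟩
    | succ j ih =>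
      obtain ⟨c, ih⟩ := ih
      by_cases hj : j + 1 < K
      · obtain ⟨e, he, e1⟩ := step (η := om) (h1 (2 * j + 1) (by omega))
          (h1 (2 * j + 1 + 1) (by omega)) om_norm
          (by rw [h2 _ (by omega), hg _ (by omega), if_neg (by omega)]; rfl)
        obtain ⟨e', he', e2⟩ := step (η := om) (w := -Z (2 * j + 1 + 1 + 1))
          (h1 (2 * j + 1 + 1) (by omega)) (by rw [norm_neg]; exact h1 _ (by omega)) om_norm
          (by rw [map_neg, mul_neg, neg_re, h2 _ (by omega), hg _ (by omega), if_pos (by omega)]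
              norm_num [om])
        refine ⟨c + e + e', fun _ => ?_⟩
        rw [← chi_step _ he', ← chi_step _ he, show 2 * (j + 1) + 1 = 2 * j + 1 + 1 + 1 by ring,
          neg_eq_iff_eq_neg.1 e2, e1, ih (by omega)]
        ring
      · exact ⟨0, fun h => absurd h hj⟩
  choose col hcol using key
  refine ⟨col, fun a b hab hb hP e => ?_⟩
  have h4 := hc a b hab hb hP
  have h5 := h3 (2 * a + 1) (2 * b + 1) (by omega) (by omega)
  rw [hcol a (by omega), hcol b hb, e] at h5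
  rcases Nat.even_or_odd a with p | p <;> rcases Nat.even_or_odd b with q | q <;>
    rw [pow_add, p.neg_one_pow, q.neg_one_pow] at h4 <;> rw [p.neg_one_pow, q.neg_one_pow] at h5
  · exact h5.1 rfl (by simpa using h4)
  · exact h5.2 (by ring) (by simpa using h4)
  · exact h5.2 (by ring) (by simpa using h4)
  · exact h5.1 rfl (by simpa using h4)

theorem pl_of_sol {C : Chn} {K : ℕ} {P : ℕ → ℕ → Prop} (hK : 0 < K) (hm : C.m ≤ 2 * K + 4)
    (hg : ∀ p, p + 1 < 2 * K → C.g p = if p % 2 = 0 then 1 / 2 else -1 / 2)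
    (hg' : ∀ p, 2 * K ≤ p + 1 → p + 1 < C.m → 0 < C.g p ∧ C.g p < 1 / 10)
    (hP : ∀ a, P a (a + 1))
    (hc : ∀ a b, a < b → b < K → C.Conf (2 * a + 1) (2 * b + 1) ((-1) ^ (a + b)) → P a b)
    (hU : ∀ a b σ, a + 1 < b → b < 2 * K → a % 2 = 0 ∨ b % 2 = 0 → σ = 1 ∨ σ = -1 → ¬ C.Conf a b σ)
    {col : ℕ → ZMod 3} (h : ∀ a b, a < b → b < K → P a b → col a ≠ col b) : ∃ Z, C.Pl Z := by
  have hp := Real.pi_gt_three
  obtain ⟨u, hu⟩ : ∃ u : ℕ → ZMod 3, ∀ j, j < K → u j ≠ col j ∧ ∀ i, i + 1 = j → col i ≠ u j := by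
    refine ⟨fun j => if j = 0 then col 0 + 1 else -(col (j - 1) + col j), fun j hj => ?_⟩
    have t1 : ∀ x : ZMod 3, x + 1 ≠ x := by decide
    have t2 : ∀ x y : ZMod 3, x ≠ y → -(x + y) ≠ y ∧ x ≠ -(x + y) := by decide
    rcases j with _ | j
    · exact ⟨t1 _, fun i hi => by omega⟩
    · have := t2 _ _ (h j (j + 1) (by omega) hj (hP j))
      refine ⟨this.1, fun i hi => ?_⟩
      obtain rfl : i = j := by omega
      exact this.2
  obtain ⟨Y, hY⟩ : ∃ Y : ℕ → ℂ, ∀ j, Y (2 * j) = -((-1) ^ j * chi (u j)) ∧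
      Y (2 * j + 1) = (-1) ^ j * chi (col j) :=
    ⟨fun p => if p % 2 = 0 then -((-1) ^ (p / 2) * chi (u (p / 2)))
      else (-1) ^ (p / 2) * chi (col (p / 2)), fun j => by
        constructor
        · simp only [Nat.mul_mod_right, ↓ reduceIte, ne_eq, OfNat.ofNat_ne_zero, not_false_eq_true, mul_div_cancel_left₀]
        · dsimp only
          rw [if_neg (by omega), show (2 * j + 1) / 2 = j by omega]⟩
  have hY1 : ∀ p, ‖Y p‖ = 1 ∧ Y p ^ 12 = 1 := fun p => by
    have e : ∀ j x, ‖(-1 : ℂ) ^ j * chi x‖ = 1 ∧ ((-1 : ℂ) ^ j * chi x) ^ 12 = 1 := fun j x => by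
      constructor
      · simp only [Complex.norm_mul, norm_pow, norm_neg, norm_one, one_pow, chi_norm, mul_one]
      · rw [mul_pow, ← pow_mul, mul_comm j, pow_mul, show 12 = 3 * 4 from rfl, pow_mul (chi x),
          chi_cube]
        norm_num
    obtain ⟨j, rfl | rfl⟩ := Nat.even_or_odd' p
    · rw [(hY j).1, norm_neg, Even.neg_pow (n := 12) (by decide)]; exact e j (u j)
    · rw [(hY j).2]; exact e j (col j)
  have sg : ∀ j : ℕ, ((-1 : ℂ) ^ j) * (-1) ^ j = 1 := fun j => by rw [← mul_pow]; norm_num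
  have hY2 : ∀ p, p + 1 < 2 * K → (Y p * conj (Y (p + 1))).re = C.g p := fun p hp => by
    rw [hg p hp]
    obtain ⟨j, rfl | rfl⟩ := Nat.even_or_odd' p
    · have := chi_re (hu j (by omega)).1
      rw [if_pos (by omega), (hY j).1, (hY j).2, map_mul, map_pow, map_neg, map_one,
        show -((-1) ^ j * chi (u j)) * ((-1) ^ j * conj (chi (col j))) =
          -(chi (u j) * conj (chi (col j))) by
            linear_combination -(chi (u j) * conj (chi (col j))) * sg j, neg_re, this]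
      norm_num
    · have := chi_re ((hu (j + 1) (by omega)).2 j rfl)
      rw [if_neg (by omega), (hY j).2, show 2 * j + 1 + 1 = 2 * (j + 1) by ring, (hY (j + 1)).1,
        map_neg, map_mul, map_pow, map_neg, map_one,
        show (-1) ^ j * chi (col j) * -((-1) ^ (j + 1) * conj (chi (u (j + 1)))) =
          chi (col j) * conj (chi (u (j + 1))) by
            linear_combination (chi (col j) * conj (chi (u (j + 1)))) * sg j, this]
  obtain ⟨ε, hε⟩ : ∃ ε : ℕ → ℝ, ∀ q, ε q = if q + 1 < 2 * K then 0 else Real.arcsin (C.g q) :=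
    ⟨_, fun _ => rfl⟩
  have hε1 : ∀ q, 2 * K ≤ q + 1 → q + 1 < C.m → 0 < ε q ∧ ε q < 1 / 9 ∧ Real.sin (ε q) = C.g q :=
    fun q a b => by
      obtain ⟨c, d⟩ := hg' q a b
      have e : Real.sin (ε q) = C.g q := by
        rw [hε, if_neg (by omega), Real.sin_arcsin (by linarith only [c, d]) (by linarith only [c, d])]
      have f := sin_lo (x := 1 / 9) (by norm_num)
      refine ⟨by rw [hε, if_neg (by omega)]; exact Real.arcsin_pos.2 c,
        lt_of_sin_lt ?_ (by linarith only [hp]) (by rw [e]; linarith only [d, f]), e⟩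
      rw [hε, if_neg (by omega)]; exact Real.arcsin_le_pi_div_two _
  obtain ⟨F, F0, hF⟩ : ∃ F : ℕ → ℝ, F 0 = 0 ∧ ∀ p, F (p + 1) = F p + ε p :=
    ⟨fun p => ∑ q ∈ Finset.range p, ε q, by simp, fun p => Finset.sum_range_succ _ _⟩
  have F1 : ∀ p, p < 2 * K → F p = 0 := fun p hp => by
    induction p with
    | zero => exact F0
    | succ p ih => rw [hF, ih (by omega), hε, if_pos hp, add_zero]
  have F2 : ∀ a b, a < b → 2 * K ≤ b → b < C.m → 0 < F b - F a ∧ F b - F a < 1 / 2 := by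
    intro a b hab h1 h2
    obtain ⟨k, rfl⟩ : ∃ k, K = k + 1 := ⟨K - 1, by omega⟩
    have e0 := F1 (2 * k + 1) (by omega)
    have e1 := hF (2 * k + 1)
    have e2 := hF (2 * k + 1 + 1)
    have e3 := hF (2 * k + 1 + 1 + 1)
    have e4 := hF (2 * k + 1 + 1 + 1 + 1)
    have d1 := hε1 (2 * k + 1) (by omega)
    have d2 := hε1 (2 * k + 1 + 1) (by omega)
    have d3 := hε1 (2 * k + 1 + 1 + 1) (by omega)
    have d4 := hε1 (2 * k + 1 + 1 + 1 + 1) (by omega)
    rcases (by omega : b = 2 * k + 1 + 1 ∨ b = 2 * k + 1 + 1 + 1 ∨ b = 2 * k + 1 + 1 + 1 + 1 ∨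
      b = 2 * k + 1 + 1 + 1 + 1 + 1) with rfl | rfl | rfl | rfl
    · have := d1 h2
      rw [F1 a (by omega)]; constructor <;> linarith only [e0, e1, this]
    · have := d1 (by omega)
      have := d2 h2
      rcases (by omega : a < 2 * (k + 1) ∨ a = 2 * k + 1 + 1) with c | rfl
      · rw [F1 a c]; constructor <;> linarith
      · constructor <;> linarith only [e2, this]
    · have := d1 (by omega)
      have := d2 (by omega)
      have := d3 h2
      rcases (by omega : a < 2 * (k + 1) ∨ a = 2 * k + 1 + 1 ∨ a = 2 * k + 1 + 1 + 1) with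
        c | rfl | rfl
      · rw [F1 a c]; constructor <;> linarith
      all_goals constructor <;> linarith
    · have := d1 (by omega)
      have := d2 (by omega)
      have := d3 (by omega)
      have := d4 h2
      rcases (by omega : a < 2 * (k + 1) ∨ a = 2 * k + 1 + 1 ∨ a = 2 * k + 1 + 1 + 1 ∨
        a = 2 * k + 1 + 1 + 1 + 1) with c | rfl | rfl | rfl
      · rw [F1 a c]; constructor <;> linarith
      all_goals constructor <;> linarith
  obtain ⟨V, hV⟩ : ∃ V : ℕ → ℂ, ∀ p, V p =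
      if p < 2 * K then Y p else Y (2 * K - 1) * I ^ (p + 1 - 2 * K) := ⟨_, fun _ => rfl⟩
  have hV1 : ∀ p, ‖V p‖ = 1 ∧ V p ^ 12 = 1 := fun p => by
    rw [hV]
    split_ifs
    · exact hY1 p
    · constructor
      · simp only [Complex.norm_mul, (hY1 _).1, norm_pow, norm_I, one_pow, mul_one]
      · rw [mul_pow, (hY1 _).2, ← pow_mul, mul_comm _ 12, pow_mul, show 12 = 4 * 3 from rfl,
          pow_mul, I_pow_four]
        simp
  have hV2 : ∀ p, 2 * K ≤ p + 1 → V (p + 1) = V p * I := fun p hp => by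
    rw [hV, hV, if_neg (by omega)]
    split_ifs with c
    · rw [show p = 2 * K - 1 by omega, show 2 * K - 1 + 1 + 1 - 2 * K = 1 by omega, pow_one]
    · rw [show p + 1 + 1 - 2 * K = p + 1 - 2 * K + 1 by omega, pow_succ, mul_assoc]
  have hn : ∀ p, ‖V p * exp ((-F p : ℝ) * I)‖ = 1 := fun p => by
    rw [norm_mul, (hV1 p).1, norm_exp_ofReal_mul_I, one_mul]
  have lo : ∀ p, p < 2 * K → V p * exp ((-F p : ℝ) * I) = Y p := fun p hp => by
    rw [hV, if_pos hp, F1 p hp]; simp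
  refine ⟨fun p => V p * exp ((-F p : ℝ) * I), fun p _ => hn p, fun p hp => ?_, fun a b hab hb => ?_⟩
  · dsimp only
    rcases Nat.lt_or_ge (p + 1) (2 * K) with c | c
    · rw [lo p (by omega), lo _ c, hY2 p c]
    · have e : V (p + 1) * exp ((-F (p + 1) : ℝ) * I) =
          V p * exp ((-F p : ℝ) * I) * (I * exp ((-ε p : ℝ) * I)) ^ (1 : ℤ) := by
        rw [hV2 p c, hF, zpow_one, show ((-(F p + ε p) : ℝ) : ℂ) * I =
          (-F p : ℝ) * I + (-ε p : ℝ) * I by push_cast; ring, exp_add]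
        ring
      rw [e, re_step (hn p) (by rw [norm_mul, norm_I, norm_exp_ofReal_mul_I, one_mul]) (Or.inl rfl),
        I_mul_re, exp_ofReal_mul_I_im, Real.sin_neg, neg_neg, (hε1 p c hp).2.2]
  dsimp only
  rcases Nat.lt_or_ge b (2 * K) with c | c
  · rw [lo a (by omega), lo b c]
    by_cases d : a % 2 = 0 ∨ b % 2 = 0
    · exact ⟨fun _ => hU a b 1 hab c d (Or.inl rfl), fun _ => hU a b (-1) hab c d (Or.inr rfl)⟩
    obtain ⟨a, rfl⟩ : ∃ j, a = 2 * j + 1 := ⟨a / 2, by omega⟩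
    obtain ⟨b, rfl⟩ : ∃ j, b = 2 * j + 1 := ⟨b / 2, by omega⟩
    have h4 := fun x => h a b (by omega) (by omega) (hc a b (by omega) (by omega) x)
    rw [(hY a).2, (hY b).2]
    rcases Nat.even_or_odd a with p | p <;> rcases Nat.even_or_odd b with q | q <;>
      rw [pow_add, p.neg_one_pow, q.neg_one_pow] at h4 <;> rw [p.neg_one_pow, q.neg_one_pow] <;>
      refine ⟨fun e x => ?_, fun e x => ?_⟩
    · exact h4 (by simpa using x) (chi_inj (Or.inl rfl) (by linear_combination e)).2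
    · exact absurd (chi_inj (x := col a) (y := col b) (σ := -1) (Or.inr rfl)
        (by linear_combination e)).1 (by norm_num)
    · exact absurd (chi_inj (x := col a) (y := col b) (σ := -1) (Or.inr rfl)
        (by linear_combination -e)).1 (by norm_num)
    · exact h4 (by simpa using x) (chi_inj (Or.inl rfl) (by linear_combination -e)).2
    · exact absurd (chi_inj (x := col a) (y := col b) (σ := -1) (Or.inr rfl)
        (by linear_combination e)).1 (by norm_num)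
    · exact h4 (by simpa using x) (chi_inj (Or.inl rfl) (by linear_combination e)).2
    · exact h4 (by simpa using x) (chi_inj (Or.inl rfl) (by linear_combination -e)).2
    · exact absurd (chi_inj (x := col a) (y := col b) (σ := -1) (Or.inr rfl)
        (by linear_combination -e)).1 (by norm_num)
  · have key : (V b * exp ((-F b : ℝ) * I)) ^ 12 ≠ (V a * exp ((-F a : ℝ) * I)) ^ 12 := fun e => by
      obtain ⟨d1, d2⟩ := F2 a b (by omega) c hb
      rw [mul_pow, mul_pow, (hV1 a).2, (hV1 b).2, one_mul, one_mul, ← exp_nat_mul, ← exp_nat_mul,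
        eq_comm, exp_eq_exp_iff_exp_sub_eq_one, show ((12 : ℕ) : ℂ) * ((-F a : ℝ) * I) -
          (12 : ℕ) * ((-F b : ℝ) * I) = (12 * (F b - F a) : ℝ) * I by push_cast; ring] at e
      have e1 := congrArg Complex.re e
      rw [exp_ofReal_mul_I_re, one_re, Real.cos_eq_one_iff_of_lt_of_lt (by linarith only [hp, d1, d2])
        (by linarith only [hp, d2])] at e1
      linarith only [d1, e1]
    exact ⟨fun e _ => key (by rw [e]), fun e _ => key (by rw [e, Even.neg_pow (n := 12) (by decide)])⟩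

end Pool.Agent.MP_e5fd74_lc.H46

end
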