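import Pool.Agent.MP_e5fd74_lc.Mg.H46_Planes

attribute [-instance] Fintype.decidableForallFintype AddQuantale.instAddLeftMono
  Finset.decidableDforallFinset Multiset.decidableDforallMultiset
  Vector.instDecidableForallForallMemOfDecidablePred Option.decidableForallMem
  Array.instDecidableForallForallMemOfDecidablePred Int.decidableLTLE RKHS.instFunLike
  Int.decidableLELE Int.decidableLTLT NumberField.to_charZero Int.decidableLELT
  AddQuantale.instAddRightMono instCoeHTCTOfCoeHTC forall_prop_decidable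
  IdemSemiring.toCanonicallyOrderedAdd Quantale.instMulRightMono NeZero.of_gt' instCoeTOfCoeDep
  instCoeHTCTOfCoeTailOfCoeHTC CompletePartialOrder.toPartialOrder
  LinearOrderedCommMonoidWithZero.toPosMulStrictMono OmegaCompletePartialOrder.toPartialOrder

-- part MP_e5fd74_lc.H46.Chain
section

/-! The chain with rational radian angles attached to a two-page needle graph. -/

namespace Pool.Agent.MP_e5fd74_lc.H46

open Pool.Agent.MP_e5fd74_lc.H66 Real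

theorem cross_pos {κ w Δ h h' : ℝ} {P Q : ℝ → ℝ → Prop} (hκ : 0 < κ)
    (hP : ∃ x, w - 100 ≤ x ∧ x ≤ w ∧ ∀ s, 0 ≤ s → s ≤ h - 12 → P (x + κ * s) s)
    (hQ : ∃ x, 0 ≤ x ∧ x ≤ 100 ∧ ∀ s, 0 ≤ s → s ≤ h' - 12 → Q (x - κ * s) s) (h1 : w ≤ Δ)
    (h2 : Δ - w + 200 + 24 * κ ≤ 2 * (κ * h)) (h3 : Δ - w + 200 + 24 * κ ≤ 2 * (κ * h')) :
    ∃ X s, P X s ∧ Q (X - Δ) s := by
  obtain ⟨x, a1, a2, a3⟩ := hP
  obtain ⟨x', b1, b2, b3⟩ := hQ
  obtain ⟨s, hs⟩ : ∃ s, κ * s = (Δ + x' - x) / 2 := ⟨(Δ + x' - x) / 2 / κ, by field_simp⟩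
  have s0 : 0 ≤ s := nonneg_of_mul_nonneg_right (a := κ) (by linarith) hκ
  refine ⟨x + κ * s, s, a3 s s0 (le_of_mul_le_mul_left (by linarith only [h2, a1, b2, hs]) hκ), ?_⟩
  rw [show x + κ * s - Δ = x' - κ * s by linarith]
  exact b3 s s0 (le_of_mul_le_mul_left (by linarith only [h3, a1, b2, hs]) hκ)

/-- Two vertex pieces at distance `n` meet exactly when two needles on a common side reach. -/
theorem env_conf {A B : Pie} {κ w u H a b c d a' b' c' d' : ℝ} {K n ra rb rc rd : ℕ}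
    (hA : Env A κ w a b c d) (hB : Env B κ w a' b' c' d') (k1 : 0 < κ) (k2 : κ < 1 / 10)
    (u1 : 0 ≤ u) (w1 : 2 * H ≤ w) (w2 : w + u ≤ 2 * H + 200) (hH : 1000 * (K : ℝ) ≤ H)
    (n1 : 1 ≤ n) (n2 : n ≤ K) (r1 : 1 ≤ rc) (r2 : 1 ≤ rb)
    (ec : κ * c = (rc - 1 / 2) * H) (ed : κ * d = (rd - 1 / 2) * H)
    (r3 : 1 ≤ ra)
    (ea : κ * a' = (ra - 1 / 2) * H) (eb : κ * b' = (rb - 1 / 2) * H) :
    ((∃ X s, A.Pt X s ∧ B.Pt (X - n * (w + u)) (1 * s)) ↔
      (n ≤ rc ∧ n ≤ rb) ∨ (n ≤ rd ∧ n ≤ ra)) ∧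
    ((∃ X s, A.Pt X s ∧ B.Pt (X - n * (w + u)) (-1 * s)) ↔
      (n ≤ rc ∧ n ≤ ra) ∨ (n ≤ rd ∧ n ≤ rb)) := by
  have n1' : (1 : ℝ) ≤ n := by exact_mod_cast n1
  have n2' : (n : ℝ) ≤ K := by exact_mod_cast n2
  have H0 : 1000 ≤ H := by linarith only [hH, n1', n2']
  have p1 : w ≤ n * (w + u) := by nlinarith only [u1, w1, hH, n1']
  have p2 : ∀ {r : ℕ} {h : ℝ}, n ≤ r → κ * h = (r - 1 / 2) * H →
      n * (w + u) - w + 200 + 24 * κ ≤ 2 * (κ * h) := fun {r h} hr e => by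
    have hr' : (n : ℝ) ≤ r := by exact_mod_cast hr
    have := mul_le_mul_of_nonneg_left w2 (show (0 : ℝ) ≤ n by linarith only [k1, k2, n1'])
    have := mul_le_mul_of_nonneg_right hr' (show (0 : ℝ) ≤ H by linarith only [k1, k2, hH, n1', n2'])
    rw [e]; nlinarith
  have neg : ∀ X s t, 2 ≤ n → A.Pt X s → B.Pt (X - n * (w + u)) t → |t| = |s| →
      ((0 < s ∧ n ≤ rc) ∨ (s < 0 ∧ n ≤ rd)) ∧ ((0 < t ∧ n ≤ rb) ∨ (t < 0 ∧ n ≤ ra)) := by
    intro X s t h2 p q e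
    have h2' : (2 : ℝ) ≤ n := by exact_mod_cast h2
    have a1 := (hA.bd X s p).2
    have a2 := (hB.bd _ t q).1
    have a3 := hA.rt X s p
    have a4 := hB.lf _ t q
    rw [e] at a2 a4
    have q1 : (n - 1) * (2 * H) ≤ n * (w + u) - w := by nlinarith only [u1, w1, n1']
    have q0 : 2 * H ≤ (n - 1) * (2 * H) := by nlinarith only [hH, h2']
    have q2 : ∀ {r : ℕ} {h : ℝ}, κ * h = (r - 1 / 2) * H → |s| ≤ h + 20 → n ≤ r :=
      fun {r h} e1 e2 => by
        by_contra e3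
        have e4 : (r : ℝ) + 1 ≤ n := by exact_mod_cast not_le.1 e3
        have := mul_le_mul_of_nonneg_left e2 k1.le
        have := mul_le_mul_of_nonneg_right e4 (show (0 : ℝ) ≤ H by linarith only [k1, k2, hH, n2', h2'])
        nlinarith
    have s0 : s ≠ 0 := by
      rintro rfl
      rw [abs_zero, mul_zero] at a1 a2
      linarith only [k1, k2, hH, n2', h2', q1, q0, a1, a2]
    have t0 : t ≠ 0 := fun h => s0 (by rw [h, abs_zero] at e; exact abs_eq_zero.1 e.symm)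
    constructor
    · rcases a3 with a3 | a3 | a3
      · linarith only [k1, k2, hH, n2', h2', a2, q1, q0, a3]
      · exact Or.inl ⟨lt_of_le_of_ne a3.1 s0.symm, q2 ec (by rw [abs_of_nonneg a3.1]; exact a3.2)⟩
      · exact Or.inr ⟨lt_of_le_of_ne a3.1 s0, q2 ed (by rw [abs_of_nonpos a3.1]; exact a3.2)⟩
    · rcases a4 with a4 | a4 | a4
      · linarith only [k1, k2, hH, n2', h2', a1, q1, q0, a4]
      · exact Or.inl ⟨lt_of_le_of_ne a4.1 t0.symm,
          q2 eb (by rw [← e, abs_of_nonneg a4.1]; exact a4.2)⟩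
      · exact Or.inr ⟨lt_of_le_of_ne a4.1 t0, q2 ea (by rw [← e, abs_of_nonpos a4.1]; exact a4.2)⟩
  refine ⟨⟨?_, ?_⟩, ?_, ?_⟩
  · rintro ⟨X, s, p, q⟩
    rcases Nat.lt_or_ge n 2 with h2 | h2
    · left; omega
    obtain ⟨⟨a1, a2⟩ | ⟨a1, a2⟩, ⟨b1, b2⟩ | ⟨b1, b2⟩⟩ := neg X s _ h2 p q (by rw [one_mul])
    · exact Or.inl ⟨a2, b2⟩
    · linarith only [a1, b1]
    · linarith only [a1, b1]
    · exact Or.inr ⟨a2, b2⟩
  · rintro (⟨a1, a2⟩ | ⟨a1, a2⟩)
    · obtain ⟨X, s, p, q⟩ := cross_pos k1 hA.ur hB.ul p1 (p2 a1 ec) (p2 a2 eb)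
      exact ⟨X, s, p, by rwa [one_mul]⟩
    · obtain ⟨X, s, p, q⟩ := cross_pos (P := fun X s => A.Pt X (-s)) (Q := fun X s => B.Pt X (-s))
        k1 hA.lr hB.ll p1 (p2 a1 ed) (p2 a2 ea)
      exact ⟨X, -s, p, by rwa [one_mul]⟩
  · rintro ⟨X, s, p, q⟩
    rcases Nat.lt_or_ge n 2 with h2 | h2
    · left; omega
    obtain ⟨⟨a1, a2⟩ | ⟨a1, a2⟩, ⟨b1, b2⟩ | ⟨b1, b2⟩⟩ := neg X s _ h2 p q
      (by rw [neg_one_mul, abs_neg])
    · linarith only [a1, b1]
    · exact Or.inl ⟨a2, b2⟩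
    · exact Or.inr ⟨a2, b2⟩
    · linarith only [a1, b1]
  · rintro (⟨a1, a2⟩ | ⟨a1, a2⟩)
    · obtain ⟨X, s, p, q⟩ := cross_pos (Q := fun X s => B.Pt X (-s))
        k1 hA.ur hB.ll p1 (p2 a1 ec) (p2 a2 ea)
      exact ⟨X, s, p, by rwa [neg_one_mul]⟩
    · obtain ⟨X, s, p, q⟩ := cross_pos (P := fun X s => A.Pt X (-s))
        k1 hA.lr hB.ul p1 (p2 a1 ed) (p2 a2 eb)
      exact ⟨X, -s, p, by rwa [neg_one_mul, neg_neg]⟩

def Dq (K : ℕ) : ℚ := 100000 * K
def Tq (K : ℕ) : ℚ := 900000 * K * K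
def ps (K : ℕ) : ℚ := 3 / 2 + 1 / (20 * Tq K)
def tr (K r : ℕ) : ℚ := (r - 1 / 2) * Dq K
def cW (K : ℕ) : ℚ := K * (Tq K + Dq K + 1) - 3 * K
def bW (K : ℕ) : ℚ := K * Tq K - 1
def aW (K : ℕ) : ℚ := 5 * (cW K + bW K)
def nu (K : ℕ) : ℚ := (48 * K + aW K) / 25
def Mq (K : ℕ) : ℚ := 54 * K + 626 * nu K

def npc (K p : ℕ) : ℕ :=
  if p < 2 * K then (if p % 2 = 0 then 5 else 13 + 4 * (6 * K))
  else if p = 2 * K then 7 else if p = 2 * K + 1 then 5 else if p = 2 * K + 2 then 7 else 3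

def lq (e K a b c d p r : ℕ) : ℚ :=
  if p < 2 * K then (if p % 2 = 0 then lU r
    else lM (6 * K) (Dq K) (Tq K) (tr K a) (tr K b) (tr K c) (tr K d) r)
  else if p = 2 * K then lW (24 * K) 1 (8 * K) r
  else if p = 2 * K + 1 then lN (nu K + 2 * e * Mq K) r
  else if p = 2 * K + 2 then lW (aW K) (bW K) (cW K) r else lB (Mq K) r

def qq (K p r : ℕ) : ℚ :=
  if p < 2 * K then (if p % 2 = 0 then qU r
    else qM (ps K) (6 * K) (if p + 1 < 2 * K then 3 / 8 else ps K) r)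
  else if p = 2 * K then qW (ps K) (3 / 8) (3 / 4) r
  else if p = 2 * K + 1 then qN (ps K) r
  else if p = 2 * K + 2 then qW (ps K) (1 / 4) (3 / 2) r else 1 / 4

noncomputable def pc (e K : ℕ) (a b c d : ℕ → ℕ) (p : ℕ) : Pie :=
  if p < 2 * K then (if p % 2 = 0 then pU else pM (ps K) (6 * K) (Dq K) (Tq K) (tr K (a (p / 2)))
    (tr K (b (p / 2))) (tr K (c (p / 2))) (tr K (d (p / 2))))
  else if p = 2 * K then pW (ps K) (3 / 8) (3 / 4) (24 * K) 1 (8 * K)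
  else if p = 2 * K + 1 then pN (nu K + 2 * e * Mq K)
  else if p = 2 * K + 2 then pW (ps K) (1 / 4) (3 / 2) (aW K) (bW K) (cW K) else pB (Mq K)

noncomputable def gg (K p : ℕ) : ℝ :=
  if p + 1 < 2 * K then (if p % 2 = 0 then 1 / 2 else -1 / 2)
  else if p < 2 * K then gf (ps K) (3 / 8) else if p = 2 * K then gf (ps K) (1 / 4 + aN)
  else if p = 2 * K + 1 then gf (ps K) (1 / 4 - aN) else gf (ps K) (1 / 4 + aB)

noncomputable def ch (e K : ℕ) (a b c d : ℕ → ℕ) : Chn :=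
  ⟨2 * K + 3 + e, pc e K a b c d, gg K, fun p r => qq K p r⟩

/-- Admissible reaches. -/
def Rch (K : ℕ) (a b c d : ℕ → ℕ) : Prop :=
  ∀ j, (1 ≤ a j ∧ a j ≤ K) ∧ (1 ≤ b j ∧ b j ≤ K) ∧ (1 ≤ c j ∧ c j ≤ K) ∧ 1 ≤ d j ∧ d j ≤ K

section

variable {e K : ℕ} {a b c d : ℕ → ℕ}

theorem pc_n (p : ℕ) : (pc e K a b c d p).n = npc K p := by
  unfold pc npc; split_ifs <;> rfl

theorem pc_l (p r : ℕ) :
    (pc e K a b c d p).l r = lq e K (a (p / 2)) (b (p / 2)) (c (p / 2)) (d (p / 2)) p r := by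
  unfold pc lq; split_ifs <;> rfl

theorem pc_U {p : ℕ} (h : p < 2 * K) (h2 : p % 2 = 0) : pc e K a b c d p = pU := by
  rw [pc, if_pos h, if_pos h2]

theorem pc_M {j : ℕ} (h : j < K) : pc e K a b c d (2 * j + 1) = pM (ps K) (6 * K) (Dq K) (Tq K)
    (tr K (a j)) (tr K (b j)) (tr K (c j)) (tr K (d j)) := by
  rw [pc, if_pos (by omega), if_neg (by omega), show (2 * j + 1) / 2 = j by omega]

theorem pc_T : pc e K a b c d (2 * K) = pW (ps K) (3 / 8) (3 / 4) (24 * K) 1 (8 * K) ∧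
    pc e K a b c d (2 * K + 1) = pN (nu K + 2 * e * Mq K) ∧
    pc e K a b c d (2 * K + 1 + 1) = pW (ps K) (1 / 4) (3 / 2) (aW K) (bW K) (cW K) ∧
    pc e K a b c d (2 * K + 1 + 1 + 1) = pB (Mq K) := by
  refine ⟨?_, ?_, ?_, ?_⟩ <;> unfold pc <;>
    simp (disch := omega) only [if_pos, if_neg, if_true]

theorem cs6 (K p : ℕ) (h : p < 2 * K + 4) : (∃ j, j < K ∧ p = 2 * j) ∨ (∃ j, j < K ∧ p = 2 * j + 1) ∨
    p = 2 * K ∨ p = 2 * K + 1 ∨ p = 2 * K + 1 + 1 ∨ p = 2 * K + 1 + 1 + 1 := by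
  rcases Nat.lt_or_ge p (2 * K) with h1 | h1
  · obtain ⟨j, rfl | rfl⟩ := Nat.even_or_odd' p
    · exact Or.inl ⟨j, by omega, rfl⟩
    · exact Or.inr (Or.inl ⟨j, by omega, rfl⟩)
  · right; right; omega

theorem par_pos (hK : 1 ≤ K) : 100000 ≤ Dq K ∧ 900000 ≤ Tq K ∧ 3 / 2 < ps K ∧
    ps K ≤ 3 / 2 + 1 / 100 ∧ Tq K * (ps K - 3 / 2) = 1 / 20 ∧ 0 < cW K ∧ 0 < bW K ∧ 0 < nu K ∧
    0 < Mq K := by
  have h : (1 : ℚ) ≤ K := by exact_mod_cast hK
  have h1 : 100000 ≤ Dq K := by unfold Dq; linarith only [h]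
  have h2 : 900000 ≤ Tq K := by unfold Tq; nlinarith only [h]
  have h3 : 0 < 1 / (20 * Tq K) := by positivity
  have h4 : 1 / (20 * Tq K) ≤ 1 / 100 := one_div_le_one_div_of_le (by norm_num) (by linarith only [h2])
  have h5 : 0 < cW K := by unfold cW; nlinarith only [h, h1, h2]
  have h6 : 0 < bW K := by unfold bW; nlinarith only [h, h2]
  have h7 : 0 < nu K := by unfold nu aW; positivity
  refine ⟨h1, h2, by unfold ps; linarith only [h3], by unfold ps; linarith only [h4], ?_, h5, h6, h7,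
    by unfold Mq; positivity⟩
  rw [ps, add_sub_cancel_left]
  field_simp

theorem Rch.K1 (H : Rch K a b c d) : 1 ≤ K := (H 0).1.1.trans (H 0).1.2

theorem Rch.vp (H : Rch K a b c d) (j : ℕ) :
    VP (ps K) (6 * K) (Dq K) (Tq K) (tr K (a j)) (tr K (b j)) (tr K (c j)) (tr K (d j)) := by
  obtain ⟨h1, h2, h3, -, h5, -⟩ := par_pos H.K1
  have h : (1 : ℚ) ≤ K := by exact_mod_cast H.K1
  have key : ∀ r : ℕ, 1 ≤ r ∧ r ≤ K → Dq K / 2 ≤ tr K r ∧ tr K r ≤ K * Dq K - Dq K / 2 :=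
    fun r hr => by
      have e1 : (1 : ℚ) ≤ r := by exact_mod_cast hr.1
      have e2 : (r : ℚ) ≤ K := by exact_mod_cast hr.2
      unfold tr
      constructor <;> nlinarith only [h1, e1, e2]
  obtain ⟨a1, a2, a3, a4⟩ := H j
  have b1 := key _ a1
  have b2 := key _ a2
  have b3 := key _ a3
  have b4 := key _ a4
  have hT : Tq K = 9 * (K * Dq K) := by unfold Tq Dq; ring
  have hD : 0 ≤ K * Dq K := by positivity
  refine ⟨by have := H.K1; omega, by linarith only [h1], b1.1, b2.1, b3.1, b4.1, ?_, ?_, ?_, h3, h5.le⟩ <;>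
    push_cast <;> linarith only [b1.2, b2.2, b3.2, b4.2, h1, h2, hT]

theorem qq_bd (hK : 1 ≤ K) (p r : ℕ) (hr : r < npc K p) : 0 < qq K p r ∧ qq K p r < 31 / 10 := by
  obtain ⟨-, -, h3, h4, -⟩ := par_pos hK
  unfold npc at hr
  unfold qq
  split_ifs at hr ⊢
  · interval_cases r <;> norm_num [qU]
  · unfold qM; split_ifs <;> constructor <;> linarith only [h3, h4]
  · unfold qM; split_ifs <;> constructor <;> linarith only [h3, h4]
  · interval_cases r <;> simp only [qW, List.getD_cons_zero, List.getD_cons_succ] <;>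
      constructor <;> linarith only [h3, h4]
  · interval_cases r <;> simp only [qN, List.getD_cons_zero, List.getD_cons_succ] <;>
      constructor <;> linarith only [h3, h4]
  · interval_cases r <;> simp only [qW, List.getD_cons_zero, List.getD_cons_succ] <;>
      constructor <;> linarith only [h3, h4]
  · norm_num

theorem ps_trig (hK : 1 ≤ K) : (3 / 2 : ℝ) < ps K ∧ (ps K : ℝ) < π / 2 ∧ 0 < cos (ps K) ∧
    10 * cos (ps K) ≤ sin (ps K) := by
  obtain ⟨-, -, h3, h4, -⟩ := par_pos hK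
  rw [← Rat.cast_lt (K := ℝ)] at h3
  rw [← Rat.cast_le (K := ℝ)] at h4
  push_cast at h3 h4
  obtain ⟨-, -, -, -, -, -, -, -, -, t10, t11⟩ := trig0
  obtain ⟨u1, u2, u3, -, -, u6⟩ := trig1 h3 h4
  exact ⟨h3, u6, u1, by linarith only [t10, t11, u2, u3]⟩

theorem tail_ok (hK : 1 ≤ K) :
    ((pW (ps K) (3 / 8) (3 / 4) (24 * K) 1 (8 * K)).Ok ∧
      (pW (ps K) (3 / 8) (3 / 4) (24 * K) 1 (8 * K)).Fwd ∧
      (pW (ps K) (3 / 8) (3 / 4) (24 * K) 1 (8 * K)).w =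
        2 * (24 * K * cos (3 / 8) - 8 * K * cos (3 / 4) + cos (ps K))) ∧
    (pW (ps K) (1 / 4) (3 / 2) (aW K) (bW K) (cW K)).Ok ∧
      (pW (ps K) (1 / 4) (3 / 2) (aW K) (bW K) (cW K)).Fwd ∧
      (pW (ps K) (1 / 4) (3 / 2) (aW K) (bW K) (cW K)).w =
        2 * (aW K * cos (1 / 4) - cW K * cos (3 / 2) + bW K * cos (ps K)) := by
  obtain ⟨-, -, -, -, -, h5, h6, -⟩ := par_pos hK
  obtain ⟨p1, p2, -⟩ := ps_trig hK
  obtain ⟨t1, t2, t3, t4, t5, t6, -⟩ := trig0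
  have hp := pi_gt_three
  have h : (1 : ℝ) ≤ K := by exact_mod_cast hK
  have s1 := sin_le_one (ps K : ℝ)
  have s2 := sin_le_one (3 / 2 : ℝ)
  have d1 : sin (3 / 4 : ℝ) = 2 * sin (3 / 8) * cos (3 / 8) := by rw [← sin_two_mul]; norm_num
  have A := pW_ok (ψ := ps K) (φ := 3 / 8) (χ := 3 / 4) (a := 24 * K) (b := 1) (c := 8 * K)
    (by norm_num) (by norm_num) (by push_cast; linarith only [p1]) (by push_cast; linarith only [p1, p2]) p2 one_pos
    (by positivity) (by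
      push_cast
      have : sin (3 / 4 : ℝ) ≤ 2 * sin (3 / 8) := by nlinarith only [t1, t6, d1]
      nlinarith only [t1, h, s1, this])
  have B := pW_ok (ψ := ps K) (φ := 1 / 4) (χ := 3 / 2) (a := aW K) (b := bW K) (c := cW K)
    (by norm_num) (by norm_num) (by push_cast; linarith only [p1]) (by push_cast; linarith only [p1, p2]) p2 h6 h5 (by
      have h5' : (0 : ℝ) < cW K := by exact_mod_cast h5
      have h6' : (0 : ℝ) < bW K := by exact_mod_cast h6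
      unfold aW
      push_cast
      nlinarith only [t3, s1, s2, h5', h6'])
  push_cast at A B
  rw [one_mul] at A
  exact ⟨A, B⟩

theorem gg_tail (hK : 1 ≤ K) (p : ℕ) (h : 2 * K ≤ p + 1) : 0 < gg K p ∧ gg K p < 1 / 10 := by
  obtain ⟨-, -, p3, p4⟩ := ps_trig hK
  obtain ⟨a1, a2, -⟩ := aN_spec
  obtain ⟨b1, b2, -⟩ := aB_spec
  rw [gg, if_neg (by omega)]
  split_ifs <;> exact ⟨(gf_spec (by linarith only [a1, a2, b1]) (by linarith only [a1, a2, b2]) p3 p4).1,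
    (gf_spec (by linarith only [a1, a2, b1]) (by linarith only [a1, a2, b2]) p3 p4).2.1⟩

theorem Rch.ok (H : Rch K a b c d) (he : e ≤ 1) : (ch e K a b c d).Ok := by
  have hK := H.K1
  obtain ⟨-, -, -, -, -, -, -, h7, h8⟩ := par_pos hK
  obtain ⟨-, -, p3, p4⟩ := ps_trig hK
  obtain ⟨a1, a2, -⟩ := aN_spec
  obtain ⟨b1, b2, -⟩ := aB_spec
  obtain ⟨T0, T1, T2, T3⟩ := pc_T (e := e) (K := K) (a := a) (b := b) (c := c) (d := d)
  have hq : ∀ p r, r < npc K p → 0 < (qq K p r : ℝ) ∧ (qq K p r : ℝ) ≤ π := fun p r hr => by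
    obtain ⟨x, y⟩ := qq_bd hK p r hr
    rw [← Rat.cast_lt (K := ℝ)] at x y
    push_cast at x y
    exact ⟨x, by linarith only [pi_gt_d2, y]⟩
  have e1 : (1 : ℝ) ^ 2 = 1 := by norm_num
  have e2 : (-1 : ℝ) ^ 2 = 1 := by norm_num
  refine ⟨by simp only [ch]; omega, fun p hp => ?_, fun p r hp hr => ?_, fun p r hp hr => ?_,
    fun p hp => ?_⟩ <;> simp only [ch, Chn.nn, pc_n] at *
  · rcases cs6 K p (by omega) with ⟨j, h, rfl⟩ | ⟨j, h, rfl⟩ | rfl | rfl | rfl | rfl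
    · rw [pc_U (by omega) (by omega)]; exact pU_ok.1
    · rw [pc_M h]; exact (pM_ok (H.vp j)).1
    · rw [T0]; exact (tail_ok hK).1.1
    · rw [T1]; exact (pN_ok (by positivity)).1
    · rw [T2]; exact (tail_ok hK).2.1
    · rw [T3]; exact (pB_ok h8).1
  · refine ⟨(hq p r (by omega)).1, (hq p r (by omega)).2, ?_⟩
    unfold npc at hr
    unfold qq
    rcases cs6 K p (by omega) with ⟨j, h, rfl⟩ | ⟨j, h, rfl⟩ | rfl | rfl | rfl | rfl <;>
      simp (disch := omega) only [if_pos, if_neg, if_true] at hr ⊢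
    · rw [pc_U (by omega) (by omega)]; exact fp_joint e1 r (qU_ok r (by omega))
    · rw [pc_M h]; exact fp_joint e2 r (qM_ok _ _ _ r hr)
    · rw [T0]; exact fp_joint e1 r (qW_ok _ _ _ r (by omega))
    · rw [T1]; exact fp_joint e2 r (qN_ok _ r (by omega))
    · rw [T2]; exact fp_joint e1 r (qW_ok _ _ _ r (by omega))
    · rw [T3]
      refine fp_joint e2 r (Or.inr ?_)
      obtain rfl | rfl : r = 0 ∨ r = 1 := by omega
      all_goals norm_num [fB]
  · refine ⟨(hq p r (by omega)).1, (hq p r (by omega)).2, ?_⟩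
    obtain ⟨u1, u2, u3, u4, u5⟩ := pU_end
    have hl : ∀ x, qM (ps K) (6 * K) x (12 + 4 * (6 * K)) = x := fun x => by
      unfold qM; simp (disch := omega) only [if_neg, if_true]
    unfold npc at hr
    unfold qq gg
    rcases cs6 K p (by omega) with ⟨j, h, rfl⟩ | ⟨j, h, rfl⟩ | rfl | rfl | rfl | rfl <;>
      simp (disch := omega) only [if_pos, if_neg, if_true] at hr ⊢
    · obtain rfl : r = 4 := by omega
      rw [pc_U (by omega) (by omega), pc_M h, u3, u4, pM_low.1.1, pM_low.1.2,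
        show ((qU 4 : ℚ) : ℝ) = 3 / 8 by norm_num [qU]]
      linear_combination u5
    · obtain rfl : r = 12 + 4 * (6 * K) := by omega
      rw [hl, pc_M h, pM_low.2.2.2.1, pM_low.2.2.2.2]
      split_ifs with h1
      · rw [pc_U h1 (by omega), u1, u2]
        push_cast
        linear_combination u5
      · rw [show 2 * j + 1 + 1 = 2 * K by omega, T0, (pW_end ..).1, (pW_end ..).2.1]
        linear_combination (gf_spec (x := 3 / 8) (by norm_num) (by norm_num) p3 p4).2.2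
    · obtain rfl : r = 6 := by omega
      rw [T0, T1, (pW_end ..).2.2.1, (pW_end ..).2.2.2, (pN_end _).1, (pN_end _).2.1,
        show qW (ps K) (3 / 8) (3 / 4) 6 = ps K from rfl]
      linear_combination (gf_spec (x := 1 / 4 + aN) (by linarith only [a1]) (by linarith only [a2]) p3 p4).2.2
    · obtain rfl : r = 4 := by omega
      rw [T1, T2, (pW_end ..).1, (pW_end ..).2.1, (pN_end _).2.2.1, (pN_end _).2.2.2,
        show qN (ps K) 4 = ps K from rfl]
      linear_combination (gf_spec (x := 1 / 4 - aN) (by linarith only [a2]) (by linarith only [a1]) p3 p4).2.2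
    · obtain rfl : r = 6 := by omega
      rw [T2, T3, (pW_end ..).2.2.1, (pW_end ..).2.2.2, (pB_end _).1, (pB_end _).2,
        show qW (ps K) (1 / 4) (3 / 2) 6 = ps K from rfl]
      linear_combination (gf_spec (x := 1 / 4 + aB) (by linarith only [b1]) (by linarith only [b2]) p3 p4).2.2
    · omega
  · rcases Nat.lt_or_ge (p + 1) (2 * K) with h | h
    · rw [gg, if_pos h]; split_ifs <;> norm_num
    · have := gg_tail hK p h
      constructor <;> linarith only [this]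

/-- Width of a vertex piece. -/
noncomputable def wM (K : ℕ) : ℝ := 2 * (48 * cos (1 / 4) - 24 * cos (3 / 8)) +
  2 * (Dq K + 1) * cos (3 / 2) + 2 * Tq K * (cos (3 / 2) - cos (ps K))

theorem Rch.env (H : Rch K a b c d) {j : ℕ} (h : j < K) :
    Env ((ch e K a b c d).A (2 * j + 1)) (ct (3 / 2)) (wM K) (tr K (a j) * sin (3 / 2))
      (tr K (b j) * sin (3 / 2)) (tr K (c j) * sin (3 / 2)) (tr K (d j) * sin (3 / 2)) := by
  simp only [ch]
  rw [pc_M h]; exact (pM_ok (H.vp j)).2.2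

theorem Rch.o_lo (H : Rch K a b c d) (j : ℕ) (h : j ≤ K) :
    (ch e K a b c d).o (2 * j) = j * (wM K + pU.w) ∧
      (j < K → (ch e K a b c d).o (2 * j + 1) = j * (wM K + pU.w) + pU.w) := by
  have key : ∀ j, j < K → (ch e K a b c d).o (2 * j + 1) = (ch e K a b c d).o (2 * j) + pU.w :=
    fun j h => by rw [Chn.o_succ]; simp only [ch]; rw [pc_U (by omega) (by omega)]
  have : (ch e K a b c d).o (2 * j) = j * (wM K + pU.w) := by
    induction j with
    | zero => simp [Chn.o]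
    | succ j ih =>
      rw [show 2 * (j + 1) = 2 * j + 1 + 1 by ring, Chn.o_succ, key j h, ih (by omega),
        (H.env h).wd]
      push_cast; ring
  exact ⟨this, fun h => by rw [key j h, this]⟩

theorem Rch.o_end (H : Rch K a b c d) : (ch 0 K a b c d).o (ch 0 K a b c d).m = Mq K ∧
    (ch 1 K a b c d).o (ch 1 K a b c d).m = -(1248 * Mq K) := by
  have hK := H.K1
  obtain ⟨-, -, -, -, -, -, -, h7, h8⟩ := par_pos hK
  have key : ∀ e : ℕ, (ch e K a b c d).o (2 * K + 1 + 1 + 1) =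
      Mq K + 2 * e * Mq K * (626 - 50 * cos (1 / 4)) := fun e => by
    obtain ⟨T0, T1, T2, T3⟩ := pc_T (e := e) (K := K) (a := a) (b := b) (c := c) (d := d)
    rw [Chn.o_succ, Chn.o_succ, Chn.o_succ, (H.o_lo K le_rfl).1]
    simp only [ch]
    rw [T0, T1, T2, (tail_ok hK).1.2.2, (tail_ok hK).2.2.2, (pN_ok (by positivity)).2.2,
      pU_ok.2.2.1, wM]
    have m1 : (Mq K : ℝ) = 54 * K + 626 * nu K := by unfold Mq; push_cast; ring
    have m2 : (nu K : ℝ) = (48 * K + aW K) / 25 := by unfold nu; push_cast; ring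
    have m3 : (cW K : ℝ) = K * (Tq K + Dq K + 1) - 3 * K := by unfold cW; push_cast; ring
    have m4 : (bW K : ℝ) = K * Tq K - 1 := by unfold bW; push_cast; ring
    push_cast
    linear_combination -m1 - 50 * cos (1 / 4) * m2 - 2 * cos (3 / 2) * m3 + 2 * cos (ps K) * m4
  constructor
  · change (ch 0 K a b c d).o (2 * K + 1 + 1 + 1) = _
    rw [key]; simp
  · change (ch 1 K a b c d).o (2 * K + 1 + 1 + 1 + 1) = _
    rw [Chn.o_succ, key]
    simp only [ch]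
    rw [pc_T.2.2.2, (pB_ok h8).2.2]
    push_cast; ring

theorem Rch.fwd (H : Rch K a b c d) (p r : ℕ) (hp : p < 2 * K + 4) (hr : r + 1 < npc K p)
    (h : p < 2 * K + 3 ∨ r + 2 < npc K p) : 0 < (pc e K a b c d p).step r := by
  have hK := H.K1
  obtain ⟨-, -, -, -, -, -, -, h7, h8⟩ := par_pos hK
  obtain ⟨T0, T1, T2, T3⟩ := pc_T (e := e) (K := K) (a := a) (b := b) (c := c) (d := d)
  rw [← pc_n (e := e) (a := a) (b := b) (c := c) (d := d)] at hr h
  rcases cs6 K p hp with ⟨j, hj, rfl⟩ | ⟨j, hj, rfl⟩ | rfl | rfl | rfl | rfl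
  · rw [pc_U (by omega) (by omega)] at hr ⊢; exact pU_ok.2.1 r hr
  · rw [pc_M hj] at hr ⊢; exact (pM_ok (H.vp j)).2.1 r hr
  · rw [T0] at hr ⊢; exact (tail_ok hK).1.2.1 r hr
  · rw [T1] at hr ⊢; exact (pN_ok (by positivity)).2.1 r hr
  · rw [T2] at hr ⊢; exact (tail_ok hK).2.2.1 r hr
  · rw [T3] at h ⊢
    obtain rfl : r = 0 := by
      change _ ∨ r + 2 < 3 at h
      omega
    exact (pB_ok h8).2.1

theorem num (hK : 1 ≤ K) : 0 < ct (3 / 2) ∧ ct (3 / 2) < 1 / 10 ∧ 0 ≤ pU.w ∧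
    2 * (Dq K * cos (3 / 2)) ≤ wM K ∧ wM K + pU.w ≤ 2 * (Dq K * cos (3 / 2)) + 200 ∧
    1000 * (K : ℝ) ≤ Dq K * cos (3 / 2) ∧
    ∀ r : ℕ, ct (3 / 2) * (tr K r * sin (3 / 2)) = (r - 1 / 2) * (Dq K * cos (3 / 2)) := by
  obtain ⟨-, h2, h3, h4, h5, -⟩ := par_pos hK
  rw [← Rat.cast_lt (K := ℝ)] at h3
  rw [← Rat.cast_le (K := ℝ)] at h2 h4
  rw [← Rat.cast_inj (α := ℝ)] at h5
  push_cast at h2 h3 h4 h5
  obtain ⟨-, -, -, -, t5, t6, t7, t8, t9, t10, t11⟩ := trig0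
  obtain ⟨u1, u2, -, u4, -⟩ := trig1 h3 h4
  have hp := pi_gt_three
  have c1 : 0 < cos (3 / 4 : ℝ) := cos_pos_of_mem_Ioo ⟨by linarith only [hp], by linarith only [hp]⟩
  have c2 := cos_le_one (3 / 4 : ℝ)
  have v1 := mul_le_mul_of_nonneg_left u4 (show (0 : ℝ) ≤ Tq K by linarith only [h2])
  have v2 := mul_pos (show (0 : ℝ) < Tq K by linarith only [h2]) (sub_pos.2 u2)
  have h : (1 : ℝ) ≤ K := by exact_mod_cast hK
  refine ⟨ct_pos (by norm_num) (by linarith only [hp]), ?_, ?_, ?_, ?_, ?_, fun r => ?_⟩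
  · rw [ct, div_lt_iff₀ (by linarith only [t11])]; linarith only [t10, t11]
  · rw [pU_ok.2.2.1]; linarith only [t10, c1]
  · unfold wM; linarith only [t6, t7, t9, v2]
  · rw [pU_ok.2.2.1]; unfold wM; linarith
  · unfold Dq; push_cast; nlinarith only [t9]
  · have : sin (3 / 2 : ℝ) ≠ 0 := by linarith only [t11]
    unfold ct tr; push_cast; field_simp

theorem Rch.conf (H : Rch K a b c d) {i j : ℕ} (hij : i < j) (hj : j < K) :
    ((ch e K a b c d).Conf (2 * i + 1) (2 * j + 1) 1 ↔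
      (j - i ≤ c i ∧ j - i ≤ b j) ∨ (j - i ≤ d i ∧ j - i ≤ a j)) ∧
    ((ch e K a b c d).Conf (2 * i + 1) (2 * j + 1) (-1) ↔
      (j - i ≤ c i ∧ j - i ≤ a j) ∨ (j - i ≤ d i ∧ j - i ≤ b j)) := by
  obtain ⟨n1, n2, n3, n4, n5, n6, n7⟩ := num H.K1
  have key := env_conf (n := j - i) (H.env (e := e) (hij.trans hj)) (H.env (e := e) hj) n1 n2 n3 n4
    n5 n6 (by omega) (by omega) (H i).2.2.1.1 (H j).2.1.1 (n7 _) (n7 _) (H j).1.1 (n7 _) (n7 _)
  have sh : ∀ σ, (ch e K a b c d).Conf (2 * i + 1) (2 * j + 1) σ ↔ ∃ X s,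
      ((ch e K a b c d).A (2 * i + 1)).Pt X s ∧ ((ch e K a b c d).A (2 * j + 1)).Pt
        (X - (j - i : ℕ) * (wM K + pU.w)) (σ * s) := fun σ => by
    unfold Chn.Conf
    rw [(H.o_lo i (by omega)).2 (by omega), (H.o_lo j hj.le).2 hj, Nat.cast_sub hij.le]
    constructor
    · rintro ⟨X, s, p, q⟩
      exact ⟨_, s, p, by convert q using 1; ring⟩
    · rintro ⟨X, s, p, q⟩
      exact ⟨X + (i * (wM K + pU.w) + pU.w), s, by convert p using 1; ring,
        by convert q using 1; ring⟩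
  rw [sh, sh]
  exact key

theorem Rch.noconf (H : Rch K a b c d) (i j : ℕ) (σ : ℝ) (hij : i + 1 < j) (hj : j < 2 * K)
    (h : i % 2 = 0 ∨ j % 2 = 0) (hσ : σ = 1 ∨ σ = -1) : ¬ (ch e K a b c d).Conf i j σ := by
  obtain ⟨n1, n2, n3, n4, -, n6, -⟩ := num H.K1
  have hK : (1 : ℝ) ≤ K := by exact_mod_cast H.K1
  rintro ⟨X, s, p, q⟩
  have hs : |σ * s| = |s| := by rcases hσ with rfl | rfl <;> simp
  have hU : ∀ k X s, k < K → ((ch e K a b c d).A (2 * k)).Pt X s → |X| ≤ 84 ∧ |s| ≤ 84 :=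
    fun k X s hk x => by
      simp only [ch] at x
      rw [pc_U (by omega) (by omega)] at x
      exact pU_ok.2.2.2 ▸ pU_ok.1.toBase.crude x
  have gap : ∀ k l n : ℕ, k + n ≤ l → k * (wM K + pU.w) + n * (wM K + pU.w) ≤ l * (wM K + pU.w) :=
    fun k l n hkl => by
      rw [← add_mul]
      exact mul_le_mul_of_nonneg_right (by exact_mod_cast hkl) (by linarith only [n3, n4, n6])
  have bd : ∀ t : ℝ, t ≤ 84 → ct (3 / 2) * t ≤ 10 := fun t ht => by nlinarith only [n1, n2, ht]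
  obtain ⟨k, rfl | rfl⟩ := Nat.even_or_odd' i <;> obtain ⟨l, rfl | rfl⟩ := Nat.even_or_odd' j
  · have p1 := abs_le.1 (hU k _ _ (by omega) p).1
    have q1 := abs_le.1 (hU l _ _ (by omega) q).1
    rw [(H.o_lo k (by omega)).1] at p1
    rw [(H.o_lo l (by omega)).1] at q1
    have := gap k l 1 (by omega)
    push_cast at this
    linarith only [p1.2, q1.1, n1, n2, n3, n4, n6, hK, this]
  · have p1 := hU k _ _ (by omega) p
    have q1 := ((H.env (by omega)).bd _ _ q).1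
    rw [(H.o_lo k (by omega)).1] at p1
    rw [(H.o_lo l (by omega)).2 (by omega), hs] at q1
    have := gap k l 1 (by omega)
    push_cast at this
    linarith only [(abs_le.1 p1.1).2, bd _ p1.2, n1, n2, n3, n4, n6, hK, q1, this]
  · have p1 := ((H.env (by omega)).bd _ _ p).2
    have q1 := hU l _ _ (by omega) q
    rw [(H.o_lo k (by omega)).2 (by omega)] at p1
    rw [(H.o_lo l (by omega)).1, hs] at q1
    have := gap k l 2 (by omega)
    push_cast at this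
    linarith only [(abs_le.1 q1.1).1, bd _ q1.2, n1, n2, n3, n4, n6, hK, p1, this]
  · omega

end

theorem sol_iff_pl {e K : ℕ} (he : e ≤ 1) {R L : ℕ → ℕ → ℕ}
    (h : ∀ b j, (1 ≤ R b j ∧ R b j ≤ K) ∧ 1 ≤ L b j ∧ L b j ≤ K) :
    Sol2 K (R 0) (L 0) (R 1) (L 1) ↔ ∃ Z, (ch e K (fun j => L ((j + 1) % 2) j)
      (fun j => L (j % 2) j) (fun j => R (j % 2) j) (fun j => R ((j + 1) % 2) j)).Pl Z := by
  have H : Rch K (fun j => L ((j + 1) % 2) j) (fun j => L (j % 2) j) (fun j => R (j % 2) j)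
      (fun j => R ((j + 1) % 2) j) := fun j => ⟨(h _ j).2, (h _ j).2, (h _ j).1, (h _ j).1⟩
  have key : ∀ i j, i < j → j < K → ((ch e K (fun j => L ((j + 1) % 2) j)
      (fun j => L (j % 2) j) (fun j => R (j % 2) j) (fun j => R ((j + 1) % 2) j)).Conf (2 * i + 1)
      (2 * j + 1) ((-1) ^ (i + j)) ↔
      (j - i ≤ R 0 i ∧ j - i ≤ L 0 j) ∨ (j - i ≤ R 1 i ∧ j - i ≤ L 1 j)) := fun i j hij hj => by
    obtain ⟨c1, c2⟩ := H.conf (e := e) hij hj
    rcases Nat.mod_two_eq_zero_or_one i with p | p <;>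
      rcases Nat.mod_two_eq_zero_or_one j with q | q
    · rw [(Nat.even_iff.2 (by omega)).neg_one_pow, c1, p, q, show (i + 1) % 2 = 1 by omega,
        show (j + 1) % 2 = 1 by omega]
    · rw [(Nat.odd_iff.2 (by omega)).neg_one_pow, c2, p, q, show (i + 1) % 2 = 1 by omega,
        show (j + 1) % 2 = 0 by omega]
    · rw [(Nat.odd_iff.2 (by omega)).neg_one_pow, c2, p, q, show (i + 1) % 2 = 0 by omega,
        show (j + 1) % 2 = 1 by omega, or_comm]
    · rw [(Nat.even_iff.2 (by omega)).neg_one_pow, c1, p, q, show (i + 1) % 2 = 0 by omega,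
        show (j + 1) % 2 = 0 by omega, or_comm]
  constructor
  · rintro ⟨col, hc⟩
    exact pl_of_sol (K := K) H.K1 (by simp only [ch]; omega) (fun p hp => if_pos hp)
      (fun p hp _ => gg_tail H.K1 p hp)
      (fun a => Or.inl (by have := h 0 a; have := h 0 (a + 1); omega))
      (fun a b hab hb => (key a b hab hb).1) H.noconf hc
  · rintro ⟨Z, hZ⟩
    exact sol_of_pl (K := K) (by simp only [ch]; omega) (fun p hp => if_pos hp)
      (fun a b hab hb => (key a b hab hb).2) hZ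

end Pool.Agent.MP_e5fd74_lc.H46

end

-- part MP_e5fd74_lc.H46.Rad
section

/-! The rational instance with angles in radians attached to a formula. -/

namespace Pool.Agent.MP_e5fd74_lc.H46

open Pool.Agent.MP_e5fd74_lc.H66 Pool.Agent.Lib.Cx

def kR (φ : Fm) : ℕ := ((edges φ).length + 1) * (13 * nN φ + 2)
def rR (φ : Fm) (b j : ℕ) : ℕ := GR b (nN φ) (edges φ) j
def rL (φ : Fm) (b j : ℕ) : ℕ := GLf b (nN φ) (edges φ) j

def lqR (e : ℕ) (φ : Fm) (p r : ℕ) : ℚ :=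
  lq e (kR φ) (rL φ ((p / 2 + 1) % 2) (p / 2)) (rL φ (p / 2 % 2) (p / 2))
    (rR φ (p / 2 % 2) (p / 2)) (rR φ ((p / 2 + 1) % 2) (p / 2)) p r

def flat (e K : ℕ) (f : ℕ → ℕ → ℚ) : List ℚ :=
  (List.range (2 * K + 3 + e)).flatMap (fun p => (List.range (npc K p)).map (f p))

def instR (e : ℕ) (φ : Fm) : Inst :=
  (flat e (kR φ) (lqR e φ), (flat e (kR φ) (qq (kR φ))).dropLast, (1 + 1247 * e) * Mq (kR φ))

theorem edges_pos (φ : Fm) : 0 < (edges φ).length := by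
  unfold edges
  simp only [List.length_append, List.length_cons]
  positivity

theorem reach_bd (φ : Fm) (b j : ℕ) :
    (1 ≤ rR φ b j ∧ rR φ b j ≤ kR φ) ∧ 1 ≤ rL φ b j ∧ rL φ b j ≤ kR φ := by
  obtain ⟨a1, a2, a3, a4⟩ := G_bd b (nN φ) (edges φ) j (by unfold nN; omega)
  have : 2 * (13 * nN φ + 2) ≤ kR φ := Nat.mul_le_mul_right _ (by have := edges_pos φ; omega)
  exact ⟨⟨a1, a2.trans this⟩, a3, a4.trans this⟩

section poly

variable {α : Type} [Enc α] {φ : α → Fm} {K p r a b c d : α → ℕ}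

@[fun_prop] theorem pt_kR (h : PT φ) : PT (fun x => kR (φ x)) := by unfold kR; fun_prop

@[fun_prop] theorem pb_kR (h : PT φ) : PB (fun x => kR (φ x)) := by unfold kR; fun_prop

@[fun_prop] theorem pt_gRT (ha : PT a) (hb : PT b) (hc : PT c) (hd : PT d) :
    PT (fun x => gRT (a x) (b x) (c x) (d x)) := by unfold gRT; fun_prop

@[fun_prop] theorem pt_gLT (ha : PT a) (hb : PT b) (hc : PT c) (hd : PT d) :
    PT (fun x => gLT (a x) (b x) (c x) (d x)) := by unfold gLT; fun_prop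

@[fun_prop] theorem pt_gRB (ha : PT a) (hb : PT b) (hc : PT c) :
    PT (fun x => gRB (a x) (b x) (c x)) := by unfold gRB; fun_prop

@[fun_prop] theorem pt_gLB (ha : PT a) (hb : PT b) (hc : PT c) :
    PT (fun x => gLB (a x) (b x) (c x)) := by unfold gLB; fun_prop

@[fun_prop] theorem pt_rR (h : PT φ) (hb : PT b) (hp : PT p) :
    PT (fun x => rR (φ x) (b x) (p x)) := by unfold rR GR cv; fun_prop

@[fun_prop] theorem pt_rL (h : PT φ) (hb : PT b) (hp : PT p) :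
    PT (fun x => rL (φ x) (b x) (p x)) := by unfold rL GLf cu; fun_prop

@[fun_prop] theorem pb_rR (h : PT φ) : PB (fun x => rR (φ x) (b x) (p x)) :=
  (pb_kR h).mono fun _ => (reach_bd _ _ _).1.2

@[fun_prop] theorem pb_rL (h : PT φ) : PB (fun x => rL (φ x) (b x) (p x)) :=
  (pb_kR h).mono fun _ => (reach_bd _ _ _).2.2

@[fun_prop] theorem pt_npc (h : PT K) (hp : PT p) : PT (fun x => npc (K x) (p x)) := by
  unfold npc; fun_prop

@[fun_prop] theorem pb_npc (h : PB K) : PB (fun x => npc (K x) (p x)) := by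
  unfold npc; fun_prop

@[fun_prop] theorem pt_Dq (h : PT K) : PT (fun x => Dq (K x)) := by unfold Dq; fun_prop
@[fun_prop] theorem qb_Dq (h : PB K) : QB (fun x => Dq (K x)) := by unfold Dq; fun_prop
@[fun_prop] theorem pt_Tq (h : PT K) : PT (fun x => Tq (K x)) := by unfold Tq; fun_prop
@[fun_prop] theorem qb_Tq (h : PB K) : QB (fun x => Tq (K x)) := by unfold Tq; fun_prop
@[fun_prop] theorem pt_ps (h : PT K) : PT (fun x => ps (K x)) := by unfold ps; fun_prop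
@[fun_prop] theorem qb_ps (h : PB K) : QB (fun x => ps (K x)) := by unfold ps; fun_prop
@[fun_prop] theorem pt_cW (h : PT K) : PT (fun x => cW (K x)) := by unfold cW; fun_prop
@[fun_prop] theorem qb_cW (h : PB K) : QB (fun x => cW (K x)) := by unfold cW; fun_prop
@[fun_prop] theorem pt_bW (h : PT K) : PT (fun x => bW (K x)) := by unfold bW; fun_prop
@[fun_prop] theorem qb_bW (h : PB K) : QB (fun x => bW (K x)) := by unfold bW; fun_prop
@[fun_prop] theorem pt_aW (h : PT K) : PT (fun x => aW (K x)) := by unfold aW; fun_prop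
@[fun_prop] theorem qb_aW (h : PB K) : QB (fun x => aW (K x)) := by unfold aW; fun_prop
@[fun_prop] theorem pt_nu (h : PT K) : PT (fun x => nu (K x)) := by unfold nu; fun_prop
@[fun_prop] theorem qb_nu (h : PB K) : QB (fun x => nu (K x)) := by unfold nu; fun_prop
@[fun_prop] theorem pt_Mq (h : PT K) : PT (fun x => Mq (K x)) := by unfold Mq; fun_prop
@[fun_prop] theorem qb_Mq (h : PB K) : QB (fun x => Mq (K x)) := by unfold Mq; fun_prop

@[fun_prop] theorem pt_tr (h : PT K) (hr : PT r) : PT (fun x => tr (K x) (r x)) := by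
  unfold tr; fun_prop

@[fun_prop] theorem qb_tr (h : PB K) (hr : PB r) : QB (fun x => tr (K x) (r x)) := by
  unfold tr; fun_prop

@[fun_prop] theorem pt_lM {D T u v w t : α → ℚ} (h : PT K) (h1 : PT D) (h2 : PT T) (h3 : PT u)
    (h4 : PT v) (h5 : PT w) (h6 : PT t) (hr : PT r) :
    PT (fun x => lM (K x) (D x) (T x) (u x) (v x) (w x) (t x) (r x)) := by unfold lM; fun_prop

@[fun_prop] theorem qb_lM {D T u v w t : α → ℚ} (h : PB K) (h1 : QB D) (h2 : QB T) (h3 : QB u)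
    (h4 : QB v) (h5 : QB w) (h6 : QB t) :
    QB (fun x => lM (K x) (D x) (T x) (u x) (v x) (w x) (t x) (r x)) := by unfold lM; fun_prop

@[fun_prop] theorem pt_qM {u v : α → ℚ} (h : PT K) (h3 : PT u) (h4 : PT v) (hr : PT r) :
    PT (fun x => qM (u x) (K x) (v x) (r x)) := by unfold qM; fun_prop

@[fun_prop] theorem qb_qM {u v : α → ℚ} (h3 : QB u) (h4 : QB v) :
    QB (fun x => qM (u x) (K x) (v x) (r x)) := by unfold qM; fun_prop

theorem pt_lq (e : ℕ) (h : PT K) (ha : PT a) (hb : PT b) (hc : PT c) (hd : PT d) (hp : PT p)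
    (hr : PT r) : PT (fun x => lq e (K x) (a x) (b x) (c x) (d x) (p x) (r x)) := by
  unfold lq lU lW lN lB; fun_prop

theorem qb_lq (e : ℕ) (h : PB K) (ha : PB a) (hb : PB b) (hc : PB c) (hd : PB d) :
    QB (fun x => lq e (K x) (a x) (b x) (c x) (d x) (p x) (r x)) := by
  unfold lq lU lW lN lB; fun_prop

theorem pt_qq (h : PT K) (hp : PT p) (hr : PT r) : PT (fun x => qq (K x) (p x) (r x)) := by
  unfold qq qU qW qN; fun_prop

theorem qb_qq (h : PB K) : QB (fun x => qq (K x) (p x) (r x)) := by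
  unfold qq qU qW qN; fun_prop

theorem pt_flat (e : ℕ) {f : α → ℕ → ℕ → ℚ} (h : PT K) (h' : PB K)
    (hf : PT (fun z : (α × ℕ) × ℕ => f z.1.1 z.1.2 z.2)) : PT (fun x => flat e (K x) (f x)) := by
  have h1 : PT (fun z : α × ℕ => K z.1) := h.comp' (PT.fst PT.id')
  have h2 : PB (fun z : α × ℕ => K z.1) := h'.comp (PT.fst PT.id')
  exact PT.flatMap (PT.map (f := fun z : α × ℕ => f z.1 z.2) hf
    (PT.range (pt_npc h1 (PT.snd PT.id')) (pb_npc h2))) (PT.range (by fun_prop) (by fun_prop))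

theorem ql_flat (e : ℕ) {f : α → ℕ → ℕ → ℚ} (h' : PB K)
    (hf : QB (fun z : (α × ℕ) × ℕ => f z.1.1 z.1.2 z.2)) : QL (fun x => flat e (K x) (f x)) := by
  have h2 : PB (fun z : α × ℕ => K z.1) := h'.comp (PT.fst PT.id')
  obtain ⟨N, hN, h1⟩ := QL.range (n := fun z : α × ℕ => npc (K z.1) z.2) hf (pb_npc h2)
  obtain ⟨M, hM, h3⟩ := PB.uniform (M := fun x => 2 * K x + 3 + e) hN (by fun_prop)
  refine ⟨M, hM, fun x q hq => ?_⟩
  obtain ⟨i, hi, hq⟩ := List.mem_flatMap.1 hq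
  exact (h1 (x, i) q hq).trans (h3 x i ((size_nat_le_self i).trans (List.mem_range.1 hi).le))

end poly

theorem pt_instR (e : ℕ) : PT (instR e) := by
  have h0 : PT (fun z : (Fm × ℕ) × ℕ => z.1.1) := PT.fst (PT.fst PT.id')
  have h1 : PT (fun z : (Fm × ℕ) × ℕ => z.1.2) := PT.snd (PT.fst PT.id')
  have h2 : PT (fun z : (Fm × ℕ) × ℕ => z.2) := PT.snd PT.id'
  have h3 : PT (fun φ : Fm => kR φ) := pt_kR PT.id'
  have h4 : PB (fun φ : Fm => kR φ) := pb_kR PT.id'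
  unfold instR
  refine PT.prodMk (pt_flat e h3 h4 ?_) (PT.prodMk (PT.dropLast (pt_flat e h3 h4
    (pt_qq (pt_kR h0) h1 h2))) (by fun_prop))
  exact pt_lq e (pt_kR h0) (pt_rL h0 (by fun_prop) (by fun_prop))
    (pt_rL h0 (by fun_prop) (by fun_prop)) (pt_rR h0 (by fun_prop) (by fun_prop))
    (pt_rR h0 (by fun_prop) (by fun_prop)) h1 h2

theorem ql_instR (e : ℕ) :
    QL (fun φ => (instR e φ).2.2 :: ((instR e φ).1 ++ (instR e φ).2.1)) := by
  have h0 : PT (fun z : (Fm × ℕ) × ℕ => z.1.1) := PT.fst (PT.fst PT.id')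
  have h4 : PB (fun φ : Fm => kR φ) := pb_kR PT.id'
  obtain ⟨t, ht, h⟩ := ql_flat e (f := fun φ => qq (kR φ)) h4 (qb_qq (pb_kR h0))
  unfold instR
  exact QL.cons (by fun_prop) (QL.append (ql_flat e h4 (qb_lq e (pb_kR h0) (pb_rL h0) (pb_rL h0)
    (pb_rR h0) (pb_rR h0))) ⟨t, ht, fun x q hq => h x q (List.mem_of_mem_dropLast hq)⟩)

noncomputable def chR (e : ℕ) (φ : Fm) : Chn :=
  ch e (kR φ) (fun j => rL φ ((j + 1) % 2) j) (fun j => rL φ (j % 2) j) (fun j => rR φ (j % 2) j)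
    (fun j => rR φ ((j + 1) % 2) j)

theorem rch (φ : Fm) : Rch (kR φ) (fun j => rL φ ((j + 1) % 2) j) (fun j => rL φ (j % 2) j)
    (fun j => rR φ (j % 2) j) (fun j => rR φ ((j + 1) % 2) j) := fun j =>
  ⟨(reach_bd φ _ j).2, (reach_bd φ _ j).2, (reach_bd φ _ j).1, (reach_bd φ _ j).1⟩

theorem chR_nn (e : ℕ) (φ : Fm) : (chR e φ).nn = npc (kR φ) := funext fun p => pc_n p

theorem len_flat (e : ℕ) (φ : Fm) (f : ℕ → ℕ → ℚ) : (flat e (kR φ) f).length = (chR e φ).N := by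
  rw [flat, length_flat, Chn.N, chR_nn]; rfl

theorem get_flat {e : ℕ} (he : e ≤ 1) (φ : Fm) (f : ℕ → ℕ → ℚ) {i : ℕ} (hi : i < (chR e φ).N) :
    (flat e (kR φ) f).getD i 0 = f ((chR e φ).ix i).1 ((chR e φ).ix i).2 := by
  obtain ⟨p, r, hp, hr, e0, e1, -⟩ := Chn.Ok.cases (C := chR e φ) ((rch φ).ok he) hi
  rw [e1, e0]
  rw [chR_nn] at hr ⊢
  exact getD_flat _ f 0 hp hr

theorem spans_instR {e : ℕ} (he : e ≤ 1) (φ : Fm) (d : ℝ) :
    d ∈ Spans (fun q : ℚ => (q : ℝ)) (instR e φ) ↔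
      ∃ v, IsConfig (chR e φ).N (chR e φ).ll (chR e φ).th v ∧ d = dist (v 0) (v (chR e φ).N) := by
  simp only [Spans, instR, len_flat, Set.mem_ofPred_eq]
  refine exists_congr fun v => and_congr_left' (isConfig_congr (fun i hi => ?_) (fun i hi => ?_) v)
  · rw [get_flat he φ _ hi]; exact (pc_l _ _).symm
  · have h1 : i < (flat e (kR φ) (qq (kR φ))).dropLast.length := by
      rw [List.length_dropLast, len_flat]; omega
    have h2 := get_flat he φ (qq (kR φ)) (show i < _ by omega)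
    rw [List.getD_eq_getElem _ _ (by rw [len_flat]; omega)] at h2
    rw [List.getD_eq_getElem _ _ h1, List.getElem_dropLast, h2]
    rfl

theorem valid_instR {e : ℕ} (he : e ≤ 1) (φ : Fm) : Valid (fun q : ℚ => (q : ℝ)) (instR e φ) := by
  have H : (chR e φ).Ok := (rch φ).ok he
  refine ⟨?_, fun l hl => ?_, fun q hq => ?_⟩
  · have := H.N2
    simp only [instR, List.length_dropLast, len_flat]
    omega
  · obtain ⟨p, hp, hl⟩ := List.mem_flatMap.1 hl
    obtain ⟨r, hr, rfl⟩ := List.mem_map.1 hl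
    have := (H.hA p (List.mem_range.1 hp)).hl r (by
      change r < (chR e φ).nn p
      rw [chR_nn]; exact List.mem_range.1 hr)
    simp only [chR, ch, pc_l] at this
    exact_mod_cast this
  · obtain ⟨p, hp, hq⟩ := List.mem_flatMap.1 (List.mem_of_mem_dropLast hq)
    obtain ⟨r, hr, rfl⟩ := List.mem_map.1 hq
    obtain ⟨x, y⟩ := qq_bd (rch φ).K1 p r (List.mem_range.1 hr)
    rw [← Rat.cast_lt (K := ℝ)] at x y
    push_cast at x y
    exact ⟨x, by linarith only [Real.pi_gt_d2, y]⟩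

theorem instR_iff {φ : Fm} (h : ∀ v ∈ vars3 φ, v < 3 * φ.length) :
    (Sat3 φ ↔ ∃ d ∈ Spans (fun q : ℚ => (q : ℝ)) (instR 0 φ), ((instR 0 φ).2.2 : ℝ) ≤ d) ∧
    (Sat3 φ ↔ ∃ d ∈ Spans (fun q : ℚ => (q : ℝ)) (instR 1 φ), d ≤ ((instR 1 φ).2.2 : ℝ)) := by
  have H := rch φ
  have hS : ∀ e, e ≤ 1 → (Sat3 φ ↔ ∃ Z, (chR e φ).Pl Z) := fun e he =>
    ((col_iff h).trans ⟨sol2_of_col (edges_ok h) (edges_pos φ), col_of_sol2 (edges_ok h)⟩).trans
      (sol_iff_pl he (reach_bd φ))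
  have hM : (0 : ℝ) < Mq (kR φ) := by exact_mod_cast (par_pos H.K1).2.2.2.2.2.2.2.2
  have o0 : (chR 0 φ).o (chR 0 φ).m = Mq (kR φ) := H.o_end.1
  have o1 : (chR 1 φ).o (chR 1 φ).m = -(1248 * Mq (kR φ)) := H.o_end.2
  have G0 := Chn.Ok.main_max (C := chR 0 φ) (H.ok (by norm_num)) (fun p r hp hr => by
    rw [chR_nn] at hr
    change p < 2 * kR φ + 3 at hp
    exact H.fwd p r (by omega) hr (Or.inl hp)) (by rw [o0]; exact hM)
  have G1 := Chn.Ok.main_min (C := chR 1 φ) (H.ok le_rfl) (fun p r hp hr h => by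
    rw [chR_nn] at hr h
    change p + 1 < 2 * kR φ + 4 ∨ _ at h
    exact H.fwd p r hp hr (by omega)) (by rw [o1]; linarith)
  have m0 : ((instR 0 φ).2.2 : ℝ) = Mq (kR φ) := by simp [instR]
  have m1 : ((instR 1 φ).2.2 : ℝ) = 1248 * Mq (kR φ) := by norm_num [instR]
  rw [o0] at G0
  rw [o1, neg_neg] at G1
  simp only [spans_instR (e := 0) (by norm_num), spans_instR (e := 1) le_rfl, m0, m1]
  refine ⟨(hS 0 (by norm_num)).trans (G0.trans ⟨fun ⟨v, a, b⟩ => ⟨_, ⟨v, a, rfl⟩, b⟩, ?_⟩),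
    (hS 1 le_rfl).trans (G1.trans ⟨fun ⟨v, a, b⟩ => ⟨_, ⟨v, a, rfl⟩, b⟩, ?_⟩)⟩
  · rintro ⟨d, ⟨v, a, rfl⟩, b⟩; exact ⟨v, a, b⟩
  · rintro ⟨d, ⟨v, a, rfl⟩, b⟩; exact ⟨v, a, b⟩

theorem hard_rad {e : ℕ} (he : e ≤ 1) {Q : Inst → Prop}
    (hQ : ∀ φ : Fm, (∀ v ∈ vars3 φ, v < 3 * φ.length) → (Sat3 φ ↔ Q (instR e φ))) :
    ∀ L ∈ N68a2faeb.NP, ∃ (f : List Bool → Inst) (p : Polynomial ℕ), N68a2faeb.IsPolyTime f ∧
      ∀ x, Valid (fun q : ℚ => (q : ℝ)) (f x) ∧ Small (p.eval x.length) (f x) ∧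
        (L x = true ↔ Q (f x)) := by
  intro L hL
  obtain ⟨g, hg, hx⟩ := hardOn_sat3 L hL
  obtain ⟨t, ht, h⟩ := ql_instR e
  obtain ⟨p, hp⟩ := ht.comp hg
  refine ⟨fun x => instR e (g x), p.comp (3 * Polynomial.X),
    pt_iff_isPolyTime.1 ((pt_instR e).comp' hg), fun x => ⟨valid_instR he _, fun q hq => ?_,
      (hx x).2.trans (hQ _ (hx x).1)⟩⟩
  have h1 := h (g x) q hq
  have h2 := hp x
  rw [size_listBool] at h2
  simp only [Polynomial.eval_comp, Polynomial.eval_mul, Polynomial.eval_ofNat, Polynomial.eval_X]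
  unfold Ht at h1
  dsimp only at h2
  omega

end Pool.Agent.MP_e5fd74_lc.H46

end
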