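import Pool.Agent.MP_e5fd74_lc.Mg.H46_Pieces

attribute [-instance] Fintype.decidableForallFintype AddQuantale.instAddLeftMono
  NumberField.to_charZero AddQuantale.instAddRightMono Finset.decidableDforallFinset
  Multiset.decidableDforallMultiset Vector.instDecidableForallForallMemOfDecidablePred
  RKHS.instFunLike Quantale.instMulRightMono Array.instDecidableForallForallMemOfDecidablePred
  Int.decidableLTLE Option.decidableForallMem FiniteField.instGrindPowIdentity
  LinearOrderedCommMonoidWithZero.toPosMulStrictMono Int.decidableLELE Int.decidableLTLT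
  CompletePartialOrder.toPartialOrder Int.decidableLELT IsAffineAddMonoid.toIsAddTorsionFree
  IdemSemiring.toCanonicallyOrderedAdd forall_prop_decidable Subsingleton.to_isCancelMulZero
  TestFunctionClass.toDFunLike LinearOrderedCommMonoidWithZero.toIsBotZeroClass
  ContDiffMapSupportedInClass.toDFunLike littleWedderburn Invertible.toNeZero

-- part MP_e5fd74_lc.H46.Small
section

/-! Pieces given by rational frequencies, and the four small shapes. -/

namespace Pool.Agent.MP_e5fd74_lc.H46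

open Set Real

namespace Pie

variable {A : Pie}

theorem On.up {r : ℕ} {X s : ℝ} (h : A.On r X s) (hle : A.y r ≤ A.y (r + 1)) :
    A.y r ≤ s ∧ s ≤ A.y (r + 1) := by
  have := h.1; rwa [uIcc_of_le hle] at this

theorem On.dn {r : ℕ} {X s : ℝ} (h : A.On r X s) (hle : A.y (r + 1) ≤ A.y r) :
    A.y (r + 1) ≤ s ∧ s ≤ A.y r := by
  have := h.1; rwa [uIcc_of_ge hle] at this

theorem On.meet {r r' : ℕ} {X s : ℝ} (h : A.On r X s) (h' : A.On r' X s) :
    A.x r' - A.x r = (A.k r - A.k r') * s := by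
  have := h.2; have := h'.2; linarith

theorem Base.xs (H : A.Base) {r : ℕ} (hr : r < A.n) :
    A.x (r + 1) = A.x r + (A.k r - A.k (r + 1)) * A.y (r + 1) := x_succ (H.hS r hr)

/-- All steps go forward. -/
def Fwd (A : Pie) : Prop := ∀ r, r + 1 < A.n → 0 < A.step r

theorem shapeU (H : A.Base) (hn : A.n = 5) (k4 : A.k 4 = A.k 0) (k1 : A.k 1 < A.k 0)
    (k2 : A.k 2 < A.k 1) (k3 : A.k 2 < A.k 3) (k3' : A.k 3 < A.k 0) (y1 : A.y 2 < A.y 1)
    (y2 : 0 < A.y 2) (y4 : A.y 4 < 0) (y3 : A.y 3 < A.y 4) : A.Ok ∧ A.Fwd := by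
  have y0 := A.y_zero
  have y5 : A.y 5 = 0 := hn ▸ H.hy
  have x1 := H.xs (r := 0) (by omega)
  have x2 := H.xs (r := 1) (by omega)
  have x3 := H.xs (r := 2) (by omega)
  have x4 := H.xs (r := 3) (by omega)
  simp only [Nat.reduceAdd] at x1 x2 x3 x4
  have p0 := mul_pos (sub_pos.2 k1) (y2.trans y1)
  have p1 := mul_pos (sub_pos.2 k2) y2
  have p2 := mul_pos_of_neg_of_neg (sub_neg.2 k3) (y3.trans y4)
  have p3 := mul_pos_of_neg_of_neg (sub_neg.2 k3') y4
  have F : A.Fwd := fun r hr => by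
    have : r < 4 := by omega
    interval_cases r <;> simp only [step, Nat.reduceAdd, k4] <;> assumption
  refine ⟨⟨H, fun r hr => (F r hr).ne', fun r r' h1 h2 X s a b => ?_⟩, F⟩
  have m := a.meet b
  have h3 : r' < 5 := by omega
  have h4 : r < 3 := by omega
  interval_cases r <;> interval_cases r'
  · have := (b.dn (by linarith only [y2, y4, y3])).2
    linarith only [mul_pos (sub_pos.2 k1) (sub_pos.2 y1), mul_le_mul_of_nonneg_left this (sub_pos.2 (k2.trans k1)).le, x1, x2, m]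
  · linarith only [(a.up (by linarith only [y1, y2, y0])).1, (b.up (by linarith only [y3])).2, y4, y0]
  · rw [k4] at m x4; linarith only [x1, x2, x3, x4, p0, p1, p2, p3, m]
  · linarith only [(a.dn (by linarith only [y1])).1, (b.up (by linarith only [y3])).2, y2, y4]
  · linarith only [(a.dn (by linarith only [y1])).1, (b.up (by linarith only [y4, y5])).2, y2, y5]
  · have := (b.up (by linarith only [y4, y5])).1
    rw [k4] at m x4
    linarith only [mul_pos (sub_pos.2 k3) (sub_pos.2 y3), mul_le_mul_of_nonneg_left this (sub_pos.2 (k2.trans k1)).le, x3, x4, m]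

theorem shapeN (H : A.Base) (hn : A.n = 5) (k1 : A.k 0 < A.k 1) (k2 : A.k 2 < A.k 1)
    (k3 : A.k 3 < A.k 2) (k4 : A.k 3 < A.k 4) (k0 : A.k 4 < A.k 0) (y1 : A.y 1 < 0)
    (y2 : A.y 3 < A.y 2) (y3 : 0 < A.y 3) (y4 : A.y 4 < 0) : A.Ok ∧ A.Fwd := by
  have y0 := A.y_zero
  have y5 : A.y 5 = 0 := hn ▸ H.hy
  have x1 := H.xs (r := 0) (by omega)
  have x2 := H.xs (r := 1) (by omega)
  have x3 := H.xs (r := 2) (by omega)
  have x4 := H.xs (r := 3) (by omega)
  simp only [Nat.reduceAdd] at x1 x2 x3 x4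
  have p0 := mul_pos_of_neg_of_neg (sub_neg.2 k1) y1
  have p1 := mul_pos (sub_pos.2 k2) (y3.trans y2)
  have p2 := mul_pos (sub_pos.2 k3) y3
  have p3 := mul_pos_of_neg_of_neg (sub_neg.2 k4) y4
  have F : A.Fwd := fun r hr => by
    have : r < 4 := by omega
    interval_cases r <;> simp only [step, Nat.reduceAdd] <;> assumption
  refine ⟨⟨H, fun r hr => (F r hr).ne', fun r r' h1 h2 X s a b => ?_⟩, F⟩
  have m := a.meet b
  have h3 : r' < 5 := by omega
  have h4 : r < 3 := by omega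
  interval_cases r <;> interval_cases r'
  · linarith only [(a.dn (by linarith only [y1, y0])).2, (b.dn (by linarith only [y2])).1, y3, y0]
  · have := (a.dn (by linarith only [y1, y0])).2
    nlinarith only [mul_le_mul_of_nonneg_left this (sub_pos.2 (k4.trans k0)).le, k1, k2, k3, y2, y3, y0, x1, x2, x3, p0, m]
  · have := (a.dn (by linarith only [y1, y0])).2
    nlinarith only [mul_le_mul_of_nonneg_left this (sub_pos.2 k0).le, k1, k2, k3, k4, y2, y3, y0, x1, x2, x3, x4, p0, p2, p3, m]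
  · have := (b.dn (by linarith only [y3, y4])).2
    linarith only [mul_pos (sub_pos.2 k2) (sub_pos.2 y2), mul_le_mul_of_nonneg_left this (sub_pos.2 (k3.trans k2)).le, x2, x3, m]
  · have := (b.up (by linarith only [y4, y5])).2
    nlinarith only [mul_le_mul_of_nonneg_left this (sub_pos.2 (k0.trans k1)).le, k2, k3, k4, y2, y3, y5, x2, x3, x4, p3, m]
  · linarith only [(a.dn (by linarith only [y2])).1, (b.up (by linarith only [y4, y5])).2, y3, y5]

theorem shapeW (H : A.Base) (hn : A.n = 7) {p q t : ℝ} (hp : 0 < p) (hq : 0 < q) (hpt : p < t)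
    (hqt : q < t) (k0 : A.k 0 = -p) (k1 : A.k 1 = q) (k2 : A.k 2 = t) (k3 : A.k 3 = q)
    (k4 : A.k 4 = -t) (k5 : A.k 5 = -q) (k6 : A.k 6 = p) (y1 : A.y 1 < 0) (y2 : A.y 2 < A.y 1)
    (y3 : A.y 4 < A.y 3) (y4 : 0 < A.y 4) (y5 : A.y 5 < A.y 6) (y6 : A.y 6 = A.y 1) :
    A.Ok ∧ A.Fwd := by
  have y0 := A.y_zero
  have y7 : A.y 7 = 0 := hn ▸ H.hy
  have x1 := H.xs (r := 0) (by omega)
  have x2 := H.xs (r := 1) (by omega)
  have x3 := H.xs (r := 2) (by omega)
  have x4 := H.xs (r := 3) (by omega)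
  have x5 := H.xs (r := 4) (by omega)
  have x6 := H.xs (r := 5) (by omega)
  simp only [Nat.reduceAdd, k0, k1, k2, k3, k4, k5, k6, y6] at x1 x2 x3 x4 x5 x6 y5
  have e := sub_pos.2 hqt
  have ht := hq.trans hqt
  have p0 := mul_pos hp (neg_pos.2 y1)
  have p0' := mul_pos hq (neg_pos.2 y1)
  have p0'' := mul_pos e (neg_pos.2 y1)
  have p1 := mul_pos e (sub_pos.2 y2)
  have p2 := mul_pos e (sub_pos.2 y3)
  have p3 := mul_pos e y4
  have p3' := mul_pos hq y4
  have p4 := mul_pos e (sub_pos.2 y5)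
  have F : A.Fwd := fun r hr => by
    have : r < 6 := by omega
    interval_cases r <;> simp only [step, Nat.reduceAdd, k0, k1, k2, k3, k4, k5, k6, y6] <;>
      linarith only [p0, p0', p0'', p1, p2, p3, p3', p4]
  refine ⟨⟨H, fun r hr => (F r hr).ne', fun r r' h1 h2 X s a b => ?_⟩, F⟩
  have m := a.meet b
  have h3 : r' < 7 := by omega
  have h4 : r < 5 := by omega
  have key : ∀ u v : ℝ, u ≤ v → p * u ≤ p * v ∧ q * u ≤ q * v ∧ t * u ≤ t * v ∧
      (t - p) * u ≤ (t - p) * v := fun u v h =>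
    ⟨mul_le_mul_of_nonneg_left h hp.le, mul_le_mul_of_nonneg_left h hq.le,
      mul_le_mul_of_nonneg_left h ht.le, mul_le_mul_of_nonneg_left h (sub_pos.2 hpt).le⟩
  interval_cases r <;> interval_cases r' <;> simp only [k0, k1, k2, k3, k4, k5, k6] at m
  · have := key _ _ (a.dn (by linarith only [y1, y0])).1; linarith only [x1, x2, p1, m, this]
  · linarith only [(a.dn (by linarith only [y1, y0])).2, (b.dn (by linarith only [y3])).1, y4, y0]
  · have := key _ _ (a.dn (by linarith only [y1, y0])).2; rw [y0] at this; linarith only [x1, x2, x3, x4, p0, p0', p0'', p1, p2, p3, p3', m, this]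
  · have : s = A.y 1 := le_antisymm (y6 ▸ (b.up (by linarith only [y6, y5])).2) (a.dn (by linarith only [y1, y0])).1
    rw [this] at m; linarith only [x1, x2, x3, x4, x5, p0', p0'', p1, p2, p3, p3', p4, m]
  · have := key _ _ (a.dn (by linarith only [y1, y0])).1; linarith only [x1, x2, x3, x4, x5, x6, p0', p0'', p1, p2, p3, p3', p4, m, this]
  · linarith only [x2, x3, p0'', p1, p2, p3, m]
  · have := key _ _ (a.dn (by linarith only [y2])).2; linarith only [x2, x3, x4, p0', p0'', p1, p2, p3, p3', m, this]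
  · have := key _ _ (a.dn (by linarith only [y2])).2; linarith only [x2, x3, x4, x5, p0', p0'', p1, p2, p3, p3', p4, m, this]
  · have : s = A.y 1 := le_antisymm (a.dn (by linarith only [y2])).2 (y6 ▸ (b.up (by linarith only [y1, y6, y7])).1)
    rw [this] at m; linarith only [x2, x3, x4, x5, x6, p0', p0'', p1, p2, p3, p3', p4, m]
  · have := key _ _ (b.dn (by linarith only [y1, y4, y5])).2; linarith only [x3, x4, p2, m, this]
  · have := key _ _ (b.up (by linarith only [y6, y5])).2; rw [y6] at this; linarith only [x3, x4, x5, p0', p0'', p2, p3, p3', p4, m, this]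
  · have := key _ _ (b.up (by linarith only [y1, y6, y7])).2; rw [y7] at this; linarith only [x3, x4, x5, x6, p0, p0', p0'', p2, p3, p3', p4, m, this]
  · linarith only [(a.dn (by linarith only [y3])).1, (b.up (by linarith only [y6, y5])).2, y1, y4, y6]
  · linarith only [(a.dn (by linarith only [y3])).1, (b.up (by linarith only [y1, y6, y7])).2, y4, y7]
  · have := key _ _ (b.up (by linarith only [y1, y6, y7])).1; rw [y6] at this; linarith only [x5, x6, p4, m, this]

theorem shapeB (H : A.Base) (hn : A.n = 3) (k1 : A.k 0 < A.k 1) (k2 : A.k 1 < A.k 2)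
    (y1 : A.y 1 < 0) (y2 : 0 < A.y 2) (hw : A.w ≠ 0) : A.Ok ∧ 0 < A.step 0 := by
  have y0 := A.y_zero
  have y3 : A.y 3 = 0 := hn ▸ H.hy
  have p0 := mul_pos_of_neg_of_neg (sub_neg.2 k1) y1
  have p1 := mul_neg_of_neg_of_pos (sub_neg.2 k2) y2
  refine ⟨⟨H, fun r hr => ?_, fun r r' h1 h2 X s a b => ?_⟩, p0⟩
  · have : r < 2 := by omega
    interval_cases r
    · exact p0.ne'
    · exact p1.ne
  · have m := a.meet b
    obtain rfl : r = 0 := by omega
    obtain rfl : r' = 2 := by omega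
    have : s = 0 := le_antisymm (y0 ▸ (a.dn (by linarith only [y1, y0])).2) (y3 ▸ (b.dn (by linarith only [y2, y3])).1)
    have e := H.x_last
    rw [hn] at e
    rw [this, mul_zero, x_zero, sub_zero] at m
    exact hw (e ▸ m)

end Pie

/-- Cotangent. -/
noncomputable def ct (x : ℝ) : ℝ := cos x / sin x

theorem ct_neg (x : ℝ) : ct (-x) = -ct x := by simp [ct, div_neg]

theorem ct_lt {a b : ℝ} (ha : 0 < a) (hab : a < b) (hb : b < π) : ct b < ct a := by
  have h1 := sin_pos_of_pos_of_lt_pi ha (hab.trans hb)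
  have h2 := sin_pos_of_pos_of_lt_pi (ha.trans hab) hb
  have h3 := sin_pos_of_pos_of_lt_pi (sub_pos.2 hab) (by linarith)
  rw [sin_sub] at h3
  rw [ct, ct, div_lt_div_iff₀ h2 h1]
  linarith

theorem ct_pi_sub (x : ℝ) : ct (π - x) = -ct x := by simp [ct, neg_div]

theorem ct_pos {a : ℝ} (ha : 0 < a) (hb : a < π / 2) : 0 < ct a :=
  div_pos (cos_pos_of_mem_Ioo ⟨by linarith, hb⟩) (sin_pos_of_pos_of_lt_pi ha (by linarith only [ha, hb]))

/-- The piece with alternating links in the directions `φ r + α`. -/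
noncomputable def fp (n : ℕ) (ε α : ℝ) (φ l : ℕ → ℚ) : Pie :=
  ⟨n, fun r => l r, fun r => ε * (-1) ^ r * cos (φ r + α), fun r => ε * (-1) ^ r * sin (φ r + α)⟩

section

variable {n : ℕ} {ε α : ℝ} {φ l : ℕ → ℚ}

theorem sg_sq (hε : ε ^ 2 = 1) (r : ℕ) : (ε * (-1) ^ r) ^ 2 = 1 := by
  rw [mul_pow, hε, ← pow_mul, mul_comm r, pow_mul]; norm_num

theorem fp_k (hε : ε ^ 2 = 1) (r : ℕ) : (fp n ε α φ l).k r = ct (φ r + α) := by
  have : ε * (-1) ^ r ≠ 0 := fun h => by have := sg_sq hε r; rw [h] at this; norm_num at this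
  simp only [Pie.k, fp, ct]
  rw [mul_div_mul_left _ _ this]

theorem fp_base (hε : ε ^ 2 = 1) (hn : 2 ≤ n) (hl : ∀ r, r < n → 0 < l r)
    (hS : ∀ r, r < n → sin (φ r + α) ≠ 0) (hy : (fp n ε α φ l).y n = 0) : (fp n ε α φ l).Base := by
  refine ⟨hn, fun r hr => ?_, fun r _ => ?_, fun r hr => ?_, hy⟩
  · simp only [fp]; exact_mod_cast hl r hr
  · simp only [fp]
    rw [mul_pow _ (cos _), mul_pow _ (sin _), sg_sq hε]
    linarith only [sin_sq_add_cos_sq (φ r + α)]
  · have : ε * (-1) ^ r ≠ 0 := fun h => by have := sg_sq hε r; rw [h] at this; norm_num at this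
    exact mul_ne_zero this (hS r hr)

theorem fp_joint (hε : ε ^ 2 = 1) (r : ℕ) {q : ℚ} (hq : q = φ (r + 1) - φ r ∨ q = φ r - φ (r + 1)) :
    cos q = -((fp n ε α φ l).c r * (fp n ε α φ l).c (r + 1) +
      (fp n ε α φ l).S r * (fp n ε α φ l).S (r + 1)) := by
  have h1 : cos (q : ℝ) = cos ((φ r + α) - (φ (r + 1) + α)) := by
    rcases hq with rfl | rfl
    · rw [← cos_neg]; congr 1; push_cast; ring
    · congr 1; push_cast; ring
  rw [h1, cos_sub]
  simp only [fp, pow_succ]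
  linear_combination (-(cos (φ r + α) * cos (φ (r + 1) + α) +
    sin (φ r + α) * sin (φ (r + 1) + α))) * sg_sq hε r

end

/-- The direction of the axis in a piece whose net vector carries the square of `1 + r e^{iβ}`. -/
noncomputable def alp (r β : ℝ) : ℝ := arcsin ((1 - r ^ 2) * sin β / (1 + r ^ 2 + 2 * r * cos β))

theorem alp_spec {r β : ℝ} (h1 : -1 / 3 ≤ r) (h2 : r ≤ 1 / 3) (h3 : 0 < β) (h4 : β ≤ 3 / 4) :
    0 < alp r β ∧ alp r β < π / 2 ∧ 0 < 1 + r ^ 2 + 2 * r * cos β ∧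
    (1 + r ^ 2 + 2 * r * cos β) * cos (alp r β) = (1 + r ^ 2) * cos β + 2 * r ∧
    (1 + r ^ 2 + 2 * r * cos β) * sin (alp r β) = (1 - r ^ 2) * sin β := by
  have hc : 23 / 32 ≤ cos β := by nlinarith [one_sub_sq_div_two_le_cos (x := β)]
  have hc1 := cos_le_one β
  have hs : 0 < sin β := sin_pos_of_pos_of_lt_pi h3 (by linarith only [pi_gt_three, h3, h4])
  have hD : 0 < 1 + r ^ 2 + 2 * r * cos β := by nlinarith only [h1, hc, hc1]
  have hN : 0 < (1 + r ^ 2) * cos β + 2 * r := by nlinarith only [h1, hc]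
  have hr : 0 < 1 - r ^ 2 := by nlinarith only [h1, h2]
  have key : ((1 - r ^ 2) * sin β / (1 + r ^ 2 + 2 * r * cos β)) ^ 2 +
      (((1 + r ^ 2) * cos β + 2 * r) / (1 + r ^ 2 + 2 * r * cos β)) ^ 2 = 1 := by
    rw [div_pow, div_pow, ← add_div, div_eq_one_iff_eq (pow_ne_zero 2 hD.ne')]
    linear_combination (1 - r ^ 2) ^ 2 * sin_sq_add_cos_sq β
  have p1 : 0 < (1 - r ^ 2) * sin β / (1 + r ^ 2 + 2 * r * cos β) := by positivity
  have p2 : 0 < ((1 + r ^ 2) * cos β + 2 * r) / (1 + r ^ 2 + 2 * r * cos β) := by positivity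
  have p3 : (1 - r ^ 2) * sin β / (1 + r ^ 2 + 2 * r * cos β) < 1 := by nlinarith only [key, p2]
  refine ⟨arcsin_pos.2 p1, arcsin_lt_pi_div_two.2 p3, hD, ?_, ?_⟩
  · rw [alp, cos_arcsin, ← eq_sub_of_add_eq' key, sqrt_sq p2.le, mul_div_cancel₀ _ hD.ne']
  · rw [alp, sin_arcsin (by linarith only [p1]) p3.le, mul_div_cancel₀ _ hD.ne']

theorem sin_lo {x : ℝ} (h0 : 0 < x) : x - x ^ 3 / 6 < sin x := sin_gt_sub_cube h0

theorem lt_of_sin_lt {a b : ℝ} (ha : a ≤ π / 2) (hb : -(π / 2) ≤ b)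
    (h : sin a < sin b) : a < b := by
  by_contra h1
  exact absurd (sin_le_sin_of_le_of_le_pi_div_two hb ha (not_lt.1 h1)) (not_le.2 h)

/-! The connecting piece. -/

def fU (r : ℕ) : ℚ := [0, 3 / 2, -3 / 4, -3 / 2, 0].getD r 0
def lU (r : ℕ) : ℚ := [13, 1, 48, 9, 13].getD r 0
def qU (r : ℕ) : ℚ := [3 / 2, 9 / 4, 3 / 4, 3 / 2, 3 / 8].getD r 0
noncomputable def aU : ℝ := alp (1 / 3) (3 / 4)
noncomputable def pU : Pie := fp 5 1 aU fU lU

theorem aU_spec : 1 / 10 < sin aU ∧ 0 < aU ∧ aU < 3 / 4 ∧ 0 < 10 + 6 * cos (3 / 4) ∧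
    (10 + 6 * cos (3 / 4)) * cos aU = 10 * cos (3 / 4) + 6 ∧
    (10 + 6 * cos (3 / 4)) * sin aU = 8 * sin (3 / 4) := by
  obtain ⟨a, b, c, d, e⟩ := alp_spec (r := 1 / 3) (β := 3 / 4) (by norm_num) le_rfl (by norm_num)
    le_rfl
  have hp := pi_gt_three
  have hs := sin_lo (x := 3 / 4) (by norm_num)
  have hc := cos_le_one (3 / 4 : ℝ)
  have hc0 : 0 < cos (3 / 4 : ℝ) := cos_pos_of_mem_Ioo ⟨by linarith only [hp], by linarith only [hp]⟩
  have h1 := sin_pos_of_pos_of_lt_pi a (by linarith only [b, hp])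
  change 0 < sin aU at h1
  change _ * cos aU = _ at d
  change _ * sin aU = _ at e
  refine ⟨by nlinarith only [hs, hc, h1, e], a, lt_of_sin_lt b.le (by linarith only [hp]) ?_, by linarith only [hc0],
    by linarith only [d], by linarith only [e]⟩
  nlinarith only [hs, hc0, e]

theorem pU_ok : pU.Ok ∧ pU.Fwd ∧ pU.w = 54 + 16 * cos (3 / 4) - 6 * cos (3 / 2) ∧
    ∑ i ∈ Finset.range pU.n, pU.l i = 84 := by
  obtain ⟨a1, a2, a3, a4, a5, a6⟩ := aU_spec
  have hp := pi_gt_three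
  have hε : (1 : ℝ) ^ 2 = 1 := by norm_num
  have s1 : 0 < sin (3 / 2 + aU) := sin_pos_of_pos_of_lt_pi (by linarith only [a2]) (by linarith only [a3, hp])
  have s2 : 0 < sin (3 / 4 - aU) := sin_pos_of_pos_of_lt_pi (by linarith only [a3]) (by linarith only [a2, hp])
  have s3 : 0 < sin (3 / 2 - aU) := sin_pos_of_pos_of_lt_pi (by linarith only [a3]) (by linarith only [a2, hp])
  have e2 : sin (-3 / 4 + aU) = -sin (3 / 4 - aU) := by rw [← sin_neg]; congr 1; ring
  have e3 : sin (-3 / 2 + aU) = -sin (3 / 2 - aU) := by rw [← sin_neg]; congr 1; ring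
  have d1 : sin (3 / 2 : ℝ) = 2 * sin (3 / 4) * cos (3 / 4) := by
    rw [← sin_two_mul]; norm_num
  have d2 : cos (3 / 2 : ℝ) = 2 * cos (3 / 4) ^ 2 - 1 := by rw [← cos_two_mul]; norm_num
  have hsc := sin_sq_add_cos_sq (3 / 4 : ℝ)
  have hy : 26 * sin aU - sin (3 / 2 + aU) - 48 * sin (3 / 4 - aU) + 9 * sin (3 / 2 - aU) = 0 := by
    rw [sin_add, sin_sub, sin_sub, d1, d2]
    apply mul_left_cancel₀ a4.ne'
    grind
  have Y : pU.y 1 = 13 * sin aU ∧ pU.y 2 = 13 * sin aU - sin (3 / 2 + aU) ∧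
      pU.y 3 = -13 * sin aU - 9 * sin (3 / 2 - aU) ∧ pU.y 4 = -13 * sin aU ∧ pU.y 5 = 0 := by
    simp only [Pie.y, pU, fp, fU, lU, Finset.sum_range_succ, Finset.range_zero, Finset.sum_empty,
      List.getD_cons_zero, List.getD_cons_succ]
    push_cast
    simp only [zero_add, e2, e3]
    refine ⟨?_, ?_, ?_, ?_, ?_⟩ <;> linarith only [hy]
  have B : pU.Base := fp_base hε (by norm_num) (fun r hr => by interval_cases r <;> norm_num [lU])
    (fun r hr => by
      interval_cases r <;> simp only [fU, List.getD_cons_zero, List.getD_cons_succ] <;>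
        push_cast <;> (try simp only [zero_add, e2, e3]) <;> intro h <;> linarith only [a1, h, s1, s2, s3]) Y.2.2.2.2
  have K : pU.k 0 = ct aU ∧ pU.k 1 = ct (3 / 2 + aU) ∧ pU.k 2 = ct (π - (3 / 4 - aU)) ∧
      pU.k 3 = ct (π - (3 / 2 - aU)) ∧ pU.k 4 = ct aU := by
    simp only [pU, fp_k hε, fU, List.getD_cons_zero, List.getD_cons_succ, ct_pi_sub, ← ct_neg]
    push_cast
    refine ⟨?_, ?_, ?_, ?_, ?_⟩ <;> congr 1 <;> ring
  obtain ⟨k0, k1, k2, k3, k4⟩ := K
  obtain ⟨y1, y2, y3, y4, y5⟩ := Y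
  have := sin_le_one (3 / 2 + aU)
  obtain ⟨h1, h2⟩ := Pie.shapeU B rfl (by rw [k0, k4])
    (by rw [k0, k1]; exact ct_lt a2 (by linarith only [a2, a3]) (by linarith only [a3, hp]))
    (by rw [k2, k1]; exact ct_lt (by linarith only [a2]) (by linarith only [hp]) (by linarith only [a3]))
    (by rw [k2, k3]; exact ct_lt (by linarith only [a2, hp]) (by linarith only []) (by linarith only [a3]))
    (by rw [k0, k3]; exact ct_lt a2 (by linarith only [hp]) (by linarith only [a3]))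
    (by linarith only [s1, y1, y2]) (by linarith only [a1, y2, this]) (by linarith only [a1, y4]) (by linarith only [s3, y3, y4])
  refine ⟨h1, h2, ?_, by norm_num only [pU, fp, lU, List.getD_eq_getElem?_getD, one_mul, Finset.sum_range_succ, Finset.range_one, Finset.sum_singleton, List.length_cons, List.length_nil, zero_add, Nat.ofNat_pos, getElem?_pos, List.getElem_cons_zero, Option.getD_some, Rat.cast_ofNat, Nat.one_lt_ofNat, List.getElem_cons_succ, Rat.cast_one, Nat.lt_add_one]⟩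
  simp only [Pie.w, Pie.X, pU, fp, fU, lU, Finset.sum_range_succ, Finset.range_zero,
    Finset.sum_empty, List.getD_cons_zero, List.getD_cons_succ]
  push_cast
  simp only [zero_add, neg_div, cos_add, cos_neg, sin_neg, d1, d2]
  apply mul_left_cancel₀ a4.ne'
  grind

theorem pU_end : pU.c 0 = cos aU ∧ pU.S 0 = sin aU ∧ pU.c 4 = cos aU ∧ pU.S 4 = sin aU ∧
    cos (3 / 8) = cos aU * cos (3 / 8) + 1 / 2 * (sin aU * sin (3 / 8)) := by
  obtain ⟨a1, a2, a3, a4, a5, a6⟩ := aU_spec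
  refine ⟨by simp only [pU, fp, one_mul, fU, List.getD_eq_getElem?_getD, pow_zero, List.length_cons, List.length_nil, zero_add, Nat.reduceAdd, Nat.ofNat_pos, getElem?_pos, List.getElem_cons_zero, Option.getD_some, Rat.cast_zero], by simp only [pU, fp, one_mul, fU, List.getD_eq_getElem?_getD, pow_zero, List.length_cons, List.length_nil, zero_add, Nat.reduceAdd, Nat.ofNat_pos, getElem?_pos, List.getElem_cons_zero, Option.getD_some, Rat.cast_zero], by norm_num only [pU, fp, one_mul, fU, List.getD_eq_getElem?_getD, List.length_cons, List.length_nil, zero_add, Nat.lt_add_one, getElem?_pos, List.getElem_cons_succ, List.getElem_cons_zero, Option.getD_some, Rat.cast_zero],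
    by norm_num only [pU, fp, one_mul, fU, List.getD_eq_getElem?_getD, List.length_cons, List.length_nil, zero_add, Nat.lt_add_one, getElem?_pos, List.getElem_cons_succ, List.getElem_cons_zero, Option.getD_some, Rat.cast_zero], ?_⟩
  have d1 : sin (3 / 4 : ℝ) = 2 * sin (3 / 8) * cos (3 / 8) := by
    rw [← sin_two_mul]; norm_num
  have d2 : cos (3 / 4 : ℝ) = 2 * cos (3 / 8) ^ 2 - 1 := by rw [← cos_two_mul]; norm_num
  have hsc := sin_sq_add_cos_sq (3 / 8 : ℝ)
  apply mul_left_cancel₀ a4.ne'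
  grind

theorem qU_ok (r : ℕ) (hr : r < 4) : qU r = fU (r + 1) - fU r ∨ qU r = fU r - fU (r + 1) := by
  interval_cases r <;> norm_num [qU, fU]

/-! The piece of length `626 - 50 cos (1/4)`. -/

def fN (r : ℕ) : ℚ := [1 / 4, 0, 1 / 8, -1 / 8, -1 / 4].getD r 0
def lN (ν : ℚ) (r : ℕ) : ℚ := [5 * ν, 130 * ν, 24 * ν, 600 * ν, 125 * ν].getD r 0
def qN (ψ : ℚ) (r : ℕ) : ℚ := [1 / 4, 1 / 8, 1 / 4, 1 / 8, ψ].getD r 0
noncomputable def aN : ℝ := alp (1 / 5) (1 / 8)
noncomputable def pN (ν : ℚ) : Pie := fp 5 (-1) aN fN (lN ν)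

theorem aN_spec : 0 < aN ∧ aN < 1 / 8 ∧ 0 < 26 + 10 * cos (1 / 8) ∧
    (26 + 10 * cos (1 / 8)) * cos aN = 26 * cos (1 / 8) + 10 ∧
    (26 + 10 * cos (1 / 8)) * sin aN = 24 * sin (1 / 8) := by
  obtain ⟨a, b, c, d, e⟩ := alp_spec (r := 1 / 5) (β := 1 / 8) (by norm_num) (by norm_num)
    (by norm_num) (by norm_num)
  have hp := pi_gt_three
  have hs := sin_lo (x := 1 / 8) (by norm_num)
  have hc0 : 0 < cos (1 / 8 : ℝ) := cos_pos_of_mem_Ioo ⟨by linarith only [hp], by linarith only [hp]⟩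
  have h1 := sin_pos_of_pos_of_lt_pi a (by linarith only [b, hp])
  change 0 < sin aN at h1
  change _ * cos aN = _ at d
  change _ * sin aN = _ at e
  refine ⟨a, lt_of_sin_lt b.le (by linarith only [hp]) ?_, by linarith only [hc0], by linarith only [d], by linarith only [e]⟩
  nlinarith only [hs, hc0, e]

theorem pN_ok {ν : ℚ} (hν : 0 < ν) :
    (pN ν).Ok ∧ (pN ν).Fwd ∧ (pN ν).w = ν * (626 - 50 * cos (1 / 4)) := by
  obtain ⟨a2, a3, a4, a5, a6⟩ := aN_spec
  have hp := pi_gt_three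
  have hε : (-1 : ℝ) ^ 2 = 1 := by norm_num
  have hν' : (0 : ℝ) < ν := by exact_mod_cast hν
  have s0 : 0 < sin aN := sin_pos_of_pos_of_lt_pi (by linarith only [a2]) (by linarith only [a2, a3, hp])
  have s1 : 0 < sin (1 / 4 + aN) := sin_pos_of_pos_of_lt_pi (by linarith only [a2]) (by linarith only [a3, hp])
  have s1' : 0 < sin (1 / 8 + aN) := sin_pos_of_pos_of_lt_pi (by linarith only [a2, a3]) (by linarith only [a3, hp])
  have s2 : 0 < sin (1 / 8 - aN) := sin_pos_of_pos_of_lt_pi (by linarith only [a3]) (by linarith only [a2, hp])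
  have s3 : 0 < sin (1 / 4 - aN) := sin_pos_of_pos_of_lt_pi (by linarith only [a3]) (by linarith only [a2, hp])
  have s4 : 0 < sin (1 / 8 : ℝ) := sin_pos_of_pos_of_lt_pi (by linarith only [a2, a3]) (by linarith only [a2, a3, hp])
  have e2 : sin (-1 / 8 + aN) = -sin (1 / 8 - aN) := by rw [← sin_neg]; congr 1; ring
  have e3 : sin (-1 / 4 + aN) = -sin (1 / 4 - aN) := by rw [← sin_neg]; congr 1; ring
  have d1 : sin (1 / 4 : ℝ) = 2 * sin (1 / 8) * cos (1 / 8) := by
    rw [← sin_two_mul]; norm_num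
  have d2 : cos (1 / 4 : ℝ) = 2 * cos (1 / 8) ^ 2 - 1 := by rw [← cos_two_mul]; norm_num
  have hsc := sin_sq_add_cos_sq (1 / 8 : ℝ)
  have hy : -5 * sin (1 / 4 + aN) + 130 * sin aN - 24 * sin (1 / 8 + aN) - 600 * sin (1 / 8 - aN) +
      125 * sin (1 / 4 - aN) = 0 := by
    rw [sin_add, sin_add, sin_sub, sin_sub, d1, d2]
    apply mul_left_cancel₀ a4.ne'
    grind
  have hz : 0 < 600 * sin (1 / 8 - aN) - 125 * sin (1 / 4 - aN) := by
    have e : (26 + 10 * cos (1 / 8)) * (600 * sin (1 / 8 - aN) - 125 * sin (1 / 4 - aN)) =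
        sin (1 / 8) * (3000 - 1300 * cos (1 / 8) - 500 * cos (1 / 8) ^ 2) := by
      rw [sin_sub, sin_sub, d1, d2]
      grind
    refine (mul_pos_iff_of_pos_left a4).1 ?_
    rw [e]
    have := cos_le_one (1 / 8 : ℝ)
    have := cos_sq_le_one (1 / 8 : ℝ)
    exact mul_pos s4 (by linarith)
  have hy' := congrArg (fun t => (ν : ℝ) * t) hy
  have Y : (pN ν).y 1 = -(ν * (5 * sin (1 / 4 + aN))) ∧
      (pN ν).y 2 = (pN ν).y 3 + ν * (24 * sin (1 / 8 + aN)) ∧
      (pN ν).y 3 = ν * (600 * sin (1 / 8 - aN) - 125 * sin (1 / 4 - aN)) ∧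
      (pN ν).y 4 = -(ν * (125 * sin (1 / 4 - aN))) ∧ (pN ν).y 5 = 0 := by
    simp only [Pie.y, pN, fp, fN, lN, Finset.sum_range_succ, Finset.range_zero, Finset.sum_empty,
      List.getD_cons_zero, List.getD_cons_succ]
    push_cast
    simp only [zero_add, e2, e3]
    refine ⟨?_, ?_, ?_, ?_, ?_⟩ <;> linarith only [hy']
  have B : (pN ν).Base := fp_base hε (by norm_num) (fun r hr => by
      interval_cases r <;> simp only [lN, List.getD_cons_zero, List.getD_cons_succ] <;> positivity)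
    (fun r hr => by
      interval_cases r <;> simp only [fN, List.getD_cons_zero, List.getD_cons_succ] <;>
        push_cast <;> (try simp only [zero_add, e2, e3]) <;> intro h <;> linarith only [s1, h, s0, s1', s2, s3]) Y.2.2.2.2
  have K : (pN ν).k 0 = ct (1 / 4 + aN) ∧ (pN ν).k 1 = ct aN ∧ (pN ν).k 2 = ct (1 / 8 + aN) ∧
      (pN ν).k 3 = ct (π - (1 / 8 - aN)) ∧ (pN ν).k 4 = ct (π - (1 / 4 - aN)) := by
    simp only [pN, fp_k hε, fN, List.getD_cons_zero, List.getD_cons_succ, ct_pi_sub, ← ct_neg]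
    push_cast
    refine ⟨?_, ?_, ?_, ?_, ?_⟩ <;> congr 1 <;> ring
  obtain ⟨k0, k1, k2, k3, k4⟩ := K
  obtain ⟨y1, y2, y3, y4, y5⟩ := Y
  obtain ⟨h1, h2⟩ := Pie.shapeN B rfl
    (by rw [k0, k1]; exact ct_lt a2 (by linarith only [a2, a3]) (by linarith only [a3, hp]))
    (by rw [k2, k1]; exact ct_lt a2 (by linarith only [a2, a3]) (by linarith only [a3, hp]))
    (by rw [k2, k3]; exact ct_lt (by linarith only [a2]) (by linarith only [hp]) (by linarith only [a3]))
    (by rw [k4, k3]; exact ct_lt (by linarith only [a2, hp]) (by linarith only []) (by linarith only [a3]))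
    (by rw [k0, k4]; exact ct_lt (by linarith only [a2]) (by linarith only [hp]) (by linarith only [a2, a3]))
    (by rw [y1, neg_lt_zero]; positivity) (by rw [y2, lt_add_iff_pos_right]; positivity)
    (by rw [y3]; positivity) (by rw [y4, neg_lt_zero]; positivity)
  refine ⟨h1, h2, ?_⟩
  have hw : -5 * cos (1 / 4 + aN) + 130 * cos aN - 24 * cos (1 / 8 + aN) +
      600 * cos (-1 / 8 + aN) - 125 * cos (-1 / 4 + aN) = 626 - 50 * cos (1 / 4) := by
    simp only [neg_div, cos_add, cos_neg, sin_neg, d1, d2]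
    apply mul_left_cancel₀ a4.ne'
    grind
  rw [← hw]
  simp only [Pie.w, Pie.X, pN, fp, fN, lN, Finset.sum_range_succ, Finset.range_zero,
    Finset.sum_empty, List.getD_cons_zero, List.getD_cons_succ]
  push_cast
  simp only [zero_add]
  ring

theorem pN_end (ν : ℚ) : (pN ν).c 0 = -cos (1 / 4 + aN) ∧ (pN ν).S 0 = -sin (1 / 4 + aN) ∧
    (pN ν).c 4 = -cos (1 / 4 - aN) ∧ (pN ν).S 4 = sin (1 / 4 - aN) := by
  refine ⟨by simp only [pN, fp, neg_mul, one_mul, fN, one_div, List.getD_eq_getElem?_getD, pow_zero, List.length_cons, List.length_nil, zero_add, Nat.reduceAdd, Nat.ofNat_pos, getElem?_pos, List.getElem_cons_zero, Option.getD_some, Rat.cast_inv, Rat.cast_ofNat], by simp only [pN, fp, neg_mul, one_mul, fN, one_div, List.getD_eq_getElem?_getD, pow_zero, List.length_cons, List.length_nil, zero_add, Nat.reduceAdd, Nat.ofNat_pos, getElem?_pos, List.getElem_cons_zero, Option.getD_some, Rat.cast_inv, Rat.cast_ofNat], ?_, ?_⟩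
  · rw [show 1 / 4 - aN = -(-(1 / 4) + aN) by ring, cos_neg]; norm_num only [pN, fp, neg_mul, one_mul, fN, List.getD_eq_getElem?_getD, List.length_cons, List.length_nil, zero_add, Nat.lt_add_one, getElem?_pos, List.getElem_cons_succ, List.getElem_cons_zero, Option.getD_some, Rat.cast_neg]
  · rw [show 1 / 4 - aN = -(-(1 / 4) + aN) by ring, sin_neg]; norm_num only [pN, fp, neg_mul, one_mul, fN, List.getD_eq_getElem?_getD, List.length_cons, List.length_nil, zero_add, Nat.lt_add_one, getElem?_pos, List.getElem_cons_succ, List.getElem_cons_zero, Option.getD_some, Rat.cast_neg]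

theorem qN_ok (ψ : ℚ) (r : ℕ) (hr : r < 4) :
    qN ψ r = fN (r + 1) - fN r ∨ qN ψ r = fN r - fN (r + 1) := by
  interval_cases r <;> norm_num [qN, fN]

/-! The piece that runs backwards. -/

def fB (r : ℕ) : ℚ := [1 / 4, 0, -1 / 4].getD r 0
def lB (ν : ℚ) (r : ℕ) : ℚ := [ν, 100 * ν, 2500 * ν].getD r 0
noncomputable def aB : ℝ := alp (-1 / 50) (1 / 4)
noncomputable def pB (ν : ℚ) : Pie := fp 3 (-1) aB fB (lB ν)

theorem aB_spec : 1 / 4 < aB ∧ aB < 1 / 2 ∧ 0 < 2501 - 100 * cos (1 / 4) ∧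
    (2501 - 100 * cos (1 / 4)) * cos aB = 2501 * cos (1 / 4) - 100 ∧
    (2501 - 100 * cos (1 / 4)) * sin aB = 2499 * sin (1 / 4) := by
  obtain ⟨a, b, c, d, e⟩ := alp_spec (r := -1 / 50) (β := 1 / 4) (by norm_num) (by norm_num)
    (by norm_num) (by norm_num)
  have hp := pi_gt_three
  have hs := sin_lo (x := 1 / 4) (by norm_num)
  have hs' := sin_lo (x := 1 / 2) (by norm_num)
  have hs'' := sin_lt (x := 1 / 4) (by norm_num)
  have hc := one_sub_sq_div_two_le_cos (x := (1 / 4 : ℝ))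
  have hc' := cos_le_one (1 / 4 : ℝ)
  have h1 := sin_pos_of_pos_of_lt_pi a (by linarith only [b, hp])
  change 0 < sin aB at h1
  change _ * cos aB = _ at d
  change _ * sin aB = _ at e
  refine ⟨lt_of_sin_lt (by linarith only [hp]) (by change _ ≤ alp _ _; linarith only [a, hp]) ?_,
    lt_of_sin_lt b.le (by linarith only [hp]) ?_, by linarith only [hc'], by linarith only [d], by linarith only [e]⟩
  · nlinarith only [c, hs, hc, e]
  · nlinarith only [hs', hs'', hc', e]

theorem pB_ok {ν : ℚ} (hν : 0 < ν) :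
    (pB ν).Ok ∧ 0 < (pB ν).step 0 ∧ (pB ν).w = -(ν * (2501 - 100 * cos (1 / 4))) := by
  obtain ⟨a2, a3, a4, a5, a6⟩ := aB_spec
  have hp := pi_gt_three
  have hε : (-1 : ℝ) ^ 2 = 1 := by norm_num
  have hν' : (0 : ℝ) < ν := by exact_mod_cast hν
  have s0 : 0 < sin aB := sin_pos_of_pos_of_lt_pi (by linarith only [a2]) (by linarith only [a3, hp])
  have s1 : 0 < sin (1 / 4 + aB) := sin_pos_of_pos_of_lt_pi (by linarith only [a2]) (by linarith only [a3, hp])
  have s2 : 0 < sin (-1 / 4 + aB) := sin_pos_of_pos_of_lt_pi (by linarith only [a2]) (by linarith only [a3, hp])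
  have hsc := sin_sq_add_cos_sq (1 / 4 : ℝ)
  have hy : -sin (1 / 4 + aB) + 100 * sin aB - 2500 * sin (-1 / 4 + aB) = 0 := by
    simp only [neg_div, sin_add, cos_neg, sin_neg]
    apply mul_left_cancel₀ a4.ne'
    grind
  have hy' := congrArg (fun t => (ν : ℝ) * t) hy
  have Y : (pB ν).y 1 = -(ν * sin (1 / 4 + aB)) ∧
      (pB ν).y 2 = ν * (2500 * sin (-1 / 4 + aB)) ∧ (pB ν).y 3 = 0 := by
    simp only [Pie.y, pB, fp, fB, lB, Finset.sum_range_succ, Finset.range_zero, Finset.sum_empty,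
      List.getD_cons_zero, List.getD_cons_succ]
    push_cast
    simp only [zero_add]
    refine ⟨?_, ?_, ?_⟩ <;> linarith only [hy']
  have B : (pB ν).Base := fp_base hε (by norm_num) (fun r hr => by
      interval_cases r <;> simp only [lB, List.getD_cons_zero, List.getD_cons_succ] <;> positivity)
    (fun r hr => by
      interval_cases r <;> simp only [fB, List.getD_cons_zero, List.getD_cons_succ] <;>
        push_cast <;> (try simp only [zero_add]) <;> intro h <;> linarith only [s1, h, s2, hy]) Y.2.2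
  have K : (pB ν).k 0 = ct (1 / 4 + aB) ∧ (pB ν).k 1 = ct aB ∧
      (pB ν).k 2 = ct (-1 / 4 + aB) := by
    simp only [pB, fp_k hε, fB, List.getD_cons_zero, List.getD_cons_succ]
    push_cast
    refine ⟨?_, ?_, ?_⟩ <;> congr 1 <;> ring
  obtain ⟨k0, k1, k2⟩ := K
  obtain ⟨y1, y2, y3⟩ := Y
  have hw : -cos (1 / 4 + aB) + 100 * cos aB - 2500 * cos (-1 / 4 + aB) =
      -(2501 - 100 * cos (1 / 4)) := by
    simp only [neg_div, cos_add, cos_neg, sin_neg]
    apply mul_left_cancel₀ a4.ne'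
    grind
  have hw' : (pB ν).w = -(ν * (2501 - 100 * cos (1 / 4))) := by
    rw [← mul_neg, ← hw]
    simp only [Pie.w, Pie.X, pB, fp, fB, lB, Finset.sum_range_succ, Finset.range_zero,
      Finset.sum_empty, List.getD_cons_zero, List.getD_cons_succ]
    push_cast
    simp only [zero_add]
    ring
  obtain ⟨h1, h2⟩ := Pie.shapeB B rfl
    (by rw [k0, k1]; exact ct_lt (by linarith only [a2, a3]) (by linarith only []) (by linarith only [a3, hp]))
    (by rw [k2, k1]; exact ct_lt (by linarith only [a2]) (by linarith only []) (by linarith only [a3, hp]))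
    (by rw [y1, neg_lt_zero]; positivity) (by rw [y2]; positivity)
    (by rw [hw', neg_ne_zero]; positivity)
  exact ⟨h1, h2, hw'⟩

theorem pB_end (ν : ℚ) : (pB ν).c 0 = -cos (1 / 4 + aB) ∧ (pB ν).S 0 = -sin (1 / 4 + aB) :=
  ⟨by simp only [pB, fp, neg_mul, one_mul, fB, one_div, List.getD_eq_getElem?_getD, pow_zero, List.length_cons, List.length_nil, zero_add, Nat.reduceAdd, Nat.ofNat_pos, getElem?_pos, List.getElem_cons_zero, Option.getD_some, Rat.cast_inv, Rat.cast_ofNat], by simp only [pB, fp, neg_mul, one_mul, fB, one_div, List.getD_eq_getElem?_getD, pow_zero, List.length_cons, List.length_nil, zero_add, Nat.reduceAdd, Nat.ofNat_pos, getElem?_pos, List.getElem_cons_zero, Option.getD_some, Rat.cast_inv, Rat.cast_ofNat]⟩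

/-! The seven-link compensator. -/

def fW (ψ φ χ : ℚ) (r : ℕ) : ℚ := [-ψ, χ, φ, χ, -φ, -χ, ψ].getD r 0
def lW (a b c : ℚ) (r : ℕ) : ℚ := [b, c / 2, a, c / 2, a, c, b].getD r 0
def qW (ψ φ χ : ℚ) (r : ℕ) : ℚ := [ψ + χ, χ - φ, χ - φ, χ + φ, χ - φ, ψ + χ, ψ].getD r 0
noncomputable def pW (ψ φ χ a b c : ℚ) : Pie := fp 7 1 0 (fW ψ φ χ) (lW a b c)

theorem pW_ok {ψ φ χ a b c : ℚ} (h1 : (0 : ℝ) < φ) (h2 : (φ : ℝ) < χ) (h3 : (φ : ℝ) < ψ)
    (h4 : (χ : ℝ) < π / 2) (h5 : (ψ : ℝ) < π / 2) (hb : 0 < b) (hc : 0 < c)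
    (h : b * sin ψ + c * sin χ < a * sin φ) :
    (pW ψ φ χ a b c).Ok ∧ (pW ψ φ χ a b c).Fwd ∧
      (pW ψ φ χ a b c).w = 2 * (a * cos φ - c * cos χ + b * cos ψ) := by
  have hp := pi_gt_three
  have hε : (1 : ℝ) ^ 2 = 1 := by norm_num
  have hb' : (0 : ℝ) < b := by exact_mod_cast hb
  have hc' : (0 : ℝ) < c := by exact_mod_cast hc
  have s1 : 0 < sin (φ : ℝ) := sin_pos_of_pos_of_lt_pi (by linarith only [h1]) (by linarith only [h1, h2, h4])
  have s2 : 0 < sin (χ : ℝ) := sin_pos_of_pos_of_lt_pi (by linarith only [h1, h2]) (by linarith only [h1, h2, h4])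
  have s3 : 0 < sin (ψ : ℝ) := sin_pos_of_pos_of_lt_pi (by linarith only [h1, h3]) (by linarith)
  have p1 := mul_pos hb' s3
  have p2 := mul_pos hc' s2
  have ha : 0 < a := by
    have : (0 : ℝ) < a := (mul_pos_iff_of_pos_right s1).1 (by linarith only [h, p1, p2])
    exact_mod_cast this
  have Y : (pW ψ φ χ a b c).y 1 = -(b * sin ψ) ∧
      (pW ψ φ χ a b c).y 2 = -(b * sin ψ) - c * sin χ / 2 ∧
      (pW ψ φ χ a b c).y 3 = -(b * sin ψ) - c * sin χ / 2 + a * sin φ ∧
      (pW ψ φ χ a b c).y 4 = -(b * sin ψ) - c * sin χ + a * sin φ ∧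
      (pW ψ φ χ a b c).y 5 = -(b * sin ψ) - c * sin χ ∧
      (pW ψ φ χ a b c).y 6 = -(b * sin ψ) ∧ (pW ψ φ χ a b c).y 7 = 0 := by
    simp only [Pie.y, pW, fp, fW, lW, Finset.sum_range_succ, Finset.range_zero, Finset.sum_empty,
      List.getD_cons_zero, List.getD_cons_succ]
    push_cast
    simp only [add_zero, sin_neg]
    refine ⟨?_, ?_, ?_, ?_, ?_, ?_, ?_⟩ <;> ring
  have B : (pW ψ φ χ a b c).Base := fp_base hε (by norm_num) (fun r hr => by
      interval_cases r <;> simp only [lW, List.getD_cons_zero, List.getD_cons_succ] <;> positivity)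
    (fun r hr => by
      interval_cases r <;> simp only [fW, List.getD_cons_zero, List.getD_cons_succ] <;>
        push_cast <;> simp only [add_zero, sin_neg] <;> intro h <;> linarith only [s3, h, s2, s1]) Y.2.2.2.2.2.2
  obtain ⟨y1, y2, y3, y4, y5, y6, y7⟩ := Y
  obtain ⟨g1, g2⟩ := Pie.shapeW B rfl (ct_pos (h1.trans h3) h5) (ct_pos (h1.trans h2) h4)
    (ct_lt h1 h3 (by linarith only [h1, h2, h4, h5])) (ct_lt h1 h2 (by linarith only [h1, h2, h4]))
    (by simp [pW, fp_k hε, fW, ct_neg]) (by simp [pW, fp_k hε, fW]) (by simp [pW, fp_k hε, fW])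
    (by simp [pW, fp_k hε, fW]) (by simp [pW, fp_k hε, fW, ct_neg])
    (by simp [pW, fp_k hε, fW, ct_neg]) (by simp [pW, fp_k hε, fW])
    (by linarith only [p1, y1]) (by linarith only [p2, y1, y2]) (by linarith only [p2, y3, y4]) (by linarith only [h, y4]) (by linarith only [p2, y5, y6]) (by linarith only [y1, y6])
  refine ⟨g1, g2, ?_⟩
  simp only [Pie.w, Pie.X, pW, fp, fW, lW, Finset.sum_range_succ, Finset.range_zero,
    Finset.sum_empty, List.getD_cons_zero, List.getD_cons_succ]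
  push_cast
  simp only [add_zero, cos_neg]
  ring

theorem pW_end (ψ φ χ a b c : ℚ) : (pW ψ φ χ a b c).c 0 = cos ψ ∧ (pW ψ φ χ a b c).S 0 = -sin ψ ∧
    (pW ψ φ χ a b c).c 6 = cos ψ ∧ (pW ψ φ χ a b c).S 6 = sin ψ :=
  ⟨by simp only [pW, fp, one_mul, fW, List.getD_eq_getElem?_getD, add_zero, pow_zero, List.length_cons, List.length_nil, zero_add, Nat.reduceAdd, Nat.ofNat_pos, getElem?_pos, List.getElem_cons_zero, Option.getD_some, Rat.cast_neg, cos_neg], by simp only [pW, fp, one_mul, fW, List.getD_eq_getElem?_getD, add_zero, pow_zero, List.length_cons, List.length_nil, zero_add, Nat.reduceAdd, Nat.ofNat_pos, getElem?_pos, List.getElem_cons_zero, Option.getD_some, Rat.cast_neg, sin_neg, mul_neg], by norm_num only [pW, fp, one_mul, fW, List.getD_eq_getElem?_getD, add_zero, List.length_cons, List.length_nil, zero_add, Nat.lt_add_one, getElem?_pos, List.getElem_cons_succ, List.getElem_cons_zero, Option.getD_some], by norm_num only [pW, fp, one_mul,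 fW, List.getD_eq_getElem?_getD, add_zero, List.length_cons, List.length_nil, zero_add, Nat.lt_add_one, getElem?_pos, List.getElem_cons_succ, List.getElem_cons_zero, Option.getD_some]⟩

theorem qW_ok (ψ φ χ : ℚ) (r : ℕ) (hr : r < 6) :
    qW ψ φ χ r = fW ψ φ χ (r + 1) - fW ψ φ χ r ∨ qW ψ φ χ r = fW ψ φ χ r - fW ψ φ χ (r + 1) := by
  interval_cases r <;> simp only [qW, fW, List.getD_cons_zero, List.getD_cons_succ]
  exacts [Or.inl (by ring), Or.inr trivial, Or.inl trivial, Or.inr (by ring), Or.inr (by ring),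
    Or.inl (by ring)]

/-- The cosine of a nearly perpendicular fold. -/
noncomputable def gf (ψ x : ℝ) : ℝ := cos ψ * (1 - cos x) / (sin x * sin ψ)

theorem gf_spec {ψ x : ℝ} (h1 : 0 < x) (h2 : x ≤ 3 / 4) (h3 : 0 < cos ψ) (h4 : 10 * cos ψ ≤ sin ψ) :
    0 < gf ψ x ∧ gf ψ x < 1 / 10 ∧ cos ψ = cos x * cos ψ + gf ψ x * (sin x * sin ψ) := by
  have hp := pi_gt_three
  have s1 : 0 < sin x := sin_pos_of_pos_of_lt_pi h1 (by linarith)
  have c1 : 0 < cos x := cos_pos_of_mem_Ioo ⟨by linarith only [h1, h2, hp], by linarith⟩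
  have s2 : 0 < sin ψ := by linarith
  have e := sin_sq_add_cos_sq x
  have c2 : cos x < 1 := by nlinarith only [s1, e]
  have c3 : 1 - cos x < sin x := by nlinarith only [s1, c1, e]
  refine ⟨div_pos (mul_pos h3 (by linarith only [c2])) (mul_pos s1 s2), ?_, ?_⟩
  · rw [gf, div_lt_iff₀ (mul_pos s1 s2)]
    linarith only [mul_pos h3 (sub_pos.2 c3), mul_le_mul_of_nonneg_left h4 s1.le]
  · rw [gf, div_mul_cancel₀ _ (mul_pos s1 s2).ne']; ring

end Pool.Agent.MP_e5fd74_lc.H46

end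

-- part MP_e5fd74_lc.H46.Shape
section

/-! Simplicity of the vertex piece: four needles and two accordions. -/

namespace Pool.Agent.MP_e5fd74_lc.H46

open Set

namespace Pie

variable {A : Pie}

theorem Fwd.mono (H : A.Base) (F : A.Fwd) {i j : ℕ} (hij : i ≤ j) (hj : j < A.n) :
    A.x i ≤ A.x j := by
  induction j, hij using Nat.le_induction with
  | base => exact le_rfl
  | succ m _ ih =>
    rw [x_succ (H.hS m (by omega))]
    linarith only [ih (by omega), F m hj]

theorem Fwd.two (H : A.Base) (F : A.Fwd) {i j : ℕ} (p p' : ℕ) (h1 : i ≤ p) (h2 : p < p')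
    (h3 : p' < j) (hj : j < A.n) : A.step p + A.step p' ≤ A.x j - A.x i := by
  have a := F.mono H h1 (by omega)
  have b := F.mono H (show p + 1 ≤ p' from h2) (by omega)
  have c := F.mono H (show p' + 1 ≤ j from h3) hj
  rw [x_succ (H.hS _ (by omega))] at b c
  linarith only [a, b, c]

theorem Fwd.one (H : A.Base) (F : A.Fwd) {i j : ℕ} (p : ℕ) (h1 : i ≤ p) (h3 : p < j)
    (h4 : i + 1 < j) (hj : j < A.n) : A.step p < A.x j - A.x i := by
  rcases Nat.lt_or_ge i p with h | h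
  · linarith only [F.two H i p le_rfl h h3 hj, F i (by omega)]
  · linarith only [F.two H p (p + 1) h1 (by omega) (by omega) hj, F (p + 1) (by omega)]

theorem On.ge {r : ℕ} {X s t : ℝ} (h : A.On r X s) (h1 : t ≤ A.y r) (h2 : t ≤ A.y (r + 1)) :
    t ≤ s := (le_inf h1 h2).trans h.1.1

theorem On.le {r : ℕ} {X s t : ℝ} (h : A.On r X s) (h1 : A.y r ≤ t) (h2 : A.y (r + 1) ≤ t) :
    s ≤ t := h.1.2.trans (sup_le h1 h2)

theorem On.gt {r : ℕ} {X s t : ℝ} (h : A.On r X s) (h1 : t < A.y r) (h2 : t < A.y (r + 1)) :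
    t < s := (lt_inf_iff.2 ⟨h1, h2⟩).trans_le h.1.1

/-- Slopes and heights of the vertex piece; `u` ends the first accordion, `v` the second. -/
structure MS (A : Pie) (u v : ℕ) (k0 kt k1 k2 Y Z : ℝ) : Prop where
  hn : A.n = v + 5
  hu : u % 2 = 0
  hv : v % 2 = 0
  h6 : 6 ≤ u
  huv : u + 2 ≤ v
  p2 : 0 < k2
  p1 : k2 < k1
  pt : k1 < kt
  p0 : kt < k0
  K0 : A.k 0 = kt
  K1 : A.k 1 = k0
  K2 : A.k 2 = k2
  K3 : A.k 3 = k1
  KC : ∀ r, 4 ≤ r → r ≤ u → (r % 2 = 0 ∧ A.k r = -k2) ∨ (r % 2 = 1 ∧ A.k r = -k1)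
  KD : ∀ r, u < r → r ≤ v → (r % 2 = 0 ∧ A.k r = k2) ∨ (r % 2 = 1 ∧ A.k r = k1)
  L1 : A.k (v + 1) = -k1
  L2 : A.k (v + 2) = -k2
  L3 : A.k (v + 3) = -k0
  L4 : A.k (v + 4) = -kt
  y1 : A.y 1 < 0
  y2 : 0 < A.y 2
  y3 : A.y 3 < 0
  y4 : A.y 2 < A.y 4
  y5 : A.y 4 < A.y 5
  YC : ∀ r, 5 ≤ r → r ≤ u → (r % 2 = 0 ∧ A.y r < 0) ∨ (r % 2 = 1 ∧ 0 < A.y r)
  yu : A.y u < A.y (u + 1)
  yu' : A.y (u + 1) < 0
  YD : ∀ r, u + 2 ≤ r → r ≤ v →
    (r % 2 = 0 ∧ 0 < A.y r) ∨ (r % 2 = 1 ∧ A.y (u + 1) < A.y r ∧ A.y r < 0)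
  z1 : A.y (v + 1) < A.y v
  z2 : A.y (v + 2) < 0
  z3 : A.y (v + 3) < A.y (v + 1)
  z3' : 0 < A.y (v + 3)
  z4 : A.y (v + 4) < 0
  f1 : A.y 4 ≤ Y
  f2 : A.y (v + 1) ≤ Y
  f3 : 2 * k0 * Y ≤ -((k1 + k2) * A.y (u + 1))
  f4 : ∀ r, r ≤ A.n → -Z ≤ A.y r
  f5 : (k1 - k2) * Z ≤ -((k1 + k2) * A.y (u + 1))

variable {u v : ℕ} {k0 kt k1 k2 Y Z : ℝ}

theorem MS.fwd (M : A.MS u v k0 kt k1 k2 Y Z) : A.Fwd := by
  obtain ⟨hn, hu, hv, h6, huv, p2, p1, pt, p0, K0, K1, K2, K3, KC, KD, L1, L2, L3, L4, y1, y2, y3,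
    y4, y5, YC, yu, yu', YD, z1, z2, z3, z3', z4, -⟩ := M
  intro r hr
  unfold step
  rcases (by omega : r = 0 ∨ r = 1 ∨ r = 2 ∨ r = 3 ∨ (4 ≤ r ∧ r < u) ∨ r = u ∨ (u < r ∧ r < v) ∨
    r = v ∨ r = v + 1 ∨ r = v + 2 ∨ r = v + 3) with
    rfl | rfl | rfl | rfl | ⟨a, b⟩ | rfl | ⟨a, b⟩ | rfl | rfl | rfl | rfl
  · rw [K0, K1]; exact mul_pos_of_neg_of_neg (by linarith only [p0]) y1
  · rw [K1, K2]; exact mul_pos (by linarith only [p1, pt, p0]) y2
  · rw [K2, K3]; exact mul_pos_of_neg_of_neg (by linarith only [p1]) y3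
  · rcases KC 4 le_rfl (by omega) with ⟨-, e⟩ | ⟨e, -⟩
    · rw [K3, e]; exact mul_pos (by linarith only [p2, p1]) (by linarith only [y2, y4])
    · omega
  · rcases KC r a b.le with ⟨c, e⟩ | ⟨c, e⟩ <;>
      rcases KC (r + 1) (by omega) b with ⟨c', e'⟩ | ⟨c', e'⟩ <;>
      rcases YC (r + 1) (by omega) b with ⟨c'', e''⟩ | ⟨c'', e''⟩ <;> (try omega) <;> rw [e, e']
    · exact mul_pos (by linarith only [p1]) e''
    · exact mul_pos_of_neg_of_neg (by linarith only [p1]) e''
  · rcases KC r (by omega) le_rfl with ⟨c, e⟩ | ⟨c, e⟩ <;>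
      rcases KD (r + 1) (by omega) (by omega) with ⟨c', e'⟩ | ⟨c', e'⟩ <;> (try omega)
    rw [e, e']; exact mul_pos_of_neg_of_neg (by linarith only [p2, p1]) yu'
  · rcases KD r a b.le with ⟨c, e⟩ | ⟨c, e⟩ <;>
      rcases KD (r + 1) (by omega) b with ⟨c', e'⟩ | ⟨c', e'⟩ <;>
      rcases YD (r + 1) (by omega) b with ⟨c'', e''⟩ | ⟨c'', e''⟩ <;> (try omega) <;> rw [e, e']
    · exact mul_pos_of_neg_of_neg (by linarith only [p1]) e''.2
    · exact mul_pos (by linarith only [p1]) e''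
  · rcases KD r (by omega) le_rfl with ⟨c, e⟩ | ⟨c, e⟩ <;> (try omega)
    rw [e, L1]; exact mul_pos (by linarith only [p2, p1]) (by linarith only [z3, z3'])
  · rw [L1, L2]; exact mul_pos_of_neg_of_neg (by linarith only [p1]) z2
  · rw [L2, L3]; exact mul_pos (by linarith only [p1, pt, p0]) z3'
  · rw [L3, L4]; exact mul_pos_of_neg_of_neg (by linarith only [p0]) z4

theorem MS.kb (M : A.MS u v k0 kt k1 k2 Y Z) {r : ℕ} (hr : r < A.n) :
    -k0 ≤ A.k r ∧ A.k r ≤ k0 ∧ (2 ≤ r → A.k r ≤ k1) ∧ (r ≤ v + 2 → -k1 ≤ A.k r) ∧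
    (r ≤ 3 ∨ (u < r ∧ r ≤ v) → k2 ≤ A.k r) ∧ ((4 ≤ r ∧ r ≤ u) ∨ v < r → A.k r ≤ -k2) := by
  obtain ⟨hn, hu, hv, h6, huv, p2, p1, pt, p0, K0, K1, K2, K3, KC, KD, L1, L2, L3, L4, -⟩ := M
  rcases (by omega : r = 0 ∨ r = 1 ∨ r = 2 ∨ r = 3 ∨ (4 ≤ r ∧ r ≤ u) ∨ (u < r ∧ r ≤ v) ∨
    r = v + 1 ∨ r = v + 2 ∨ r = v + 3 ∨ r = v + 4) with
    rfl | rfl | rfl | rfl | ⟨a, b⟩ | ⟨a, b⟩ | rfl | rfl | rfl | rfl
  any_goals
    refine ⟨by linarith only [p2, p1, pt, p0, K0, K1, K2, K3, L1, L2, L3, L4], by linarith only [p0, K0, K1, p1, pt, K2, K3, p2, L1, L2, L3, L4], fun _ => ?_, fun _ => ?_, fun _ => ?_, fun _ => ?_⟩ <;>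
      first | linarith | omega
  · rcases KC r a b with ⟨-, e⟩ | ⟨-, e⟩ <;>
      refine ⟨by linarith only [p1, pt, p0, e], by linarith only [p2, p1, pt, p0, e], fun _ => ?_, fun _ => ?_, fun _ => ?_, fun _ => ?_⟩ <;>
      first | linarith only [p2, p1, e] | omega
  · rcases KD r a b with ⟨-, e⟩ | ⟨-, e⟩ <;>
      refine ⟨by linarith only [p2, p1, pt, p0, e], by linarith only [p1, pt, p0, e], fun _ => ?_, fun _ => ?_, fun _ => ?_, fun _ => ?_⟩ <;>
      first | linarith only [p1, e, p2] | omega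

theorem MS.ok (H : A.Base) (M : A.MS u v k0 kt k1 k2 Y Z) : A.Ok := by
  have F := M.fwd
  refine ⟨H, fun r hr => (F r hr).ne', fun r r' hrr hr' X s a b => ?_⟩
  obtain ⟨b1, b2, b3, b4, b5, b6⟩ := M.kb (show r < A.n by omega)
  obtain ⟨c1, c2, c3, c4, c5, c6⟩ := M.kb hr'
  obtain ⟨hn, hu, hv, h6, huv, p2, p1, pt, p0, K0, K1, K2, K3, KC, KD, L1, L2, L3, L4, y1, y2, y3,
    y4, y5, YC, yu, yu', YD, z1, z2, z3, z3', z4, f1, f2, f3, f4, f5⟩ := M
  have m := a.meet b
  have y0 := A.y_zero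
  have z5 : A.y (v + 5) = 0 := hn ▸ H.hy
  have one : ∀ p, r ≤ p → p < r' → A.step p < (A.k r - A.k r') * s := fun p h1 h2 =>
    m ▸ F.one H p h1 h2 hrr hr'
  have two : ∀ p p', r ≤ p → p < p' → p' < r' → A.step p + A.step p' ≤ (A.k r - A.k r') * s :=
    fun p p' h1 h2 h3 => m ▸ F.two H p p' h1 h2 h3 hr'
  have pos : 0 < (A.k r - A.k r') * s := (F r (by omega)).trans (one r le_rfl (by omega))
  have neg : s ≤ 0 → A.k r' ≤ A.k r → False := fun h1 h2 =>
    absurd pos (not_lt.2 (mul_nonpos_of_nonneg_of_nonpos (sub_nonneg.2 h2) h1))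
  have bd : ∀ κ t : ℝ, 0 ≤ s → s ≤ t → A.k r - A.k r' ≤ κ → 0 ≤ κ →
      (A.k r - A.k r') * s ≤ κ * t := fun κ t h1 h2 h3 h4 => mul_le_mul h3 h2 h1 h4
  have bd' : ∀ κ t : ℝ, s ≤ 0 → t ≤ s → A.k r' - A.k r ≤ κ → 0 ≤ κ →
      (A.k r - A.k r') * s ≤ -(κ * t) := fun κ t h1 h2 h3 h4 => by
    have := mul_le_mul h3 (neg_le_neg h2) (neg_nonneg.2 h1) h4
    linarith only [this]
  have k4 : A.k 4 = -k2 := ((KC 4 le_rfl (by omega)).resolve_right (by omega)).2
  have k5 : A.k 5 = -k1 := ((KC 5 (by omega) (by omega)).resolve_left (by omega)).2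
  have ku : A.k u = -k2 := ((KC u (by omega) le_rfl).resolve_right (by omega)).2
  have ku1 : A.k (u + 1) = k1 := ((KD (u + 1) (by omega) (by omega)).resolve_left (by omega)).2
  have kv : A.k v = k2 := ((KD v (by omega) le_rfl).resolve_right (by omega)).2
  have su : A.step u = -((k1 + k2) * A.y (u + 1)) := by rw [step, ku, ku1]; ring
  have zig : A.k r' = A.k (r + 1) → 0 ≤ (A.k r - A.k (r + 1)) * (A.y (r + 1) - s) → False :=
    fun h1 h2 => by
      have := one r le_rfl (by omega)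
      rw [step, h1] at this
      linarith only [h2, this]
  have same : A.k r = A.k r' → False := fun h => by rw [h] at pos; simp at pos
  have neg' : 0 ≤ s → A.k r ≤ A.k r' → False := fun h1 h2 =>
    absurd pos (not_lt.2 (mul_nonpos_of_nonpos_of_nonneg (sub_nonpos.2 h2) h1))
  clear m pos
  generalize (A.k r - A.k r') * s = d at one two bd bd'
  by_cases h1 : r' ≤ u
  · rcases (by omega : r = 0 ∨ r = 1 ∨ r = 2 ∨ r = 3 ∨ 4 ≤ r) with rfl | rfl | rfl | rfl | h2
    · exact neg (a.le y0.le y1.le) (by linarith only [c3 (by omega), pt, K0])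
    · rcases le_total s 0 with h3 | h3
      · exact neg h3 (by linarith only [c2, K1])
      have h4 : s ≤ A.y 2 := a.le (by linarith only [y1, y2]) le_rfl
      rcases (by omega : r' = 3 ∨ r' = 4 ∨ 5 ≤ r') with rfl | rfl | h5
      · have := one 1 le_rfl (by omega)
        rw [step, K1, K2] at this
        linarith only [bd (k0 - k2) _ h3 h4 (by linarith only [p1, K1, K3]) (by linarith only [p1, pt, p0]), this]
      · linarith only [b.ge le_rfl y5.le, y4, h4]
      · have := two 1 3 le_rfl (by omega) (by omega)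
        rw [step, step, K1, K2, K3, k4] at this
        have e := bd (k0 + k1) _ h3 h4 (by linarith only [c4 (by omega), K1]) (by linarith only [p2, p1, pt, p0])
        linarith only [mul_pos (add_pos (p2.trans p1) p2) (sub_pos.2 y4), this, e]
    · rcases le_total s 0 with h3 | h3
      · exact neg h3 (by linarith only [c6 (by omega), p2, K2])
      have h4 : s ≤ A.y 2 := a.le le_rfl (by linarith only [y2, y3])
      rcases (by omega : r' = 4 ∨ 5 ≤ r') with rfl | h5
      · linarith only [b.ge le_rfl y5.le, y4, h4]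
      · have := one 3 (by omega) (by omega)
        rw [step, K3, k4] at this
        linarith only [bd (k1 + k2) (A.y 4) h3 (by linarith only [y4, h4]) (by linarith only [c4 (by omega), K2]) (by linarith only [p2, p1]), this]
    · rcases le_total s 0 with h3 | h3
      · exact neg h3 (by linarith only [c6 (by omega), p2, p1, K3])
      have h4 : s ≤ A.y 4 := a.le (by linarith only [y2, y3, y4]) le_rfl
      have := two 3 4 le_rfl (by omega) (by omega)
      rw [step, step, K3, k4, k5] at this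
      have e := bd (2 * k1) _ h3 h4 (by linarith only [c4 (by omega), K3]) (by linarith only [p2, p1])
      linarith only [mul_pos (sub_pos.2 p1) (sub_pos.2 y5), this, e]
    · rcases KC r h2 (by omega) with ⟨d1, e1⟩ | ⟨d1, e1⟩ <;>
        rcases KC r' (by omega) h1 with ⟨d2, e2⟩ | ⟨d2, e2⟩ <;>
        rcases KC (r + 1) (by omega) (by omega) with ⟨d3, e3⟩ | ⟨d3, e3⟩ <;> (try omega)
      · exact same (by rw [e1, e2])
      · refine zig (by rw [e2, e3]) (mul_nonneg (by linarith only [p1, e1, e3]) (sub_nonneg.2 (a.le ?_ le_rfl)))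
        rcases (by omega : r = 4 ∨ 5 ≤ r) with rfl | h3
        · exact y5.le
        · linarith only [((YC r h3 (by omega)).resolve_right (by omega)).2, ((YC (r + 1) (by omega) (by omega)).resolve_left (by omega)).2]
      · refine zig (by rw [e2, e3]) (mul_nonneg_of_nonpos_of_nonpos (by linarith only [p1, e1, e3])
          (sub_nonpos.2 (a.ge ?_ le_rfl)))
        linarith only [((YC r (by omega) (by omega)).resolve_left (by omega)).2, ((YC (r + 1) (by omega) (by omega)).resolve_right (by omega)).2]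
      · exact same (by rw [e1, e2])
  by_cases h2 : r ≤ u
  · have G := one u h2 (by omega)
    rw [su] at G
    rcases le_total 0 s with h3 | h3
    · by_cases h4 : r ≤ 3 ∨ v < r'
      · have h5 : s ≤ Y := by
          rcases h4 with h4 | h4
          · interval_cases r <;> exact a.le (by linarith only [y2, y4, f1, y0, y1, y3]) (by linarith only [y1, y2, y4, f1, y3])
          · rcases (by omega : r' = v + 1 ∨ r' = v + 2 ∨ r' = v + 3 ∨ r' = v + 4) with
              rfl | rfl | rfl | rfl <;> exact b.le (by linarith only [f2, y2, y4, z2, f1, z3, z4]) (by linarith only [y2, y4, z2, f1, z3, f2, z4, z5])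
        linarith only [bd (2 * k0) _ h3 h5 (by linarith only [b2, c1]) (by linarith only [p2, p1, pt, p0]), f3, G]
      · exact neg' h3 (by linarith only [b6 (by omega), c5 (by omega), p2])
    · by_cases h4 : r ≤ 3 ∨ v < r'
      · have h5 : A.k r' - A.k r ≤ k1 - k2 := by
          rcases h4 with h4 | h4
          · linarith only [b5 (by omega), c3 (by omega)]
          · linarith only [b4 (by omega), c6 (by omega)]
        linarith only [bd' _ _ h3 (a.ge (f4 r (by omega)) (f4 (r + 1) (by omega))) h5 (by linarith only [p1]), f5, G]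
      · have hD : ∀ i, u + 2 ≤ i → i ≤ v + 1 → A.y (u + 1) < A.y i := fun i i1 i2 => by
          rcases (by omega : i = v + 1 ∨ i ≤ v) with rfl | i3
          · linarith only [yu', z3, z3']
          · rcases YD i i1 i3 with ⟨-, e⟩ | ⟨-, e, -⟩ <;> linarith only [yu', e]
        rcases (by omega : r = u ∨ r < u) with rfl | h5
        · linarith only [a.le yu.le le_rfl, b.gt (hD r' hrr (by omega)) (hD (r' + 1) (by omega) (by omega))]
        · have h6 : A.y (u + 1) ≤ s := by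
            refine b.ge ?_ (hD _ (by omega) (by omega)).le
            rcases (by omega : r' = u + 1 ∨ u + 2 ≤ r') with rfl | h7
            · exact le_rfl
            · exact (hD _ h7 (by omega)).le
          obtain ⟨t, rfl⟩ : ∃ t, u = t + 1 := ⟨u - 1, by omega⟩
          have := two t (t + 1) (by omega) (by omega) (by omega)
          rw [su, step, ku, ((KC t (by omega) (by omega)).resolve_left (by omega)).2] at this
          have e := bd' (2 * k1) _ h3 h6 (by linarith only [b4 (by omega), c3 (by omega)]) (by linarith only [p2, p1])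
          linarith only [mul_pos (sub_pos.2 p1) (sub_pos.2 yu), this, e]
  rcases (by omega : r' ≤ v ∨ r' = v + 1 ∨ r' = v + 2 ∨ r' = v + 3 ∨ r' = v + 4) with
    h3 | rfl | rfl | rfl | rfl
  · rcases KD r (by omega) (by omega) with ⟨d1, e1⟩ | ⟨d1, e1⟩ <;>
      rcases KD r' (by omega) h3 with ⟨d2, e2⟩ | ⟨d2, e2⟩ <;>
      rcases KD (r + 1) (by omega) (by omega) with ⟨d3, e3⟩ | ⟨d3, e3⟩ <;> (try omega)
    · exact same (by rw [e1, e2])
    · refine zig (by rw [e2, e3]) (mul_nonneg_of_nonpos_of_nonpos (by linarith only [p1, e1, e3])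
        (sub_nonpos.2 (a.ge ?_ le_rfl)))
      linarith only [((YD r (by omega) (by omega)).resolve_right (by omega)).2, ((YD (r + 1) (by omega) (by omega)).resolve_left (by omega)).2.2]
    · refine zig (by rw [e2, e3]) (mul_nonneg (by linarith only [p1, e1, e3]) (sub_nonneg.2 (a.le ?_ le_rfl)))
      have e := ((YD (r + 1) (by omega) (by omega)).resolve_right (by omega)).2
      rcases (by omega : r = u + 1 ∨ u + 2 ≤ r) with rfl | h4
      · linarith only [yu', e]
      · linarith only [((YD r h4 (by omega)).resolve_left (by omega)).2.2, e]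
    · exact same (by rw [e1, e2])
  · rcases le_total s 0 with h3 | h3
    · exact neg h3 (by linarith only [b5 (by omega), p2, p1, L1])
    have h4 : s ≤ A.y (v + 1) := b.le le_rfl (by linarith only [z2, z3, z3'])
    obtain ⟨t, rfl⟩ : ∃ t, v = t + 1 := ⟨v - 1, by omega⟩
    have := two t (t + 1) (by omega) (by omega) (by omega)
    rw [step, step, kv, L1, ((KD t (by omega) (by omega)).resolve_left (by omega)).2] at this
    have e := bd (2 * k1) _ h3 h4 (by linarith only [b3 (by omega), L1]) (by linarith only [p2, p1])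
    linarith only [mul_pos (sub_pos.2 p1) (sub_pos.2 z1), this, e]
  · rcases le_total s 0 with h3 | h3
    · exact neg h3 (by linarith only [b5 (by omega), p2, L2])
    have h4 : s ≤ A.y (v + 3) := b.le (by linarith only [z2, z3']) le_rfl
    rcases (by omega : r = v ∨ r < v) with rfl | h5
    · linarith only [a.ge z1.le le_rfl, z3, h4]
    · have := one v (by omega) (by omega)
      rw [step, kv, L1] at this
      linarith only [bd (k1 + k2) (A.y (v + 1)) h3 (by linarith only [z3, h4]) (by linarith only [b3 (by omega), L2])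
        (by linarith only [p2, p1]), this]
  · rcases le_total s 0 with h3 | h3
    · exact neg h3 (by linarith only [b1, L3])
    have h4 : s ≤ A.y (v + 3) := b.le le_rfl (by linarith only [z3', z4])
    rcases (by omega : r = v + 1 ∨ r = v ∨ r < v) with rfl | rfl | h5
    · have := one (v + 2) (by omega) (by omega)
      rw [step, L2, L3] at this
      have e := bd (k0 - k2) _ h3 h4 (by linarith only [p1, L1, L3]) (by linarith only [p1, pt, p0])
      linarith only [this, e]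
    · linarith only [a.ge z1.le le_rfl, z3, h4]
    · have := two v (v + 2) (by omega) (by omega) (by omega)
      rw [step, step, kv, L1, L2, L3] at this
      have e := bd (k0 + k1) _ h3 h4 (by linarith only [b3 (by omega), L3]) (by linarith only [p2, p1, pt, p0])
      linarith only [mul_pos (add_pos (p2.trans p1) p2) (sub_pos.2 z3), this, e]
  · exact neg (b.le z4.le z5.le) (by linarith only [b4 (by omega), pt, L4])

end Pie

end Pool.Agent.MP_e5fd74_lc.H46

end
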